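import Mathlib

set_option autoImplicit false

open Polynomial Finset

namespace Pool.Agent.Lib.MP_87965e_co

/-- A finite rank graded (positively graded, non-unital) associative ring with a homogeneous
`ℤ`-basis indexed by `ι`, given by its structure constants. -/
structure GAlg (ι : Type) [Fintype ι] where
  /-- the degree of a basis element -/
  deg : ι → ℕ
  /-- the structure constants: the coefficient of `w` in `u * v` -/
  c : ι → ι → ι → ℤ
  deg_pos : ∀ w, 0 < deg w
  c_deg : ∀ u v w, c u v w ≠ 0 → deg u + deg v = deg w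
  assoc : ∀ u v w z, ∑ y, c u v y * c y w z = ∑ y, c v w y * c u y z

namespace GAlg

variable {ι : Type} [Fintype ι] (A : GAlg ι)

section Op

variable {R S : Type*} [CommRing R] [CommRing S]

/-- The group law `(1 + x) (1 + y) = 1 + (x + y + x y)` in coordinates. -/
def op (x y : ι → R) (w : ι) : R :=
  x w + y w + ∑ u, ∑ v, (A.c u v w : R) * (x u * y v)

theorem map_op (f : R →+* S) (x y : ι → R) (w : ι) :
    f (A.op x y w) = A.op (fun u => f (x u)) (fun u => f (y u)) w := by
  simp [op, map_add, map_sum, map_mul]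

theorem op_assoc (x y z : ι → R) : A.op (A.op x y) z = A.op x (A.op y z) := by
  funext w
  simp only [op]
  -- the trilinear terms
  have key : ∑ u, ∑ v, (A.c u v w : R) * ((∑ a, ∑ b, (A.c a b u : R) * (x a * y b)) * z v) =
      ∑ u, ∑ v, (A.c u v w : R) * (x u * ∑ a, ∑ b, (A.c a b v : R) * (y a * z b)) := by
    have hL : ∑ u, ∑ v, (A.c u v w : R) * ((∑ a, ∑ b, (A.c a b u : R) * (x a * y b)) * z v) =
        ∑ a, ∑ b, ∑ v, ((∑ u, A.c a b u * A.c u v w : ℤ) : R) * (x a * y b * z v) := by
      simp only [Finset.sum_mul, Finset.mul_sum, Int.cast_sum, Int.cast_mul]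
      -- reorder the sums
      calc ∑ u, ∑ v, ∑ a, ∑ b, (A.c u v w : R) * ((A.c a b u : R) * (x a * y b) * z v)
          = ∑ a, ∑ b, ∑ v, ∑ u, (A.c u v w : R) * ((A.c a b u : R) * (x a * y b) * z v) := by
            calc ∑ u, ∑ v, ∑ a, ∑ b, (A.c u v w : R) * ((A.c a b u : R) * (x a * y b) * z v)
                = ∑ u, ∑ a, ∑ v, ∑ b, (A.c u v w : R) * ((A.c a b u : R) * (x a * y b) * z v) := by
                  refine Finset.sum_congr rfl fun u _ => Finset.sum_comm
              _ = ∑ a, ∑ u, ∑ v, ∑ b, (A.c u v w : R) * ((A.c a b u : R) * (x a * y b) * z v) :=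
                  Finset.sum_comm
              _ = ∑ a, ∑ u, ∑ b, ∑ v, (A.c u v w : R) * ((A.c a b u : R) * (x a * y b) * z v) := by
                  refine Finset.sum_congr rfl fun a _ => Finset.sum_congr rfl fun u _ =>
                    Finset.sum_comm
              _ = ∑ a, ∑ b, ∑ u, ∑ v, (A.c u v w : R) * ((A.c a b u : R) * (x a * y b) * z v) := by
                  refine Finset.sum_congr rfl fun a _ => Finset.sum_comm
              _ = ∑ a, ∑ b, ∑ v, ∑ u, (A.c u v w : R) * ((A.c a b u : R) * (x a * y b) * z v) := by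
                  refine Finset.sum_congr rfl fun a _ => Finset.sum_congr rfl fun b _ =>
                    Finset.sum_comm
        _ = ∑ a, ∑ b, ∑ v, ∑ u, (A.c a b u : R) * (A.c u v w : R) * (x a * y b * z v) := by
            refine Finset.sum_congr rfl fun a _ => Finset.sum_congr rfl fun b _ =>
              Finset.sum_congr rfl fun v _ => Finset.sum_congr rfl fun u _ => ?_
            ring
    have hR : ∑ u, ∑ v, (A.c u v w : R) * (x u * ∑ a, ∑ b, (A.c a b v : R) * (y a * z b)) =
        ∑ a, ∑ b, ∑ v, ((∑ u, A.c b v u * A.c a u w : ℤ) : R) * (x a * y b * z v) := by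
      simp only [Finset.mul_sum, Int.cast_sum, Int.cast_mul, Finset.sum_mul]
      calc ∑ u, ∑ v, ∑ a, ∑ b, (A.c u v w : R) * (x u * ((A.c a b v : R) * (y a * z b)))
          = ∑ u, ∑ a, ∑ b, ∑ v, (A.c u v w : R) * (x u * ((A.c a b v : R) * (y a * z b))) := by
            refine Finset.sum_congr rfl fun u _ => ?_
            calc ∑ v, ∑ a, ∑ b, (A.c u v w : R) * (x u * ((A.c a b v : R) * (y a * z b)))
                = ∑ a, ∑ v, ∑ b, (A.c u v w : R) * (x u * ((A.c a b v : R) * (y a * z b))) :=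
                  Finset.sum_comm
              _ = ∑ a, ∑ b, ∑ v, (A.c u v w : R) * (x u * ((A.c a b v : R) * (y a * z b))) := by
                  refine Finset.sum_congr rfl fun a _ => Finset.sum_comm
        _ = ∑ a, ∑ b, ∑ v, ∑ u, (A.c b v u : R) * (A.c a u w : R) * (x a * y b * z v) := by
            refine Finset.sum_congr rfl fun a _ => Finset.sum_congr rfl fun b _ =>
              Finset.sum_congr rfl fun v _ => Finset.sum_congr rfl fun u _ => ?_
            ring
    rw [hL, hR]
    refine Finset.sum_congr rfl fun a _ => Finset.sum_congr rfl fun b _ =>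
      Finset.sum_congr rfl fun v _ => ?_
    rw [A.assoc a b v w]
  have e1 : ∑ u, ∑ v, (A.c u v w : R) * ((x u + y u + ∑ a, ∑ b, (A.c a b u : R) * (x a * y b)) * z v)
      = ∑ u, ∑ v, (A.c u v w : R) * (x u * z v) + ∑ u, ∑ v, (A.c u v w : R) * (y u * z v) +
        ∑ u, ∑ v, (A.c u v w : R) * ((∑ a, ∑ b, (A.c a b u : R) * (x a * y b)) * z v) := by
    rw [← Finset.sum_add_distrib, ← Finset.sum_add_distrib]
    refine Finset.sum_congr rfl fun u _ => ?_
    rw [← Finset.sum_add_distrib, ← Finset.sum_add_distrib]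
    refine Finset.sum_congr rfl fun v _ => ?_
    ring
  have e2 : ∑ u, ∑ v, (A.c u v w : R) * (x u * (y v + z v + ∑ a, ∑ b, (A.c a b v : R) * (y a * z b)))
      = ∑ u, ∑ v, (A.c u v w : R) * (x u * y v) + ∑ u, ∑ v, (A.c u v w : R) * (x u * z v) +
        ∑ u, ∑ v, (A.c u v w : R) * (x u * ∑ a, ∑ b, (A.c a b v : R) * (y a * z b)) := by
    rw [← Finset.sum_add_distrib, ← Finset.sum_add_distrib]
    refine Finset.sum_congr rfl fun u _ => ?_
    rw [← Finset.sum_add_distrib, ← Finset.sum_add_distrib]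
    refine Finset.sum_congr rfl fun v _ => ?_
    ring
  rw [e1, e2, key]
  ring

/-- Dilations. -/
def dil (t : R) (x : ι → R) (w : ι) : R := t ^ A.deg w * x w

theorem op_dil (t : R) (x y : ι → R) : A.op (A.dil t x) (A.dil t y) = A.dil t (A.op x y) := by
  funext w
  simp only [op, dil, mul_add, Finset.mul_sum]
  congr 1
  refine Finset.sum_congr rfl fun u _ => Finset.sum_congr rfl fun v _ => ?_
  by_cases h : A.c u v w = 0
  · simp [h]
  · rw [← A.c_deg u v w h, pow_add]
    ring

/-- The top coefficients of a family of polynomials. -/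
def top (P : ι → R[X]) (w : ι) : R := (P w).coeff (A.deg w)

theorem natDegree_op_le (P Q : ι → R[X]) (hP : ∀ w, (P w).natDegree ≤ A.deg w)
    (hQ : ∀ w, (Q w).natDegree ≤ A.deg w) (w : ι) : (A.op P Q w).natDegree ≤ A.deg w := by
  unfold op
  refine natDegree_add_le_of_degree_le (natDegree_add_le_of_degree_le (hP w) (hQ w)) ?_
  refine natDegree_sum_le_of_forall_le _ _ fun u _ => ?_
  refine natDegree_sum_le_of_forall_le _ _ fun v _ => ?_
  by_cases h : A.c u v w = 0
  · simp [h]
  · rw [← A.c_deg u v w h]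
    have h1 : ((A.c u v w : ℤ) : R[X]) = C ((A.c u v w : ℤ) : R) := by simp
    rw [h1]
    refine (natDegree_C_mul_le _ _).trans ?_
    exact natDegree_mul_le_of_le (hP u) (hQ v)

theorem top_op (P Q : ι → R[X]) (hP : ∀ w, (P w).natDegree ≤ A.deg w)
    (hQ : ∀ w, (Q w).natDegree ≤ A.deg w) : A.top (A.op P Q) = A.op (A.top P) (A.top Q) := by
  funext w
  simp only [op, top, coeff_add, finsetSum_coeff]
  congr 1
  refine Finset.sum_congr rfl fun u _ => Finset.sum_congr rfl fun v _ => ?_
  by_cases h : A.c u v w = 0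
  · simp [h]
  · have h1 : ((A.c u v w : ℤ) : R[X]) = C ((A.c u v w : ℤ) : R) := by simp
    rw [h1, coeff_C_mul, ← A.c_deg u v w h, coeff_mul_add_eq_of_natDegree_le (hP u) (hQ v)]

end Op

section Reduction

/-- `γ` reduces `x` if `x ∘ γ` is in the fundamental domain `[0, 1) ^ ι`. -/
def Reduces (x : ι → ℝ) (γ : ι → ℤ) : Prop :=
  ∀ w, 0 ≤ A.op x (fun u => (γ u : ℝ)) w ∧ A.op x (fun u => (γ u : ℝ)) w < 1

theorem op_congr_of_deg {R : Type*} [CommRing R] (x y y' : ι → R) (w : ι)
    (h : ∀ v, A.deg v < A.deg w → y v = y' v) :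
    A.op x y w - y w = A.op x y' w - y' w := by
  unfold op
  have : ∑ u, ∑ v, (A.c u v w : R) * (x u * y v) = ∑ u, ∑ v, (A.c u v w : R) * (x u * y' v) := by
    refine Finset.sum_congr rfl fun u _ => Finset.sum_congr rfl fun v _ => ?_
    by_cases hc : A.c u v w = 0
    · simp [hc]
    · have h1 := A.c_deg u v w hc
      have h2 := A.deg_pos u
      rw [h v (by omega)]
  rw [this]; ring

theorem exists_reduces (x : ι → ℝ) : ∃ γ : ι → ℤ, A.Reduces x γ := by
  classical
  have key : ∀ D : ℕ, ∃ γ : ι → ℤ, ∀ w, A.deg w ≤ D →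
      0 ≤ A.op x (fun u => (γ u : ℝ)) w ∧ A.op x (fun u => (γ u : ℝ)) w < 1 := by
    intro D
    induction D with
    | zero =>
      refine ⟨0, fun w hw => ?_⟩
      have := A.deg_pos w
      omega
    | succ D ih =>
      obtain ⟨γ, hγ⟩ := ih
      let γ' : ι → ℤ := fun w => if A.deg w ≤ D then γ w else
        -⌊A.op x (fun u => (γ u : ℝ)) w - γ w⌋
      refine ⟨γ', fun w hw => ?_⟩
      have hlow : ∀ v, A.deg v < A.deg w → ((γ' v : ℤ) : ℝ) = ((γ v : ℤ) : ℝ) := by
        intro v hv
        have : A.deg v ≤ D := by omega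
        simp [γ', this]
      have h1 := A.op_congr_of_deg x (fun u => ((γ' u : ℤ) : ℝ)) (fun u => ((γ u : ℤ) : ℝ)) w hlow
      by_cases hD : A.deg w ≤ D
      · have h2 : γ' w = γ w := by simp [γ', hD]
        have h3 : A.op x (fun u => ((γ' u : ℤ) : ℝ)) w = A.op x (fun u => ((γ u : ℤ) : ℝ)) w := by
          rw [h2] at h1
          linarith
        rw [h3]
        exact hγ w hD
      · have h2 : γ' w = -⌊A.op x (fun u => (γ u : ℝ)) w - γ w⌋ := by simp [γ', hD]
        have h3 : A.op x (fun u => ((γ' u : ℤ) : ℝ)) w =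
            Int.fract (A.op x (fun u => (γ u : ℝ)) w - γ w) := by
          rw [Int.fract]
          have : ((γ' w : ℤ) : ℝ) = -(⌊A.op x (fun u => (γ u : ℝ)) w - γ w⌋ : ℝ) := by
            rw [h2]; push_cast; ring
          linarith
        rw [h3]
        exact ⟨Int.fract_nonneg _, Int.fract_lt_one _⟩
  obtain ⟨γ, hγ⟩ := key (Finset.univ.sup A.deg)
  exact ⟨γ, fun w => hγ w (Finset.le_sup (Finset.mem_univ w))⟩

theorem reduces_unique (x : ι → ℝ) (γ γ' : ι → ℤ) (h : A.Reduces x γ) (h' : A.Reduces x γ') :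
    γ = γ' := by
  have key : ∀ D : ℕ, ∀ w, A.deg w = D → γ w = γ' w := by
    intro D
    induction D using Nat.strong_induction_on with
    | _ D ih =>
      intro w hw
      have h1 := A.op_congr_of_deg x (fun u => ((γ u : ℤ) : ℝ)) (fun u => ((γ' u : ℤ) : ℝ)) w
        (fun v hv => by rw [ih (A.deg v) (by omega) v rfl])
      have h2 := h w
      have h3 := h' w
      have h4 : ((γ w : ℤ) : ℝ) - ((γ' w : ℤ) : ℝ) < 1 := by linarith [h2.2, h3.1]
      have h5 : -1 < ((γ w : ℤ) : ℝ) - ((γ' w : ℤ) : ℝ) := by linarith [h2.1, h3.2]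
      have h6 : γ w - γ' w < 1 := by exact_mod_cast h4
      have h7 : -1 < γ w - γ' w := by exact_mod_cast h5
      omega
  funext w
  exact key _ w rfl

/-- The canonical reduction. -/
noncomputable def red (x : ι → ℝ) : ι → ℤ := (A.exists_reduces x).choose

theorem red_spec (x : ι → ℝ) : A.Reduces x (A.red x) := (A.exists_reduces x).choose_spec

/-- The sum of squares of the reduced coordinates. -/
noncomputable def F (x : ι → ℝ) : ℝ := ∑ w, (A.op x (fun u => (A.red x u : ℝ)) w) ^ 2

theorem F_eq_of_reduces (x : ι → ℝ) (γ : ι → ℤ) (h : A.Reduces x γ) :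
    A.F x = ∑ w, (A.op x (fun u => (γ u : ℝ)) w) ^ 2 := by
  rw [F, A.reduces_unique x _ _ (A.red_spec x) h]

theorem op_intCast (γ δ : ι → ℤ) (w : ι) :
    A.op (fun u => (γ u : ℝ)) (fun u => (δ u : ℝ)) w = ((A.op γ δ w : ℤ) : ℝ) := by
  simp [op]

/-- `F` is invariant under right multiplication by integral elements. -/
theorem F_op_int (x : ι → ℝ) (γ : ι → ℤ) : A.F (A.op x (fun u => (γ u : ℝ))) = A.F x := by
  have h1 := A.red_spec (A.op x (fun u => (γ u : ℝ)))
  set δ := A.red (A.op x (fun u => (γ u : ℝ))) with hδ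
  have h2 : A.op (A.op x (fun u => (γ u : ℝ))) (fun u => (δ u : ℝ)) =
      A.op x (fun u => ((A.op γ δ u : ℤ) : ℝ)) := by
    rw [A.op_assoc]
    congr 1
    funext w
    exact A.op_intCast γ δ w
  have h3 : A.Reduces x (A.op γ δ) := by
    intro w
    have := h1 w
    rw [h2] at this
    exact this
  rw [A.F_eq_of_reduces x _ h3, A.F_eq_of_reduces _ _ h1, h2]

/-- A bound for reducing elements. -/
theorem exists_bound (C : ℝ) (hC : 0 ≤ C) : ∃ B : ℕ, ∀ (x : ι → ℝ) (γ : ι → ℤ),
    (∀ w, |x w| ≤ C) → A.Reduces x γ → ∀ w, |γ w| ≤ (B : ℤ) := by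
  classical
  have key : ∀ D : ℕ, ∃ B : ℝ, 0 ≤ B ∧ ∀ (x : ι → ℝ) (γ : ι → ℤ), (∀ w, |x w| ≤ C) →
      A.Reduces x γ → ∀ w, A.deg w ≤ D → |((γ w : ℤ) : ℝ)| ≤ B := by
    intro D
    induction D with
    | zero =>
      refine ⟨0, le_rfl, fun x γ _ _ w hw => ?_⟩
      have := A.deg_pos w
      omega
    | succ D ih =>
      obtain ⟨B, hB0, hB⟩ := ih
      set K : ℝ := ∑ w, ∑ u, ∑ v, |(A.c u v w : ℝ)| with hK
      have hK0 : 0 ≤ K := by positivity
      refine ⟨max B (1 + C + K * (C * B)), le_max_of_le_left hB0, fun x γ hx hγ w hw => ?_⟩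
      by_cases hD : A.deg w ≤ D
      · exact (hB x γ hx hγ w hD).trans (le_max_left _ _)
      · refine le_trans ?_ (le_max_right _ _)
        have h1 := hγ w
        have h2 : |A.op x (fun u => (γ u : ℝ)) w| ≤ 1 := by
          rw [abs_of_nonneg h1.1]; exact h1.2.le
        have h3 : ((γ w : ℤ) : ℝ) = A.op x (fun u => (γ u : ℝ)) w - x w -
            ∑ u, ∑ v, (A.c u v w : ℝ) * (x u * (γ v : ℝ)) := by
          unfold op; ring
        have h4 : |∑ u, ∑ v, (A.c u v w : ℝ) * (x u * (γ v : ℝ))| ≤ K * (C * B) := by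
          calc |∑ u, ∑ v, (A.c u v w : ℝ) * (x u * (γ v : ℝ))|
              ≤ ∑ u, ∑ v, |(A.c u v w : ℝ) * (x u * (γ v : ℝ))| :=
                (Finset.abs_sum_le_sum_abs _ _).trans
                  (Finset.sum_le_sum fun u _ => Finset.abs_sum_le_sum_abs _ _)
            _ ≤ ∑ u, ∑ v, |(A.c u v w : ℝ)| * (C * B) := by
                refine Finset.sum_le_sum fun u _ => Finset.sum_le_sum fun v _ => ?_
                by_cases hc : A.c u v w = 0
                · simp [hc]
                · rw [abs_mul, abs_mul]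
                  have h5 := A.c_deg u v w hc
                  have h6 := A.deg_pos u
                  have h7 := hB x γ hx hγ v (by omega)
                  gcongr
                  exact hx u
            _ = (∑ u, ∑ v, |(A.c u v w : ℝ)|) * (C * B) := by
                simp only [Finset.sum_mul]
            _ ≤ K * (C * B) := by
                gcongr
                rw [hK]
                exact Finset.single_le_sum
                  (f := fun w => ∑ u, ∑ v, |(A.c u v w : ℝ)|)
                  (fun i _ => by positivity) (Finset.mem_univ w)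
        rw [h3]
        calc |A.op x (fun u => (γ u : ℝ)) w - x w - ∑ u, ∑ v, (A.c u v w : ℝ) * (x u * (γ v : ℝ))|
            ≤ |A.op x (fun u => (γ u : ℝ)) w - x w| +
              |∑ u, ∑ v, (A.c u v w : ℝ) * (x u * (γ v : ℝ))| := abs_sub _ _
          _ ≤ (|A.op x (fun u => (γ u : ℝ)) w| + |x w|) +
              |∑ u, ∑ v, (A.c u v w : ℝ) * (x u * (γ v : ℝ))| := by gcongr; exact abs_sub _ _
          _ ≤ 1 + C + K * (C * B) := by gcongr; exact hx w
  obtain ⟨B, hB0, hB⟩ := key (Finset.univ.sup A.deg)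
  refine ⟨⌈B⌉₊, fun x γ hx hγ w => ?_⟩
  have h1 := hB x γ hx hγ w (Finset.le_sup (Finset.mem_univ w))
  have h2 : |((γ w : ℤ) : ℝ)| ≤ (⌈B⌉₊ : ℝ) := h1.trans (Nat.le_ceil B)
  exact_mod_cast h2

end Reduction

end GAlg

end Pool.Agent.Lib.MP_87965e_co
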