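import Mathlib
import Pool.Agent.Lib.MP_87965e_co.Graded

section

set_option autoImplicit false

open Finset Polynomial

namespace Pool.Agent.Lib.MP_87965e_co

/-- the `k`-th difference at `0` of a real sequence -/
noncomputable def dif (f : ℕ → ℝ) (k : ℕ) : ℝ :=
  ∑ l ∈ range (k + 1), ((-1 : ℝ) ^ (k - l) * (k.choose l : ℝ)) * f l

theorem dif_eq (f : ℕ → ℝ) (k : ℕ) : dif f k = (fwdDiff 1)^[k] f 0 := by
  rw [fwdDiff_iter_eq_sum_shift, dif]
  refine Finset.sum_congr rfl fun l _ => ?_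
  simp [zsmul_eq_mul]

theorem dif_int (f : ℕ → ℤ) (k : ℕ) : ∃ m : ℤ, dif (fun i => (f i : ℝ)) k = m :=
  ⟨∑ l ∈ range (k + 1), ((-1 : ℤ) ^ (k - l) * (k.choose l : ℤ)) * f l, by
    simp [dif]⟩

theorem abs_dif_le (f : ℕ → ℝ) (c η : ℝ) (k : ℕ) (hk : 0 < k)
    (h : ∀ i ≤ k, |f i - c| ≤ η) : |dif f k| ≤ 2 ^ k * η := by
  have h0 : dif (fun _ => c) k = 0 := by
    rw [dif_eq]
    obtain ⟨k', rfl⟩ : ∃ k', k = k' + 1 := ⟨k - 1, by omega⟩
    have : ∀ n : ℕ, (fwdDiff 1)^[n] (fun _ : ℕ => (0 : ℝ)) = fun _ => 0 := by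
      intro n
      induction n with
      | zero => rfl
      | succ n ih => rw [Function.iterate_succ_apply, fwdDiff_const, ih]
    rw [Function.iterate_succ_apply, fwdDiff_const, this]
  have h1 : dif f k = dif (fun i => f i - c) k := by
    have : dif (fun i => f i - c) k = dif f k - dif (fun _ => c) k := by
      simp only [dif, mul_sub, Finset.sum_sub_distrib]
    rw [this, h0, sub_zero]
  rw [h1, dif]
  calc |∑ l ∈ range (k + 1), ((-1 : ℝ) ^ (k - l) * (k.choose l : ℝ)) * (f l - c)|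
      ≤ ∑ l ∈ range (k + 1), |((-1 : ℝ) ^ (k - l) * (k.choose l : ℝ)) * (f l - c)| :=
        Finset.abs_sum_le_sum_abs _ _
    _ ≤ ∑ l ∈ range (k + 1), (k.choose l : ℝ) * η := by
        refine Finset.sum_le_sum fun l hl => ?_
        rw [abs_mul, abs_mul, abs_pow, abs_neg, abs_one, one_pow, one_mul, Nat.abs_cast]
        gcongr
        exact h l (by have := Finset.mem_range.1 hl; omega)
    _ = 2 ^ k * η := by
        rw [← Finset.sum_mul]
        congr 1
        exact_mod_cast Nat.sum_range_choose k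

/-- The polynomial with given differences. -/
noncomputable def newtonPoly (D : ℕ) (a : ℕ → ℝ) : ℝ[X] :=
  ∑ k ∈ range (D + 1), C (a k / (k.factorial : ℝ)) * descPochhammer ℝ k

theorem natDegree_newtonPoly (D : ℕ) (a : ℕ → ℝ) : (newtonPoly D a).natDegree ≤ D := by
  refine natDegree_sum_le_of_forall_le _ _ fun k hk => ?_
  refine (natDegree_C_mul_le _ _).trans ?_
  rw [descPochhammer_natDegree]
  have := Finset.mem_range.1 hk
  omega

theorem eval_newtonPoly (D : ℕ) (a : ℕ → ℝ) (i : ℕ) :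
    (newtonPoly D a).eval (i : ℝ) = ∑ k ∈ range (D + 1), (i.choose k : ℝ) * a k := by
  rw [newtonPoly, eval_finsetSum]
  refine Finset.sum_congr rfl fun k _ => ?_
  rw [eval_mul, eval_C, descPochhammer_eval_eq_descFactorial, Nat.descFactorial_eq_factorial_mul_choose]
  push_cast
  have : (k.factorial : ℝ) ≠ 0 := by exact_mod_cast k.factorial_ne_zero
  field_simp

theorem coeff_newtonPoly (D : ℕ) (a : ℕ → ℝ) :
    (newtonPoly D a).coeff D = a D / (D.factorial : ℝ) := by
  rw [newtonPoly, finsetSum_coeff, Finset.sum_range_succ, Finset.sum_eq_zero, zero_add,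
    coeff_C_mul]
  · have h1 : (descPochhammer ℝ D).coeff D = 1 := by
      have := monic_descPochhammer ℝ D
      rw [Monic, leadingCoeff, descPochhammer_natDegree] at this
      exact this
    rw [h1, mul_one]
  · intro k hk
    rw [coeff_C_mul, coeff_eq_zero_of_natDegree_lt, mul_zero]
    rw [descPochhammer_natDegree]
    exact Finset.mem_range.1 hk

/-- Newton's formula. -/
theorem newton_formula (f : ℕ → ℝ) (i : ℕ) :
    f i = ∑ k ∈ range (i + 1), (i.choose k : ℝ) * dif f k := by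
  have := shift_eq_sum_fwdDiff_iter 1 f i 0
  simp only [zero_add, smul_eq_mul, mul_one, nsmul_eq_mul] at this
  rw [this]
  refine Finset.sum_congr rfl fun k _ => ?_
  rw [dif_eq]

theorem dif_poly_eq_zero (Q : ℝ[X]) (D k : ℕ) (hQ : Q.natDegree ≤ D) (hk : D < k) :
    dif (fun i => Q.eval (i : ℝ)) k = 0 := by
  have h := Polynomial.fwdDiff_iter_eq_zero_of_degree_lt (P := Q) (n := k) (by omega)
  have h1 := congrFun h 0
  rw [fwdDiff_iter_eq_sum_shift] at h1
  rw [dif]
  simp only [Pi.zero_apply, zero_add, zsmul_eq_mul, nsmul_eq_mul, mul_one] at h1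
  rw [← h1]
  refine Finset.sum_congr rfl fun l _ => ?_
  push_cast
  ring

theorem dif_add (f g : ℕ → ℝ) (k : ℕ) : dif (fun i => f i + g i) k = dif f k + dif g k := by
  simp only [dif, mul_add, Finset.sum_add_distrib]

/-- A polynomial of degree at most `D` is given by its Newton expansion. -/
theorem eq_newtonPoly (Q : ℝ[X]) (D : ℕ) (hQ : Q.natDegree ≤ D) :
    Q = newtonPoly D (dif (fun i => Q.eval (i : ℝ))) := by
  apply Polynomial.eq_of_infinite_eval_eq
  apply Set.infinite_of_injective_forall_mem (f := fun i : ℕ => (i : ℝ)) Nat.cast_injective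
  intro i
  simp only [Set.mem_ofPred_eq]
  rw [eval_newtonPoly]
  have h1 := newton_formula (fun i => Q.eval (i : ℝ)) i
  rw [h1]
  -- both sums equal the sum over `range (max i D + 1)`
  have h2 : ∑ k ∈ range (i + 1), (i.choose k : ℝ) * dif (fun i => Q.eval (i : ℝ)) k =
      ∑ k ∈ range (max i D + 1), (i.choose k : ℝ) * dif (fun i => Q.eval (i : ℝ)) k := by
    apply Finset.sum_subset
    · intro k hk
      have := Finset.mem_range.1 hk
      exact Finset.mem_range.2 (by omega)
    · intro k _ hk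
      have : i < k := by
        by_contra h
        exact hk (Finset.mem_range.2 (by omega))
      rw [Nat.choose_eq_zero_of_lt this]
      simp
  have h3 : ∑ k ∈ range (D + 1), (i.choose k : ℝ) * dif (fun i => Q.eval (i : ℝ)) k =
      ∑ k ∈ range (max i D + 1), (i.choose k : ℝ) * dif (fun i => Q.eval (i : ℝ)) k := by
    apply Finset.sum_subset
    · intro k hk
      have := Finset.mem_range.1 hk
      exact Finset.mem_range.2 (by omega)
    · intro k _ hk
      have : D < k := by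
        by_contra h
        exact hk (Finset.mem_range.2 (by omega))
      rw [dif_poly_eq_zero Q D k hQ this]
      simp
  rw [h2, h3]

/-- An integer sequence which is near a polynomial is a polynomial. -/
theorem int_near_poly (D J : ℕ) (f : ℕ → ℤ) (Q : ℝ[X]) (hQ : Q.natDegree ≤ D) (c η : ℝ)
    (hη : 2 ^ J * η < 1) (hη0 : 0 ≤ η) (h : ∀ i ≤ J, |(f i : ℝ) - Q.eval (i : ℝ) - c| ≤ η) :
    ∃ G : ℝ[X], G.natDegree ≤ D ∧ (∀ i : ℕ, ∃ g : ℤ, G.eval (i : ℝ) = g) ∧
      (∀ i ≤ J, G.eval (i : ℝ) = f i) ∧ ∃ m : ℤ, (D.factorial : ℝ) * G.coeff D = m := by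
  have hzero : ∀ k, D < k → k ≤ J → dif (fun i => (f i : ℝ)) k = 0 := by
    intro k hk hkJ
    obtain ⟨m, hm⟩ := dif_int f k
    have h1 : dif (fun i => (f i : ℝ)) k = dif (fun i => (f i : ℝ) - Q.eval (i : ℝ)) k := by
      have : dif (fun i => ((f i : ℝ) - Q.eval (i : ℝ)) + Q.eval (i : ℝ)) k = _ :=
        dif_add (fun i => (f i : ℝ) - Q.eval (i : ℝ)) (fun i => Q.eval (i : ℝ)) k
      rw [dif_poly_eq_zero Q D k hQ hk, add_zero] at this
      rw [← this]
      congr 1
      funext i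
      ring
    have h2 : |dif (fun i => (f i : ℝ)) k| ≤ 2 ^ k * η := by
      rw [h1]
      exact abs_dif_le _ c η k (by omega) (fun i hi => h i (by omega))
    have h3 : |dif (fun i => (f i : ℝ)) k| < 1 := by
      refine lt_of_le_of_lt (h2.trans ?_) hη
      gcongr
      norm_num
    rw [hm] at h3 ⊢
    have h4 : |m| < 1 := by exact_mod_cast h3
    have h5 : m = 0 := Int.abs_lt_one_iff.1 h4
    rw [h5]; simp
  refine ⟨newtonPoly D (dif (fun i => (f i : ℝ))), natDegree_newtonPoly _ _, ?_, ?_, ?_⟩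
  · intro i
    choose m hm using dif_int f
    refine ⟨∑ k ∈ range (D + 1), (i.choose k : ℤ) * m k, ?_⟩
    rw [eval_newtonPoly]
    push_cast
    refine Finset.sum_congr rfl fun k _ => ?_
    rw [hm]
  · intro i hi
    rw [eval_newtonPoly]
    have h1 := newton_formula (fun i => (f i : ℝ)) i
    rw [h1]
    have h2 : ∑ k ∈ range (i + 1), (i.choose k : ℝ) * dif (fun i => (f i : ℝ)) k =
        ∑ k ∈ range (max i D + 1), (i.choose k : ℝ) * dif (fun i => (f i : ℝ)) k := by
      apply Finset.sum_subset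
      · intro k hk
        have := Finset.mem_range.1 hk
        exact Finset.mem_range.2 (by omega)
      · intro k _ hk
        have : i < k := by
          by_contra h
          exact hk (Finset.mem_range.2 (by omega))
        rw [Nat.choose_eq_zero_of_lt this]
        simp
    have h3 : ∑ k ∈ range (D + 1), (i.choose k : ℝ) * dif (fun i => (f i : ℝ)) k =
        ∑ k ∈ range (max i D + 1), (i.choose k : ℝ) * dif (fun i => (f i : ℝ)) k := by
      apply Finset.sum_subset
      · intro k hk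
        have := Finset.mem_range.1 hk
        exact Finset.mem_range.2 (by omega)
      · intro k hk hk'
        have h4 : D < k := by
          by_contra h
          exact hk' (Finset.mem_range.2 (by omega))
        have h5 := Finset.mem_range.1 hk
        rcases le_or_gt k J with h6 | h6
        · rw [hzero k h4 h6]; simp
        · have : i < k := by omega
          rw [Nat.choose_eq_zero_of_lt this]; simp
    rw [h2, h3]
  · obtain ⟨m, hm⟩ := dif_int f D
    refine ⟨m, ?_⟩
    rw [coeff_newtonPoly, hm]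
    have : (D.factorial : ℝ) ≠ 0 := by exact_mod_cast D.factorial_ne_zero
    field_simp

/-- The coefficients of a polynomial which is nearly constant on `0, …, d` are small. -/
theorem exists_coeff_bound (d : ℕ) : ∃ K : ℝ, 0 < K ∧ ∀ (Q : ℝ[X]) (c η : ℝ), 0 ≤ η →
    Q.natDegree ≤ d → (∀ i ≤ d, |Q.eval (i : ℝ) - c| ≤ η) → ∀ k, 0 < k → |Q.coeff k| ≤ K * η := by
  set K : ℝ := 1 + ∑ k ∈ range (d + 1), ∑ j ∈ range (d + 1),
    2 ^ k * |(descPochhammer ℝ k).coeff j| with hK
  refine ⟨K, by positivity, fun Q c η hη hQ h j hj => ?_⟩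
  rcases lt_or_ge d j with hdj | hdj
  · rw [coeff_eq_zero_of_natDegree_lt (by omega), abs_zero]
    positivity
  have h1 := eq_newtonPoly Q d hQ
  rw [h1, newtonPoly, finsetSum_coeff]
  calc |∑ k ∈ range (d + 1), (C (dif (fun i => Q.eval (i : ℝ)) k / (k.factorial : ℝ)) *
        descPochhammer ℝ k).coeff j|
      ≤ ∑ k ∈ range (d + 1), |(C (dif (fun i => Q.eval (i : ℝ)) k / (k.factorial : ℝ)) *
        descPochhammer ℝ k).coeff j| := Finset.abs_sum_le_sum_abs _ _
    _ ≤ ∑ k ∈ range (d + 1), (2 ^ k * |(descPochhammer ℝ k).coeff j|) * η := by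
        refine Finset.sum_le_sum fun k hk => ?_
        rw [coeff_C_mul, abs_mul]
        rcases Nat.eq_zero_or_pos k with rfl | hk0
        · have : (descPochhammer ℝ 0).coeff j = 0 := by
            rw [descPochhammer_zero, coeff_one, if_neg (by omega)]
          rw [this]; simp
        · have h2 := abs_dif_le (fun i => Q.eval (i : ℝ)) c η k hk0
            (fun i hi => h i (by have := Finset.mem_range.1 hk; omega))
          have h3 : |dif (fun i => Q.eval (i : ℝ)) k / (k.factorial : ℝ)| ≤ 2 ^ k * η := by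
            rw [abs_div, Nat.abs_cast]
            refine le_trans (div_le_self (abs_nonneg _) ?_) h2
            exact_mod_cast Nat.one_le_iff_ne_zero.2 k.factorial_ne_zero
          calc |dif (fun i => Q.eval (i : ℝ)) k / (k.factorial : ℝ)| *
                |(descPochhammer ℝ k).coeff j|
              ≤ (2 ^ k * η) * |(descPochhammer ℝ k).coeff j| := by gcongr
            _ = (2 ^ k * |(descPochhammer ℝ k).coeff j|) * η := by ring
    _ = (∑ k ∈ range (d + 1), 2 ^ k * |(descPochhammer ℝ k).coeff j|) * η := by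
        rw [Finset.sum_mul]
    _ ≤ K * η := by
        gcongr
        rw [hK]
        have : ∑ k ∈ range (d + 1), 2 ^ k * |(descPochhammer ℝ k).coeff j| ≤
            ∑ k ∈ range (d + 1), ∑ j ∈ range (d + 1), 2 ^ k * |(descPochhammer ℝ k).coeff j| := by
          refine Finset.sum_le_sum fun k _ => ?_
          exact Finset.single_le_sum (f := fun j => 2 ^ k * |(descPochhammer ℝ k).coeff j|)
            (fun i _ => by positivity) (Finset.mem_range.2 (by omega))
        linarith

end Pool.Agent.Lib.MP_87965e_co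
end

section

set_option autoImplicit false

open Finset Polynomial Topology Filter

namespace Pool.Agent.Lib.MP_87965e_co

/-- A slowly moving real sequence which moves a lot changes the parity of its integer part. -/
theorem parity_change (y : ℕ → ℝ) (m n : ℕ) (hmn : m ≤ n)
    (hstep : ∀ i, m ≤ i → i < n → |y (i + 1) - y i| < 1) (hbig : 1 ≤ |y n - y m|) :
    ∃ i j, i ≤ n ∧ j ≤ n ∧ m ≤ i ∧ m ≤ j ∧ ⌊y i⌋ % 2 ≠ ⌊y j⌋ % 2 := by
  by_contra hcon
  push Not at hcon
  have hall : ∀ k, m + k ≤ n → ⌊y (m + k)⌋ = ⌊y m⌋ := by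
    intro k
    induction k with
    | zero => intro _; rfl
    | succ k ih =>
      intro hk
      have h1 := ih (by omega)
      have h2 := hstep (m + k) (by omega) (by omega)
      have h3 := hcon (m + k + 1) m (by omega) (by omega) (by omega) (by omega)
      rw [abs_lt] at h2
      have h4 := Int.floor_le (y (m + k))
      have h5 := Int.lt_floor_add_one (y (m + k))
      have h6 := Int.floor_le (y (m + k + 1))
      have h7 := Int.lt_floor_add_one (y (m + k + 1))
      have h8 : ((⌊y (m + k + 1)⌋ : ℤ) : ℝ) < ((⌊y (m + k)⌋ + 2 : ℤ) : ℝ) := by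
        push_cast; linarith
      have h9 : ((⌊y (m + k)⌋ - 2 : ℤ) : ℝ) < ((⌊y (m + k + 1)⌋ : ℤ) : ℝ) := by
        push_cast; linarith
      have h10 : ⌊y (m + k + 1)⌋ < ⌊y (m + k)⌋ + 2 := by exact_mod_cast h8
      have h11 : ⌊y (m + k)⌋ - 2 < ⌊y (m + k + 1)⌋ := by exact_mod_cast h9
      have h12 : m + (k + 1) = m + k + 1 := by omega
      rw [h12]
      omega
  have h1 := hall (n - m) (by omega)
  have h2 : m + (n - m) = n := by omega
  rw [h2] at h1
  have h4 := Int.floor_le (y n)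
  have h5 := Int.lt_floor_add_one (y n)
  have h6 := Int.floor_le (y m)
  have h7 := Int.lt_floor_add_one (y m)
  rw [h1] at h4 h5
  have : |y n - y m| < 1 := by rw [abs_lt]; constructor <;> linarith
  linarith

/-- A root-free interval among `K + 1` intervals of equal length. -/
theorem exists_rootfree (K : ℕ) (s : Finset ℝ) (hs : s.card ≤ K) :
    ∃ h ∈ range (K + 1), ∀ r ∈ s, ¬ ((h : ℝ) / (K + 1) < r ∧ r < ((h : ℝ) + 1) / (K + 1)) := by
  classical
  by_contra hcon
  push Not at hcon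
  choose! f hf using hcon
  have hK : (0 : ℝ) < (K : ℝ) + 1 := by positivity
  have hinj : Set.InjOn f (range (K + 1) : Finset ℕ) := by
    intro a ha b hb hab
    have h1 := hf a (Finset.mem_coe.1 ha)
    have h2 := hf b (Finset.mem_coe.1 hb)
    rw [hab] at h1
    have h3 : (a : ℝ) < (b : ℝ) + 1 := by
      have := h1.2.1.trans h2.2.2
      rwa [div_lt_div_iff_of_pos_right hK] at this
    have h4 : (b : ℝ) < (a : ℝ) + 1 := by
      have := h2.2.1.trans h1.2.2
      rwa [div_lt_div_iff_of_pos_right hK] at this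
    have h5 : a < b + 1 := by exact_mod_cast h3
    have h6 : b < a + 1 := by exact_mod_cast h4
    omega
  have h1 : (range (K + 1)).card ≤ s.card :=
    Finset.card_le_card_of_injOn f (fun a ha => (hf a ha).1) hinj
  rw [Finset.card_range] at h1
  omega

/-- Sign constancy on root-free intervals. -/
theorem eval_pos_of_rootfree (p : ℝ[X]) (α β t t' : ℝ) (ht : α < t ∧ t < β) (ht' : α < t' ∧ t' < β)
    (hroot : ∀ r, p.eval r = 0 → ¬ (α < r ∧ r < β)) (h : 0 < p.eval t) : 0 < p.eval t' := by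
  by_contra hcon
  push Not at hcon
  have hc : ContinuousOn (fun x => p.eval x) (Set.uIcc t t') := p.continuous.continuousOn
  have hivt := intermediate_value_uIcc hc
  have h0 : (0 : ℝ) ∈ Set.uIcc (p.eval t) (p.eval t') := by
    rw [Set.mem_uIcc]
    right
    exact ⟨hcon, h.le⟩
  obtain ⟨r, hr, hr0⟩ := hivt h0
  refine hroot r hr0 ?_
  rw [Set.mem_uIcc] at hr
  rcases hr with hr | hr
  · exact ⟨lt_of_lt_of_le ht.1 hr.1, lt_of_le_of_lt hr.2 ht'.2⟩
  · exact ⟨lt_of_lt_of_le ht'.1 hr.1, lt_of_le_of_lt hr.2 ht.2⟩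

section Curves

variable {ι : Type} [Fintype ι] {d : ℕ}

/-- The polynomials with given coefficients. -/
noncomputable def Vp (v : ι → Fin (d + 1) → ℝ) (w : ι) : ℝ[X] :=
  ∑ k : Fin (d + 1), C (v w k) * X ^ (k : ℕ)

/-- The curve with given coefficients. -/
def V (v : ι → Fin (d + 1) → ℝ) (t : ℝ) (w : ι) : ℝ := ∑ k : Fin (d + 1), v w k * t ^ (k : ℕ)

theorem eval_Vp (v : ι → Fin (d + 1) → ℝ) (t : ℝ) (w : ι) : (Vp v w).eval t = V v t w := by
  simp [Vp, V, eval_finsetSum]

theorem natDegree_Vp (v : ι → Fin (d + 1) → ℝ) (w : ι) : (Vp v w).natDegree ≤ d := by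
  refine natDegree_sum_le_of_forall_le _ _ fun k _ => ?_
  refine (natDegree_C_mul_X_pow_le _ _).trans ?_
  have := k.isLt
  omega

theorem coeff_Vp (v : ι → Fin (d + 1) → ℝ) (w : ι) (k : Fin (d + 1)) :
    (Vp v w).coeff (k : ℕ) = v w k := by
  rw [Vp, finsetSum_coeff, Finset.sum_eq_single k]
  · simp
  · intro b _ hb
    rw [coeff_C_mul, coeff_X_pow, if_neg, mul_zero]
    intro h
    exact hb (Fin.ext h.symm)
  · simp

/-- Normalised coefficient families. -/
def Vset (ι : Type) (d : ℕ) : Set (ι → Fin (d + 1) → ℝ) :=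
  {v | (∀ w, 0 ≤ v w 0 ∧ v w 0 ≤ 1) ∧ (∀ w k, |v w k| ≤ 2 ^ d) ∧
    ∃ w, ∃ k : Fin (d + 1), 0 < (k : ℕ) ∧ 1 ≤ |v w k|}

theorem isCompact_Vset : IsCompact (Vset ι d) := by
  have h1 : IsCompact {v : ι → Fin (d + 1) → ℝ | ∀ w k, |v w k| ≤ 2 ^ d} := by
    have : {v : ι → Fin (d + 1) → ℝ | ∀ w k, |v w k| ≤ 2 ^ d} =
        Set.univ.pi fun _ => Set.univ.pi fun _ => Set.Icc (-(2 ^ d : ℝ)) (2 ^ d) := by
      ext v
      simp only [Set.mem_ofPred_eq, Set.mem_univ_pi, Set.mem_Icc, abs_le]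
    rw [this]
    exact isCompact_univ_pi fun _ => isCompact_univ_pi fun _ => isCompact_Icc
  refine h1.of_isClosed_subset ?_ (fun v hv => hv.2.1)
  have hc : ∀ (w : ι) (k : Fin (d + 1)), Continuous fun v : ι → Fin (d + 1) → ℝ => v w k :=
    fun w k => (continuous_apply k).comp (continuous_apply w)
  have e : Vset ι d = ({v | ∀ w, 0 ≤ v w 0 ∧ v w 0 ≤ 1} ∩ {v | ∀ w k, |v w k| ≤ 2 ^ d}) ∩
      ⋃ w, ⋃ k : Fin (d + 1), {v | 0 < (k : ℕ) ∧ 1 ≤ |v w k|} := by
    ext v
    simp only [Vset, Set.mem_ofPred_eq, Set.mem_inter_iff, Set.mem_iUnion, and_assoc]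
  rw [e]
  refine IsClosed.inter (IsClosed.inter ?_ ?_) ?_
  · have : {v : ι → Fin (d + 1) → ℝ | ∀ w, 0 ≤ v w 0 ∧ v w 0 ≤ 1} =
        ⋂ w, ({v | 0 ≤ v w 0} ∩ {v | v w 0 ≤ 1}) := by
      ext v; simp
    rw [this]
    exact isClosed_iInter fun w => (isClosed_le continuous_const (hc w 0)).inter
      (isClosed_le (hc w 0) continuous_const)
  · exact h1.isClosed
  · refine isClosed_iUnion_of_finite fun w => isClosed_iUnion_of_finite fun k => ?_
    by_cases hk : 0 < (k : ℕ)
    · simp only [hk, true_and]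
      exact isClosed_le continuous_const (hc w k).abs
    · simp only [hk, false_and, Set.ofPred_false]
      exact isClosed_empty

theorem abs_V_le (v : ι → Fin (d + 1) → ℝ) (hv : v ∈ Vset ι d) (t : ℝ) (ht : 0 ≤ t ∧ t ≤ 1)
    (w : ι) : |V v t w| ≤ (d + 1) * 2 ^ d := by
  calc |V v t w| ≤ ∑ k : Fin (d + 1), |v w k * t ^ (k : ℕ)| := Finset.abs_sum_le_sum_abs _ _
    _ ≤ ∑ _k : Fin (d + 1), (2 : ℝ) ^ d := by
        refine Finset.sum_le_sum fun k _ => ?_
        rw [abs_mul, abs_pow, abs_of_nonneg ht.1]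
        calc |v w k| * t ^ (k : ℕ) ≤ 2 ^ d * 1 :=
              mul_le_mul (hv.2.1 w k) (pow_le_one₀ ht.1 ht.2) (pow_nonneg ht.1 _) (by positivity)
          _ = 2 ^ d := mul_one _
    _ = (d + 1) * 2 ^ d := by simp

namespace GAlg

variable (A : GAlg ι)

/-- The sum of squares of the coordinates of `V v t ∘ γ`. -/
def Phi (γ : ι → ℤ) (v : ι → Fin (d + 1) → ℝ) (t : ℝ) : ℝ :=
  ∑ w, (A.op (V v t) (fun u => (γ u : ℝ)) w) ^ 2

/-- The polynomial version of the coordinates of `V v t ∘ γ`. -/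
noncomputable def Ap (γ : ι → ℤ) (v : ι → Fin (d + 1) → ℝ) (w : ι) : ℝ[X] :=
  A.op (Vp v) (fun u => C (γ u : ℝ)) w

theorem eval_Ap (γ : ι → ℤ) (v : ι → Fin (d + 1) → ℝ) (w : ι) (t : ℝ) :
    (A.Ap γ v w).eval t = A.op (V v t) (fun u => (γ u : ℝ)) w := by
  have := A.map_op (evalRingHom t) (Vp v) (fun u => C (γ u : ℝ)) w
  simp only [coe_evalRingHom, eval_Vp, eval_C] at this
  exact this

theorem natDegree_Ap (γ : ι → ℤ) (v : ι → Fin (d + 1) → ℝ) (w : ι) :
    (A.Ap γ v w).natDegree ≤ d := by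
  unfold Ap op
  refine natDegree_add_le_of_degree_le (natDegree_add_le_of_degree_le (natDegree_Vp v w) ?_) ?_
  · rw [natDegree_C]; exact Nat.zero_le _
  · refine natDegree_sum_le_of_forall_le _ _ fun u _ => ?_
    refine natDegree_sum_le_of_forall_le _ _ fun v' _ => ?_
    have h1 : ((A.c u v' w : ℤ) : ℝ[X]) = C ((A.c u v' w : ℤ) : ℝ) := by simp
    rw [h1]
    refine (natDegree_C_mul_le _ _).trans ?_
    exact (natDegree_mul_C_le _ _).trans (natDegree_Vp v u)

theorem coeff_Ap (γ : ι → ℤ) (v : ι → Fin (d + 1) → ℝ) (w : ι) (k : Fin (d + 1))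
    (hk : 0 < (k : ℕ)) : (A.Ap γ v w).coeff (k : ℕ) =
      v w k + ∑ u, ∑ v', (A.c u v' w : ℝ) * (v u k * (γ v' : ℝ)) := by
  unfold Ap op
  have h0 : (C ((γ w : ℤ) : ℝ) : ℝ[X]).coeff (k : ℕ) = 0 := by
    rw [coeff_C, if_neg (by omega)]
  rw [coeff_add, coeff_add, coeff_Vp, h0, add_zero, finsetSum_coeff]
  congr 1
  refine Finset.sum_congr rfl fun u _ => ?_
  rw [finsetSum_coeff]
  refine Finset.sum_congr rfl fun v' _ => ?_
  have h1 : ((A.c u v' w : ℤ) : ℝ[X]) = C ((A.c u v' w : ℤ) : ℝ) := by simp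
  rw [h1, coeff_C_mul, coeff_mul_C, coeff_Vp]

theorem exists_coeff_ne_zero (γ : ι → ℤ) (v : ι → Fin (d + 1) → ℝ) (hv : v ∈ Vset ι d) :
    ∃ w, ∃ k : Fin (d + 1), 0 < (k : ℕ) ∧ (A.Ap γ v w).coeff (k : ℕ) ≠ 0 := by
  classical
  obtain ⟨w0, k0, hk0, hw0⟩ := hv.2.2
  set s : Finset ι := Finset.univ.filter
    (fun w => ∃ k : Fin (d + 1), 0 < (k : ℕ) ∧ v w k ≠ 0) with hs
  have hsne : s.Nonempty := ⟨w0, by
    simp only [hs, Finset.mem_filter, Finset.mem_univ, true_and]
    refine ⟨k0, hk0, fun h => ?_⟩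
    rw [h, abs_zero] at hw0
    linarith⟩
  obtain ⟨w, hw, hmin⟩ := Finset.exists_min_image s A.deg hsne
  simp only [hs, Finset.mem_filter, Finset.mem_univ, true_and] at hw hmin
  obtain ⟨k, hk, hvk⟩ := hw
  refine ⟨w, k, hk, ?_⟩
  rw [A.coeff_Ap γ v w k hk]
  have : ∑ u, ∑ v', (A.c u v' w : ℝ) * (v u k * (γ v' : ℝ)) = 0 := by
    refine Finset.sum_eq_zero fun u _ => Finset.sum_eq_zero fun v' _ => ?_
    by_cases hc : A.c u v' w = 0
    · simp [hc]
    · have h1 := A.c_deg u v' w hc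
      have h2 := A.deg_pos v'
      have h3 : v u k = 0 := by
        by_contra h
        have := hmin u ⟨k, hk, h⟩
        omega
      rw [h3]; ring
  rw [this, add_zero]
  exact hvk

/-- The sum of squares is not constant on `2 d + 1` points. -/
theorem exists_ne_Phi (γ : ι → ℤ) (v : ι → Fin (d + 1) → ℝ) (hv : v ∈ Vset ι d) (t : ℕ → ℝ)
    (ht : Function.Injective t) : ∃ a ∈ range (2 * d + 1), A.Phi γ v (t a) ≠ A.Phi γ v (t 0) := by
  classical
  by_contra hcon
  push Not at hcon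
  set Q : ℝ[X] := ∑ w, (A.Ap γ v w) ^ 2 with hQ
  have hQeval : ∀ x, Q.eval x = A.Phi γ v x := by
    intro x
    rw [hQ, eval_finsetSum, Phi]
    refine Finset.sum_congr rfl fun w _ => ?_
    rw [eval_pow, eval_Ap]
  have hQdeg : Q.natDegree ≤ 2 * d := by
    refine natDegree_sum_le_of_forall_le _ _ fun w _ => ?_
    exact natDegree_pow_le_of_le 2 (A.natDegree_Ap γ v w)
  -- the polynomial is constant
  have hconst : Q - C (A.Phi γ v (t 0)) = 0 := by
    apply Polynomial.eq_zero_of_natDegree_lt_card_of_eval_eq_zero' _ ((range (2 * d + 1)).image t)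
    · intro x hx
      rw [Finset.mem_image] at hx
      obtain ⟨a, ha, rfl⟩ := hx
      rw [eval_sub, eval_C, hQeval, hcon a ha, sub_self]
    · rw [Finset.card_image_of_injective _ ht, Finset.card_range, natDegree_sub_C]
      omega
  -- but it has a nonzero coefficient
  obtain ⟨w1, k1, hk1, hc1⟩ := A.exists_coeff_ne_zero γ v hv
  set e := Finset.univ.sup (fun w => (A.Ap γ v w).natDegree) with he
  have hle : ∀ w, (A.Ap γ v w).natDegree ≤ e := fun w =>
    Finset.le_sup (f := fun w => (A.Ap γ v w).natDegree) (Finset.mem_univ w)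
  have he1 : 0 < e := by
    have h1 : (k1 : ℕ) ≤ (A.Ap γ v w1).natDegree := le_natDegree_of_ne_zero hc1
    have h2 := hle w1
    omega
  obtain ⟨w2, _, hw2⟩ : ∃ w ∈ (Finset.univ : Finset ι), (A.Ap γ v w).natDegree = e := by
    have := Finset.exists_mem_eq_sup (Finset.univ : Finset ι) ⟨w1, Finset.mem_univ _⟩
      (fun w => (A.Ap γ v w).natDegree)
    obtain ⟨w, hw, hw'⟩ := this
    exact ⟨w, hw, hw'.symm⟩
  have hcoeff : Q.coeff (e + e) = ∑ w, ((A.Ap γ v w).coeff e) ^ 2 := by
    rw [hQ, finsetSum_coeff]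
    refine Finset.sum_congr rfl fun w _ => ?_
    rw [sq, sq, coeff_mul_add_eq_of_natDegree_le (hle w) (hle w)]
  have hpos : 0 < Q.coeff (e + e) := by
    rw [hcoeff]
    refine Finset.sum_pos' (fun w _ => sq_nonneg _) ⟨w2, Finset.mem_univ _, ?_⟩
    have hne : (A.Ap γ v w2).coeff e ≠ 0 := by
      rw [← hw2]
      intro h
      have h0 : A.Ap γ v w2 = 0 := by
        rwa [coeff_natDegree, leadingCoeff_eq_zero] at h
      rw [h0, natDegree_zero] at hw2
      omega
    positivity
  have hzero : Q.coeff (e + e) = 0 := by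
    have h1 : Q = C (A.Phi γ v (t 0)) := by rwa [sub_eq_zero] at hconst
    rw [h1, coeff_C, if_neg (by omega)]
  linarith

theorem continuous_Phi (γ : ι → ℤ) :
    Continuous fun p : (ι → Fin (d + 1) → ℝ) × ℝ => A.Phi γ p.1 p.2 := by
  unfold Phi op V
  fun_prop

theorem continuous_Phi_left (γ : ι → ℤ) (t : ℝ) :
    Continuous fun v : ι → Fin (d + 1) → ℝ => A.Phi γ v t := by
  unfold Phi op V
  fun_prop

end GAlg

end Curves

end Pool.Agent.Lib.MP_87965e_co
end

section

set_option autoImplicit false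

open Finset Polynomial Topology Filter

namespace Pool.Agent.Lib.MP_87965e_co

variable {ι : Type} [Fintype ι] {d : ℕ}

/-- The sample points. -/
noncomputable def tpt (d K h a : ℕ) : ℝ := ((h : ℝ) + ((a : ℝ) + 1) / (2 * d + 2)) / (K + 1)

theorem tpt_injective (d K h : ℕ) : Function.Injective (tpt d K h) := by
  intro a b hab
  unfold tpt at hab
  have hK : (0 : ℝ) < (K : ℝ) + 1 := by positivity
  have hd : (0 : ℝ) < 2 * (d : ℝ) + 2 := by positivity
  rw [div_left_inj' hK.ne', add_right_inj, div_left_inj' hd.ne', add_left_inj] at hab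
  exact_mod_cast hab

theorem tpt_mem (d K h a : ℕ) (ha : a ≤ 2 * d) :
    (h : ℝ) / (K + 1) + 1 / ((K + 1) * (2 * d + 2)) ≤ tpt d K h a ∧
      tpt d K h a ≤ ((h : ℝ) + 1) / (K + 1) - 1 / ((K + 1) * (2 * d + 2)) := by
  unfold tpt
  have hK : (0 : ℝ) < (K : ℝ) + 1 := by positivity
  have hd : (0 : ℝ) < 2 * (d : ℝ) + 2 := by positivity
  have ha' : (a : ℝ) ≤ 2 * d := by exact_mod_cast ha
  have ha0 : (0 : ℝ) ≤ (a : ℝ) := by positivity
  have e1 : ((h : ℝ) + ((a : ℝ) + 1) / (2 * d + 2)) / (K + 1) =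
      (h : ℝ) / (K + 1) + (a + 1) * (1 / ((K + 1) * (2 * d + 2))) := by
    field_simp
  have e2 : ((h : ℝ) + 1) / (K + 1) = (h : ℝ) / (K + 1) +
      (2 * d + 2) * (1 / ((K + 1) * (2 * d + 2))) := by
    field_simp
  rw [e1, e2]
  have h3 : (0 : ℝ) < 1 / ((K + 1) * (2 * d + 2)) := by positivity
  constructor <;> nlinarith

namespace GAlg

variable (A : GAlg ι)

/-- The variation over the sample points is bounded below. -/
theorem exists_var (d K : ℕ) (ΓC : Finset (ι → ℤ)) : ∃ c : ℝ, 0 < c ∧ ∀ γ ∈ ΓC,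
    ∀ h ∈ range (K + 1), ∀ v ∈ Vset ι d,
      c ≤ ∑ a ∈ range (2 * d + 1), |A.Phi γ v (tpt d K h a) - A.Phi γ v (tpt d K h 0)| := by
  have hone : ∀ γ ∈ ΓC, ∀ h ∈ range (K + 1), ∀ᶠ c in 𝓝[>] (0 : ℝ), ∀ v ∈ Vset ι d,
      c ≤ ∑ a ∈ range (2 * d + 1), |A.Phi γ v (tpt d K h a) - A.Phi γ v (tpt d K h 0)| := by
    intro γ _ h _
    rcases (Vset ι d).eq_empty_or_nonempty with he | hne
    · rw [he]; simp
    · have hcont : Continuous fun v : ι → Fin (d + 1) → ℝ =>
          ∑ a ∈ range (2 * d + 1), |A.Phi γ v (tpt d K h a) - A.Phi γ v (tpt d K h 0)| := by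
        refine continuous_finsetSum _ fun a _ => ?_
        exact ((A.continuous_Phi_left γ _).sub (A.continuous_Phi_left γ _)).abs
      obtain ⟨v0, hv0, hmin⟩ := isCompact_Vset.exists_isMinOn hne hcont.continuousOn
      set c0 := ∑ a ∈ range (2 * d + 1), |A.Phi γ v0 (tpt d K h a) - A.Phi γ v0 (tpt d K h 0)|
        with hc0
      have hc0pos : 0 < c0 := by
        obtain ⟨a, ha, hne'⟩ := A.exists_ne_Phi γ v0 hv0 (tpt d K h) (tpt_injective d K h)
        refine Finset.sum_pos' (fun _ _ => abs_nonneg _) ⟨a, ha, ?_⟩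
        exact abs_pos.2 (sub_ne_zero.2 hne')
      filter_upwards [Ioo_mem_nhdsGT hc0pos] with c hc v hv
      exact hc.2.le.trans (hmin hv)
  have hall : ∀ᶠ c in 𝓝[>] (0 : ℝ), ∀ γ ∈ ΓC, ∀ h ∈ range (K + 1), ∀ v ∈ Vset ι d,
      c ≤ ∑ a ∈ range (2 * d + 1), |A.Phi γ v (tpt d K h a) - A.Phi γ v (tpt d K h 0)| := by
    rw [Filter.eventually_all_finset]
    intro γ hγ
    rw [Filter.eventually_all_finset]
    intro h hh
    exact hone γ hγ h hh
  obtain ⟨c, hc, hc'⟩ := (hall.and self_mem_nhdsWithin).exists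
  exact ⟨c, hc', hc⟩

/-- Uniform continuity, uniformly in the parameters. -/
theorem exists_unif (d : ℕ) (ΓC : Finset (ι → ℤ)) (e : ℝ) (he : 0 < e) :
    ∃ δ : ℝ, 0 < δ ∧ ∀ γ ∈ ΓC, ∀ v ∈ Vset ι d, ∀ t t' : ℝ, 0 ≤ t → t ≤ 1 → 0 ≤ t' →
      t' ≤ 1 → |t - t'| < δ → |A.Phi γ v t - A.Phi γ v t'| < e := by
  have hone : ∀ γ ∈ ΓC, ∀ᶠ δ in 𝓝[>] (0 : ℝ), ∀ v ∈ Vset ι d, ∀ t t' : ℝ, 0 ≤ t → t ≤ 1 →
      0 ≤ t' → t' ≤ 1 → |t - t'| < δ → |A.Phi γ v t - A.Phi γ v t'| < e := by
    intro γ _
    have hcomp : IsCompact (Vset ι d ×ˢ Set.Icc (0 : ℝ) 1) := isCompact_Vset.prod isCompact_Icc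
    have h1 := hcomp.uniformContinuousOn_of_continuous (A.continuous_Phi γ).continuousOn
    rw [Metric.uniformContinuousOn_iff] at h1
    obtain ⟨δ0, hδ0, h2⟩ := h1 e he
    filter_upwards [Ioo_mem_nhdsGT hδ0] with δ hδ v hv t t' ht0 ht1 ht0' ht1' htt
    have h3 := h2 (v, t) ⟨hv, ht0, ht1⟩ (v, t') ⟨hv, ht0', ht1'⟩ (by
      rw [Prod.dist_eq, dist_self, Real.dist_eq]
      rw [max_eq_right (abs_nonneg _)]
      exact htt.trans hδ.2)
    rw [Real.dist_eq] at h3
    exact h3
  have hall := (Filter.eventually_all_finset ΓC).2 hone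
  obtain ⟨δ, hδ, hδ'⟩ := (hall.and self_mem_nhdsWithin).exists
  exact ⟨δ, hδ', hδ⟩

/-- The main colouring lemma: along every normalised polynomial curve, sampled with small steps,
the parity of `⌊M * F⌋` changes. -/
theorem exists_color (d : ℕ) : ∃ (M : ℝ) (T1 : ℕ), ∀ v ∈ Vset ι d, ∀ T : ℕ, T1 ≤ T →
    ∃ i j : ℕ, i ≤ T ∧ j ≤ T ∧
      ⌊M * A.F (V v ((i : ℝ) / T))⌋ % 2 ≠ ⌊M * A.F (V v ((j : ℝ) / T))⌋ % 2 := by
  classical
  -- bounds
  obtain ⟨B, hB⟩ := A.exists_bound ((d + 1) * 2 ^ d) (by positivity)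
  set ΓC : Finset (ι → ℤ) := Fintype.piFinset fun _ => Finset.Icc (-(B : ℤ)) B with hΓC
  set K : ℕ := ∑ _γ ∈ ΓC, ∑ _w : ι, (d + d) with hK
  obtain ⟨c, hc, hcvar⟩ := A.exists_var d K ΓC
  set v0 : ℝ := c / (2 * d + 1) with hv0
  have hv0pos : 0 < v0 := by positivity
  obtain ⟨δ, hδ, hcont⟩ := A.exists_unif d ΓC (v0 / 12) (by positivity)
  obtain ⟨T1, hT1⟩ := exists_nat_gt (max (1 / δ) ((K + 1) * (2 * d + 2)))
  refine ⟨3 / v0, T1, fun v hv T hT => ?_⟩
  have hT0 : (0 : ℝ) < T := by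
    have h1 : (0 : ℝ) < 1 / δ := by positivity
    have h2 : (T1 : ℝ) ≤ T := by exact_mod_cast hT
    linarith [le_max_left (1 / δ) (((K : ℝ) + 1) * (2 * d + 2))]
  have hTδ : 1 / (T : ℝ) < δ := by
    have h2 : (T1 : ℝ) ≤ T := by exact_mod_cast hT
    have h3 : 1 / δ < T := lt_of_le_of_lt (le_max_left _ _) (hT1.trans_le h2)
    rw [div_lt_iff₀ hT0]
    rw [div_lt_iff₀ hδ] at h3
    linarith
  have hTK : 1 / (T : ℝ) < 1 / ((K + 1) * (2 * d + 2)) := by
    have h2 : (T1 : ℝ) ≤ T := by exact_mod_cast hT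
    have h3 : ((K : ℝ) + 1) * (2 * d + 2) < T := lt_of_le_of_lt (le_max_right _ _) (hT1.trans_le h2)
    exact one_div_lt_one_div_of_lt (by positivity) h3
  -- the root free interval
  set ℛ : Finset ℝ := ΓC.biUnion fun γ => (Finset.univ : Finset ι).biUnion fun w =>
    (A.Ap γ v w).roots.toFinset ∪ (A.Ap γ v w - 1).roots.toFinset with hℛ
  have hℛcard : ℛ.card ≤ K := by
    rw [hℛ, hK]
    refine Finset.card_biUnion_le.trans (Finset.sum_le_sum fun γ _ => ?_)
    refine Finset.card_biUnion_le.trans (Finset.sum_le_sum fun w _ => ?_)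
    refine (Finset.card_union_le _ _).trans (Nat.add_le_add ?_ ?_)
    · exact (Multiset.toFinset_card_le _).trans ((card_roots' _).trans (A.natDegree_Ap γ v w))
    · refine (Multiset.toFinset_card_le _).trans ((card_roots' _).trans ?_)
      have : (1 : ℝ[X]) = C 1 := by simp
      rw [this, natDegree_sub_C]
      exact A.natDegree_Ap γ v w
  obtain ⟨h, hh, hfree⟩ := exists_rootfree K ℛ hℛcard
  set α : ℝ := (h : ℝ) / (K + 1) with hα
  set β : ℝ := ((h : ℝ) + 1) / (K + 1) with hβ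
  have hα0 : 0 ≤ α := by positivity
  have hβ1 : β ≤ 1 := by
    rw [hβ, div_le_one (by positivity)]
    have := Finset.mem_range.1 hh
    have h1 : h + 1 ≤ K + 1 := by omega
    exact_mod_cast h1
  -- the reducing element is constant on the interval
  have hpt0 := tpt_mem d K h 0 (Nat.zero_le _)
  have hgap : (0 : ℝ) < 1 / ((K + 1) * (2 * d + 2)) := by positivity
  set t0 := tpt d K h 0 with ht0
  have ht0mem : α < t0 ∧ t0 < β := by
    constructor <;> linarith [hpt0.1, hpt0.2]
  set γ := A.red (V v t0) with hγ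
  have hγred := A.red_spec (V v t0)
  rw [← hγ] at hγred
  have hγmem : γ ∈ ΓC := by
    rw [hΓC, Fintype.mem_piFinset]
    intro w
    have h1 := hB (V v t0) γ (abs_V_le v hv t0 ⟨by linarith, by linarith⟩) hγred w
    rw [Finset.mem_Icc]
    exact abs_le.1 h1
  have hF : ∀ t, α < t → t < β → A.F (V v t) = A.Phi γ v t := by
    intro t h1 h2
    have hred : A.Reduces (V v t) γ := by
      intro w
      have h3 := hγred w
      rw [← A.eval_Ap] at h3 ⊢
      have hroots : ∀ p : ℝ[X], p ≠ 0 → (p = A.Ap γ v w ∨ p = A.Ap γ v w - 1) →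
          ∀ r, p.eval r = 0 → ¬ (α < r ∧ r < β) := by
        intro p hp hp' r hr
        apply hfree r
        rw [hℛ]
        simp only [Finset.mem_biUnion, Finset.mem_univ, true_and, Finset.mem_union,
          Multiset.mem_toFinset]
        refine ⟨γ, hγmem, w, ?_⟩
        rcases hp' with rfl | rfl
        · left; rw [mem_roots hp]; exact hr
        · right; rw [mem_roots hp]; exact hr
      constructor
      · rcases eq_or_lt_of_le h3.1 with h4 | h4
        · -- the value at `t0` is zero, so the polynomial vanishes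
          have h5 : A.Ap γ v w = 0 := by
            by_contra hne
            exact hroots _ hne (Or.inl rfl) t0 h4.symm ht0mem
          rw [h5]; simp
        · have hne : A.Ap γ v w ≠ 0 := by
            intro h0; rw [h0] at h4; simp at h4
          exact (eval_pos_of_rootfree _ α β t0 t ht0mem ⟨h1, h2⟩
            (hroots _ hne (Or.inl rfl)) h4).le
      · have h4 : 0 < (-(A.Ap γ v w - 1)).eval t0 := by
          simp only [eval_neg, eval_sub, eval_one]; linarith [h3.2]
        have hne : A.Ap γ v w - 1 ≠ 0 := by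
          intro h0; rw [h0] at h4; simp at h4
        have h5 := eval_pos_of_rootfree (-(A.Ap γ v w - 1)) α β t0 t ht0mem ⟨h1, h2⟩ (by
          intro r hr
          apply hroots _ hne (Or.inr rfl)
          simp only [eval_neg, eval_sub, eval_one] at hr ⊢
          linarith) h4
        simp only [eval_neg, eval_sub, eval_one] at h5
        linarith
    rw [A.F_eq_of_reduces _ _ hred, Phi]
  -- a sample point where the value differs
  obtain ⟨a, ha, hbig⟩ : ∃ a ∈ range (2 * d + 1),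
      v0 ≤ |A.Phi γ v (tpt d K h a) - A.Phi γ v t0| := by
    by_contra hcon
    push Not at hcon
    have h1 := hcvar γ hγmem h hh v hv
    have h2 : ∑ a ∈ range (2 * d + 1), |A.Phi γ v (tpt d K h a) - A.Phi γ v (tpt d K h 0)| <
        ∑ _a ∈ range (2 * d + 1), v0 :=
      Finset.sum_lt_sum_of_nonempty ⟨0, by simp⟩ (fun a ha => hcon a ha)
    rw [Finset.sum_const, Finset.card_range, nsmul_eq_mul] at h2
    have h3 : ((2 * d + 1 : ℕ) : ℝ) * v0 = c := by
      rw [hv0]; push_cast; field_simp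
    linarith
  have hpta := tpt_mem d K h a (by have := Finset.mem_range.1 ha; omega)
  set ta := tpt d K h a with hta
  have ht0a : t0 ≤ ta := by
    rw [ht0, hta]
    unfold tpt
    gcongr
    positivity
  -- the integer points
  set m := ⌊(T : ℝ) * t0⌋₊ with hm
  set n := ⌊(T : ℝ) * ta⌋₊ with hn
  have ht0nn : 0 ≤ t0 := by linarith
  have htann : 0 ≤ ta := by linarith
  have hm1 : (m : ℝ) / T ≤ t0 := by
    rw [div_le_iff₀ hT0, mul_comm]
    exact Nat.floor_le (by positivity)
  have hm2 : t0 - 1 / T < (m : ℝ) / T := by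
    have h1 := Nat.lt_floor_add_one ((T : ℝ) * t0)
    rw [← hm] at h1
    rw [lt_div_iff₀ hT0]
    have h2 : (t0 - 1 / T) * T = T * t0 - 1 := by field_simp
    rw [h2]; linarith
  have hn1 : (n : ℝ) / T ≤ ta := by
    rw [div_le_iff₀ hT0, mul_comm]
    exact Nat.floor_le (by positivity)
  have hn2 : ta - 1 / T < (n : ℝ) / T := by
    have h1 := Nat.lt_floor_add_one ((T : ℝ) * ta)
    rw [← hn] at h1
    rw [lt_div_iff₀ hT0]
    have h2 : (ta - 1 / T) * T = T * ta - 1 := by field_simp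
    rw [h2]; linarith
  have hmn : m ≤ n := Nat.floor_le_floor (by gcongr)
  -- all integer points between `m` and `n` are in the interval
  have hin : ∀ i : ℕ, m ≤ i → i ≤ n → α < (i : ℝ) / T ∧ (i : ℝ) / T < β := by
    intro i h1 h2
    have h3 : (m : ℝ) / T ≤ (i : ℝ) / T := by
      have : (m : ℝ) ≤ i := by exact_mod_cast h1
      gcongr
    have h4 : (i : ℝ) / T ≤ (n : ℝ) / T := by
      have : (i : ℝ) ≤ n := by exact_mod_cast h2
      gcongr
    constructor
    · linarith [hpt0.1]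
    · linarith [hpta.2]
  have hval : ∀ i : ℕ, m ≤ i → i ≤ n → A.F (V v ((i : ℝ) / T)) = A.Phi γ v ((i : ℝ) / T) :=
    fun i h1 h2 => hF _ (hin i h1 h2).1 (hin i h1 h2).2
  have hM : 0 < 3 / v0 := by positivity
  obtain ⟨i, j, hi, hj, -, -, hne⟩ := parity_change (fun i => 3 / v0 * A.F (V v ((i : ℝ) / T))) m n
    hmn (by
      intro i h1 h2
      have e1 := hval i h1 (by omega)
      have e2 := hval (i + 1) (by omega) (by omega)
      have h3 := hin i h1 (by omega)
      have h4 := hin (i + 1) (by omega) (by omega)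
      rw [e1, e2, ← mul_sub, abs_mul, abs_of_pos hM]
      have h5 := hcont γ hγmem v hv (((i + 1 : ℕ) : ℝ) / T) ((i : ℝ) / T) (by linarith)
        (by linarith) (by linarith) (by linarith) (by
          have : ((i + 1 : ℕ) : ℝ) / T - (i : ℝ) / T = 1 / T := by
            push_cast; field_simp; ring
          rw [this, abs_of_pos (by positivity)]
          exact hTδ)
      calc 3 / v0 * |A.Phi γ v (((i + 1 : ℕ) : ℝ) / T) - A.Phi γ v ((i : ℝ) / T)|
          < 3 / v0 * (v0 / 12) := by gcongr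
        _ < 1 := by
          have : 3 / v0 * (v0 / 12) = 1 / 4 := by field_simp; norm_num
          rw [this]; norm_num) (by
      have e1 := hval m le_rfl hmn
      have e2 := hval n hmn le_rfl
      have h3 := hin m le_rfl hmn
      have h4 := hin n hmn le_rfl
      rw [e1, e2, ← mul_sub, abs_mul, abs_of_pos hM]
      have h5 := hcont γ hγmem v hv ((m : ℝ) / T) t0 (by linarith)
        (by linarith) (by linarith) (by linarith) (by
          rw [abs_lt]; constructor <;> linarith)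
      have h6 := hcont γ hγmem v hv ((n : ℝ) / T) ta (by linarith)
        (by linarith) (by linarith) (by linarith) (by
          rw [abs_lt]; constructor <;> linarith)
      have h7 : v0 - v0 / 6 ≤ |A.Phi γ v ((n : ℝ) / T) - A.Phi γ v ((m : ℝ) / T)| := by
        have h8 : A.Phi γ v ta - A.Phi γ v t0 =
            (A.Phi γ v ((n : ℝ) / T) - A.Phi γ v ((m : ℝ) / T)) -
            (A.Phi γ v ((n : ℝ) / T) - A.Phi γ v ta) +
            (A.Phi γ v ((m : ℝ) / T) - A.Phi γ v t0) := by ring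
        have h9 := abs_add_le ((A.Phi γ v ((n : ℝ) / T) - A.Phi γ v ((m : ℝ) / T)) -
            (A.Phi γ v ((n : ℝ) / T) - A.Phi γ v ta)) (A.Phi γ v ((m : ℝ) / T) - A.Phi γ v t0)
        rw [← h8] at h9
        have h10 := abs_sub (A.Phi γ v ((n : ℝ) / T) - A.Phi γ v ((m : ℝ) / T))
            (A.Phi γ v ((n : ℝ) / T) - A.Phi γ v ta)
        linarith
      calc (1 : ℝ) ≤ 3 / v0 * (v0 - v0 / 6) := by
            have : 3 / v0 * (v0 - v0 / 6) = 5 / 2 := by field_simp; norm_num
            rw [this]; norm_num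
        _ ≤ 3 / v0 * |A.Phi γ v ((n : ℝ) / T) - A.Phi γ v ((m : ℝ) / T)| := by gcongr)
  have hnT : n ≤ T := by
    have h1 : (n : ℝ) / T < 1 := by linarith [(hin n hmn le_rfl).2]
    rw [div_lt_one hT0] at h1
    have : n < T := by exact_mod_cast h1
    omega
  exact ⟨i, j, hi.trans hnT, hj.trans hnT, hne⟩

end GAlg

end Pool.Agent.Lib.MP_87965e_co
end

section

set_option autoImplicit false

open Finset Polynomial

namespace Pool.Agent.Lib.MP_87965e_co

namespace GAlg

variable {ι : Type} [Fintype ι] (A : GAlg ι)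

/-- If a polynomial sequence `p` reduces by integral elements `γ i` to nearly constant points for
`i ≤ J`, then the `γ i` are the values of a polynomial sequence with integral values. -/
theorem exists_poly_reduction (P : ι → ℝ[X]) (hP : ∀ w, (P w).natDegree ≤ A.deg w) (J : ℕ)
    (γ : ℕ → ι → ℤ) (w0 : ι → ℝ) (η : ℝ) (hη0 : 0 ≤ η) (hη : 2 ^ J * η < 1)
    (hw : ∀ i ≤ J, ∀ w, |A.op (fun u => (P u).eval (i : ℝ)) (fun u => (γ i u : ℝ)) w - w0 w| ≤ η) :
    ∃ G : ι → ℝ[X], ∀ w, (G w).natDegree ≤ A.deg w ∧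
      (∀ i : ℕ, ∃ g : ℤ, (G w).eval (i : ℝ) = g) ∧
      (∀ i ≤ J, (G w).eval (i : ℝ) = γ i w) ∧
      ∃ m : ℤ, ((A.deg w).factorial : ℝ) * (G w).coeff (A.deg w) = m := by
  classical
  have key : ∀ D : ℕ, ∃ G : ι → ℝ[X], ∀ w, A.deg w ≤ D → (G w).natDegree ≤ A.deg w ∧
      (∀ i : ℕ, ∃ g : ℤ, (G w).eval (i : ℝ) = g) ∧
      (∀ i ≤ J, (G w).eval (i : ℝ) = γ i w) ∧
      ∃ m : ℤ, ((A.deg w).factorial : ℝ) * (G w).coeff (A.deg w) = m := by
    intro D
    induction D with
    | zero =>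
      refine ⟨fun _ => 0, fun w hw => ?_⟩
      have := A.deg_pos w
      omega
    | succ D ih =>
      obtain ⟨G, hG⟩ := ih
      have hstep : ∀ w, A.deg w = D + 1 → ∃ g : ℝ[X], g.natDegree ≤ A.deg w ∧
          (∀ i : ℕ, ∃ n : ℤ, g.eval (i : ℝ) = n) ∧
          (∀ i ≤ J, g.eval (i : ℝ) = γ i w) ∧
          ∃ m : ℤ, ((A.deg w).factorial : ℝ) * g.coeff (A.deg w) = m := by
        intro w hwD
        set Q : ℝ[X] := -(P w + ∑ u, ∑ v, C (A.c u v w : ℝ) * (P u * G v)) with hQ
        apply int_near_poly (A.deg w) J (fun i => γ i w) Q _ (w0 w) η hη hη0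
        · intro i hi
          have h1 := hw i hi w
          have h2 : ∑ u, ∑ v, (A.c u v w : ℝ) * ((P u).eval (i : ℝ) * (γ i v : ℝ)) =
              ∑ u, ∑ v, (A.c u v w : ℝ) * ((P u).eval (i : ℝ) * (G v).eval (i : ℝ)) := by
            refine Finset.sum_congr rfl fun u _ => Finset.sum_congr rfl fun v _ => ?_
            by_cases hc : A.c u v w = 0
            · simp [hc]
            · have h3 := A.c_deg u v w hc
              have h4 := A.deg_pos u
              rw [(hG v (by omega)).2.2.1 i hi]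
          have h3 : (γ i w : ℝ) - Q.eval (i : ℝ) - w0 w =
              A.op (fun u => (P u).eval (i : ℝ)) (fun u => (γ i u : ℝ)) w - w0 w := by
            rw [hQ]
            simp only [op, eval_neg, eval_add, eval_finsetSum, eval_mul, eval_C]
            rw [h2]
            ring
          rw [h3]
          exact h1
        · rw [hQ, natDegree_neg]
          refine natDegree_add_le_of_degree_le (hP w) ?_
          refine natDegree_sum_le_of_forall_le _ _ fun u _ => ?_
          refine natDegree_sum_le_of_forall_le _ _ fun v _ => ?_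
          by_cases hc : A.c u v w = 0
          · simp [hc]
          · have h3 := A.c_deg u v w hc
            have h4 := A.deg_pos u
            refine (natDegree_C_mul_le _ _).trans ?_
            rw [← h3]
            exact natDegree_mul_le_of_le (hP u) (hG v (by omega)).1
      choose! g hg using hstep
      refine ⟨fun w => if A.deg w = D + 1 then g w else G w, fun w hwD => ?_⟩
      by_cases h : A.deg w = D + 1
      · simp only [h, if_true]
        have := hg w h
        rw [h] at this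
        exact this
      · simp only [h, if_false]
        exact hG w (by omega)
  obtain ⟨G, hG⟩ := key (Finset.univ.sup A.deg)
  exact ⟨G, fun w => hG w (Finset.le_sup (Finset.mem_univ w))⟩

end GAlg

end Pool.Agent.Lib.MP_87965e_co
end

section

set_option autoImplicit false

open Finset

namespace Pool.Agent.Lib.MP_87965e_co

/-- A finitary van der Waerden theorem, from Hales-Jewett. -/
theorem vdw (J : ℕ) (κ : Type) [Finite κ] : ∃ W : ℕ, ∀ C : ℕ → κ,
    ∃ j0 q : ℕ, 0 < q ∧ q ≤ W ∧ j0 ≤ W ∧ ∀ i ≤ J, C (j0 + i * q) = C j0 := by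
  classical
  obtain ⟨ι, hι, hl⟩ := Combinatorics.Line.exists_mono_in_high_dimension (Fin (J + 1)) κ
  refine ⟨(J + 1) * Fintype.card ι, fun C => ?_⟩
  obtain ⟨l, c, hc⟩ := hl (fun v => C (∑ i, (v i : ℕ)))
  -- the base point and the difference
  set s : Finset ι := Finset.univ.filter (fun i => l.idxFun i = none) with hs
  have hval : ∀ x : Fin (J + 1), ∑ i, ((l x i : Fin (J + 1)) : ℕ) =
      ∑ i, ((l 0 i : Fin (J + 1)) : ℕ) + (x : ℕ) * s.card := by
    intro x
    have h1 : ∀ i, ((l x i : Fin (J + 1)) : ℕ) = ((l 0 i : Fin (J + 1)) : ℕ) +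
        (if l.idxFun i = none then (x : ℕ) else 0) := by
      intro i
      by_cases hi : l.idxFun i = none
      · rw [Combinatorics.Line.apply_none l x i hi, Combinatorics.Line.apply_none l 0 i hi]
        simp [hi]
      · obtain ⟨y, hy⟩ := Option.ne_none_iff_exists'.1 hi
        rw [Combinatorics.Line.apply_some hy, Combinatorics.Line.apply_some hy]
        simp [hy]
    rw [Finset.sum_congr rfl (fun i _ => h1 i), Finset.sum_add_distrib, ← Finset.sum_filter,
      Finset.sum_const, smul_eq_mul, mul_comm s.card]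
  have hspos : 0 < s.card := by
    obtain ⟨i, hi⟩ := l.proper
    exact Finset.card_pos.2 ⟨i, by simp [hs, hi]⟩
  have hscard : s.card ≤ Fintype.card ι := Finset.card_le_univ s
  refine ⟨∑ i, ((l 0 i : Fin (J + 1)) : ℕ), s.card, hspos, ?_, ?_, ?_⟩
  · nlinarith
  · calc ∑ i, ((l 0 i : Fin (J + 1)) : ℕ) ≤ ∑ _i : ι, (J + 1) :=
        Finset.sum_le_sum fun i _ => (l 0 i).isLt.le
      _ = (J + 1) * Fintype.card ι := by simp [mul_comm]
  · intro i hi
    have h1 := hc (⟨i, by omega⟩ : Fin (J + 1))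
    have h2 := hc (0 : Fin (J + 1))
    simp only at h1 h2
    rw [hval] at h1
    rw [h2, ← h1]

end Pool.Agent.Lib.MP_87965e_co
end
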