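import Mathlib
import Pool.Agent.Lib.MP_87965e_co.VdW

set_option autoImplicit false

open Finset Polynomial

namespace Pool.Agent.Lib.MP_87965e_co

/-- A set of natural numbers is 2-large if every 2-colouring of the positive integers has
arbitrarily long monochromatic arithmetic progressions with common difference in the set. -/
def TwoLarge (S : Set ℕ) : Prop :=
  ∀ (c : ℕ → Fin 2) (k : ℕ), ∃ a s : ℕ, 0 < a ∧ s ∈ S ∧ ∀ i < k, c (a + i * s) = c a

namespace GAlg

variable {ι : Type} [Fintype ι] (A : GAlg ι)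

/-- Case A: if the curve moves, then the parity changes. -/
theorem case_move (d : ℕ) (M : ℝ) (T1 T2 T0 : ℕ) (hT12 : T1 ≤ T2) (hT2 : 1 ≤ T2)
    (hcol : ∀ v ∈ Vset ι d, ∀ T : ℕ, T1 ≤ T →
      ∃ i j : ℕ, i ≤ T ∧ j ≤ T ∧
      ⌊M * A.F (V v ((i : ℝ) / T))⌋ % 2 ≠ ⌊M * A.F (V v ((j : ℝ) / T))⌋ % 2)
    (Wp : ι → ℝ[X]) (hdeg : ∀ w, (Wp w).natDegree ≤ d)
    (h0 : ∀ w, 0 ≤ (Wp w).eval 0 ∧ (Wp w).eval 0 ≤ 1)
    (hsmall : ∀ w k, 0 < k → k ≤ d → |(Wp w).coeff k| * (T2 : ℝ) ^ k < 1)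
    (hbig : ∃ w k, 0 < k ∧ k ≤ d ∧ 1 ≤ |(Wp w).coeff k| * (T0 : ℝ) ^ k) :
    ∃ i j : ℕ, i ≤ T0 ∧ j ≤ T0 ∧
      ⌊M * A.F (fun w => (Wp w).eval (i : ℝ))⌋ % 2 ≠
        ⌊M * A.F (fun w => (Wp w).eval (j : ℝ))⌋ % 2 := by
  classical
  have hex : ∃ T : ℕ, ∃ w k, 0 < k ∧ k ≤ d ∧ 1 ≤ |(Wp w).coeff k| * (T : ℝ) ^ k := ⟨T0, hbig⟩
  set T := Nat.find hex with hT
  have hTspec := Nat.find_spec hex
  rw [← hT] at hTspec
  have hTT0 : T ≤ T0 := Nat.find_min' hex hbig
  have hT2T : T2 < T := by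
    by_contra hcon
    push Not at hcon
    obtain ⟨w, k, hk, hkd, h1⟩ := hTspec
    have h2 := hsmall w k hk hkd
    have h3 : |(Wp w).coeff k| * (T : ℝ) ^ k ≤ |(Wp w).coeff k| * (T2 : ℝ) ^ k := by
      have : (T : ℝ) ≤ T2 := by exact_mod_cast hcon
      gcongr
    linarith
  have hprev : ∀ w k, 0 < k → k ≤ d → |(Wp w).coeff k| * ((T - 1 : ℕ) : ℝ) ^ k < 1 := by
    intro w k hk hkd
    have h1 := Nat.find_min hex (m := T - 1) (by omega)
    push Not at h1
    exact h1 w k hk hkd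
  have hTpos : (0 : ℝ) < T := by
    have : 0 < T := by omega
    exact_mod_cast this
  -- the normalised coefficients
  let v : ι → Fin (d + 1) → ℝ := fun w k => (Wp w).coeff (k : ℕ) * (T : ℝ) ^ (k : ℕ)
  have hc0 : ∀ w, (Wp w).coeff 0 = (Wp w).eval 0 := fun w => coeff_zero_eq_eval_zero _
  have hv : v ∈ Vset ι d := by
    refine ⟨fun w => ?_, fun w k => ?_, ?_⟩
    · have : v w 0 = (Wp w).eval 0 := by
        show (Wp w).coeff ((0 : Fin (d + 1)) : ℕ) * (T : ℝ) ^ ((0 : Fin (d + 1)) : ℕ) = _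
        simp [hc0]
      rw [this]
      exact h0 w
    · show |(Wp w).coeff (k : ℕ) * (T : ℝ) ^ (k : ℕ)| ≤ 2 ^ d
      have hkd : (k : ℕ) ≤ d := by have := k.isLt; omega
      rcases Nat.eq_zero_or_pos (k : ℕ) with hk | hk
      · rw [hk, pow_zero, mul_one, hc0, abs_of_nonneg (h0 w).1]
        calc eval 0 (Wp w) ≤ 1 := (h0 w).2
          _ ≤ 2 ^ d := one_le_pow₀ (by norm_num)
      · rw [abs_mul, abs_pow, abs_of_pos hTpos]
        have h1 := hprev w k hk hkd
        have h2 : (T : ℝ) ≤ 2 * ((T - 1 : ℕ) : ℝ) := by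
          have : T ≤ 2 * (T - 1) := by omega
          exact_mod_cast this
        calc |(Wp w).coeff (k : ℕ)| * (T : ℝ) ^ (k : ℕ)
            ≤ |(Wp w).coeff (k : ℕ)| * (2 * ((T - 1 : ℕ) : ℝ)) ^ (k : ℕ) := by gcongr
          _ = 2 ^ (k : ℕ) * (|(Wp w).coeff (k : ℕ)| * ((T - 1 : ℕ) : ℝ) ^ (k : ℕ)) := by
              rw [mul_pow]; ring
          _ ≤ 2 ^ (k : ℕ) * 1 := by gcongr
          _ ≤ 2 ^ d := by
              rw [mul_one]
              exact pow_le_pow_right₀ (by norm_num) hkd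
    · obtain ⟨w, k, hk, hkd, h1⟩ := hTspec
      refine ⟨w, ⟨k, by omega⟩, hk, ?_⟩
      show 1 ≤ |(Wp w).coeff k * (T : ℝ) ^ k|
      rw [abs_mul, abs_pow, abs_of_pos hTpos]
      exact h1
  have heval : ∀ i : ℕ, V v ((i : ℝ) / T) = fun w => (Wp w).eval (i : ℝ) := by
    intro i
    funext w
    rw [V, eval_eq_sum_range' (n := d + 1) (by have := hdeg w; omega), Finset.sum_range]
    refine Finset.sum_congr rfl fun k _ => ?_
    show (Wp w).coeff (k : ℕ) * (T : ℝ) ^ (k : ℕ) * ((i : ℝ) / T) ^ (k : ℕ) = _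
    rw [div_pow]
    field_simp
  obtain ⟨i, j, hi, hj, hij⟩ := hcol v hv T (by omega)
  rw [heval, heval] at hij
  exact ⟨i, j, hi.trans hTT0, hj.trans hTT0, hij⟩

/-- Case B: passing to the top coefficients. -/
theorem case_top (d : ℕ) (hd : ∀ w, A.deg w ≤ d) (ξ : ι → ℝ) (a0 : ℝ) (s q N t : ℕ) (hN : 0 < N)
    (hNq : N = q * t) (hfac : d.factorial ∣ t) (T0 : ℝ) (hT0 : 0 < T0) (ε : ℝ)
    (hε : (N : ℝ) ^ d / T0 < ε)
    (G : ι → ℝ[X]) (hG : ∀ w, (G w).natDegree ≤ A.deg w)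
    (hG' : ∀ w, ∃ m : ℤ, ((A.deg w).factorial : ℝ) * (G w).coeff (A.deg w) = m)
    (hsm : ∀ w, |(A.op (fun w => C (ξ w) * (C a0 + C ((q : ℝ) * s / N) * X) ^ A.deg w) G w).coeff
      (A.deg w)| ≤ 1 / T0) :
    ∃ g : ι → ℤ, ∀ w, |A.op (fun u => (s : ℝ) ^ A.deg u * ξ u) (fun u => (g u : ℝ)) w| < ε := by
  classical
  have hq : 0 < q := by
    rcases Nat.eq_zero_or_pos q with h | h
    · rw [h, zero_mul] at hNq; omega
    · exact h
  have hqr : (0 : ℝ) < q := by exact_mod_cast hq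
  have hNr : (0 : ℝ) < N := by exact_mod_cast hN
  have hNqr : (N : ℝ) = q * t := by exact_mod_cast hNq
  have htN : (t : ℝ) ≤ N := by
    have : t ≤ N := by rw [hNq]; exact Nat.le_mul_of_pos_left t hq
    exact_mod_cast this
  have ht0 : (0 : ℝ) ≤ t := by positivity
  set P : ι → ℝ[X] := fun w => C (ξ w) * (C a0 + C ((q : ℝ) * s / N) * X) ^ A.deg w with hP
  have hlin : (C a0 + C ((q : ℝ) * s / N) * X : ℝ[X]).natDegree ≤ 1 := by
    refine natDegree_add_le_of_degree_le ?_ ?_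
    · rw [natDegree_C]; omega
    · exact (natDegree_C_mul_le _ _).trans natDegree_X_le
  have hPdeg : ∀ w, (P w).natDegree ≤ A.deg w := by
    intro w
    refine (natDegree_C_mul_le _ _).trans ?_
    refine (natDegree_pow_le_of_le (A.deg w) hlin).trans ?_
    omega
  have hPtop : ∀ w, (P w).coeff (A.deg w) = ξ w * ((q : ℝ) * s / N) ^ A.deg w := by
    intro w
    rw [hP]
    simp only [coeff_C_mul]
    congr 1
    have h1 := coeff_pow_of_natDegree_le (m := A.deg w) hlin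
    rw [mul_one] at h1
    rw [h1]
    congr 1
    simp [coeff_C]
  have htop := A.top_op P G hPdeg hG
  have hdil := A.op_dil (t : ℝ) (A.top P) (A.top G)
  rw [← htop] at hdil
  choose m hm using hG'
  -- the dilated integral part
  have hint : ∀ w, ∃ g : ℤ, A.dil (t : ℝ) (A.top G) w = g := by
    intro w
    have h1 : (A.deg w).factorial ∣ t := (Nat.factorial_dvd_factorial (hd w)).trans hfac
    obtain ⟨r, hr⟩ := h1
    have hpos := A.deg_pos w
    refine ⟨(t : ℤ) ^ (A.deg w - 1) * r * m w, ?_⟩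
    rw [dil, top]
    have h2 : ((t : ℝ)) ^ A.deg w = (t : ℝ) ^ (A.deg w - 1) * t := by
      rw [← pow_succ]
      congr 1
      omega
    have h3 : (t : ℝ) = (A.deg w).factorial * r := by exact_mod_cast hr
    rw [h2]
    push_cast
    rw [← hm w]
    have h4 : (t : ℝ) ^ (A.deg w - 1) * t * (G w).coeff (A.deg w) =
      (t : ℝ) ^ (A.deg w - 1) * ((A.deg w).factorial * r) * (G w).coeff (A.deg w) := by
      rw [← h3]
    rw [h4]
    ring
  choose g hg using hint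
  refine ⟨g, fun w => ?_⟩
  have e1 : (fun u => (s : ℝ) ^ A.deg u * ξ u) = A.dil (t : ℝ) (A.top P) := by
    funext u
    rw [dil, top, hPtop, hNqr, mul_comm (ξ u), ← mul_assoc, ← mul_pow]
    congr 2
    rcases Nat.eq_zero_or_pos t with h | h
    · rw [h, Nat.mul_zero] at hNq; omega
    · have : (0 : ℝ) < t := by exact_mod_cast h
      field_simp
  have e2 : (fun u => (g u : ℝ)) = A.dil (t : ℝ) (A.top G) := by
    funext u; rw [hg]
  rw [e1, e2, hdil, dil, top, abs_mul, abs_of_nonneg (by positivity)]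
  calc (t : ℝ) ^ A.deg w * |(A.op P G w).coeff (A.deg w)|
      ≤ (N : ℝ) ^ A.deg w * (1 / T0) := by
        gcongr
        exact hsm w
    _ ≤ (N : ℝ) ^ d * (1 / T0) := by
        gcongr
        · have : 1 ≤ N := hN
          exact_mod_cast this
        · exact hd w
    _ = (N : ℝ) ^ d / T0 := by ring
    _ < ε := hε

/-- The main theorem: 2-large sets are sets of recurrence for dilated integral translates. -/
theorem main (S : Set ℕ) (hS : TwoLarge S) (ξ : ι → ℝ) (ε : ℝ) (hε : 0 < ε) :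
    ∃ s ∈ S, ∃ g : ι → ℤ, ∀ w,
      |A.op (fun u => (s : ℝ) ^ A.deg u * ξ u) (fun u => (g u : ℝ)) w| < ε := by
  classical
  set d := Finset.univ.sup A.deg with hddef
  have hd : ∀ w, A.deg w ≤ d := fun w => Finset.le_sup (Finset.mem_univ w)
  obtain ⟨M, T1, hcol⟩ := A.exists_color d
  obtain ⟨K, hK, hcoef⟩ := exists_coeff_bound d
  set T2 := max T1 1 with hT2
  -- the mesh
  obtain ⟨L, hL⟩ := exists_nat_gt (max (2 ^ d) (K * (T2 : ℝ) ^ d) : ℝ)
  have hLpos : (0 : ℝ) < L := by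
    have h1 : (0 : ℝ) < 2 ^ d := by positivity
    have h2 := le_max_left ((2 : ℝ) ^ d) (K * (T2 : ℝ) ^ d)
    linarith
  have hL1 : 0 < L := by exact_mod_cast hLpos
  set η : ℝ := 1 / L with hη
  have hη0 : 0 ≤ η := by positivity
  have hη1 : 2 ^ d * η < 1 := by
    rw [hη, mul_one_div, div_lt_one hLpos]
    exact (le_max_left _ _).trans_lt hL
  have hη2 : K * η * (T2 : ℝ) ^ d < 1 := by
    rw [hη]
    have : K * (1 / (L : ℝ)) * (T2 : ℝ) ^ d = (K * (T2 : ℝ) ^ d) / L := by ring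
    rw [this, div_lt_one hLpos]
    exact (le_max_right _ _).trans_lt hL
  have : NeZero L := ⟨by omega⟩
  obtain ⟨W, hW⟩ := vdw d (ι → Fin L)
  set N := d.factorial * W.factorial with hN
  have hNpos : 0 < N := Nat.mul_pos (Nat.factorial_pos _) (Nat.factorial_pos _)
  have hNr : (0 : ℝ) < N := by exact_mod_cast hNpos
  obtain ⟨T0, hT0⟩ := exists_nat_gt (max ((N : ℝ) ^ d / ε) 1)
  have hT01 : (1 : ℝ) < T0 := (le_max_right _ _).trans_lt hT0
  have hT0pos : (0 : ℝ) < T0 := by linarith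
  have hT0ε : (N : ℝ) ^ d / T0 < ε := by
    have h1 := (le_max_left ((N : ℝ) ^ d / ε) 1).trans_lt hT0
    rw [div_lt_iff₀ hε] at h1
    rw [div_lt_iff₀ hT0pos]
    linarith
  -- the curve and the colouring
  set x : ℝ → ι → ℝ := fun t w => ξ w * t ^ A.deg w with hx
  obtain ⟨a, s, ha, hsS, hmono⟩ := hS
    (fun n => if ⌊M * A.F (x ((n : ℝ) / N))⌋ % 2 = 0 then 0 else 1) (W + W * (T0 + d) + 1)
  refine ⟨s, hsS, ?_⟩
  have hmono' : ∀ i, i < W + W * (T0 + d) + 1 → ∀ j, j < W + W * (T0 + d) + 1 →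
      ⌊M * A.F (x (((a + i * s : ℕ) : ℝ) / N))⌋ % 2 =
        ⌊M * A.F (x (((a + j * s : ℕ) : ℝ) / N))⌋ % 2 := by
    intro i hi j hj
    have h1 := hmono i hi
    have h2 := hmono j hj
    rw [← h2] at h1
    have h3 := Int.emod_two_eq (⌊M * A.F (x (((a + i * s : ℕ) : ℝ) / N))⌋)
    have h4 := Int.emod_two_eq (⌊M * A.F (x (((a + j * s : ℕ) : ℝ) / N))⌋)
    rcases h3 with h3 | h3 <;> rcases h4 with h4 | h4
    · rw [h3, h4]
    · rw [if_pos h3, if_neg (by omega)] at h1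
      exact absurd h1 (by decide)
    · rw [if_neg (by omega), if_pos h4] at h1
      exact absurd h1 (by decide)
    · rw [h3, h4]
  -- the cells
  set y : ℕ → ι → ℝ := fun j w => A.op (x (((a + j * s : ℕ) : ℝ) / N))
    (fun u => (A.red (x (((a + j * s : ℕ) : ℝ) / N)) u : ℝ)) w with hy
  have hy01 : ∀ j w, 0 ≤ y j w ∧ y j w < 1 := fun j w => A.red_spec _ w
  have hcell : ∀ j w, ⌊(L : ℝ) * y j w⌋₊ < L := by
    intro j w
    rw [Nat.floor_lt (by have := (hy01 j w).1; positivity)]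
    have := (hy01 j w).2
    nlinarith
  obtain ⟨j0, q, hq, hqW, hj0W, hC⟩ := hW (fun j w => ⟨⌊(L : ℝ) * y j w⌋₊, hcell j w⟩)
  have hnear : ∀ i ≤ d, ∀ w, |y (j0 + i * q) w - y j0 w| ≤ η := by
    intro i hi w
    have h1 := congrFun (hC i hi) w
    simp only [Fin.mk.injEq] at h1
    have h2 := Nat.floor_le (a := (L : ℝ) * y (j0 + i * q) w)
      (by have := (hy01 (j0 + i * q) w).1; positivity)
    have h3 := Nat.lt_floor_add_one ((L : ℝ) * y (j0 + i * q) w)
    have h4 := Nat.floor_le (a := (L : ℝ) * y j0 w)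
      (by have := (hy01 j0 w).1; positivity)
    have h5 := Nat.lt_floor_add_one ((L : ℝ) * y j0 w)
    rw [h1] at h2 h3
    have h6 : |(L : ℝ) * (y (j0 + i * q) w - y j0 w)| ≤ 1 := by
      rw [abs_le]; constructor <;> linarith
    rw [abs_mul, abs_of_pos hLpos] at h6
    rw [hη, le_div_iff₀ hLpos]
    linarith
  -- the polynomial sequences
  set a0 : ℝ := ((a + j0 * s : ℕ) : ℝ) / N with ha0
  set P : ι → ℝ[X] := fun w => C (ξ w) * (C a0 + C ((q : ℝ) * s / N) * X) ^ A.deg w with hP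
  have hlin : (C a0 + C ((q : ℝ) * s / N) * X : ℝ[X]).natDegree ≤ 1 := by
    refine natDegree_add_le_of_degree_le ?_ ?_
    · rw [natDegree_C]; omega
    · exact (natDegree_C_mul_le _ _).trans natDegree_X_le
  have hPdeg : ∀ w, (P w).natDegree ≤ A.deg w := by
    intro w
    refine (natDegree_C_mul_le _ _).trans ?_
    refine (natDegree_pow_le_of_le (A.deg w) hlin).trans ?_
    omega
  have hPeval : ∀ i : ℕ, (fun w => (P w).eval (i : ℝ)) =
      x (((a + (j0 + i * q) * s : ℕ) : ℝ) / N) := by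
    intro i
    funext w
    rw [hP, hx]
    simp only [eval_mul, eval_C, eval_pow, eval_add, eval_X]
    congr 2
    rw [ha0]
    push_cast
    field_simp
    ring
  set γ : ℕ → ι → ℤ := fun i => A.red (x (((a + (j0 + i * q) * s : ℕ) : ℝ) / N)) with hγ
  obtain ⟨G, hG⟩ := A.exists_poly_reduction P hPdeg d γ (y j0) η hη0 hη1 (by
    intro i hi w
    have h1 := hPeval i
    rw [h1]
    exact hnear i hi w)
  set Wp : ι → ℝ[X] := A.op P G with hWp
  have hWpdeg : ∀ w, (Wp w).natDegree ≤ A.deg w :=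
    fun w => A.natDegree_op_le P G hPdeg (fun w => (hG w).1) w
  have hWpeval : ∀ i : ℕ, (fun w => (Wp w).eval (i : ℝ)) =
      A.op (x (((a + (j0 + i * q) * s : ℕ) : ℝ) / N)) (fun w => (G w).eval (i : ℝ)) := by
    intro i
    funext w
    have h1 := A.map_op (evalRingHom (i : ℝ)) P G w
    simp only [coe_evalRingHom] at h1
    rw [hWp, h1, hPeval i]
  have hWpy : ∀ i ≤ d, ∀ w, (Wp w).eval (i : ℝ) = y (j0 + i * q) w := by
    intro i hi w
    have h1 := congrFun (hWpeval i) w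
    rw [h1, hy]
    congr 1
    funext u
    exact (hG u).2.2.1 i hi
  have hcoefsm : ∀ w k, 0 < k → |(Wp w).coeff k| ≤ K * η := by
    intro w k hk
    refine hcoef (Wp w) (y j0 w) η hη0 ((hWpdeg w).trans (hd w)) ?_ k hk
    intro i hi
    rw [hWpy i hi w]
    exact hnear i hi w
  have hWp0 : ∀ w, 0 ≤ (Wp w).eval 0 ∧ (Wp w).eval 0 ≤ 1 := by
    intro w
    have h1 := hWpy 0 (Nat.zero_le _) w
    rw [Nat.cast_zero] at h1
    rw [h1]
    exact ⟨(hy01 _ w).1, (hy01 _ w).2.le⟩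
  by_cases hcase : ∃ w k, 0 < k ∧ k ≤ d ∧ 1 ≤ |(Wp w).coeff k| * (T0 : ℝ) ^ k
  · -- the moving case
    exfalso
    obtain ⟨i, j, hi, hj, hij⟩ := A.case_move d M T1 T2 T0 (le_max_left _ _) (le_max_right _ _)
      hcol Wp (fun w => (hWpdeg w).trans (hd w)) hWp0 (by
        intro w k hk hkd
        have h1 := hcoefsm w k hk
        have h2 : (1 : ℝ) ≤ T2 := by
          have : 1 ≤ T2 := le_max_right _ _
          exact_mod_cast this
        calc |(Wp w).coeff k| * (T2 : ℝ) ^ k ≤ K * η * (T2 : ℝ) ^ d := by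
              gcongr
          _ < 1 := hη2) hcase
    have hinv : ∀ i : ℕ, A.F (fun w => (Wp w).eval (i : ℝ)) =
        A.F (x (((a + (j0 + i * q) * s : ℕ) : ℝ) / N)) := by
      intro i
      rw [hWpeval i]
      have h1 : ∀ w, ∃ g : ℤ, (G w).eval (i : ℝ) = g := fun w => (hG w).2.1 i
      choose g hg using h1
      have h2 : (fun w => (G w).eval (i : ℝ)) = fun w => (g w : ℝ) := by
        funext w; exact hg w
      rw [h2, A.F_op_int]
    rw [hinv, hinv] at hij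
    apply hij
    have hle : ∀ i, i ≤ T0 → j0 + i * q < W + W * (T0 + d) + 1 := by
      intro i hi
      have h1 : i * q ≤ T0 * W := Nat.mul_le_mul hi hqW
      have h2 : W * (T0 + d) = T0 * W + W * d := by ring
      omega
    exact hmono' _ (hle i hi) _ (hle j hj)
  · push Not at hcase
    have hqdvd : q ∣ W.factorial := Nat.dvd_factorial hq hqW
    obtain ⟨r, hr⟩ := hqdvd
    refine A.case_top d hd ξ a0 s q N (d.factorial * r) hNpos ?_ (Dvd.intro _ rfl) T0 hT0pos ε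
      hT0ε G (fun w => (hG w).1) (fun w => (hG w).2.2.2) ?_
    · rw [hN, hr]; ring
    · intro w
      have h1 := hcase w (A.deg w) (A.deg_pos w) (hd w)
      have h2 : |(Wp w).coeff (A.deg w)| * (T0 : ℝ) ≤
          |(Wp w).coeff (A.deg w)| * (T0 : ℝ) ^ A.deg w := by
        gcongr
        exact le_self_pow₀ hT01.le (A.deg_pos w).ne'
      rw [le_div_iff₀ hT0pos]
      exact h2.trans h1.le

end GAlg

end Pool.Agent.Lib.MP_87965e_co
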