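import Mathlib
import Pool.Agent.Lib.MP_87965e_co.Main

section

set_option autoImplicit false

open Finset Polynomial

namespace Pool.Agent.Lib.MP_87965e_co

namespace Nilp

variable {n : Type} [Fintype n] [DecidableEq n]

/-- Rounding up division. -/
def cdiv (D l : ℕ) : ℕ := (l + D - 1) / D

theorem cdiv_pos (D l : ℕ) (hD : 0 < D) (hl : 0 < l) : 0 < cdiv D l := by
  unfold cdiv
  apply Nat.div_pos <;> omega

theorem cdiv_eq_one (D l : ℕ) (hD : 0 < D) (hl : 0 < l) (hl' : l ≤ D) : cdiv D l = 1 := by
  unfold cdiv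
  rw [Nat.div_eq_iff hD]
  constructor <;> omega

theorem cdiv_add_le (D l l' : ℕ) (hD : 0 < D) : cdiv D (l + l') ≤ cdiv D l + cdiv D l' := by
  unfold cdiv
  rw [Nat.div_le_iff_le_mul_add_pred hD]
  have h1 := Nat.lt_div_mul_add (a := l + D - 1) hD
  have h2 := Nat.lt_div_mul_add (a := l' + D - 1) hD
  rw [mul_add, mul_comm D, mul_comm D]
  omega

theorem lt_cdiv (D l K : ℕ) (hD : 0 < D) (h : D * K < l) : K < cdiv D l := by
  unfold cdiv
  rw [Nat.lt_iff_add_one_le, Nat.le_div_iff_mul_le hD, add_mul, mul_comm K]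
  omega

variable (N : ℕ → Submodule ℤ (Matrix n n ℤ)) (D K : ℕ)

/-- The layers of the graded ring. -/
def J (l : ℕ) : Submodule ℤ (Matrix n n ℤ) := N (cdiv D l)

/-- The index type of the graded ring. -/
abbrev Idx : Type := Σ l : Fin (D * K), Module.Free.ChooseBasisIndex ℤ (J N D ((l : ℕ) + 1))

noncomputable instance : Fintype (Idx N D K) := inferInstance

/-- The degree. -/
def dg (u : Idx N D K) : ℕ := (u.1 : ℕ) + 1

/-- The basis matrices. -/
noncomputable def bm (u : Idx N D K) : Matrix n n ℤ :=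
  (Module.Free.chooseBasis ℤ (J N D ((u.1 : ℕ) + 1)) u.2 : J N D ((u.1 : ℕ) + 1))

theorem bm_mem (u : Idx N D K) : bm N D K u ∈ J N D (dg N D K u) :=
  (Module.Free.chooseBasis ℤ (J N D ((u.1 : ℕ) + 1)) u.2 : J N D ((u.1 : ℕ) + 1)).2

open Classical in
/-- The coordinates. -/
noncomputable def crd (w : Idx N D K) (x : Matrix n n ℤ) : ℤ :=
  if h : x ∈ J N D ((w.1 : ℕ) + 1) then
    (Module.Free.chooseBasis ℤ (J N D ((w.1 : ℕ) + 1))).repr ⟨x, h⟩ w.2 else 0

theorem crd_eq (w : Idx N D K) (x : Matrix n n ℤ) (h : x ∈ J N D ((w.1 : ℕ) + 1)) :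
    crd N D K w x = (Module.Free.chooseBasis ℤ (J N D ((w.1 : ℕ) + 1))).repr ⟨x, h⟩ w.2 := by
  simp [crd, h]

theorem crd_add (w : Idx N D K) (x y : Matrix n n ℤ)
    (hx : x ∈ J N D (dg N D K w)) (hy : y ∈ J N D (dg N D K w)) :
    crd N D K w (x + y) = crd N D K w x + crd N D K w y := by
  rw [crd_eq _ _ _ _ _ hx, crd_eq _ _ _ _ _ hy, crd_eq _ _ _ _ _ (add_mem hx hy)]
  have : (⟨x + y, add_mem hx hy⟩ : J N D ((w.1 : ℕ) + 1)) = ⟨x, hx⟩ + ⟨y, hy⟩ := rfl
  rw [this, map_add]
  rfl

theorem crd_smul (w : Idx N D K) (k : ℤ) (x : Matrix n n ℤ)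
    (hx : x ∈ J N D (dg N D K w)) : crd N D K w (k • x) = k * crd N D K w x := by
  rw [crd_eq _ _ _ _ _ hx, crd_eq _ _ _ _ _ (Submodule.smul_mem _ k hx)]
  have : (⟨k • x, Submodule.smul_mem _ k hx⟩ : J N D ((w.1 : ℕ) + 1)) = k • ⟨x, hx⟩ := rfl
  rw [this, map_smul]
  rfl

theorem crd_sum {α : Type} (w : Idx N D K) (s : Finset α) (k : α → ℤ)
    (x : α → Matrix n n ℤ) (hx : ∀ a ∈ s, x a ∈ J N D (dg N D K w)) :
    crd N D K w (∑ a ∈ s, k a • x a) = ∑ a ∈ s, k a * crd N D K w (x a) := by
  classical
  induction s using Finset.induction_on with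
  | empty =>
    simp only [Finset.sum_empty]
    have h := crd_smul N D K w 0 0 (zero_mem _)
    simpa using h
  | insert a s ha ih =>
    rw [Finset.sum_insert ha, Finset.sum_insert ha, crd_add, crd_smul, ih]
    · intro b hb; exact hx b (Finset.mem_insert_of_mem hb)
    · exact hx a (Finset.mem_insert_self _ _)
    · exact Submodule.smul_mem _ _ (hx a (Finset.mem_insert_self _ _))
    · exact Submodule.sum_mem _ fun b hb =>
        Submodule.smul_mem _ _ (hx b (Finset.mem_insert_of_mem hb))

/-- The expansion in a given layer. -/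
theorem expand (l : ℕ) (hl0 : 0 < l) (hl : l ≤ D * K) (x : Matrix n n ℤ)
    (hx : x ∈ J N D l) :
    x = ∑ w : Idx N D K, (if dg N D K w = l then crd N D K w x else 0) • bm N D K w := by
  classical
  obtain ⟨l', rfl⟩ : ∃ l', l = l' + 1 := ⟨l - 1, by omega⟩
  rw [Fintype.sum_sigma, Finset.sum_eq_single (⟨l', by omega⟩ : Fin (D * K))]
  · have h1 := (Module.Free.chooseBasis ℤ (J N D (l' + 1))).sum_repr ⟨x, hx⟩
    have h2 := congrArg (Subtype.val) h1
    simp only [AddSubmonoidClass.coe_finsetSum, SetLike.val_smul] at h2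
    conv_lhs => rw [← h2]
    refine Finset.sum_congr rfl fun i _ => ?_
    simp only [dg, if_true]
    rw [crd_eq _ _ _ _ _ hx]
    rfl
  · intro b _ hb
    refine Finset.sum_eq_zero fun i _ => ?_
    have : ¬ (dg N D K ⟨b, i⟩ = l' + 1) := by
      intro h
      apply hb
      apply Fin.ext
      simp only [dg] at h
      show (b : ℕ) = l'
      omega
    rw [if_neg this, zero_smul]
  · intro h
    exact absurd (Finset.mem_univ _) h

variable (hD : 0 < D) (hmul : ∀ i j a b, a ∈ N i → b ∈ N j → a * b ∈ N (i + j))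
  (hanti : ∀ i j, 0 < i → i ≤ j → N j ≤ N i)

include hD hmul hanti in
theorem mul_mem_J (l l' : ℕ) (hl : 0 < l) (a b : Matrix n n ℤ)
    (ha : a ∈ J N D l) (hb : b ∈ J N D l') : a * b ∈ J N D (l + l') := by
  refine hanti _ _ (cdiv_pos D _ hD (by omega)) (cdiv_add_le D l l' hD) ?_
  exact hmul _ _ _ _ ha hb

/-- The structure constants. -/
noncomputable def sc (u v w : Idx N D K) : ℤ :=
  if dg N D K u + dg N D K v = dg N D K w then crd N D K w (bm N D K u * bm N D K v) else 0

theorem dg_pos (u : Idx N D K) : 0 < dg N D K u := Nat.succ_pos _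

theorem dg_le (u : Idx N D K) : dg N D K u ≤ D * K := u.1.isLt

include hD hmul hanti in
theorem sc_assoc (u v w z : Idx N D K) :
    ∑ y, sc N D K u v y * sc N D K y w z = ∑ y, sc N D K v w y * sc N D K u y z := by
  classical
  by_cases hdeg : dg N D K u + dg N D K v + dg N D K w = dg N D K z
  · have hz := dg_le N D K z
    have hu := dg_pos N D K u
    have hv := dg_pos N D K v
    have hw := dg_pos N D K w
    have h1 : ∑ y, sc N D K u v y * sc N D K y w z =
        crd N D K z (bm N D K u * bm N D K v * bm N D K w) := by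
      have huv : bm N D K u * bm N D K v ∈ J N D (dg N D K u + dg N D K v) :=
        mul_mem_J N D hD hmul hanti _ _ hu _ _ (bm_mem N D K u) (bm_mem N D K v)
      have hex := expand N D K _ (by omega) (by omega) _ huv
      conv_rhs => rw [hex, Finset.sum_mul]
      have h2 : ∀ y, ((if dg N D K y = dg N D K u + dg N D K v then
          crd N D K y (bm N D K u * bm N D K v) else 0) • bm N D K y) * bm N D K w =
          (sc N D K u v y) • (bm N D K y * bm N D K w) := by
        intro y
        rw [smul_mul_assoc, sc]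
        by_cases h : dg N D K y = dg N D K u + dg N D K v
        · rw [if_pos h, if_pos h.symm]
        · rw [if_neg h, if_neg (fun h' => h h'.symm)]
      rw [Finset.sum_congr rfl (fun y _ => h2 y)]
      have hfil : ∑ y, sc N D K u v y • (bm N D K y * bm N D K w) =
          ∑ y ∈ Finset.univ.filter (fun y => dg N D K y = dg N D K u + dg N D K v),
            sc N D K u v y • (bm N D K y * bm N D K w) := by
        rw [Finset.sum_filter]
        refine Finset.sum_congr rfl fun y _ => ?_
        by_cases h : dg N D K y = dg N D K u + dg N D K v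
        · rw [if_pos h]
        · rw [if_neg h, sc, if_neg (fun h' => h h'.symm), zero_smul]
      rw [hfil, crd_sum]
      · rw [Finset.sum_filter]
        refine Finset.sum_congr rfl fun y _ => ?_
        by_cases h : dg N D K y = dg N D K u + dg N D K v
        · rw [if_pos h]
          congr 1
          rw [sc, if_pos (by omega)]
        · rw [if_neg h, sc, if_neg (fun h' => h h'.symm), zero_mul]
      · intro y hy
        rw [Finset.mem_filter] at hy
        rw [← hdeg, ← hy.2]
        exact mul_mem_J N D hD hmul hanti _ _ (dg_pos N D K y) _ _ (bm_mem N D K y)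
          (bm_mem N D K w)
    have h1' : ∑ y, sc N D K v w y * sc N D K u y z =
        crd N D K z (bm N D K u * (bm N D K v * bm N D K w)) := by
      have hvw : bm N D K v * bm N D K w ∈ J N D (dg N D K v + dg N D K w) :=
        mul_mem_J N D hD hmul hanti _ _ hv _ _ (bm_mem N D K v) (bm_mem N D K w)
      have hex := expand N D K _ (by omega) (by omega) _ hvw
      conv_rhs => rw [hex, Finset.mul_sum]
      have h2 : ∀ y, bm N D K u * ((if dg N D K y = dg N D K v + dg N D K w then
          crd N D K y (bm N D K v * bm N D K w) else 0) • bm N D K y) =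
          (sc N D K v w y) • (bm N D K u * bm N D K y) := by
        intro y
        rw [mul_smul_comm, sc]
        by_cases h : dg N D K y = dg N D K v + dg N D K w
        · rw [if_pos h, if_pos h.symm]
        · rw [if_neg h, if_neg (fun h' => h h'.symm)]
      rw [Finset.sum_congr rfl (fun y _ => h2 y)]
      have hfil : ∑ y, sc N D K v w y • (bm N D K u * bm N D K y) =
          ∑ y ∈ Finset.univ.filter (fun y => dg N D K y = dg N D K v + dg N D K w),
            sc N D K v w y • (bm N D K u * bm N D K y) := by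
        rw [Finset.sum_filter]
        refine Finset.sum_congr rfl fun y _ => ?_
        by_cases h : dg N D K y = dg N D K v + dg N D K w
        · rw [if_pos h]
        · rw [if_neg h, sc, if_neg (fun h' => h h'.symm), zero_smul]
      rw [hfil, crd_sum]
      · rw [Finset.sum_filter]
        refine Finset.sum_congr rfl fun y _ => ?_
        by_cases h : dg N D K y = dg N D K v + dg N D K w
        · rw [if_pos h]
          congr 1
          rw [sc, if_pos (by omega)]
        · rw [if_neg h, sc, if_neg (fun h' => h h'.symm), zero_mul]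
      · intro y hy
        rw [Finset.mem_filter] at hy
        rw [← hdeg, add_assoc, ← hy.2]
        exact mul_mem_J N D hD hmul hanti _ _ (dg_pos N D K u) _ _ (bm_mem N D K u)
          (bm_mem N D K y)
    rw [h1, h1', mul_assoc]
  · rw [Finset.sum_eq_zero, Finset.sum_eq_zero]
    · intro y _
      by_cases h : dg N D K v + dg N D K w = dg N D K y
      · by_cases h' : dg N D K u + dg N D K y = dg N D K z
        · omega
        · rw [sc, sc, if_neg h', mul_zero]
      · rw [sc, if_neg h, zero_mul]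
    · intro y _
      by_cases h : dg N D K u + dg N D K v = dg N D K y
      · by_cases h' : dg N D K y + dg N D K w = dg N D K z
        · omega
        · rw [sc, sc, if_neg h', mul_zero]
      · rw [sc, if_neg h, zero_mul]

/-- The graded ring of the filtered nilpotent ring. -/
noncomputable def galg : GAlg (Idx N D K) where
  deg := dg N D K
  c := sc N D K
  deg_pos := dg_pos N D K
  c_deg := by
    intro u v w h
    by_contra hne
    exact h (by rw [sc, if_neg hne])
  assoc := sc_assoc N D K hD hmul hanti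

/-- The real matrices of the basis. -/
noncomputable def rm (u : Idx N D K) : Matrix n n ℝ :=
  (bm N D K u).map (Int.castRingHom ℝ)

/-- The evaluation map. -/
noncomputable def ev (x : Idx N D K → ℝ) : Matrix n n ℝ :=
  1 + ∑ u, x u • rm N D K u

include hD hmul hanti in
theorem rm_mul (hzero : ∀ j, K < j → N j = ⊥) (u v : Idx N D K) :
    rm N D K u * rm N D K v = ∑ w, (sc N D K u v w : ℝ) • rm N D K w := by
  classical
  have h1 : rm N D K u * rm N D K v = (bm N D K u * bm N D K v).map (Int.castRingHom ℝ) := by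
    rw [Matrix.map_mul]; rfl
  have h2 : ∑ w, (sc N D K u v w : ℝ) • rm N D K w =
      (∑ w, sc N D K u v w • bm N D K w).map (Int.castRingHom ℝ) := by
    ext a b
    simp only [Matrix.sum_apply, Matrix.smul_apply, rm, Matrix.map_apply, smul_eq_mul,
      map_sum, map_mul, eq_intCast]
  rw [h1, h2]
  congr 1
  rcases le_or_gt (dg N D K u + dg N D K v) (D * K) with hle | hgt
  · have huv : bm N D K u * bm N D K v ∈ J N D (dg N D K u + dg N D K v) :=
      mul_mem_J N D hD hmul hanti _ _ (dg_pos N D K u) _ _ (bm_mem N D K u) (bm_mem N D K v)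
    conv_lhs => rw [expand N D K _ (by have := dg_pos N D K u; omega) hle _ huv]
    refine Finset.sum_congr rfl fun w _ => ?_
    rw [sc]
    by_cases h : dg N D K w = dg N D K u + dg N D K v
    · rw [if_pos h, if_pos h.symm]
    · rw [if_neg h, if_neg (fun h' => h h'.symm)]
  · have huv : bm N D K u * bm N D K v ∈ N (cdiv D (dg N D K u) + cdiv D (dg N D K v)) :=
      hmul _ _ _ _ (bm_mem N D K u) (bm_mem N D K v)
    have hlt : K < cdiv D (dg N D K u) + cdiv D (dg N D K v) :=
      (lt_cdiv D _ K hD hgt).trans_le (cdiv_add_le D _ _ hD)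
    rw [hzero _ hlt, Submodule.mem_bot] at huv
    rw [huv]
    symm
    refine Finset.sum_eq_zero fun w _ => ?_
    have := dg_le N D K w
    rw [sc, if_neg (by omega), zero_smul]

include hD hmul hanti in
theorem ev_mul (hzero : ∀ j, K < j → N j = ⊥) (x y : Idx N D K → ℝ) :
    ev N D K x * ev N D K y = ev N D K ((galg N D K hD hmul hanti).op x y) := by
  classical
  unfold ev GAlg.op
  rw [mul_add, add_mul, add_mul, one_mul, mul_one, one_mul]
  have h1 : (∑ u, x u • rm N D K u) * (∑ v, y v • rm N D K v) =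
      ∑ w, (∑ u, ∑ v, ((galg N D K hD hmul hanti).c u v w : ℝ) * (x u * y v)) • rm N D K w := by
    rw [Finset.sum_mul_sum]
    have h2 : ∀ u v, (x u • rm N D K u) * (y v • rm N D K v) =
        ∑ w, ((sc N D K u v w : ℝ) * (x u * y v)) • rm N D K w := by
      intro u v
      rw [smul_mul_assoc, mul_smul_comm, rm_mul N D K hD hmul hanti hzero, Finset.smul_sum,
        Finset.smul_sum]
      refine Finset.sum_congr rfl fun w _ => ?_
      rw [smul_smul, smul_smul]
      congr 1
      ring
    simp only [h2]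
    calc ∑ u, ∑ v, ∑ w, ((sc N D K u v w : ℝ) * (x u * y v)) • rm N D K w
        = ∑ u, ∑ w, ∑ v, ((sc N D K u v w : ℝ) * (x u * y v)) • rm N D K w := by
          refine Finset.sum_congr rfl fun u _ => Finset.sum_comm
      _ = ∑ w, ∑ u, ∑ v, ((sc N D K u v w : ℝ) * (x u * y v)) • rm N D K w := Finset.sum_comm
      _ = _ := by
          refine Finset.sum_congr rfl fun w _ => ?_
          rw [Finset.sum_smul]
          refine Finset.sum_congr rfl fun u _ => ?_
          rw [Finset.sum_smul]
          rfl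
  rw [h1]
  simp only [add_smul, Finset.sum_add_distrib]
  abel

/-- Real coordinates of an element of the real span of a layer of degree at most `D`. -/
theorem exists_coord (l : ℕ) (hl0 : 0 < l) (hl : l ≤ D * K) (p : Matrix n n ℝ)
    (hp : p ∈ Submodule.span ℝ
      ((fun a : Matrix n n ℤ => a.map (Int.castRingHom ℝ)) '' (J N D l : Set _))) :
    ∃ x : Idx N D K → ℝ, (∀ u, dg N D K u ≠ l → x u = 0) ∧ p = ∑ u, x u • rm N D K u := by
  classical
  refine Submodule.span_induction (p := fun p _ => ∃ x : Idx N D K → ℝ,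
    (∀ u, dg N D K u ≠ l → x u = 0) ∧ p = ∑ u, x u • rm N D K u) ?_ ?_ ?_ ?_ hp
  · rintro _ ⟨a, ha, rfl⟩
    refine ⟨fun w => if dg N D K w = l then (crd N D K w a : ℝ) else 0, fun u hu => if_neg hu, ?_⟩
    simp only
    conv_lhs => rw [expand N D K l hl0 hl a ha]
    ext i j
    simp only [Matrix.map_apply, Matrix.sum_apply, Matrix.smul_apply, rm, map_sum, smul_eq_mul,
      map_mul, eq_intCast]
    refine Finset.sum_congr rfl fun w _ => ?_
    by_cases h : dg N D K w = l
    · simp [h]
    · simp [h]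
  · exact ⟨0, fun _ _ => rfl, by simp⟩
  · rintro _ _ _ _ ⟨x, hx, rfl⟩ ⟨y, hy, rfl⟩
    refine ⟨x + y, fun u hu => by simp [hx u hu, hy u hu], ?_⟩
    simp [add_smul, Finset.sum_add_distrib]
  · rintro r _ _ ⟨x, hx, rfl⟩
    refine ⟨fun u => r * x u, fun u hu => by simp [hx u hu], ?_⟩
    simp [Finset.smul_sum, smul_smul]

end Nilp

open Nilp in
/-- Recurrence for polynomial curves in the group `1 + N ⊗ ℝ`, where `N` is a nilpotent ring of
integral matrices, filtered by `N 1 ⊇ N 2 ⊇ ...`. -/
theorem nilp_recurrence {n : Type} [Fintype n] [DecidableEq n] (N : ℕ → Submodule ℤ (Matrix n n ℤ)) (D K : ℕ)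
    (hD : 0 < D) (hK : 0 < K) (hmul : ∀ i j a b, a ∈ N i → b ∈ N j → a * b ∈ N (i + j))
    (hanti : ∀ i j, 0 < i → i ≤ j → N j ≤ N i) (hzero : ∀ j, K < j → N j = ⊥)
    (S : Set ℕ) (hS : TwoLarge S) (p : ℕ → Matrix n n ℝ)
    (hp : ∀ l, 0 < l → l ≤ D → p l ∈ Submodule.span ℝ
      ((fun a : Matrix n n ℤ => a.map (Int.castRingHom ℝ)) '' (N 1 : Set _)))
    (ε : ℝ) (hε : 0 < ε) :
    ∃ s ∈ S, ∃ γ ∈ N 1, ∀ i j, |((1 + ∑ l ∈ Finset.Icc 1 D, (s : ℝ) ^ l • p l) *
      (1 + γ.map (Int.castRingHom ℝ)) - 1) i j| < ε := by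
  classical
  set A := galg N D K hD hmul hanti with hA
  have hDK : D ≤ D * K := Nat.le_mul_of_pos_right D hK
  have hcoord : ∀ l, ∃ x : Idx N D K → ℝ, 0 < l → l ≤ D →
      (∀ u, dg N D K u ≠ l → x u = 0) ∧ p l = ∑ u, x u • rm N D K u := by
    intro l
    by_cases hl : 0 < l ∧ l ≤ D
    · obtain ⟨x, hx⟩ := exists_coord N D K l hl.1 (hl.2.trans hDK) (p l) (by
        have h1 := hp l hl.1 hl.2
        rwa [J, cdiv_eq_one D l hD hl.1 hl.2])
      exact ⟨x, fun _ _ => hx⟩
    · exact ⟨0, fun h1 h2 => absurd ⟨h1, h2⟩ hl⟩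
  choose X hX using hcoord
  set ξ : Idx N D K → ℝ := fun u => if dg N D K u ≤ D then X (dg N D K u) u else 0 with hξ
  have hcurve : ∀ s : ℝ, ev N D K (fun u => s ^ dg N D K u * ξ u) =
      1 + ∑ l ∈ Finset.Icc 1 D, s ^ l • p l := by
    intro s
    unfold ev
    congr 1
    have h1 : ∑ l ∈ Finset.Icc 1 D, s ^ l • p l =
        ∑ l ∈ Finset.Icc 1 D, ∑ u, (s ^ l * X l u) • rm N D K u := by
      refine Finset.sum_congr rfl fun l hl => ?_
      rw [Finset.mem_Icc] at hl
      conv_lhs => rw [(hX l (by omega) hl.2).2]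
      rw [Finset.smul_sum]
      refine Finset.sum_congr rfl fun u _ => ?_
      rw [smul_smul]
    rw [h1, Finset.sum_comm]
    refine Finset.sum_congr rfl fun u _ => ?_
    rw [← Finset.sum_smul]
    congr 1
    have hu := dg_pos N D K u
    by_cases hle : dg N D K u ≤ D
    · rw [Finset.sum_eq_single (dg N D K u)]
      · rw [hξ]; simp only [hle, if_true]
      · intro l hl hne
        rw [Finset.mem_Icc] at hl
        rw [(hX l (by omega) hl.2).1 u (fun h => hne h.symm), mul_zero]
      · intro h
        exact absurd (Finset.mem_Icc.2 ⟨hu, hle⟩) h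
    · rw [hξ]; simp only [hle, if_false, mul_zero]
      symm
      refine Finset.sum_eq_zero fun l hl => ?_
      rw [Finset.mem_Icc] at hl
      rw [(hX l (by omega) hl.2).1 u (by omega), mul_zero]
  -- the constant
  set C : ℝ := 1 + ∑ u, ∑ i, ∑ j, |rm N D K u i j| with hC
  have hC0 : 0 < C := add_pos_of_pos_of_nonneg one_pos
    (Finset.sum_nonneg fun u _ => Finset.sum_nonneg fun i _ => Finset.sum_nonneg fun j _ =>
      abs_nonneg _)
  have hεC : 0 < ε / C := div_pos hε hC0
  obtain ⟨s, hs, g, hg⟩ := A.main S hS ξ (ε / C) hεC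
  refine ⟨s, hs, ∑ u, g u • bm N D K u, ?_, ?_⟩
  · refine Submodule.sum_mem _ fun u _ => Submodule.smul_mem _ _ ?_
    exact hanti _ _ Nat.one_pos (cdiv_pos D _ hD (dg_pos N D K u)) (bm_mem N D K u)
  · intro i j
    have h1 : (1 + (∑ u, g u • bm N D K u).map (Int.castRingHom ℝ) :
        Matrix n n ℝ) = ev N D K (fun u => (g u : ℝ)) := by
      unfold ev
      congr 1
      ext a b
      simp only [Matrix.map_apply, Matrix.sum_apply, Matrix.smul_apply, rm, map_sum, smul_eq_mul,
        map_mul, eq_intCast]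
    rw [h1, ← hcurve, ev_mul N D K hD hmul hanti hzero]
    set z := A.op (fun u => (s : ℝ) ^ dg N D K u * ξ u) (fun u => (g u : ℝ)) with hz
    have h2 : (ev N D K z - 1) i j = ∑ u, z u * rm N D K u i j := by
      unfold ev
      rw [add_sub_cancel_left]
      simp [Matrix.sum_apply]
    show |(ev N D K z - 1) i j| < ε
    rw [h2]
    have hz' : ∀ u, |z u| < ε / C := hg
    calc |∑ u, z u * rm N D K u i j| ≤ ∑ u, |z u * rm N D K u i j| :=
          Finset.abs_sum_le_sum_abs _ _
      _ ≤ ∑ u, (ε / C) * ∑ i, ∑ j, |rm N D K u i j| := by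
          refine Finset.sum_le_sum fun u _ => ?_
          rw [abs_mul]
          have h3 : |rm N D K u i j| ≤ ∑ i, ∑ j, |rm N D K u i j| := by
            refine (Finset.single_le_sum (f := fun j => |rm N D K u i j|)
              (fun _ _ => abs_nonneg _) (Finset.mem_univ j)).trans ?_
            exact Finset.single_le_sum (f := fun i => ∑ j, |rm N D K u i j|)
              (fun _ _ => Finset.sum_nonneg fun _ _ => abs_nonneg _) (Finset.mem_univ i)
          exact mul_le_mul (hz' u).le h3 (abs_nonneg _) hεC.le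
      _ = (ε / C) * (C - 1) := by
          rw [← Finset.mul_sum, hC]; ring
      _ < ε := by
          rw [div_mul_eq_mul_div, div_lt_iff₀ hC0]
          nlinarith

end Pool.Agent.Lib.MP_87965e_co
end

section

set_option autoImplicit false

open Finset Polynomial

namespace Pool.Agent.Lib.MP_87965e_co

/-- The binomial polynomials. -/
noncomputable def binP (j : ℕ) : ℝ[X] := C (1 / (j.factorial : ℝ)) * descPochhammer ℝ j

theorem binP_eval_nat (j s : ℕ) : (binP j).eval (s : ℝ) = (s.choose j : ℝ) := by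
  rw [binP, eval_mul, eval_C, descPochhammer_eval_eq_descFactorial,
    Nat.descFactorial_eq_factorial_mul_choose]
  push_cast
  have : (j.factorial : ℝ) ≠ 0 := by exact_mod_cast j.factorial_ne_zero
  field_simp

theorem binP_zero : binP 0 = 1 := by simp [binP]

theorem natDegree_binP (j : ℕ) : (binP j).natDegree ≤ j := by
  refine (natDegree_C_mul_le _ _).trans ?_
  rw [descPochhammer_natDegree]

theorem binP_eval_zero (j : ℕ) (hj : 0 < j) : (binP j).eval 0 = 0 := by
  have := binP_eval_nat j 0
  rw [Nat.cast_zero] at this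
  rw [this, Nat.choose_eq_zero_of_lt hj, Nat.cast_zero]

variable {n : Type} [Fintype n] [DecidableEq n]

/-- The coefficients of the polynomial curve `t ↦ (1 + M) ^ (c t)`. -/
noncomputable def pcoef (K : ℕ) (M : Matrix n n ℝ) (c : ℝ) (l : ℕ) : Matrix n n ℝ :=
  ∑ j ∈ range (K + 1), (c ^ l * (binP j).coeff l) • M ^ j

theorem curve_eq (K : ℕ) (M : Matrix n n ℝ) (c t : ℝ) :
    1 + ∑ l ∈ Finset.Icc 1 K, t ^ l • pcoef K M c l =
      ∑ j ∈ range (K + 1), (binP j).eval (c * t) • M ^ j := by
  have h1 : ∀ j ∈ range (K + 1), (binP j).eval (c * t) • M ^ j =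
      ∑ l ∈ range (K + 1), (t ^ l * (c ^ l * (binP j).coeff l)) • M ^ j := by
    intro j hj
    rw [Finset.mem_range] at hj
    rw [← Finset.sum_smul, eval_eq_sum_range' (n := K + 1)
      (by have := natDegree_binP j; omega)]
    congr 1
    refine Finset.sum_congr rfl fun l _ => ?_
    rw [mul_pow]; ring
  rw [Finset.sum_congr rfl h1, Finset.sum_comm, Finset.sum_range_eq_add_Ico _ (by omega)]
  congr 1
  · rw [Finset.sum_eq_single 0]
    · simp [binP_zero]
    · intro j _ hj
      have : (binP j).coeff 0 = 0 := by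
        rw [coeff_zero_eq_eval_zero, binP_eval_zero j (by omega)]
      simp [this]
    · intro h; simp at h
  · have : Finset.Icc 1 K = Finset.Ico 1 (K + 1) := by
      ext x; simp
    rw [this]
    refine Finset.sum_congr rfl fun l _ => ?_
    rw [pcoef, Finset.smul_sum]
    refine Finset.sum_congr rfl fun j _ => ?_
    rw [smul_smul]

theorem pow_eq_sum (K : ℕ) (M : Matrix n n ℝ) (hM : M ^ (K + 1) = 0) (s : ℕ) :
    (1 + M) ^ s = ∑ j ∈ range (K + 1), (s.choose j : ℝ) • M ^ j := by
  have h1 : (1 + M) ^ s = ∑ j ∈ range (s + 1), (s.choose j : ℝ) • M ^ j := by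
    rw [add_comm, Commute.add_pow (Commute.one_right M)]
    refine Finset.sum_congr rfl fun j _ => ?_
    rw [one_pow, mul_one, ← nsmul_eq_mul', Nat.cast_smul_eq_nsmul]
  rw [h1]
  have hz : ∀ j, K < j → M ^ j = 0 := fun j hj => pow_eq_zero_of_le hj hM
  rcases le_total s K with h | h
  · refine Finset.sum_subset (Finset.range_mono (by omega)) fun j _ hj => ?_
    rw [Finset.mem_range, not_lt] at hj
    rw [Nat.choose_eq_zero_of_lt (by omega), Nat.cast_zero, zero_smul]
  · symm
    refine Finset.sum_subset (Finset.range_mono (by omega)) fun j _ hj => ?_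
    rw [Finset.mem_range, not_lt] at hj
    rw [hz j (by omega), smul_zero]

theorem pcoef_mem (K : ℕ) (M : Matrix n n ℝ) (c : ℝ) (l : ℕ) (hl : 0 < l)
    (V : Submodule ℝ (Matrix n n ℝ)) (hV : ∀ j, 0 < j → M ^ j ∈ V) : pcoef K M c l ∈ V := by
  refine Submodule.sum_mem _ fun j _ => ?_
  rcases Nat.eq_zero_or_pos j with rfl | hj
  · rw [binP_zero, coeff_one, if_neg (by omega), mul_zero, zero_smul]
    exact zero_mem _
  · exact Submodule.smul_mem _ _ (hV j hj)

end Pool.Agent.Lib.MP_87965e_co
end
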