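import Mathlib
import Pool.Agent.Lib.MP_87965e_co.Powers

section

set_option autoImplicit false

open Finset Polynomial

namespace Pool.Agent.Lib.MP_87965e_co

section PolyOn

variable {𝔾 : Type*} [Group 𝔾]

/-- The right difference operator. -/
def dR (g : 𝔾) (f : 𝔾 → ℝ) : 𝔾 → ℝ := fun x => f (x * g) - f x

/-- `f` is polynomial of degree at most `k` on the subgroup `H`. -/
def PolyOn (H : Subgroup 𝔾) : ℕ → (𝔾 → ℝ) → Prop
  | 0, f => ∀ x ∈ H, ∀ y ∈ H, f x = f y
  | k + 1, f => ∀ g ∈ H, PolyOn H k (dR g f)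

variable {H : Subgroup 𝔾}

theorem PolyOn.congr {k : ℕ} {f f' : 𝔾 → ℝ} (h : PolyOn H k f) (he : ∀ x ∈ H, f x = f' x) :
    PolyOn H k f' := by
  induction k generalizing f f' with
  | zero => intro x hx y hy; rw [← he x hx, ← he y hy]; exact h x hx y hy
  | succ k ih =>
    intro g hg
    refine ih (h g hg) fun x hx => ?_
    simp only [dR]
    rw [he x hx, he _ (H.mul_mem hx hg)]

theorem PolyOn.succ {k : ℕ} {f : 𝔾 → ℝ} (h : PolyOn H k f) : PolyOn H (k + 1) f := by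
  induction k generalizing f with
  | zero =>
    intro g hg x hx y hy
    simp only [dR]
    rw [h _ (H.mul_mem hx hg) x hx, h _ (H.mul_mem hy hg) y hy, sub_self, sub_self]
  | succ k ih => intro g hg; exact ih (h g hg)

theorem PolyOn.mono {k l : ℕ} {f : 𝔾 → ℝ} (h : PolyOn H k f) (hkl : k ≤ l) : PolyOn H l f := by
  induction hkl with
  | refl => exact h
  | step _ ih => exact ih.succ

theorem PolyOn.const (k : ℕ) (a : ℝ) : PolyOn H k (fun _ : 𝔾 => a) := by
  refine PolyOn.mono (k := 0) ?_ (Nat.zero_le k)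
  intro x _ y _; rfl

theorem PolyOn.add {k : ℕ} {f f' : 𝔾 → ℝ} (h : PolyOn H k f) (h' : PolyOn H k f') :
    PolyOn H k (fun x => f x + f' x) := by
  induction k generalizing f f' with
  | zero => intro x hx y hy; simp only; rw [h x hx y hy, h' x hx y hy]
  | succ k ih =>
    intro g hg
    refine (ih (h g hg) (h' g hg)).congr fun x _ => ?_
    simp only [dR]; ring

theorem PolyOn.smul {k : ℕ} {f : 𝔾 → ℝ} (h : PolyOn H k f) (a : ℝ) :
    PolyOn H k (fun x => a * f x) := by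
  induction k generalizing f with
  | zero => intro x hx y hy; simp only; rw [h x hx y hy]
  | succ k ih =>
    intro g hg
    refine (ih (h g hg)).congr fun x _ => ?_
    simp only [dR]; ring

theorem PolyOn.sub {k : ℕ} {f f' : 𝔾 → ℝ} (h : PolyOn H k f) (h' : PolyOn H k f') :
    PolyOn H k (fun x => f x - f' x) := by
  refine (h.add (h'.smul (-1))).congr fun x _ => ?_
  ring

theorem PolyOn.sum {k : ℕ} {α : Type*} (s : Finset α) (f : α → 𝔾 → ℝ)
    (h : ∀ a ∈ s, PolyOn H k (f a)) : PolyOn H k (fun x => ∑ a ∈ s, f a x) := by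
  classical
  induction s using Finset.induction_on with
  | empty => simpa using PolyOn.const k 0
  | insert a s ha ih =>
    refine ((h a (Finset.mem_insert_self _ _)).add
      (ih fun b hb => h b (Finset.mem_insert_of_mem hb))).congr fun x _ => ?_
    rw [Finset.sum_insert ha]

theorem PolyOn.mul {k l : ℕ} {f f' : 𝔾 → ℝ} (h : PolyOn H k f) (h' : PolyOn H l f') :
    PolyOn H (k + l) (fun x => f x * f' x) := by
  have key : ∀ m k l : ℕ, k + l ≤ m → ∀ f f' : 𝔾 → ℝ, PolyOn H k f → PolyOn H l f' →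
      PolyOn H (k + l) (fun x => f x * f' x) := by
    intro m
    induction m with
    | zero =>
      intro k l hkl f f' h h'
      obtain rfl : k = 0 := by omega
      obtain rfl : l = 0 := by omega
      intro x hx y hy
      simp only
      rw [h x hx y hy, h' x hx y hy]
    | succ m ih =>
      intro k l hkl f f' h h'
      rcases Nat.eq_zero_or_pos k with rfl | hk
      · rcases Nat.eq_zero_or_pos l with rfl | hl
        · intro x hx y hy
          simp only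
          rw [h x hx y hy, h' x hx y hy]
        · obtain ⟨l', rfl⟩ : ∃ l', l = l' + 1 := ⟨l - 1, by omega⟩
          intro g hg
          refine (ih 0 l' (by omega) f (dR g f') h (h' g hg)).congr fun x hx => ?_
          simp only [dR]
          rw [h _ (H.mul_mem hx hg) x hx]
          ring
      · obtain ⟨k', rfl⟩ : ∃ k', k = k' + 1 := ⟨k - 1, by omega⟩
        rcases Nat.eq_zero_or_pos l with rfl | hl
        · intro g hg
          refine (ih k' 0 (by omega) (dR g f) f' (h g hg) h').congr fun x hx => ?_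
          simp only [dR]
          rw [h' _ (H.mul_mem hx hg) x hx]
          ring
        · obtain ⟨l', rfl⟩ : ∃ l', l = l' + 1 := ⟨l - 1, by omega⟩
          have e : k' + 1 + (l' + 1) = (k' + l' + 1) + 1 := by ring
          rw [e]
          intro g hg
          have h1 := ih k' (l' + 1) (by omega) (dR g f) f' (h g hg) h'
          have h2 := ih (k' + 1) l' (by omega) f (dR g f') h (h' g hg)
          have h3 := ih k' l' (by omega) (dR g f) (dR g f') (h g hg) (h' g hg)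
          have e1 : k' + (l' + 1) = k' + l' + 1 := by ring
          have e2 : k' + 1 + l' = k' + l' + 1 := by ring
          rw [e1] at h1
          rw [e2] at h2
          refine ((h1.add h2).add h3.succ).congr fun x _ => ?_
          simp only [dR]
          ring
  exact key _ k l le_rfl f f' h h'

theorem PolyOn.mono_subgroup {H' : Subgroup 𝔾} {k : ℕ} {f : 𝔾 → ℝ} (h : PolyOn H k f)
    (hH : H' ≤ H) : PolyOn H' k f := by
  induction k generalizing f with
  | zero => intro x hx y hy; exact h x (hH hx) y (hH hy)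
  | succ k ih => intro g hg; exact ih (h g (hH hg))

theorem PolyOn.left {k : ℕ} {f : 𝔾 → ℝ} (h : PolyOn H k f) (a : 𝔾) (ha : a ∈ H) :
    PolyOn H k (fun x => f (a * x)) := by
  induction k generalizing f with
  | zero =>
    intro x hx y hy
    exact h _ (H.mul_mem ha hx) _ (H.mul_mem ha hy)
  | succ k ih =>
    intro g hg
    refine (ih (h g hg)).congr fun x _ => ?_
    simp only [dR, mul_assoc]

theorem PolyOn.dR_left {k : ℕ} {f : 𝔾 → ℝ} (h : PolyOn H (k + 1) f) (a : 𝔾) (ha : a ∈ H) :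
    PolyOn H k (fun x => f (a * x) - f x) := by
  induction k generalizing f with
  | zero =>
    intro x hx y hy
    -- the right differences are constant
    have h1 : ∀ z ∈ H, f (z * y) - f z = f (1 * y) - f 1 := by
      intro z hz
      have := h y hy z hz 1 H.one_mem
      simpa [dR] using this
    have h2 : ∀ z ∈ H, f (z * x) - f z = f (1 * x) - f 1 := by
      intro z hz
      have := h x hx z hz 1 H.one_mem
      simpa [dR] using this
    have h3 := h1 a ha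
    have h4 := h2 a ha
    rw [one_mul] at h3 h4
    simp only
    linarith
  | succ k ih =>
    intro g hg
    refine (ih (h g hg)).congr fun x _ => ?_
    simp only [dR, mul_assoc]
    ring

theorem PolyOn.zero_left {f : 𝔾 → ℝ} (h : PolyOn H 0 f) (a : 𝔾) (ha : a ∈ H) (x : 𝔾)
    (hx : x ∈ H) : f (a * x) - f x = 0 := by
  rw [h _ (H.mul_mem ha hx) x hx, sub_self]

theorem PolyOn.inv {k : ℕ} {f : 𝔾 → ℝ} (h : PolyOn H k f) (a : 𝔾) (ha : a ∈ H) :
    PolyOn H k (fun x => f (x⁻¹ * a)) := by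
  induction k generalizing f with
  | zero =>
    intro x hx y hy
    exact h _ (H.mul_mem (H.inv_mem hx) ha) _ (H.mul_mem (H.inv_mem hy) ha)
  | succ k ih =>
    intro g hg
    refine (ih (h.dR_left g⁻¹ (H.inv_mem hg))).congr fun x _ => ?_
    simp only [dR, mul_inv_rev, mul_assoc]

theorem PolyOn.of_hom {f : 𝔾 → ℝ} (h : ∀ x ∈ H, ∀ y ∈ H, f (x * y) = f x + f y) :
    PolyOn H 1 f := by
  intro g hg x hx y hy
  simp only [dR]
  rw [h x hx g hg, h y hy g hg]
  ring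

theorem PolyOn.poly {f : 𝔾 → ℝ} {k : ℕ} (h : PolyOn H k f) (p : ℝ[X]) :
    PolyOn H (k * p.natDegree) (fun x => p.eval (f x)) := by
  have hpow : ∀ j : ℕ, PolyOn H (k * j) (fun x => f x ^ j) := by
    intro j
    induction j with
    | zero => simpa using PolyOn.const 0 1
    | succ j ih =>
      have := ih.mul h
      rw [← Nat.mul_succ] at this
      exact this.congr fun x _ => by rw [pow_succ]
  have : ∀ x, p.eval (f x) = ∑ j ∈ range (p.natDegree + 1), p.coeff j * f x ^ j :=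
    fun x => eval_eq_sum_range (f x)
  simp only [this]
  refine PolyOn.sum _ _ fun j hj => ?_
  refine PolyOn.mono ((hpow j).smul (p.coeff j)) ?_
  exact Nat.mul_le_mul_left k (by rw [Finset.mem_range] at hj; omega)

end PolyOn

section OneVar

/-- Pascal's rule for the binomial polynomials. -/
theorem binP_pascal (a : ℕ) (x : ℝ) :
    (binP (a + 1)).eval (x + 1) - (binP (a + 1)).eval x = (binP a).eval x := by
  have h : (binP (a + 1)).comp (X + 1) - binP (a + 1) = binP a := by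
    apply Polynomial.eq_of_infinite_eval_eq
    apply Set.infinite_of_injective_forall_mem (f := fun i : ℕ => (i : ℝ)) Nat.cast_injective
    intro i
    simp only [Set.mem_ofPred_eq, eval_sub, eval_comp, eval_add, eval_X, eval_one]
    have h1 := binP_eval_nat (a + 1) (i + 1)
    push_cast at h1
    rw [h1, binP_eval_nat, binP_eval_nat, Nat.choose_succ_succ]
    push_cast
    ring
  have := congrArg (Polynomial.eval x) h
  simpa [eval_comp] using this

/-- The iterated forward difference on `ℤ`. -/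
def fd (φ : ℤ → ℝ) : ℕ → ℤ → ℝ
  | 0 => φ
  | k + 1 => fun m => fd φ k (m + 1) - fd φ k m

theorem fd_shift (φ : ℤ → ℝ) (k : ℕ) : fd (fun m => φ (m + 1) - φ m) k = fd φ (k + 1) := by
  induction k with
  | zero => rfl
  | succ k ih =>
    funext m
    show fd (fun m => φ (m + 1) - φ m) k (m + 1) - fd (fun m => φ (m + 1) - φ m) k m = _
    rw [ih]; rfl

theorem eq_of_diff_eq (φ ψ : ℤ → ℝ) (h0 : φ 0 = ψ 0)
    (h : ∀ m, φ (m + 1) - φ m = ψ (m + 1) - ψ m) : φ = ψ := by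
  funext m
  induction m using Int.induction_on with
  | zero => exact h0
  | succ i ih => have := h i; linarith
  | pred i ih =>
    have := h (-(i : ℤ) - 1)
    simp only [sub_add_cancel] at this
    linarith

/-- Newton's formula on `ℤ`. -/
theorem newton_int (k : ℕ) (φ : ℤ → ℝ) (h : ∀ m, fd φ (k + 1) m = 0) (m : ℤ) :
    φ m = ∑ a ∈ range (k + 1), (binP a).eval (m : ℝ) * fd φ a 0 := by
  induction k generalizing φ m with
  | zero =>
    have h1 : φ = fun _ => φ 0 := by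
      apply eq_of_diff_eq
      · rfl
      · intro m
        have := h m
        simp only [fd] at this
        rw [this, sub_self]
    rw [Finset.sum_range_one, binP_zero]
    simp only [fd, eval_one, one_mul]
    rw [h1]
  | succ k ih =>
    have h1 := ih (fun m => φ (m + 1) - φ m) (by
      intro m
      rw [fd_shift]
      exact h m)
    have h2 : φ = fun m : ℤ => ∑ a ∈ range (k + 1 + 1), (binP a).eval (m : ℝ) * fd φ a 0 := by
      apply eq_of_diff_eq
      · rw [Finset.sum_range_succ', Finset.sum_eq_zero]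
        · simp [binP_zero, fd]
        · intro a _
          rw [Int.cast_zero, binP_eval_zero (a + 1) (by omega), zero_mul]
      · intro m
        have h3 := h1 m
        rw [h3, ← Finset.sum_sub_distrib, Finset.sum_range_succ' (n := k + 1)]
        simp only [binP_zero, eval_one, sub_self, add_zero]
        refine Finset.sum_congr rfl fun a _ => ?_
        rw [← sub_mul]
        push_cast
        rw [binP_pascal, fd_shift]
    exact congrFun h2 m

theorem fd_eq_sum (φ : ℤ → ℝ) (a : ℕ) (m : ℤ) :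
    fd φ a m = ∑ c ∈ range (a + 1), ((-1 : ℝ) ^ (a - c) * (a.choose c : ℝ)) * φ (m + c) := by
  have h1 : ∀ a m, fd φ a m = (fwdDiff (1 : ℤ))^[a] φ m := by
    intro a
    induction a with
    | zero => intro m; rfl
    | succ a ih =>
      intro m
      rw [Function.iterate_succ_apply', fwdDiff]
      show fd φ a (m + 1) - fd φ a m = _
      rw [ih, ih]
  rw [h1, fwdDiff_iter_eq_sum_shift]
  refine Finset.sum_congr rfl fun c _ => ?_
  simp [zsmul_eq_mul]

variable {𝔾 : Type*} [Group 𝔾] {H : Subgroup 𝔾}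

/-- Restriction of a polynomial function to a cyclic coset. -/
theorem PolyOn.fd_eq_zero {k : ℕ} {f : 𝔾 → ℝ} (h : PolyOn H k f) (x g : 𝔾) (hx : x ∈ H)
    (hg : g ∈ H) (m : ℤ) : fd (fun m => f (x * g ^ m)) (k + 1) m = 0 := by
  induction k generalizing f m with
  | zero =>
    show f (x * g ^ (m + 1)) - f (x * g ^ m) = 0
    rw [h _ (H.mul_mem hx (H.zpow_mem hg _)) _ (H.mul_mem hx (H.zpow_mem hg _)), sub_self]
  | succ k ih =>
    rw [← fd_shift]
    have h1 := ih (h g hg) m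
    have h2 : (fun m : ℤ => f (x * g ^ (m + 1)) - f (x * g ^ m)) =
        fun m : ℤ => dR g f (x * g ^ m) := by
      funext m
      simp only [dR, zpow_add_one, mul_assoc]
    rw [h2]
    exact h1

/-- Newton's formula along left multiplication by powers. -/
theorem PolyOn.newton_left {k : ℕ} {f : 𝔾 → ℝ} (h : PolyOn H k f) (γ x : 𝔾) (hγ : γ ∈ H)
    (hx : x ∈ H) (m : ℤ) : f (γ ^ m * x) = ∑ a ∈ range (k + 1), (binP a).eval (m : ℝ) *
      ∑ c ∈ range (a + 1), ((-1 : ℝ) ^ (a - c) * (a.choose c : ℝ)) * f (γ ^ (c : ℤ) * x) := by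
  have hconj : ∀ j : ℤ, γ ^ j * x = x * (x⁻¹ * γ * x) ^ j := by
    intro j
    have h1 : (x⁻¹ * γ * x) ^ j = x⁻¹ * γ ^ j * x := by
      have := conj_zpow (a := x⁻¹) (b := γ) (i := j)
      rw [inv_inv] at this
      exact this
    rw [h1]; group
  have hg : x⁻¹ * γ * x ∈ H := H.mul_mem (H.mul_mem (H.inv_mem hx) hγ) hx
  have h1 := newton_int k (fun m => f (x * (x⁻¹ * γ * x) ^ m)) (h.fd_eq_zero x _ hx hg) m
  rw [← hconj] at h1
  rw [h1]
  refine Finset.sum_congr rfl fun a _ => ?_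
  congr 1
  rw [fd_eq_sum]
  refine Finset.sum_congr rfl fun c _ => ?_
  rw [zero_add, ← hconj]

/-- If a polynomial function vanishes on infinitely many members of a cyclic coset, it vanishes
on the coset. -/
theorem PolyOn.eq_zero_of_infinite {k : ℕ} {f : 𝔾 → ℝ} (h : PolyOn H k f) (γ x : 𝔾) (hγ : γ ∈ H)
    (hx : x ∈ H) (hinf : {m : ℤ | f (γ ^ m * x) = 0}.Infinite) (m : ℤ) : f (γ ^ m * x) = 0 := by
  set Q : ℝ[X] := ∑ a ∈ range (k + 1), C (∑ c ∈ range (a + 1),
    ((-1 : ℝ) ^ (a - c) * (a.choose c : ℝ)) * f (γ ^ (c : ℤ) * x)) * binP a with hQ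
  have hev : ∀ m : ℤ, Q.eval (m : ℝ) = f (γ ^ m * x) := by
    intro m
    rw [h.newton_left γ x hγ hx m, hQ, eval_finsetSum]
    refine Finset.sum_congr rfl fun a _ => ?_
    rw [eval_mul, eval_C, mul_comm]
  have h0 : Q = 0 := by
    apply Polynomial.eq_zero_of_infinite_isRoot
    refine Set.Infinite.mono ?_ (hinf.image (f := fun m : ℤ => (m : ℝ))
      (fun a _ b _ hab => Int.cast_injective hab))
    rintro _ ⟨m, hm, rfl⟩
    show Q.eval _ = 0
    rw [hev]
    exact hm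
  rw [← hev, h0, eval_zero]

/-- If a polynomial function of degree at most `k` vanishes on `k + 1` consecutive members of a
cyclic coset, it vanishes on the coset. -/
theorem PolyOn.eq_zero_of_range {k : ℕ} {f : 𝔾 → ℝ} (h : PolyOn H k f) (γ x : 𝔾) (hγ : γ ∈ H)
    (hx : x ∈ H) (h0 : ∀ a : ℕ, a ≤ k → f (γ ^ (a : ℤ) * x) = 0) (m : ℤ) :
    f (γ ^ m * x) = 0 := by
  rw [h.newton_left γ x hγ hx m]
  refine Finset.sum_eq_zero fun a ha => ?_
  rw [Finset.sum_eq_zero, mul_zero]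
  intro c hc
  rw [Finset.mem_range] at ha hc
  rw [h0 c (by omega), mul_zero]

end OneVar

end Pool.Agent.Lib.MP_87965e_co
end

section

set_option autoImplicit false

open Finset Polynomial
open scoped commutatorElement

namespace Pool.Agent.Lib.MP_87965e_co

variable {𝔾 : Type*} [Group 𝔾]

/-- The lower central series. -/
abbrev lcs (𝔾 : Type*) [Group 𝔾] (j : ℕ) : Subgroup 𝔾 :=
  (⊤ : Subgroup 𝔾).lowerCentralSeries j

/-- Weighted degree less than `w` on `N`, where elements of the `j`-th term of the lower central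
series have weight `j + 1`. -/
inductive WD (N : Subgroup 𝔾) : ℕ → (𝔾 → ℝ) → Prop
  | zero (f : 𝔾 → ℝ) (h : ∀ x ∈ N, f x = 0) : WD N 0 f
  | succ (w : ℕ) (f : 𝔾 → ℝ)
      (h : ∀ j : ℕ, ∀ n ∈ N, n ∈ lcs 𝔾 j → WD N (w - j) (dR n f)) : WD N (w + 1) f

variable {N : Subgroup 𝔾}

theorem WD.zero' {f : 𝔾 → ℝ} (h : WD N 0 f) : ∀ x ∈ N, f x = 0 := by
  cases h with
  | zero _ h => exact h

theorem WD.succ' {w : ℕ} {f : 𝔾 → ℝ} (h : WD N (w + 1) f) :
    ∀ j : ℕ, ∀ n ∈ N, n ∈ lcs 𝔾 j → WD N (w - j) (dR n f) := by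
  cases h with
  | succ _ _ h => exact h

theorem WD.congr {w : ℕ} {f f' : 𝔾 → ℝ} (h : WD N w f) (he : ∀ x ∈ N, f x = f' x) :
    WD N w f' := by
  induction w using Nat.strong_induction_on generalizing f f' with
  | _ w ih =>
    cases w with
    | zero => exact WD.zero _ fun x hx => by rw [← he x hx]; exact h.zero' x hx
    | succ w =>
      refine WD.succ _ _ fun j n hn hj => ?_
      refine ih (w - j) (by omega) (h.succ' j n hn hj) fun x hx => ?_
      simp only [dR]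
      rw [he x hx, he _ (N.mul_mem hx hn)]

theorem WD.of_zero {f : 𝔾 → ℝ} (w : ℕ) (h : ∀ x ∈ N, f x = 0) : WD N w f := by
  induction w using Nat.strong_induction_on generalizing f with
  | _ w ih =>
    cases w with
    | zero => exact WD.zero _ h
    | succ w =>
      refine WD.succ _ _ fun j n hn _ => ?_
      refine ih (w - j) (by omega) fun x hx => ?_
      simp only [dR]
      rw [h x hx, h _ (N.mul_mem hx hn), sub_zero]

theorem WD.up {w : ℕ} {f : 𝔾 → ℝ} (h : WD N w f) : WD N (w + 1) f := by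
  induction w using Nat.strong_induction_on generalizing f with
  | _ w ih =>
    cases w with
    | zero => exact WD.of_zero _ h.zero'
    | succ w =>
      refine WD.succ _ _ fun j n hn hj => ?_
      have h1 := h.succ' j n hn hj
      rcases le_or_gt j w with hjw | hjw
      · have h2 := ih (w - j) (by omega) h1
        have e : w + 1 - j = w - j + 1 := by omega
        rw [e]; exact h2
      · have e : w + 1 - j = w - j := by omega
        rw [e]; exact h1

theorem WD.mono {w w' : ℕ} {f : 𝔾 → ℝ} (h : WD N w f) (hw : w ≤ w') : WD N w' f := by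
  induction hw with
  | refl => exact h
  | step _ ih => exact ih.up

theorem WD.add {w : ℕ} {f f' : 𝔾 → ℝ} (h : WD N w f) (h' : WD N w f') :
    WD N w (fun x => f x + f' x) := by
  induction w using Nat.strong_induction_on generalizing f f' with
  | _ w ih =>
    cases w with
    | zero => exact WD.zero _ fun x hx => by rw [h.zero' x hx, h'.zero' x hx, add_zero]
    | succ w =>
      refine WD.succ _ _ fun j n hn hj => ?_
      refine (ih (w - j) (by omega) (h.succ' j n hn hj) (h'.succ' j n hn hj)).congr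
        fun x _ => ?_
      simp only [dR]; ring

theorem WD.right {w : ℕ} {f : 𝔾 → ℝ} (h : WD N w f) (n : 𝔾) (hn : n ∈ N) :
    WD N w (fun x => f (x * n)) := by
  cases w with
  | zero => exact WD.zero _ fun x hx => h.zero' _ (N.mul_mem hx hn)
  | succ w =>
    have h1 := h.succ' 0 n hn (by simp)
    refine (h.add (h1.mono (by omega))).congr fun x _ => ?_
    simp only [dR]; ring

theorem lcs_conj {j : ℕ} {n : 𝔾} (c : 𝔾) (hn : n ∈ lcs 𝔾 j) :
    c⁻¹ * n * c ∈ lcs 𝔾 j := by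
  have h := (inferInstance : (lcs 𝔾 j).Normal).conj_mem n hn c⁻¹
  rwa [inv_inv] at h

theorem WD.conj {w : ℕ} {f : 𝔾 → ℝ} (h : WD N w f) (c : 𝔾)
    (hc : ∀ n ∈ N, c⁻¹ * n * c ∈ N) : WD N w (fun x => f (c⁻¹ * x * c)) := by
  induction w using Nat.strong_induction_on generalizing f with
  | _ w ih =>
    cases w with
    | zero => exact WD.zero _ fun x hx => h.zero' _ (hc x hx)
    | succ w =>
      refine WD.succ _ _ fun j n hn hj => ?_
      refine (ih (w - j) (by omega) (h.succ' j _ (hc n hn) (lcs_conj c hj))).congr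
        fun x _ => ?_
      simp only [dR]
      congr 2
      group

theorem WD.conj_sub {w : ℕ} {f : 𝔾 → ℝ} (h : WD N (w + 1) f) (c : 𝔾)
    (hc : ∀ n ∈ N, c⁻¹ * n * c ∈ N) : WD N w (fun x => f (c⁻¹ * x * c) - f x) := by
  induction w using Nat.strong_induction_on generalizing f with
  | _ w ih =>
    cases w with
    | zero =>
      refine WD.zero _ fun x hx => ?_
      have h1 := (h.succ' 0 (x⁻¹ * (c⁻¹ * x * c)) (N.mul_mem (N.inv_mem hx) (hc x hx))
        (by simp)).zero' x hx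
      simp only [dR] at h1
      rwa [mul_inv_cancel_left] at h1
    | succ w =>
      refine WD.succ _ _ fun j n hn hj => ?_
      set z := n⁻¹ * (c⁻¹ * n * c) with hz
      have hzN : z ∈ N := N.mul_mem (N.inv_mem hn) (hc n hn)
      have hzj : z ∈ lcs 𝔾 (j + 1) := by
        have h1 : z = ⁅n⁻¹, c⁻¹⁆ := by
          rw [hz, commutatorElement_def]; group
        rw [h1]
        exact Subgroup.commutator_mem_commutator (inv_mem hj) (Subgroup.mem_top _)
      have hg := h.succ' j n hn hj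
      have hzd := h.succ' (j + 1) z hzN hzj
      have e1 : w + 1 - (j + 1) = w - j := by omega
      rw [e1] at hzd
      have h2 : WD N (w - j) (fun x => dR z f (c⁻¹ * x * c * n)) :=
        (hzd.right n hn).conj c hc
      have h3 : WD N (w - j) (fun x => dR n f (c⁻¹ * x * c) - dR n f x) := by
        rcases le_or_gt j w with hjw | hjw
        · have e2 : w + 1 - j = w - j + 1 := by omega
          rw [e2] at hg
          exact ih (w - j) (by omega) hg
        · have e2 : w + 1 - j = 0 := by omega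
          rw [e2] at hg
          refine WD.of_zero _ fun x hx => ?_
          rw [hg.zero' _ (hc x hx), hg.zero' x hx, sub_zero]
      refine (h3.add h2).congr fun x _ => ?_
      simp only [dR]
      have e3 : c⁻¹ * x * c * n * z = c⁻¹ * (x * n) * c := by
        rw [hz]; group
      rw [e3]
      ring

theorem PolyOn.wd {d : ℕ} (hd : lcs 𝔾 d = ⊥) {k : ℕ} {f : 𝔾 → ℝ}
    (h : PolyOn N k f) : WD N (d * k + 1) f := by
  induction k generalizing f with
  | zero =>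
    refine WD.succ _ _ fun j n hn _ => ?_
    refine WD.of_zero _ fun x hx => ?_
    simp only [dR]
    rw [h _ (N.mul_mem hx hn) x hx, sub_self]
  | succ k ih =>
    refine WD.succ _ _ fun j n hn hj => ?_
    rcases lt_or_ge j d with hjd | hjd
    · refine (ih (h n hn)).mono ?_
      rw [Nat.mul_succ]
      omega
    · refine WD.of_zero _ fun x hx => ?_
      have h1 : n ∈ lcs 𝔾 d := (⊤ : Subgroup 𝔾).lowerCentralSeries_antitone hjd hj
      rw [hd, Subgroup.mem_bot] at h1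
      simp only [dR]
      rw [h1, mul_one, sub_self]

/-- All `w`-fold differences vanish. -/
def PZ (H : Subgroup 𝔾) : ℕ → (𝔾 → ℝ) → Prop
  | 0, f => ∀ x ∈ H, f x = 0
  | w + 1, f => ∀ g ∈ H, PZ H w (dR g f)

theorem PZ.congr {H : Subgroup 𝔾} {w : ℕ} {f f' : 𝔾 → ℝ} (h : PZ H w f)
    (he : ∀ x ∈ H, f x = f' x) : PZ H w f' := by
  induction w generalizing f f' with
  | zero => intro x hx; rw [← he x hx]; exact h x hx
  | succ w ih =>
    intro g hg
    refine ih (h g hg) fun x hx => ?_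
    simp only [dR]
    rw [he x hx, he _ (H.mul_mem hx hg)]

theorem PZ.polyOn {H : Subgroup 𝔾} {k : ℕ} {f : 𝔾 → ℝ} (h : PZ H (k + 1) f) : PolyOn H k f := by
  induction k generalizing f with
  | zero =>
    intro x hx y hy
    have h1 := h (x⁻¹ * y) (H.mul_mem (H.inv_mem hx) hy) x hx
    simp only [dR, mul_inv_cancel_left] at h1
    linarith
  | succ k ih => intro g hg; exact ih (h g hg)

/-- The semidirect product lemma. -/
theorem WD.pz {H : Subgroup 𝔾} (cc : 𝔾 → 𝔾)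
    (hnn : ∀ x ∈ H, (cc x)⁻¹ * x ∈ N) (hmul : ∀ x ∈ H, ∀ y ∈ H, cc (x * y) = cc x * cc y)
    (hnorm : ∀ g ∈ H, ∀ n ∈ N, (cc g)⁻¹ * n * cc g ∈ N) {w : ℕ} {F : 𝔾 → ℝ} (h : WD N w F) :
    PZ H w (fun x => F ((cc x)⁻¹ * x)) := by
  induction w generalizing F with
  | zero => intro x hx; exact h.zero' _ (hnn x hx)
  | succ w ih =>
    intro g hg
    set c := cc g with hc
    set n := (cc g)⁻¹ * g with hn
    have hnN : n ∈ N := hnn g hg
    have h1 : WD N w (fun y => F (c⁻¹ * y * c * n) - F (y * n)) :=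
      (h.right n hnN).conj_sub c (hnorm g hg)
    have h2 : WD N w (dR n F) := h.succ' 0 n hnN (by simp)
    refine (ih (h1.add h2)).congr fun x hx => ?_
    simp only [dR]
    have e : (cc (x * g))⁻¹ * (x * g) = c⁻¹ * ((cc x)⁻¹ * x) * c * n := by
      rw [hmul x hx g hg, hn, hc]; group
    rw [e]
    ring

/-- Extension of polynomial functions from the normal part. -/
theorem PolyOn.semi {d : ℕ} (hd : lcs 𝔾 d = ⊥) {H : Subgroup 𝔾} (cc : 𝔾 → 𝔾)
    (hnn : ∀ x ∈ H, (cc x)⁻¹ * x ∈ N) (hmul : ∀ x ∈ H, ∀ y ∈ H, cc (x * y) = cc x * cc y)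
    (hnorm : ∀ g ∈ H, ∀ n ∈ N, (cc g)⁻¹ * n * cc g ∈ N) {k : ℕ} {F : 𝔾 → ℝ}
    (h : PolyOn N k F) : PolyOn H (d * k) (fun x => F ((cc x)⁻¹ * x)) :=
  ((h.wd hd).pz cc hnn hmul hnorm).polyOn

end Pool.Agent.Lib.MP_87965e_co
end

section

set_option autoImplicit false

open Finset Polynomial Topology

namespace Pool.Agent.Lib.MP_87965e_co

variable {G : Type*} [TopologicalSpace G] [Group G] [IsTopologicalGroup G]

theorem continuous_pinv : Continuous (fun p : C(ℝ, G) => p⁻¹) := by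
  have h : (fun p : C(ℝ, G) => p⁻¹) =
      fun p : C(ℝ, G) => (⟨fun x => x⁻¹, continuous_inv⟩ : C(G, G)).comp p := by
    funext p; ext s; rfl
  rw [h]
  exact ContinuousMap.continuous_postcomp _

/-- Paths in `N` (indexed by the real line) starting in `Γ`. -/
def Lp (Γ N : Subgroup G) : Subgroup C(ℝ, G) where
  carrier := {p | p 0 ∈ Γ ∧ ∀ s, p s ∈ N}
  mul_mem' := fun ha hb => ⟨Γ.mul_mem ha.1 hb.1, fun s => N.mul_mem (ha.2 s) (hb.2 s)⟩
  one_mem' := ⟨Γ.one_mem, fun _ => N.one_mem⟩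
  inv_mem' := fun ha => ⟨Γ.inv_mem ha.1, fun s => N.inv_mem (ha.2 s)⟩

theorem mem_Lp {Γ N : Subgroup G} {p : C(ℝ, G)} : p ∈ Lp Γ N ↔ p 0 ∈ Γ ∧ ∀ s, p s ∈ N :=
  Iff.rfl

/-- Homotopy inside `L` relative to the endpoint at time `1`. -/
def Hmt (L : Subgroup C(ℝ, G)) (p q : C(ℝ, G)) : Prop :=
  ∃ h : ℝ → C(ℝ, G), Continuous h ∧ (∀ u, h u ∈ L) ∧ h 0 = p ∧ h 1 = q ∧ ∀ u, h u 1 = p 1

/-- A continuous homotopy invariant polynomial function. -/
structure Nice (L : Subgroup C(ℝ, G)) (k : ℕ) (f : C(ℝ, G) → ℝ) : Prop where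
  poly : PolyOn L k f
  cont : ContinuousOn f L
  hinv : ∀ p q, Hmt L p q → f p = f q

/-- Moreover invariant under the constant paths in `Γ`. -/
structure Good (Γ : Subgroup G) (L : Subgroup C(ℝ, G)) (k : ℕ) (f : C(ℝ, G) → ℝ) : Prop
    extends Nice L k f where
  ginv : ∀ p ∈ L, ∀ γ ∈ Γ, f (p * ContinuousMap.const ℝ γ) = f p

theorem const_mem_Lp {Γ N : Subgroup G} (h : Γ ≤ N) (γ : G) (hγ : γ ∈ Γ) :
    ContinuousMap.const ℝ γ ∈ Lp Γ N := ⟨hγ, fun _ => h hγ⟩

section Closure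

variable {L : Subgroup C(ℝ, G)}

theorem Hmt.mem {p q : C(ℝ, G)} (h : Hmt L p q) : p ∈ L ∧ q ∈ L := by
  obtain ⟨h, _, hm, h0, h1, _⟩ := h
  exact ⟨h0 ▸ hm 0, h1 ▸ hm 1⟩

theorem Hmt.end_eq {p q : C(ℝ, G)} (h : Hmt L p q) : p 1 = q 1 := by
  obtain ⟨h, _, _, _, h1, he⟩ := h
  rw [← h1, he]

theorem Hmt.left {p q : C(ℝ, G)} (h : Hmt L p q) (a : C(ℝ, G)) (ha : a ∈ L) :
    Hmt L (a * p) (a * q) := by
  obtain ⟨h, hc, hm, h0, h1, he⟩ := h
  refine ⟨fun u => a * h u, continuous_const.mul hc, fun u => L.mul_mem ha (hm u), by simp [h0],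
    by simp [h1], fun u => ?_⟩
  rw [ContinuousMap.mul_apply, ContinuousMap.mul_apply, he]

theorem Hmt.right {p q : C(ℝ, G)} (h : Hmt L p q) (a : C(ℝ, G)) (ha : a ∈ L) :
    Hmt L (p * a) (q * a) := by
  obtain ⟨h, hc, hm, h0, h1, he⟩ := h
  refine ⟨fun u => h u * a, hc.mul continuous_const, fun u => L.mul_mem (hm u) ha, by simp [h0],
    by simp [h1], fun u => ?_⟩
  rw [ContinuousMap.mul_apply, ContinuousMap.mul_apply, he]

theorem Hmt.inv {p q : C(ℝ, G)} (h : Hmt L p q) : Hmt L p⁻¹ q⁻¹ := by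
  obtain ⟨h, hc, hm, h0, h1, he⟩ := h
  refine ⟨fun u => (h u)⁻¹, continuous_pinv.comp hc, fun u => L.inv_mem (hm u), by simp [h0],
    by simp [h1], fun u => ?_⟩
  rw [ContinuousMap.inv_apply, ContinuousMap.inv_apply, he]

theorem Hmt.mono {L' : Subgroup C(ℝ, G)} {p q : C(ℝ, G)} (h : Hmt L p q) (hL : L ≤ L') :
    Hmt L' p q := by
  obtain ⟨h, hc, hm, h0, h1, he⟩ := h
  exact ⟨h, hc, fun u => hL (hm u), h0, h1, he⟩

theorem Nice.mono {k l : ℕ} {f : C(ℝ, G) → ℝ} (h : Nice L k f) (hkl : k ≤ l) : Nice L l f :=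
  ⟨h.poly.mono hkl, h.cont, h.hinv⟩

theorem Nice.mono_subgroup {L' : Subgroup C(ℝ, G)} {k : ℕ} {f : C(ℝ, G) → ℝ} (h : Nice L k f)
    (hL : L' ≤ L) : Nice L' k f :=
  ⟨h.poly.mono_subgroup hL, h.cont.mono hL, fun p q hpq => h.hinv p q (hpq.mono hL)⟩

theorem Nice.const (k : ℕ) (a : ℝ) : Nice L k (fun _ => a) :=
  ⟨PolyOn.const k a, continuousOn_const, fun _ _ _ => rfl⟩

theorem Nice.add {k : ℕ} {f f' : C(ℝ, G) → ℝ} (h : Nice L k f) (h' : Nice L k f') :
    Nice L k (fun x => f x + f' x) :=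
  ⟨h.poly.add h'.poly, h.cont.add h'.cont, fun p q hpq => by
    rw [h.hinv p q hpq, h'.hinv p q hpq]⟩

theorem Nice.smul {k : ℕ} {f : C(ℝ, G) → ℝ} (h : Nice L k f) (a : ℝ) :
    Nice L k (fun x => a * f x) :=
  ⟨h.poly.smul a, continuousOn_const.mul h.cont, fun p q hpq => by
    rw [h.hinv p q hpq]⟩

theorem Nice.mul {k l : ℕ} {f f' : C(ℝ, G) → ℝ} (h : Nice L k f) (h' : Nice L l f') :
    Nice L (k + l) (fun x => f x * f' x) :=
  ⟨h.poly.mul h'.poly, h.cont.mul h'.cont, fun p q hpq => by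
    rw [h.hinv p q hpq, h'.hinv p q hpq]⟩

theorem Nice.sum {k : ℕ} {α : Type*} (s : Finset α) (f : α → C(ℝ, G) → ℝ)
    (h : ∀ a ∈ s, Nice L k (f a)) : Nice L k (fun x => ∑ a ∈ s, f a x) :=
  ⟨PolyOn.sum s f fun a ha => (h a ha).poly, continuousOn_finsetSum s fun a ha => (h a ha).cont,
    fun p q hpq => Finset.sum_congr rfl fun a ha => (h a ha).hinv p q hpq⟩

theorem Nice.poly_comp {k : ℕ} {f : C(ℝ, G) → ℝ} (h : Nice L k f) (p : ℝ[X]) :
    Nice L (k * p.natDegree) (fun x => p.eval (f x)) :=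
  ⟨h.poly.poly p, p.continuous.comp_continuousOn h.cont, fun a b hab => by
    rw [h.hinv a b hab]⟩

theorem Nice.left {k : ℕ} {f : C(ℝ, G) → ℝ} (h : Nice L k f) (a : C(ℝ, G)) (ha : a ∈ L) :
    Nice L k (fun x => f (a * x)) :=
  ⟨h.poly.left a ha, h.cont.comp (continuous_const.mul continuous_id).continuousOn
    (fun x hx => L.mul_mem ha hx), fun p q hpq => h.hinv _ _ (hpq.left a ha)⟩

theorem Nice.inv {k : ℕ} {f : C(ℝ, G) → ℝ} (h : Nice L k f) (a : C(ℝ, G)) (ha : a ∈ L) :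
    Nice L k (fun x => f (x⁻¹ * a)) :=
  ⟨h.poly.inv a ha, h.cont.comp (continuous_pinv.mul continuous_const).continuousOn
    (fun x hx => L.mul_mem (L.inv_mem hx) ha), fun p q hpq => h.hinv _ _ (hpq.inv.right a ha)⟩

theorem Nice.congr {k : ℕ} {f f' : C(ℝ, G) → ℝ} (h : Nice L k f) (he : ∀ x ∈ L, f x = f' x) :
    Nice L k f' :=
  ⟨h.poly.congr he, h.cont.congr fun x hx => (he x hx).symm, fun p q hpq => by
    rw [← he p hpq.mem.1, ← he q hpq.mem.2, h.hinv p q hpq]⟩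

variable {Γ : Subgroup G}

theorem Good.mono {k l : ℕ} {f : C(ℝ, G) → ℝ} (h : Good Γ L k f) (hkl : k ≤ l) : Good Γ L l f :=
  ⟨h.toNice.mono hkl, h.ginv⟩

theorem Good.add {k : ℕ} {f f' : C(ℝ, G) → ℝ} (h : Good Γ L k f) (h' : Good Γ L k f') :
    Good Γ L k (fun x => f x + f' x) :=
  ⟨h.toNice.add h'.toNice, fun p hp γ hγ => by
    rw [h.ginv p hp γ hγ, h'.ginv p hp γ hγ]⟩

theorem Good.smul {k : ℕ} {f : C(ℝ, G) → ℝ} (h : Good Γ L k f) (a : ℝ) :
    Good Γ L k (fun x => a * f x) :=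
  ⟨h.toNice.smul a, fun p hp γ hγ => by rw [h.ginv p hp γ hγ]⟩

theorem Good.mul {k l : ℕ} {f f' : C(ℝ, G) → ℝ} (h : Good Γ L k f) (h' : Good Γ L l f') :
    Good Γ L (k + l) (fun x => f x * f' x) :=
  ⟨h.toNice.mul h'.toNice, fun p hp γ hγ => by
    rw [h.ginv p hp γ hγ, h'.ginv p hp γ hγ]⟩

theorem Good.sum {k : ℕ} {α : Type*} (s : Finset α) (f : α → C(ℝ, G) → ℝ)
    (h : ∀ a ∈ s, Good Γ L k (f a)) : Good Γ L k (fun x => ∑ a ∈ s, f a x) :=
  ⟨Nice.sum s f fun a ha => (h a ha).toNice, fun p hp γ hγ =>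
    Finset.sum_congr rfl fun a ha => (h a ha).ginv p hp γ hγ⟩

theorem Good.poly_comp {k : ℕ} {f : C(ℝ, G) → ℝ} (h : Good Γ L k f) (p : ℝ[X]) :
    Good Γ L (k * p.natDegree) (fun x => p.eval (f x)) :=
  ⟨h.toNice.poly_comp p, fun a ha γ hγ => by rw [h.ginv a ha γ hγ]⟩

theorem Good.left {k : ℕ} {f : C(ℝ, G) → ℝ} (h : Good Γ L k f) (a : C(ℝ, G)) (ha : a ∈ L) :
    Good Γ L k (fun x => f (a * x)) :=
  ⟨h.toNice.left a ha, fun p hp γ hγ => by
    rw [← mul_assoc]; exact h.ginv _ (L.mul_mem ha hp) γ hγ⟩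

end Closure

/-- A continuous real function taking values in a coset of the integers is constant. -/
theorem const_of_int (f : ℝ → ℝ) (hf : Continuous f) (h : ∀ u, ∃ z : ℤ, f u - f 0 = z) (u : ℝ) :
    f u = f 0 := by
  choose g hg using h
  have hgc : Continuous g := by
    rw [Int.isClosedEmbedding_coe_real.isInducing.continuous_iff]
    have : ((fun z : ℤ => (z : ℝ)) ∘ g) = fun u => f u - f 0 := by
      funext u; exact (hg u).symm
    rw [this]
    exact hf.sub continuous_const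
  have h1 : g u = g 0 := PreconnectedSpace.constant inferInstance hgc
  have h2 := hg u
  have h3 := hg 0
  rw [h1] at h2
  linarith

/-- One step of the tower. -/
structure Step (Γ N N1 : Subgroup G) where
  /-- the one-parameter subgroup -/
  c : C(ℝ, G)
  /-- the lifted character -/
  θ : C(ℝ, G) → C(ℝ, ℝ)
  /-- the lattice path -/
  γ : C(ℝ, G)
  /-- the index -/
  π : ℕ
  c_add : ∀ s t, c (s + t) = c s * c t
  c_mem : ∀ t, c t ∈ N
  Γ_le : Γ ≤ N1
  N1_le : N1 ≤ N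
  θ_mul : ∀ p ∈ Lp Γ N, ∀ q ∈ Lp Γ N, θ (p * q) = θ p + θ q
  θ_cont : ContinuousOn θ (Lp Γ N)
  θ_zero : ∀ p ∈ Lp Γ N, θ p 0 = 0
  θ_c : ∀ φ : C(ℝ, ℝ), φ 0 = 0 → θ (c.comp φ) = φ
  θ_mem : ∀ p ∈ Lp Γ N, (c.comp (θ p))⁻¹ * p ∈ Lp Γ N1
  θ_ker : ∀ p ∈ Lp Γ N1, θ p = 0
  θ_end : ∀ p ∈ Lp Γ N, ∀ q ∈ Lp Γ N, p 1 = q 1 → ∃ z : ℤ, θ p 1 - θ q 1 = z
  γ_mem : γ ∈ Lp Γ N
  γ_end : γ 1 ∈ Γ
  π_pos : 0 < π
  γ_θ : θ γ 1 = π
  π_dvd : ∀ p ∈ Lp Γ N, p 1 ∈ Γ → ∃ z : ℤ, θ p 1 = π * z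
  loc : ∀ ε : ℝ, 0 < ε → ∃ V ∈ 𝓝 (1 : G), ∀ v ∈ V, v ∈ N → ∃ u : ℝ, |u| < ε ∧ (c u)⁻¹ * v ∈ N1

namespace Step

variable {Γ N N1 : Subgroup G} (S : Step Γ N N1)

theorem c_zero : S.c 0 = 1 := by
  have := S.c_add 0 0
  rw [add_zero] at this
  exact (mul_eq_left.1 this.symm)

include S in
theorem Lp_le : Lp Γ N1 ≤ Lp Γ N := fun _ hp => ⟨hp.1, fun s => S.N1_le (hp.2 s)⟩

/-- The path `c ∘ φ`. -/
theorem comp_mem (φ : C(ℝ, ℝ)) (h : φ 0 = 0) : S.c.comp φ ∈ Lp Γ N := by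
  refine ⟨?_, fun s => S.c_mem _⟩
  rw [ContinuousMap.comp_apply, h, S.c_zero]
  exact Γ.one_mem

theorem comp_add (φ ψ : C(ℝ, ℝ)) : S.c.comp (φ + ψ) = S.c.comp φ * S.c.comp ψ := by
  ext s
  simp [S.c_add]

theorem comp_zero : S.c.comp (0 : C(ℝ, ℝ)) = 1 := by
  ext s
  simp [S.c_zero]

/-- The `c`-part. -/
def cc (p : C(ℝ, G)) : C(ℝ, G) := S.c.comp (S.θ p)

/-- The normal part. -/
def nn (p : C(ℝ, G)) : C(ℝ, G) := (S.cc p)⁻¹ * p

theorem cc_mul_nn (p : C(ℝ, G)) : S.cc p * S.nn p = p := by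
  rw [nn, mul_inv_cancel_left]

theorem cc_mem (p : C(ℝ, G)) (hp : p ∈ Lp Γ N) : S.cc p ∈ Lp Γ N :=
  S.comp_mem _ (S.θ_zero p hp)

theorem nn_mem (p : C(ℝ, G)) (hp : p ∈ Lp Γ N) : S.nn p ∈ Lp Γ N1 := S.θ_mem p hp

theorem cc_mul (p q : C(ℝ, G)) (hp : p ∈ Lp Γ N) (hq : q ∈ Lp Γ N) :
    S.cc (p * q) = S.cc p * S.cc q := by
  rw [cc, S.θ_mul p hp q hq, S.comp_add]; rfl

theorem θ_one : S.θ 1 = 0 := S.θ_ker 1 (Lp Γ N1).one_mem

theorem θ_inv (p : C(ℝ, G)) (hp : p ∈ Lp Γ N) : S.θ p⁻¹ = -S.θ p := by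
  have h := S.θ_mul p hp p⁻¹ ((Lp Γ N).inv_mem hp)
  rw [mul_inv_cancel, S.θ_one] at h
  exact (neg_eq_of_add_eq_zero_right h.symm).symm

theorem θ_cc (p : C(ℝ, G)) (hp : p ∈ Lp Γ N) : S.θ (S.cc p) = S.θ p :=
  S.θ_c _ (S.θ_zero p hp)

theorem mem_of_θ (p : C(ℝ, G)) (hp : p ∈ Lp Γ N) (h : S.θ p = 0) : p ∈ Lp Γ N1 := by
  have := S.θ_mem p hp
  rwa [h, S.comp_zero, inv_one, one_mul] at this

include S in
theorem norm (g : C(ℝ, G)) (hg : g ∈ Lp Γ N) (n : C(ℝ, G)) (hn : n ∈ Lp Γ N1) :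
    g⁻¹ * n * g ∈ Lp Γ N1 := by
  have hn' := S.Lp_le hn
  have hgi := (Lp Γ N).inv_mem hg
  apply S.mem_of_θ _ ((Lp Γ N).mul_mem ((Lp Γ N).mul_mem hgi hn') hg)
  rw [S.θ_mul _ ((Lp Γ N).mul_mem hgi hn') _ hg, S.θ_mul _ hgi _ hn', S.θ_inv _ hg,
    S.θ_ker n hn, add_zero, neg_add_cancel]

/-- The final value of the lifted character. -/
def T (p : C(ℝ, G)) : ℝ := S.θ p 1

theorem T_mul (p q : C(ℝ, G)) (hp : p ∈ Lp Γ N) (hq : q ∈ Lp Γ N) :
    S.T (p * q) = S.T p + S.T q := by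
  rw [T, S.θ_mul p hp q hq]; rfl

theorem T_inv (p : C(ℝ, G)) (hp : p ∈ Lp Γ N) : S.T p⁻¹ = -S.T p := by
  rw [T, S.θ_inv p hp]; rfl

theorem T_zpow (p : C(ℝ, G)) (hp : p ∈ Lp Γ N) (m : ℤ) : S.T (p ^ m) = m * S.T p := by
  have hnat : ∀ m : ℕ, S.T (p ^ m) = m * S.T p := by
    intro m
    induction m with
    | zero => rw [pow_zero, T, S.θ_one]; simp
    | succ m ih =>
      rw [pow_succ, S.T_mul _ _ ((Lp Γ N).pow_mem hp m) hp, ih]
      push_cast; ring
  obtain ⟨n, rfl | rfl⟩ := m.eq_nat_or_neg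
  · rw [zpow_natCast, hnat]; simp
  · rw [zpow_neg, zpow_natCast, S.T_inv _ ((Lp Γ N).pow_mem hp n), hnat]
    push_cast; ring

theorem T_cont : ContinuousOn S.T (Lp Γ N) :=
  (continuous_eval_const (F := C(ℝ, ℝ)) (1 : ℝ)).comp_continuousOn S.θ_cont

theorem T_hmt (h : ℝ → C(ℝ, G)) (hc : Continuous h) (hm : ∀ u, h u ∈ Lp Γ N)
    (he : ∀ u, h u 1 = h 0 1) (u : ℝ) : S.T (h u) = S.T (h 0) := by
  apply const_of_int (fun u => S.T (h u))
  · exact S.T_cont.comp_continuous hc hm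
  · intro u
    exact S.θ_end _ (hm u) _ (hm 0) (he u)

theorem T_nice : Nice (Lp Γ N) 1 S.T := by
  refine ⟨PolyOn.of_hom fun x hx y hy => S.T_mul x y hx hy, S.T_cont, ?_⟩
  rintro p q ⟨h, hc, hm, h0, h1, he⟩
  have := S.T_hmt h hc hm (fun u => by rw [he, h0]) 1
  rw [h0, h1] at this
  exact this.symm

theorem θ_const (γ : G) (hγ : γ ∈ Γ) : S.θ (ContinuousMap.const ℝ γ) = 0 :=
  S.θ_ker _ (const_mem_Lp S.Γ_le γ hγ)

include S in
theorem const_mem (γ : G) (hγ : γ ∈ Γ) : ContinuousMap.const ℝ γ ∈ Lp Γ N :=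
  S.Lp_le (const_mem_Lp S.Γ_le γ hγ)

theorem T_good : Good Γ (Lp Γ N) 1 S.T :=
  ⟨S.T_nice, fun p hp γ hγ => by
    rw [S.T_mul p _ hp (S.const_mem γ hγ)]
    show S.T p + S.θ (ContinuousMap.const ℝ γ) 1 = _
    rw [S.θ_const γ hγ]; simp⟩

theorem nn_cont : ContinuousOn S.nn (Lp Γ N) := by
  have h1 : ContinuousOn S.cc (Lp Γ N) :=
    (ContinuousMap.continuous_postcomp S.c).comp_continuousOn S.θ_cont
  exact (continuous_pinv.comp_continuousOn h1).mul continuousOn_id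

theorem nn_hmt (p q : C(ℝ, G)) (h : Hmt (Lp Γ N) p q) : Hmt (Lp Γ N1) (S.nn p) (S.nn q) := by
  obtain ⟨h, hc, hm, h0, h1, he⟩ := h
  refine ⟨fun u => S.nn (h u), S.nn_cont.comp_continuous hc hm, fun u => S.nn_mem _ (hm u),
    congrArg S.nn h0, congrArg S.nn h1, fun u => ?_⟩
  have hT := S.T_hmt h hc hm (fun u => by rw [he, h0]) u
  rw [h0] at hT
  show ((S.cc (h u))⁻¹ * h u) 1 = ((S.cc p)⁻¹ * p) 1
  rw [ContinuousMap.mul_apply, ContinuousMap.mul_apply, ContinuousMap.inv_apply,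
    ContinuousMap.inv_apply, he, cc, cc, ContinuousMap.comp_apply, ContinuousMap.comp_apply]
  have h2 : S.θ (h u) 1 = S.θ p 1 := hT
  rw [h2]

/-- Extension of good functions to the next level. -/
theorem good_nn {d : ℕ} (hd : lcs C(ℝ, G) d = ⊥) {k : ℕ} {F : C(ℝ, G) → ℝ}
    (h : Good Γ (Lp Γ N1) k F) : Good Γ (Lp Γ N) (d * k) (fun x => F (S.nn x)) := by
  refine ⟨⟨?_, ?_, ?_⟩, ?_⟩
  · exact h.poly.semi hd S.cc (fun x hx => S.nn_mem x hx) (fun x hx y hy => S.cc_mul x y hx hy)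
      (fun g hg n hn => S.norm _ (S.cc_mem g hg) n hn)
  · exact h.cont.comp S.nn_cont fun x hx => S.nn_mem x hx
  · intro p q hpq
    exact h.hinv _ _ (S.nn_hmt p q hpq)
  · intro p hp γ hγ
    have h1 : S.nn (p * ContinuousMap.const ℝ γ) = S.nn p * ContinuousMap.const ℝ γ := by
      rw [nn, nn, S.cc_mul p _ hp (S.const_mem γ hγ)]
      have : S.cc (ContinuousMap.const ℝ γ) = 1 := by
        rw [cc, S.θ_const γ hγ, S.comp_zero]
      rw [this, mul_one, mul_assoc]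
    rw [h1]
    exact h.ginv _ (S.nn_mem p hp) γ hγ

end Step

end Pool.Agent.Lib.MP_87965e_co
end

section

set_option autoImplicit false

open Finset Polynomial Topology

namespace Pool.Agent.Lib.MP_87965e_co

variable {G : Type*} [TopologicalSpace G] [Group G] [IsTopologicalGroup G]

/-- A tower of steps from the lattice to the group. -/
inductive Chain (Γ : Subgroup G) : Subgroup G → Prop
  | base (N : Subgroup G) (hΓ : Γ ≤ N) (h : ∀ p ∈ Lp Γ N, ∃ γ ∈ Γ, p = ContinuousMap.const ℝ γ)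
      (hd : ∃ V ∈ 𝓝 (1 : G), ∀ v ∈ V, v ∈ N → v = 1) : Chain Γ N
  | step (N N1 : Subgroup G) (S : Step Γ N N1) (h : Chain Γ N1) : Chain Γ N

/-- Good functions of some degree. -/
def GoodE (Γ : Subgroup G) (L : Subgroup C(ℝ, G)) (f : C(ℝ, G) → ℝ) : Prop := ∃ k, Good Γ L k f

theorem GoodE.add {Γ : Subgroup G} {L : Subgroup C(ℝ, G)} {f f' : C(ℝ, G) → ℝ}
    (h : GoodE Γ L f) (h' : GoodE Γ L f') : GoodE Γ L (fun x => f x + f' x) := by
  obtain ⟨k, h⟩ := h
  obtain ⟨k', h'⟩ := h'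
  exact ⟨max k k', (h.mono (le_max_left _ _)).add (h'.mono (le_max_right _ _))⟩

theorem GoodE.mul {Γ : Subgroup G} {L : Subgroup C(ℝ, G)} {f f' : C(ℝ, G) → ℝ}
    (h : GoodE Γ L f) (h' : GoodE Γ L f') : GoodE Γ L (fun x => f x * f' x) := by
  obtain ⟨k, h⟩ := h
  obtain ⟨k', h'⟩ := h'
  exact ⟨k + k', h.mul h'⟩

theorem GoodE.sum {Γ : Subgroup G} {L : Subgroup C(ℝ, G)} {α : Type*} (s : Finset α)
    (f : α → C(ℝ, G) → ℝ) (h : ∀ a ∈ s, GoodE Γ L (f a)) :
    GoodE Γ L (fun x => ∑ a ∈ s, f a x) := by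
  classical
  induction s using Finset.induction_on with
  | empty =>
    refine ⟨0, ⟨by simpa using Nice.const 0 0, fun _ _ _ _ => rfl⟩⟩
  | insert a s ha ih =>
    have h1 := (h a (Finset.mem_insert_self _ _)).add
      (ih fun b hb => h b (Finset.mem_insert_of_mem hb))
    simp only [Finset.sum_insert ha]
    exact h1

namespace Step

variable {Γ N N1 : Subgroup G} (S : Step Γ N N1)

theorem nn_end (p : C(ℝ, G)) : S.nn p 1 = (S.c (S.T p))⁻¹ * p 1 := rfl

theorem T_γ : S.T S.γ = S.π := S.γ_θ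

theorem π_ne : (S.π : ℝ) ≠ 0 := by
  have := S.π_pos
  positivity

/-- The extension of a function on the normal part, invariant under `γ`. -/
noncomputable def ext (K : ℕ) (F : C(ℝ, G) → ℝ) (x : C(ℝ, G)) : ℝ :=
  ∑ a ∈ range (K + 1), (binP a).eval (S.T x / S.π) *
    ∑ c ∈ range (a + 1), ((-1 : ℝ) ^ (a - c) * (a.choose c : ℝ)) *
      F (S.nn ((S.γ⁻¹) ^ (c : ℤ) * x))

theorem ext_good {d : ℕ} (hd : lcs C(ℝ, G) d = ⊥) (K : ℕ) {k : ℕ} {F : C(ℝ, G) → ℝ}
    (h : Good Γ (Lp Γ N1) k F) : GoodE Γ (Lp Γ N) (S.ext K F) := by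
  refine GoodE.sum _ _ fun a _ => GoodE.mul ?_ (GoodE.sum _ _ fun c _ => ?_)
  · have h1 := S.T_good.poly_comp ((binP a).comp (C (1 / (S.π : ℝ)) * X))
    refine ⟨_, ⟨h1.toNice.congr fun x _ => ?_, fun p hp γ hγ => ?_⟩⟩
    · simp only [eval_comp, eval_mul, eval_C, eval_X]
      congr 1
      ring
    · rw [S.T_good.ginv p hp γ hγ]
  · have h1 := (S.good_nn hd h).left ((S.γ⁻¹) ^ (c : ℤ))
      ((Lp Γ N).zpow_mem ((Lp Γ N).inv_mem S.γ_mem) _)
    exact ⟨_, h1.smul _⟩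

theorem ext_spec {d : ℕ} (hd : lcs C(ℝ, G) d = ⊥) {k : ℕ} {F : C(ℝ, G) → ℝ}
    (h : Good Γ (Lp Γ N1) k F) (m : ℤ) (x : C(ℝ, G)) (hx : x ∈ Lp Γ N) (hT : S.T x = 0) :
    S.ext (d * k) F (S.γ ^ m * x) = F (S.nn x) := by
  have hγm : S.γ ^ m ∈ Lp Γ N := (Lp Γ N).zpow_mem S.γ_mem m
  have hT' : S.T (S.γ ^ m * x) / S.π = m := by
    rw [S.T_mul _ _ hγm hx, S.T_zpow _ S.γ_mem, hT, S.T_γ, add_zero]
    field_simp [S.π_ne]
  have h1 := (S.good_nn hd h).poly.newton_left S.γ⁻¹ (S.γ ^ m * x)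
    ((Lp Γ N).inv_mem S.γ_mem) ((Lp Γ N).mul_mem hγm hx) m
  rw [ext, hT', ← h1]
  congr 2
  rw [inv_zpow, inv_mul_cancel_left]

theorem exists_zero_part (x : C(ℝ, G)) (hx : x ∈ Lp Γ N) (z : ℤ) (hz : S.T x = S.π * z) :
    ∃ y ∈ Lp Γ N, S.T y = 0 ∧ x = S.γ ^ z * y ∧ (x 1 ∈ Γ → y 1 ∈ Γ) := by
  have hγm : S.γ ^ (-z) ∈ Lp Γ N := (Lp Γ N).zpow_mem S.γ_mem _
  refine ⟨S.γ ^ (-z) * x, (Lp Γ N).mul_mem hγm hx, ?_, ?_, ?_⟩
  · rw [S.T_mul _ _ hγm hx, S.T_zpow _ S.γ_mem, hz, S.T_γ]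
    push_cast; ring
  · rw [← mul_assoc, ← zpow_add, add_neg_cancel, zpow_zero, one_mul]
  · intro h1
    rw [ContinuousMap.mul_apply, ContinuousMap.zpow_apply]
    exact Γ.mul_mem (Γ.zpow_mem S.γ_end _) h1

theorem nn_end_mem (y : C(ℝ, G)) (hT : S.T y = 0) (h : y 1 ∈ Γ) : S.nn y 1 ∈ Γ := by
  rw [S.nn_end, hT, S.c_zero, inv_one, one_mul]
  exact h

theorem ext_int {d : ℕ} (hd : lcs C(ℝ, G) d = ⊥) {k : ℕ} {F : C(ℝ, G) → ℝ}
    (h : Good Γ (Lp Γ N1) k F) (hF : ∀ x ∈ Lp Γ N1, x 1 ∈ Γ → ∃ z : ℤ, F x = z)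
    (x : C(ℝ, G)) (hx : x ∈ Lp Γ N) (h1 : x 1 ∈ Γ) : ∃ z : ℤ, S.ext (d * k) F x = z := by
  obtain ⟨z, hz⟩ := S.π_dvd x hx h1
  obtain ⟨y, hy, hTy, rfl, hy1⟩ := S.exists_zero_part x hx z hz
  rw [S.ext_spec hd h z y hy hTy]
  exact hF _ (S.nn_mem y hy) (S.nn_end_mem y hTy (hy1 h1))

end Step

/-- Separation of the lattice by integral functions. -/
def SepP (Γ N : Subgroup G) : Prop :=
  ∃ (Fs : List (C(ℝ, G) → ℝ)) (k : ℕ), (∀ F ∈ Fs, Good Γ (Lp Γ N) k F ∧
    ∀ x ∈ Lp Γ N, x 1 ∈ Γ → ∃ z : ℤ, F x = z) ∧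
    ∀ g ∈ Lp Γ N, (∀ F ∈ Fs, ∀ δ ∈ Lp Γ N, δ 1 ∈ Γ → ∃ z : ℤ, F (δ * g) = z) → g 1 ∈ Γ

/-- Density of the lattice. -/
def DenP (Γ N : Subgroup G) : Prop :=
  ∀ (k : ℕ) (ψ : C(ℝ, G) → ℝ), Nice (Lp Γ N) k ψ → (∀ x ∈ Lp Γ N, x 1 ∈ Γ → ψ x = 0) →
    ∀ x ∈ Lp Γ N, ψ x = 0

/-- Determination by finitely many values. -/
def FinP (Γ N : Subgroup G) : Prop :=
  ∀ k : ℕ, ∃ E : Finset C(ℝ, G), (∀ e ∈ E, e ∈ Lp Γ N ∧ e 1 ∈ Γ) ∧
    ∀ ψ : C(ℝ, G) → ℝ, Good Γ (Lp Γ N) k ψ → (∀ e ∈ E, ψ e = 0) →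
      ∀ x ∈ Lp Γ N, x 1 ∈ Γ → ψ x = 0

/-- Small elements are endpoints of small paths. -/
def LiftP (Γ N : Subgroup G) : Prop :=
  ∀ W ∈ 𝓝 (1 : C(ℝ, G)), ∃ V ∈ 𝓝 (1 : G), ∀ v ∈ V, v ∈ N → ∃ p ∈ Lp Γ N, p ∈ W ∧ p 1 = v

theorem SepP.step {d : ℕ} (hd : lcs C(ℝ, G) d = ⊥) {Γ N N1 : Subgroup G} (S : Step Γ N N1)
    (h : SepP Γ N1) : SepP Γ N := by
  classical
  obtain ⟨Fs, k, hFs, hsep⟩ := h
  -- a uniform degree for the extensions
  have hdeg : ∃ K, ∀ F ∈ Fs, Good Γ (Lp Γ N) K (S.ext (d * k) F) := by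
    have : ∀ Fs' : List (C(ℝ, G) → ℝ), (∀ F ∈ Fs', F ∈ Fs) →
        ∃ K, ∀ F ∈ Fs', Good Γ (Lp Γ N) K (S.ext (d * k) F) := by
      intro Fs'
      induction Fs' with
      | nil => intro _; exact ⟨0, by simp⟩
      | cons F Fs' ih =>
        intro hsub
        obtain ⟨K1, hK1⟩ := ih fun F' hF' => hsub F' (List.mem_cons_of_mem _ hF')
        obtain ⟨K2, hK2⟩ := S.ext_good hd (d * k) (hFs F (hsub F (by simp))).1
        refine ⟨max K1 K2, fun F' hF' => ?_⟩
        rcases List.mem_cons.1 hF' with rfl | hF'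
        · exact hK2.mono (le_max_right _ _)
        · exact (hK1 F' hF').mono (le_max_left _ _)
    exact this Fs fun _ h => h
  obtain ⟨K, hK⟩ := hdeg
  refine ⟨(fun x => (1 / (S.π : ℝ)) * S.T x) :: Fs.map (S.ext (d * k)), max K 1, ?_, ?_⟩
  · intro F hF
    rcases List.mem_cons.1 hF with rfl | hF
    · refine ⟨(S.T_good.smul _).mono (le_max_right _ _), fun x hx h1 => ?_⟩
      obtain ⟨z, hz⟩ := S.π_dvd x hx h1
      refine ⟨z, ?_⟩
      have hz' : S.T x = S.π * z := hz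
      show (1 / (S.π : ℝ)) * S.T x = z
      rw [hz']
      have := S.π_ne
      field_simp
    · obtain ⟨F', hF', rfl⟩ := List.mem_map.1 hF
      exact ⟨(hK F' hF').mono (le_max_left _ _),
        S.ext_int hd (hFs F' hF').1 (hFs F' hF').2⟩
  · intro g hg hint
    -- reduce to `T = 0`
    obtain ⟨z, hz⟩ := hint _ (List.mem_cons_self) 1 (Lp Γ N).one_mem (by
      rw [ContinuousMap.one_apply]; exact Γ.one_mem)
    rw [one_mul] at hz
    have hz' : S.T g = S.π * z := by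
      have := S.π_ne
      field_simp at hz
      linarith
    obtain ⟨y, hy, hTy, hgy, -⟩ := S.exists_zero_part g hg z hz'
    have hn : S.nn y ∈ Lp Γ N1 := S.nn_mem y hy
    have key : (S.nn y) 1 ∈ Γ := by
      apply hsep _ hn
      intro F hF δ hδ hδ1
      -- the element whose value is needed
      have hδN := S.Lp_le hδ
      have hccy := S.cc_mem y hy
      set x := S.cc y * (δ * S.nn y) with hx
      have hxmem : x ∈ Lp Γ N := (Lp Γ N).mul_mem hccy ((Lp Γ N).mul_mem hδN (S.Lp_le hn))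
      have hδn : δ * S.nn y ∈ Lp Γ N1 := (Lp Γ N1).mul_mem hδ hn
      have hθx : S.θ x = S.θ y := by
        rw [hx, S.θ_mul _ hccy _ (S.Lp_le hδn), S.θ_cc y hy, S.θ_ker _ hδn, add_zero]
      have hTx : S.T x = 0 := by
        show S.θ x 1 = 0
        rw [hθx]; exact hTy
      have hnx : S.nn x = δ * S.nn y := by
        rw [Step.nn, Step.cc, hθx]
        show (S.cc y)⁻¹ * x = _
        rw [hx, inv_mul_cancel_left]
      have h1 := S.ext_spec hd (hFs F hF).1 0 x hxmem hTx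
      rw [zpow_zero, one_mul, hnx] at h1
      -- `x` is in the lattice orbit of `g`
      have hccy1 : S.cc y 1 = 1 := by
        show S.c (S.T y) = 1
        rw [hTy, S.c_zero]
      have h2 : x = (S.cc y * δ * (S.cc y)⁻¹ * S.γ ^ (-z)) * g := by
        rw [hx, hgy]
        have h3 : y = S.cc y * S.nn y := (S.cc_mul_nn y).symm
        conv_rhs => rw [h3]
        rw [Step.cc_mul_nn, zpow_neg]
        have h4 : S.nn y = (S.cc y)⁻¹ * y := rfl
        rw [h4]
        group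
      obtain ⟨w, hw⟩ := hint (S.ext (d * k) F)
        (List.mem_cons_of_mem _ (List.mem_map_of_mem hF))
        (S.cc y * δ * (S.cc y)⁻¹ * S.γ ^ (-z))
        ((Lp Γ N).mul_mem ((Lp Γ N).mul_mem ((Lp Γ N).mul_mem hccy hδN)
          ((Lp Γ N).inv_mem hccy)) ((Lp Γ N).zpow_mem S.γ_mem _)) (by
          rw [ContinuousMap.mul_apply, ContinuousMap.mul_apply, ContinuousMap.mul_apply,
            ContinuousMap.inv_apply, ContinuousMap.zpow_apply, hccy1, one_mul, inv_one, mul_one]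
          exact Γ.mul_mem hδ1 (Γ.zpow_mem S.γ_end _))
      rw [← h2, h1] at hw
      exact ⟨w, hw⟩
    rw [S.nn_end, hTy, S.c_zero, inv_one, one_mul] at key
    rw [hgy, ContinuousMap.mul_apply, ContinuousMap.zpow_apply]
    exact Γ.mul_mem (Γ.zpow_mem S.γ_end _) key

/-- The linear path. -/
def lin (t : ℝ) : C(ℝ, ℝ) := ⟨fun s => t * s, continuous_const.mul continuous_id⟩

theorem continuous_lin : Continuous lin := by
  apply ContinuousMap.continuous_of_continuous_uncurry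
  exact continuous_fst.mul continuous_snd

theorem Step.hmt_lin {Γ N N1 : Subgroup G} (S : Step Γ N N1) (φ ψ : C(ℝ, ℝ)) (hφ : φ 0 = 0)
    (hψ : ψ 0 = 0) (h1 : φ 1 = ψ 1) : Hmt (Lp Γ N) (S.c.comp φ) (S.c.comp ψ) := by
  refine ⟨fun u => S.c.comp (φ + u • (ψ - φ)), ?_, ?_, ?_, ?_, ?_⟩
  · refine (ContinuousMap.continuous_postcomp S.c).comp ?_
    exact continuous_const.add (continuous_id.smul continuous_const)
  · intro u
    apply S.comp_mem
    simp [hφ, hψ]
  · simp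
  · simp
  · intro u
    simp [h1]

theorem DenP.step {Γ N N1 : Subgroup G} (S : Step Γ N N1) (h : DenP Γ N1) : DenP Γ N := by
  intro k ψ hψ h0
  -- vanishing when `T` is a multiple of `π`
  have hA : ∀ (m : ℤ) (y : C(ℝ, G)), y ∈ Lp Γ N → S.T y = 0 → ψ (S.γ ^ m * y) = 0 := by
    intro m y hy hTy
    have hγm : S.γ ^ m ∈ Lp Γ N := (Lp Γ N).zpow_mem S.γ_mem m
    have hhom : Hmt (Lp Γ N) y (S.nn y) := by
      have h1 := S.hmt_lin (S.θ y) 0 (S.θ_zero y hy) rfl hTy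
      have h2 := h1.right (S.nn y) (S.Lp_le (S.nn_mem y hy))
      rw [S.comp_zero, one_mul] at h2
      have h3 : S.c.comp (S.θ y) * S.nn y = y := S.cc_mul_nn y
      rwa [h3] at h2
    rw [hψ.hinv _ _ (hhom.left _ hγm)]
    have h4 := h k (fun x => ψ (S.γ ^ m * x)) ((hψ.left _ hγm).mono_subgroup S.Lp_le) (by
      intro x hx hx1
      apply h0 _ ((Lp Γ N).mul_mem hγm (S.Lp_le hx))
      rw [ContinuousMap.mul_apply, ContinuousMap.zpow_apply]
      exact Γ.mul_mem (Γ.zpow_mem S.γ_end _) hx1)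
    exact h4 _ (S.nn_mem y hy)
  intro x hx
  set n := S.nn x with hn
  have hnN : n ∈ Lp Γ N := S.Lp_le (S.nn_mem x hx)
  -- the function of the real parameter
  set φ : ℝ → ℝ := fun t => ψ (S.c.comp (lin t) * n) with hφ
  have hlin : ∀ t, S.c.comp (lin t) ∈ Lp Γ N := fun t => S.comp_mem _ (by simp [lin])
  have hφc : Continuous φ := by
    refine hψ.cont.comp_continuous ?_ fun t => (Lp Γ N).mul_mem (hlin t) hnN
    exact ((ContinuousMap.continuous_postcomp S.c).comp continuous_lin).mul continuous_const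
  have hTlin : ∀ t, S.T (S.c.comp (lin t)) = t := by
    intro t
    show S.θ (S.c.comp (lin t)) 1 = t
    rw [S.θ_c _ (by simp [lin])]
    simp [lin]
  have hTn : S.T n = 0 := by
    show S.θ n 1 = 0
    rw [S.θ_ker _ (S.nn_mem x hx)]; rfl
  have hB : ∀ m : ℤ, φ (S.π * m) = 0 := by
    intro m
    have hmem := (Lp Γ N).mul_mem (hlin (S.π * m)) hnN
    obtain ⟨y, hy, hTy, hxy, -⟩ := S.exists_zero_part _ hmem m (by
      rw [S.T_mul _ _ (hlin _) hnN, hTlin, hTn, add_zero])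
    show ψ (S.c.comp (lin (S.π * m)) * n) = 0
    rw [hxy]
    exact hA m y hy hTy
  have hC : ∀ (q : ℕ), 0 < q → ∀ m : ℤ, φ (S.π * (m / q)) = 0 := by
    intro q hq m
    have hqr : (q : ℝ) ≠ 0 := by positivity
    have hpow : ∀ m : ℤ, S.c.comp (lin (S.π * (m / q))) = (S.c.comp (lin (S.π / q))) ^ m := by
      intro m
      have hz : ∀ (t : ℝ) (m : ℤ), S.c.comp (lin (m * t)) = (S.c.comp (lin t)) ^ m := by
        intro t m
        have hadd : ∀ a b : ℝ, S.c.comp (lin (a + b)) = S.c.comp (lin a) * S.c.comp (lin b) := by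
          intro a b
          rw [← S.comp_add]
          congr 1
          ext s
          simp [lin, add_mul]
        have hneg : ∀ a : ℝ, S.c.comp (lin (-a)) = (S.c.comp (lin a))⁻¹ := by
          intro a
          rw [eq_inv_iff_mul_eq_one, ← hadd, neg_add_cancel]
          have : lin 0 = 0 := by ext s; simp [lin]
          rw [this, S.comp_zero]
        have hnat : ∀ m : ℕ, S.c.comp (lin (m * t)) = (S.c.comp (lin t)) ^ m := by
          intro m
          induction m with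
          | zero =>
            have : lin ((0 : ℕ) * t) = 0 := by ext s; simp [lin]
            rw [this, S.comp_zero, pow_zero]
          | succ m ih =>
            rw [pow_succ, ← ih, ← hadd]
            congr 2
            push_cast; ring
        obtain ⟨n, rfl | rfl⟩ := m.eq_nat_or_neg
        · rw [zpow_natCast, ← hnat]; simp
        · rw [zpow_neg, zpow_natCast, ← hnat, ← hneg]
          congr 2
          push_cast; ring
      rw [← hz]
      congr 2
      ring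
    have h1 := hψ.poly.eq_zero_of_infinite (S.c.comp (lin (S.π / q))) n (hlin _) hnN (by
      apply Set.infinite_of_injective_forall_mem (f := fun m : ℤ => m * q)
      · intro a b hab
        have hq' : (q : ℤ) ≠ 0 := by exact_mod_cast hq.ne'
        exact mul_right_cancel₀ hq' hab
      · intro m
        show ψ ((S.c.comp (lin (S.π / q))) ^ (m * (q : ℤ)) * n) = 0
        rw [← hpow]
        have := hB m
        rw [hφ] at this
        have e : (S.π : ℝ) * ((m * (q : ℤ) : ℤ) / q) = S.π * m := by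
          push_cast; field_simp
        rw [e]
        exact this) m
    rw [← hpow] at h1
    exact h1
  -- continuity
  have hD : ∀ t, φ t = 0 := by
    have hdense : DenseRange (fun r : ℚ => S.π * (r : ℝ)) := by
      have h1 : DenseRange ((↑) : ℚ → ℝ) := Rat.denseRange_cast
      have h2 : Continuous fun t : ℝ => S.π * t := continuous_const.mul continuous_id
      have h3 : Function.Surjective fun t : ℝ => S.π * t := fun t => ⟨t / S.π, by
        have := S.π_ne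
        simp only
        field_simp⟩
      exact h3.denseRange.comp h1 h2
    have h1 : φ = fun _ => 0 := by
      apply hdense.equalizer hφc continuous_const
      funext r
      have h2 := hC r.den r.pos r.num
      have h3 : ((r.num : ℝ) / (r.den : ℝ)) = (r : ℝ) := by
        exact_mod_cast Rat.num_div_den r
      rw [h3] at h2
      exact h2
    intro t; rw [h1]
  have hx2 : Hmt (Lp Γ N) x (S.c.comp (lin (S.T x)) * n) := by
    have h1 := S.hmt_lin (S.θ x) (lin (S.T x)) (S.θ_zero x hx) (by simp [lin]) (by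
      simp [lin, Step.T])
    have h2 := h1.right n hnN
    have h3 : S.c.comp (S.θ x) * n = x := S.cc_mul_nn x
    rwa [h3] at h2
  rw [hψ.hinv _ _ hx2]
  exact hD _

theorem Good.restrict {Γ N N1 : Subgroup G} (S : Step Γ N N1) {k : ℕ} {f : C(ℝ, G) → ℝ}
    (h : Good Γ (Lp Γ N) k f) : Good Γ (Lp Γ N1) k f :=
  ⟨h.toNice.mono_subgroup S.Lp_le, fun p hp γ hγ => h.ginv p (S.Lp_le hp) γ hγ⟩

theorem FinP.step {Γ N N1 : Subgroup G} (S : Step Γ N N1) (h : FinP Γ N1) : FinP Γ N := by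
  classical
  intro k
  obtain ⟨E, hE, hE'⟩ := h k
  refine ⟨(range (k + 1)).biUnion fun a => E.image fun e => S.γ ^ (a : ℤ) * e, ?_, ?_⟩
  · intro e he
    rw [Finset.mem_biUnion] at he
    obtain ⟨a, _, he⟩ := he
    rw [Finset.mem_image] at he
    obtain ⟨e', he', rfl⟩ := he
    refine ⟨(Lp Γ N).mul_mem ((Lp Γ N).zpow_mem S.γ_mem _) (S.Lp_le (hE e' he').1), ?_⟩
    rw [ContinuousMap.mul_apply, ContinuousMap.zpow_apply]
    exact Γ.mul_mem (Γ.zpow_mem S.γ_end _) (hE e' he').2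
  · intro ψ hψ h0 x hx hx1
    obtain ⟨z, hz⟩ := S.π_dvd x hx hx1
    obtain ⟨y, hy, hTy, rfl, hy1⟩ := S.exists_zero_part x hx z hz
    have hyΓ := hy1 hx1
    have hhom : Hmt (Lp Γ N) y (S.nn y) := by
      have h1 := S.hmt_lin (S.θ y) 0 (S.θ_zero y hy) rfl hTy
      have h2 := h1.right (S.nn y) (S.Lp_le (S.nn_mem y hy))
      rw [S.comp_zero, one_mul] at h2
      have h3 : S.c.comp (S.θ y) * S.nn y = y := S.cc_mul_nn y
      rwa [h3] at h2
    rw [hψ.hinv _ _ (hhom.left _ ((Lp Γ N).zpow_mem S.γ_mem z))]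
    have hnn := S.nn_mem y hy
    have hnn1 := S.nn_end_mem y hTy hyΓ
    apply hψ.poly.eq_zero_of_range S.γ (S.nn y) S.γ_mem (S.Lp_le hnn)
    intro a ha
    have h1 := hE' (fun x => ψ (S.γ ^ (a : ℤ) * x))
      ((hψ.left _ ((Lp Γ N).zpow_mem S.γ_mem _)).restrict S) (by
        intro e he
        apply h0
        rw [Finset.mem_biUnion]
        exact ⟨a, Finset.mem_range.2 (by omega), Finset.mem_image_of_mem _ he⟩)
    exact h1 _ hnn hnn1

theorem LiftP.step {Γ N N1 : Subgroup G} (S : Step Γ N N1) (h : LiftP Γ N1) : LiftP Γ N := by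
  intro W hW
  -- split the neighbourhood
  have hmul : Filter.Tendsto (fun pq : C(ℝ, G) × C(ℝ, G) => pq.1 * pq.2)
      (𝓝 ((1 : C(ℝ, G)), (1 : C(ℝ, G)))) (𝓝 (1 * 1)) := continuous_mul.tendsto _
  rw [one_mul] at hmul
  have h1 := hmul hW
  rw [Filter.mem_map, nhds_prod_eq, Filter.mem_prod_iff] at h1
  obtain ⟨W1, hW1, W2, hW2, hW12⟩ := h1
  obtain ⟨V1, hV1, hV1'⟩ := h W2 hW2
  -- small parameters
  have hc : Filter.Tendsto (fun u : ℝ => S.c.comp (lin u)) (𝓝 0) (𝓝 1) := by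
    have h2 : Continuous fun u : ℝ => S.c.comp (lin u) :=
      (ContinuousMap.continuous_postcomp S.c).comp continuous_lin
    have h3 := h2.tendsto 0
    have h4 : lin 0 = 0 := by ext s; simp [lin]
    rwa [h4, S.comp_zero] at h3
  have hc2 : Filter.Tendsto (fun uv : ℝ × G => (S.c uv.1)⁻¹ * uv.2) (𝓝 ((0 : ℝ), (1 : G)))
      (𝓝 1) := by
    have h2 : Continuous fun uv : ℝ × G => (S.c uv.1)⁻¹ * uv.2 :=
      ((S.c.continuous.comp continuous_fst).inv).mul continuous_snd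
    have h3 := h2.tendsto ((0 : ℝ), (1 : G))
    simpa [S.c_zero] using h3
  have h5 := hc2 hV1
  rw [Filter.mem_map, nhds_prod_eq, Filter.mem_prod_iff] at h5
  obtain ⟨A, hA, B, hB, hAB⟩ := h5
  obtain ⟨ε, hε, hball⟩ := Metric.mem_nhds_iff.1 (Filter.inter_mem hA (hc hW1))
  obtain ⟨V2, hV2, hV2'⟩ := S.loc ε hε
  refine ⟨V2 ∩ B, Filter.inter_mem hV2 hB, fun v hv hvN => ?_⟩
  obtain ⟨u, hu, huN⟩ := hV2' v hv.1 hvN
  have hu2 := hball (show u ∈ Metric.ball (0 : ℝ) ε by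
    rw [Metric.mem_ball, dist_zero_right]; exact hu)
  have h6 : (S.c u)⁻¹ * v ∈ V1 := hAB (Set.mk_mem_prod hu2.1 hv.2)
  obtain ⟨p, hp, hpW, hp1⟩ := hV1' _ h6 huN
  refine ⟨S.c.comp (lin u) * p, (Lp Γ N).mul_mem (S.comp_mem _ (by simp [lin])) (S.Lp_le hp),
    hW12 (Set.mk_mem_prod hu2.2 hpW), ?_⟩
  rw [ContinuousMap.mul_apply, hp1]
  simp [lin]

/-- The four properties hold for every tower. -/
theorem Chain.props {d : ℕ} (hd : lcs C(ℝ, G) d = ⊥) {Γ N : Subgroup G} (h : Chain Γ N) :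
    Γ ≤ N ∧ SepP Γ N ∧ DenP Γ N ∧ FinP Γ N ∧ LiftP Γ N := by
  classical
  induction h with
  | base N hΓ h hV =>
    refine ⟨hΓ, ⟨[], 0, by simp, fun g hg _ => ?_⟩, ?_, ?_, ?_⟩
    · obtain ⟨γ, hγ, rfl⟩ := h g hg
      exact hγ
    · intro k ψ _ h0 x hx
      obtain ⟨γ, hγ, rfl⟩ := h x hx
      exact h0 _ hx hγ
    · intro k
      refine ⟨{1}, ?_, fun ψ hψ h0 x hx hx1 => ?_⟩
      · intro e he
        rw [Finset.mem_singleton] at he
        subst he
        exact ⟨(Lp Γ N).one_mem, by rw [ContinuousMap.one_apply]; exact Γ.one_mem⟩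
      · obtain ⟨γ, hγ, rfl⟩ := h x hx
        have h1 := hψ.ginv 1 (Lp Γ N).one_mem γ hγ
        rw [one_mul] at h1
        rw [h1]
        exact h0 1 (Finset.mem_singleton_self _)
    · intro W hW
      obtain ⟨V, hV, hV'⟩ := hV
      refine ⟨V, hV, fun v hv hvN => ⟨1, (Lp Γ N).one_mem, mem_of_mem_nhds hW, ?_⟩⟩
      rw [hV' v hv hvN, ContinuousMap.one_apply]
  | step N N1 S _ ih =>
    obtain ⟨h1, h2, h3, h4, h5⟩ := ih
    exact ⟨h1.trans S.N1_le, h2.step hd S, h3.step S, h4.step S, h5.step S⟩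

end Pool.Agent.Lib.MP_87965e_co
end
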