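import Mathlib
import Pool.Agent.Lib.MP_87965e_co.Tower

section

set_option autoImplicit false

open Finset Polynomial Topology Filter Asymptotics

namespace Pool.Agent.Lib.MP_87965e_co

/-- A system of one-parameter subgroups with the local product property. -/
structure OPS (G E : Type*) [TopologicalSpace G] [Group G] [NormedAddCommGroup E]
    [NormedSpace ℝ E] where
  /-- the one-parameter subgroups -/
  c : E → C(ℝ, G)
  /-- the gauge -/
  ν : G → ℝ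
  c_add : ∀ v s t, c v (s + t) = c v s * c v t
  c_smul : ∀ (r : ℝ) (v : E) (t : ℝ), c (r • v) t = c v (r * t)
  ν_nonneg : ∀ g, 0 ≤ ν g
  ν_lim : Tendsto ν (𝓝 1) (𝓝 0)
  small : ∀ X Y, (fun t : ℝ => ν ((c X t * c Y t)⁻¹ * c (X + Y) t)) =o[𝓝 0] (fun t : ℝ => t)
  inj : ∀ X, (∀ t, c X t = 1) → X = 0
  prod : ∀ (n : ℕ) (x : Fin n → E), LinearIndependent ℝ x → Submodule.span ℝ (Set.range x) = ⊤ →
    ∃ C : ℝ, ∀ᶠ g in 𝓝 (1 : G), ∃ u : Fin n → ℝ, (List.ofFn fun j => c (x j) (u j)).prod = g ∧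
      ∀ j, |u j| ≤ C * ν g

section

variable {G E : Type*} [TopologicalSpace G] [Group G] [IsTopologicalGroup G]
  [NormedAddCommGroup E] [NormedSpace ℝ E] (O : OPS G E)

theorem OPS.c_zero' (v : E) : O.c v 0 = 1 := by
  have := O.c_add v 0 0
  rw [add_zero] at this
  exact (mul_eq_left.1 this.symm)

theorem OPS.c_eq (v : E) (t : ℝ) : O.c v t = O.c (t • v) 1 := by
  rw [O.c_smul, mul_one]

theorem OPS.c_neg (v : E) (t : ℝ) : O.c v (-t) = (O.c v t)⁻¹ := by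
  rw [eq_inv_iff_mul_eq_one, ← O.c_add, neg_add_cancel, O.c_zero']

/-- A level of the tower: a subgroup with its linear directions. -/
structure Lev (K : Subgroup G) (𝔫 : Submodule ℝ E) : Prop where
  mem : ∀ v ∈ 𝔫, ∀ t, O.c v t ∈ K
  prod : ∀ (n : ℕ) (x : Fin n → E), LinearIndependent ℝ x → Submodule.span ℝ (Set.range x) = 𝔫 →
    ∃ C : ℝ, ∀ᶠ g in 𝓝 (1 : G), g ∈ K → ∃ u : Fin n → ℝ,
      (List.ofFn fun j => O.c (x j) (u j)).prod = g ∧ ∀ j, |u j| ≤ C * O.ν g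

theorem Lev.top : Lev O ⊤ ⊤ :=
  ⟨fun _ _ _ => Subgroup.mem_top _, fun n x hx hx' => by
    obtain ⟨C, hC⟩ := O.prod n x hx hx'
    exact ⟨C, hC.mono fun g hg _ => hg⟩⟩

/-- The subgroup generated by the lattice and the one-parameter subgroups. -/
def gen (Γ : Subgroup G) (𝔫 : Submodule ℝ E) : Subgroup G :=
  Subgroup.closure ((Γ : Set G) ∪ {g | ∃ v ∈ 𝔫, ∃ t, O.c v t = g})

variable {O}

theorem le_gen (Γ : Subgroup G) (𝔫 : Submodule ℝ E) : Γ ≤ gen O Γ 𝔫 :=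
  fun _ hg => Subgroup.subset_closure (Or.inl hg)

theorem c_mem_gen (Γ : Subgroup G) (𝔫 : Submodule ℝ E) (v : E) (hv : v ∈ 𝔫) (t : ℝ) :
    O.c v t ∈ gen O Γ 𝔫 :=
  Subgroup.subset_closure (Or.inr ⟨v, hv, t, rfl⟩)

theorem gen_le {K Γ : Subgroup G} {𝔫 : Submodule ℝ E} (hΓ : Γ ≤ K)
    (hK : ∀ v ∈ 𝔫, ∀ t, O.c v t ∈ K) : gen O Γ 𝔫 ≤ K := by
  rw [gen, Subgroup.closure_le]
  rintro g (hg | ⟨v, hv, t, rfl⟩)
  · exact hΓ hg
  · exact hK v hv t

theorem Lev.mono {K K' : Subgroup G} {𝔫 : Submodule ℝ E} (h : Lev O K 𝔫) (hK : K' ≤ K)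
    (hmem : ∀ v ∈ 𝔫, ∀ t, O.c v t ∈ K') : Lev O K' 𝔫 :=
  ⟨hmem, fun n x hx hx' => by
    obtain ⟨C, hC⟩ := h.prod n x hx hx'
    exact ⟨C, hC.mono fun g hg hgK => hg (hK hgK)⟩⟩

theorem Lev.genL {K Γ : Subgroup G} {𝔫 : Submodule ℝ E} (h : Lev O K 𝔫) (hΓ : Γ ≤ K) :
    Lev O (gen O Γ 𝔫) 𝔫 :=
  h.mono (gen_le hΓ h.mem) (c_mem_gen Γ 𝔫)

theorem Lev.open [FiniteDimensional ℝ E] {K : Subgroup G} (Γ : Subgroup G) {𝔫 : Submodule ℝ E}
    (h : Lev O K 𝔫) : ∀ᶠ g in 𝓝 (1 : G), g ∈ K → g ∈ gen O Γ 𝔫 := by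
  set b := Module.finBasis ℝ 𝔫
  obtain ⟨C, hC⟩ := h.prod _ (fun j => (b j : E))
    (b.linearIndependent.map' 𝔫.subtype (Submodule.ker_subtype _)) (by
      have h1 : Set.range (fun j => (b j : E)) = 𝔫.subtype '' (Set.range b) := by
        rw [← Set.range_comp]; rfl
      rw [h1, Submodule.span_image, b.span_eq, Submodule.map_top, Submodule.range_subtype])
  refine hC.mono fun g hg hgK => ?_
  obtain ⟨u, rfl, -⟩ := hg hgK
  apply Subgroup.list_prod_mem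
  intro y hy
  rw [List.mem_ofFn] at hy
  obtain ⟨j, rfl⟩ := hy
  exact c_mem_gen Γ 𝔫 _ (b j).2 _

theorem isClosed_of_open {K N : Subgroup G} (hK : IsClosed (K : Set G)) (hNK : N ≤ K)
    (h : ∀ᶠ g in 𝓝 (1 : G), g ∈ K → g ∈ N) : IsClosed (N : Set G) := by
  rw [isClosed_iff_frequently]
  intro g hg
  have hgK : g ∈ K := by
    apply (isClosed_iff_frequently.1 hK) g
    exact hg.mono fun x hx => hNK hx
  have h1 : Tendsto (fun y : G => y⁻¹ * g) (𝓝 g) (𝓝 1) := by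
    have h2 : Continuous fun y : G => y⁻¹ * g := continuous_inv.mul continuous_const
    have h3 := h2.tendsto g
    rwa [inv_mul_cancel] at h3
  obtain ⟨y, hy, hyN⟩ := ((h1.eventually h).and_frequently hg).exists
  have h4 : y⁻¹ * g ∈ N := hy (K.mul_mem (K.inv_mem (hNK hyN)) hgK)
  have h5 : g = y * (y⁻¹ * g) := by group
  show g ∈ N
  rw [h5]
  exact N.mul_mem hyN h4

theorem path_gen (Γ : Subgroup G) (𝔫 : Submodule ℝ E) :
    ∀ g ∈ gen O Γ 𝔫, ∃ q ∈ Lp Γ (gen O Γ 𝔫), q 1 = g := by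
  let ev : C(ℝ, G) →* G :=
    { toFun := fun f => f 1
      map_one' := rfl
      map_mul' := fun _ _ => rfl }
  have h1 : gen O Γ 𝔫 ≤ (Lp Γ (gen O Γ 𝔫)).map ev := by
    apply gen_le
    · intro γ hγ
      exact ⟨_, const_mem_Lp (le_gen Γ 𝔫) γ hγ, rfl⟩
    · intro v hv t
      refine ⟨(O.c v).comp (lin t), ⟨?_, fun s => c_mem_gen Γ 𝔫 v hv _⟩, ?_⟩
      · have : (O.c v).comp (lin t) 0 = 1 := by
          show O.c v (t * 0) = 1
          rw [mul_zero, O.c_zero']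
        rw [this]
        exact Γ.one_mem
      · show O.c v (t * 1) = O.c v t
        rw [mul_one]
  intro g hg
  obtain ⟨q, hq, hqg⟩ := h1 hg
  exact ⟨q, hq, hqg⟩

/-- The pigeonhole principle for powers. -/
theorem pigeon (Γ : Subgroup G) [CompactSpace (G ⧸ Γ)] (K N : Subgroup G) (hΓ : Γ ≤ N)
    (hN : N ≤ K) (hV : ∀ᶠ v in 𝓝 (1 : G), v ∈ K → v ∈ N) (g : G) (hg : g ∈ K) :
    ∃ k : ℕ, 0 < k ∧ g ^ k ∈ N := by
  obtain ⟨y, hy⟩ := exists_clusterPt_of_compactSpace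
    (Filter.map (fun m : ℕ => ((g ^ m : G) : G ⧸ Γ)) atTop)
  obtain ⟨x, rfl⟩ := QuotientGroup.mk_surjective y
  have h1 : Tendsto (fun p : G × G => p.1⁻¹ * p.2) (𝓝 ((1 : G), (1 : G))) (𝓝 1) := by
    have h2 : Continuous fun p : G × G => p.1⁻¹ * p.2 :=
      (continuous_fst.inv).mul continuous_snd
    have h3 := h2.tendsto ((1 : G), (1 : G))
    rwa [inv_one, one_mul] at h3
  have h2 := h1.eventually hV
  rw [nhds_prod_eq, Filter.eventually_prod_iff] at h2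
  obtain ⟨pa, hpa, pb, hpb, hab⟩ := h2
  have hW : ∀ᶠ v in 𝓝 (1 : G), pa v ∧ pb v := hpa.and hpb
  have hopen : IsOpenMap ((↑) : G → G ⧸ Γ) := QuotientGroup.isOpenMap_coe
  have hgV : ((↑) : G → G ⧸ Γ) '' ((fun v => x * v) '' {v | pa v ∧ pb v}) ∈ 𝓝 (x : G ⧸ Γ) := by
    apply hopen.image_mem_nhds
    have h2 : (fun v => x * v) '' {v | pa v ∧ pb v} ∈ 𝓝 (x * 1) :=
      (Homeomorph.mulLeft x).isOpenMap.image_mem_nhds hW
    rwa [mul_one] at h2
  have hfreq : ∃ᶠ m : ℕ in atTop, ((g ^ m : G) : G ⧸ Γ) ∈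
      ((↑) : G → G ⧸ Γ) '' ((fun v => x * v) '' {v | pa v ∧ pb v}) := by
    have h3 := hy.frequently (p := fun z => z ∈
      ((↑) : G → G ⧸ Γ) '' ((fun v => x * v) '' {v | pa v ∧ pb v})) hgV
    rw [Filter.frequently_map] at h3
    exact h3
  rw [Filter.frequently_atTop] at hfreq
  obtain ⟨m, -, _, ⟨v, hv, rfl⟩, hm⟩ := hfreq 0
  obtain ⟨m', hmm', _, ⟨v', hv', rfl⟩, hm'⟩ := hfreq (m + 1)
  rw [QuotientGroup.eq] at hm hm'
  refine ⟨m' - m, by omega, ?_⟩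
  have h3 : g ^ m' = g ^ m * g ^ (m' - m) := by
    rw [← pow_add]; congr 1; omega
  have hvv : v⁻¹ * v' = ((x * v)⁻¹ * g ^ m) * g ^ (m' - m) * ((x * v')⁻¹ * g ^ m')⁻¹ := by
    rw [h3]; group
  have hK : v⁻¹ * v' ∈ K := by
    rw [hvv]
    exact K.mul_mem (K.mul_mem (hN (hΓ hm)) (K.pow_mem hg _)) (K.inv_mem (hN (hΓ hm')))
  have hN' : v⁻¹ * v' ∈ N := hab hv.1 hv'.2 hK
  have h4 : g ^ (m' - m) = ((x * v)⁻¹ * g ^ m)⁻¹ * (v⁻¹ * v') * ((x * v')⁻¹ * g ^ m') := by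
    rw [hvv]; group
  rw [h4]
  exact N.mul_mem (N.mul_mem (N.inv_mem (hΓ hm)) hN') (hΓ hm')

end

end Pool.Agent.Lib.MP_87965e_co
end

section

set_option autoImplicit false

open Finset Polynomial Topology Filter

namespace Pool.Agent.Lib.MP_87965e_co

/-- Existence of lifts. -/
theorem exists_lift (f : ℝ → AddCircle (1 : ℝ)) (hf : Continuous f) (h0 : f 0 = 0) :
    ∃ F : C(ℝ, ℝ), F 0 = 0 ∧ ∀ s, ((F s : ℝ) : AddCircle (1 : ℝ)) = f s := by
  obtain ⟨F, ⟨hF0, hF⟩, -⟩ := (AddCircle.isCoveringMap_coe (1 : ℝ)).existsUnique_continuousMap_lifts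
    (⟨f, hf⟩ : C(ℝ, AddCircle (1 : ℝ))) 0 0 (by
      show ((0 : ℝ) : AddCircle (1 : ℝ)) = f 0
      rw [h0]; rfl)
  exact ⟨F, hF0, fun s => congrFun hF s⟩

theorem int_of_coe_eq (x y : ℝ) (h : (x : AddCircle (1 : ℝ)) = y) : ∃ z : ℤ, x - y = z := by
  rw [← sub_eq_zero] at h
  have h2 : ((x - y : ℝ) : AddCircle (1 : ℝ)) = 0 := h
  obtain ⟨n, hn⟩ := AddCircle.coe_eq_zero_iff (1 : ℝ) |>.1 h2
  exact ⟨n, by rw [← hn]; simp⟩

/-- Uniqueness of lifts. -/
theorem lift_unique (F F' : C(ℝ, ℝ)) (h0 : F 0 = F' 0)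
    (h : ∀ s, ((F s : ℝ) : AddCircle (1 : ℝ)) = F' s) : F = F' := by
  ext s
  have h1 := const_of_int (fun s => F s - F' s) (F.continuous.sub F'.continuous) (fun u => by
    obtain ⟨z, hz⟩ := int_of_coe_eq _ _ (h u)
    exact ⟨z, by simp only [h0, sub_self, sub_zero, hz]⟩) s
  have h2 : F s - F' s = F 0 - F' 0 := h1
  rw [h0, sub_self] at h2
  linarith

theorem small_rep (x : AddCircle (1 : ℝ)) : ∃ u : ℝ, |u| = ‖x‖ ∧ (u : AddCircle (1 : ℝ)) = x := by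
  obtain ⟨y, rfl⟩ := QuotientAddGroup.mk_surjective x
  refine ⟨y - round y, ?_, ?_⟩
  · have := UnitAddCircle.norm_eq (x := y)
    exact this.symm
  · have h1 : ((y - round y : ℝ) : AddCircle (1 : ℝ)) = y - ((round y : ℤ) : ℝ) := rfl
    rw [h1, sub_eq_self]
    rw [AddCircle.coe_eq_zero_iff]
    exact ⟨round y, by simp⟩

theorem norm_coe_small (x : ℝ) (hx : |x| ≤ 1 / 2) : ‖(x : AddCircle (1 : ℝ))‖ = |x| := by
  rw [AddCircle.norm_coe_eq_abs_iff _ one_ne_zero]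
  simpa using hx

section

variable {G : Type*} [TopologicalSpace G] [Group G] [IsTopologicalGroup G]

theorem path_in (K N1 : Subgroup G) (hV : ∀ᶠ v in 𝓝 (1 : G), v ∈ K → v ∈ N1) (r : ℝ → G)
    (hr : Continuous r) (hrK : ∀ s, r s ∈ K) (h0 : r 0 ∈ N1) (s : ℝ) : r s ∈ N1 := by
  have key : ∀ s, ∀ᶠ s' in 𝓝 s, (r s)⁻¹ * r s' ∈ N1 := by
    intro s
    have h1 : Tendsto (fun s' => (r s)⁻¹ * r s') (𝓝 s) (𝓝 1) := by
      have h2 : Continuous fun s' => (r s)⁻¹ * r s' := continuous_const.mul hr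
      have h3 := h2.tendsto s
      rwa [inv_mul_cancel] at h3
    filter_upwards [h1.eventually hV] with s' hs'
    exact hs' (K.mul_mem (K.inv_mem (hrK s)) (hrK s'))
  have hclopen : IsClopen {s | r s ∈ N1} := by
    constructor
    · rw [← isOpen_compl_iff, isOpen_iff_mem_nhds]
      intro s hs
      filter_upwards [key s] with s' hs' hs'2
      apply hs
      have h4 : r s = r s' * ((r s)⁻¹ * r s')⁻¹ := by group
      show r s ∈ N1
      rw [h4]
      exact N1.mul_mem hs'2 (N1.inv_mem hs')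
    · rw [isOpen_iff_mem_nhds]
      intro s hs
      filter_upwards [key s] with s' hs'
      have h4 : r s' = r s * ((r s)⁻¹ * r s') := by group
      show r s' ∈ N1
      rw [h4]
      exact N1.mul_mem hs hs'
  rcases isClopen_iff.1 hclopen with h | h
  · exact absurd (show (0 : ℝ) ∈ {s | r s ∈ N1} from h0) (by rw [h]; simp)
  · exact (show s ∈ {s | r s ∈ N1} by rw [h]; trivial)

/-- A character of a subgroup. -/
structure Chr (N : Subgroup G) (χ : G → AddCircle (1 : ℝ)) : Prop where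
  mul : ∀ g ∈ N, ∀ h ∈ N, χ (g * h) = χ g + χ h
  cont : ContinuousOn χ N

namespace Chr

variable {N : Subgroup G} {χ : G → AddCircle (1 : ℝ)} (h : Chr N χ)

include h in
theorem one : χ 1 = 0 := by
  have := h.mul 1 N.one_mem 1 N.one_mem
  rw [mul_one] at this
  exact left_eq_add.1 this

include h in
theorem inv (g : G) (hg : g ∈ N) : χ g⁻¹ = -χ g := by
  have := h.mul g hg g⁻¹ (N.inv_mem hg)
  rw [mul_inv_cancel, h.one] at this
  exact (neg_eq_of_add_eq_zero_right this.symm).symm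

/-- The kernel of a character. -/
def ker : Subgroup G where
  carrier := {g | g ∈ N ∧ χ g = 0}
  mul_mem' := fun {a b} ha hb => ⟨N.mul_mem ha.1 hb.1, by
    rw [h.mul a ha.1 b hb.1, ha.2, hb.2, add_zero]⟩
  one_mem' := ⟨N.one_mem, h.one⟩
  inv_mem' := fun {a} ha => ⟨N.inv_mem ha.1, by rw [h.inv a ha.1, ha.2, neg_zero]⟩

theorem mem_ker {g : G} : g ∈ h.ker ↔ g ∈ N ∧ χ g = 0 := Iff.rfl

theorem isClosed_ker (hN : IsClosed (N : Set G)) : IsClosed (h.ker : Set G) := by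
  have : (h.ker : Set G) = (N : Set G) ∩ χ ⁻¹' {0} := by
    ext g; exact Iff.rfl
  rw [this]
  exact h.cont.preimage_isClosed_of_isClosed hN isClosed_singleton

include h in
theorem small (δ : ℝ) (hδ : 0 < δ) : ∀ᶠ v in 𝓝 (1 : G), v ∈ N → ‖χ v‖ < δ := by
  have h1 := (h.cont 1 N.one_mem).tendsto.norm
  rw [h.one, norm_zero] at h1
  have h2 := h1.eventually (gt_mem_nhds hδ)
  rw [eventually_nhdsWithin_iff] at h2
  exact h2

end Chr

/-- Construction of a step of the tower from a character. -/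
theorem mk_step (Γ N N1 : Subgroup G) [CompactSpace (G ⧸ Γ)] (χ : G → AddCircle (1 : ℝ))
    (hχ : Chr N χ) (c : C(ℝ, G)) (c_add : ∀ s t, c (s + t) = c s * c t) (c_mem : ∀ t, c t ∈ N)
    (χ_c : ∀ t : ℝ, χ (c t) = (t : AddCircle (1 : ℝ))) (hΓ : Γ ≤ N1) (hN1 : N1 ≤ N)
    (hker : ∀ g ∈ N1, χ g = 0) (hV : ∀ᶠ v in 𝓝 (1 : G), v ∈ hχ.ker → v ∈ N1)
    (hpath : ∀ g ∈ N1, ∃ q ∈ Lp Γ N1, q 1 = g) : Nonempty (Step Γ N N1) := by
  classical
  have c_zero : c 0 = 1 := by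
    have := c_add 0 0
    rw [add_zero] at this
    exact (mul_eq_left.1 this.symm)
  -- the lifts
  have hlift : ∀ p : C(ℝ, G), p ∈ Lp Γ N → ∃ F : C(ℝ, ℝ), F 0 = 0 ∧
      ∀ s, ((F s : ℝ) : AddCircle (1 : ℝ)) = χ (p s) := by
    intro p hp
    apply exists_lift (fun s => χ (p s))
    · exact hχ.cont.comp_continuous p.continuous hp.2
    · exact hker _ (hΓ hp.1)
  set θ : C(ℝ, G) → C(ℝ, ℝ) := fun p => if hp : p ∈ Lp Γ N then (hlift p hp).choose else 0 with hθ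
  have θ_zero : ∀ p ∈ Lp Γ N, θ p 0 = 0 := by
    intro p hp
    have : θ p = (hlift p hp).choose := dif_pos hp
    rw [this]
    exact (hlift p hp).choose_spec.1
  have θ_spec : ∀ p ∈ Lp Γ N, ∀ s, ((θ p s : ℝ) : AddCircle (1 : ℝ)) = χ (p s) := by
    intro p hp
    have : θ p = (hlift p hp).choose := dif_pos hp
    rw [this]
    exact (hlift p hp).choose_spec.2
  have θ_eq : ∀ p ∈ Lp Γ N, ∀ F : C(ℝ, ℝ), F 0 = 0 →
      (∀ s, ((F s : ℝ) : AddCircle (1 : ℝ)) = χ (p s)) → θ p = F := by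
    intro p hp F h0 hF
    apply lift_unique
    · rw [θ_zero p hp, h0]
    · intro s; rw [θ_spec p hp, hF]
  have θ_mul : ∀ p ∈ Lp Γ N, ∀ q ∈ Lp Γ N, θ (p * q) = θ p + θ q := by
    intro p hp q hq
    apply θ_eq _ ((Lp Γ N).mul_mem hp hq)
    · rw [ContinuousMap.add_apply, θ_zero p hp, θ_zero q hq, add_zero]
    · intro s
      rw [ContinuousMap.add_apply, ContinuousMap.mul_apply, hχ.mul _ (hp.2 s) _ (hq.2 s),
        ← θ_spec p hp, ← θ_spec q hq]
      rfl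
  have θ_ker : ∀ p ∈ Lp Γ N1, θ p = 0 := by
    intro p hp
    apply θ_eq p ⟨hp.1, fun s => hN1 (hp.2 s)⟩ 0 rfl
    intro s
    rw [hker _ (hp.2 s)]; rfl
  have θ_inv : ∀ p ∈ Lp Γ N, θ p⁻¹ = -θ p := by
    intro p hp
    have h := θ_mul p hp p⁻¹ ((Lp Γ N).inv_mem hp)
    rw [mul_inv_cancel, θ_ker 1 (Lp Γ N1).one_mem] at h
    exact (neg_eq_of_add_eq_zero_right h.symm).symm
  have hcomp : ∀ φ : C(ℝ, ℝ), φ 0 = 0 → c.comp φ ∈ Lp Γ N := by
    intro φ hφ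
    refine ⟨?_, fun s => c_mem _⟩
    rw [ContinuousMap.comp_apply, hφ, c_zero]
    exact Γ.one_mem
  have θ_c : ∀ φ : C(ℝ, ℝ), φ 0 = 0 → θ (c.comp φ) = φ := by
    intro φ hφ
    apply θ_eq _ (hcomp φ hφ) _ hφ
    intro s
    rw [ContinuousMap.comp_apply, χ_c]
  have θ_mem : ∀ p ∈ Lp Γ N, (c.comp (θ p))⁻¹ * p ∈ Lp Γ N1 := by
    intro p hp
    have h0 : ((c.comp (θ p))⁻¹ * p) 0 ∈ Γ := by
      rw [ContinuousMap.mul_apply, ContinuousMap.inv_apply, ContinuousMap.comp_apply, θ_zero p hp,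
        c_zero, inv_one, one_mul]
      exact hp.1
    refine ⟨h0, ?_⟩
    apply path_in hχ.ker N1 hV _ (ContinuousMap.continuous _) _ (hΓ h0)
    intro s
    rw [ContinuousMap.mul_apply, ContinuousMap.inv_apply, ContinuousMap.comp_apply]
    refine ⟨N.mul_mem (N.inv_mem (c_mem _)) (hp.2 s), ?_⟩
    rw [hχ.mul _ (N.inv_mem (c_mem _)) _ (hp.2 s), hχ.inv _ (c_mem _), χ_c, θ_spec p hp,
      neg_add_cancel]
  have θ_end : ∀ p ∈ Lp Γ N, ∀ q ∈ Lp Γ N, p 1 = q 1 → ∃ z : ℤ, θ p 1 - θ q 1 = z := by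
    intro p hp q hq hpq
    apply int_of_coe_eq
    rw [θ_spec p hp, θ_spec q hq, hpq]
  -- continuity
  have θ_cont1 : Tendsto θ (𝓝[(Lp Γ N : Set C(ℝ, G))] 1) (𝓝 0) := by
    rw [ContinuousMap.tendsto_iff_forall_isCompact_tendstoUniformlyOn]
    intro K hK
    rw [Metric.tendstoUniformlyOn_iff]
    intro ε hε
    obtain ⟨M, hM⟩ := hK.isBounded.exists_norm_le
    set δ := min ε (1 / 4) with hδ
    have hδpos : 0 < δ := lt_min hε (by norm_num)
    have h1 := hχ.small δ hδpos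
    rw [eventually_nhds_iff] at h1
    obtain ⟨V, hV1, hVo, hV0⟩ := h1
    rw [eventually_nhdsWithin_iff]
    have h2 : {p : C(ℝ, G) | Set.MapsTo p (Set.Icc (-M) M) V} ∈ 𝓝 (1 : C(ℝ, G)) := by
      apply (ContinuousMap.isOpen_setOfPred_mapsTo isCompact_Icc hVo).mem_nhds
      intro s _
      exact hV0
    filter_upwards [h2] with p hp hpL s hs
    have hs2 : |s| ≤ M := hM s hs
    show dist (0 : ℝ) (θ p s) < ε
    rw [dist_comm, Real.dist_eq, sub_zero]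
    by_contra hcon
    rw [not_lt] at hcon
    have hcon2 : δ ≤ |θ p s| := (min_le_left _ _).trans hcon
    have h3 := intermediate_value_uIcc (f := fun s => |θ p s|) (a := 0) (b := s)
      ((θ p).continuous.abs.continuousOn)
    have h4 : δ ∈ Set.uIcc (|θ p 0|) (|θ p s|) := by
      rw [θ_zero p hpL, abs_zero, Set.mem_uIcc]
      exact Or.inl ⟨hδpos.le, hcon2⟩
    obtain ⟨s', hs', hs'2⟩ := h3 h4
    have hs'3 : s' ∈ Set.Icc (-M) M := by
      rw [Set.mem_uIcc] at hs'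
      rw [abs_le] at hs2
      have hM0 : 0 ≤ M := (abs_nonneg s).trans (hM s hs)
      rcases hs' with h | h
      · exact ⟨by linarith [h.1], by linarith [h.2]⟩
      · exact ⟨by linarith [h.1], by linarith [h.2]⟩
    have h5 := hV1 _ (hp hs'3) (hpL.2 s')
    rw [← θ_spec p hpL, norm_coe_small] at h5
    · have h6 : |θ p s'| = δ := hs'2
      linarith
    · have h6 : |θ p s'| = δ := hs'2
      rw [h6]
      exact (min_le_right _ _).trans (by norm_num)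
  have θ_cont : ContinuousOn θ (Lp Γ N) := by
    intro p hp
    have h1 : Tendsto (fun q : C(ℝ, G) => p⁻¹ * q) (𝓝[(Lp Γ N : Set C(ℝ, G))] p)
        (𝓝[(Lp Γ N : Set C(ℝ, G))] 1) := by
      apply tendsto_nhdsWithin_of_tendsto_nhds_of_eventually_within
      · have h2 : Continuous fun q : C(ℝ, G) => p⁻¹ * q := continuous_const.mul continuous_id
        have h3 := h2.tendsto p
        rw [inv_mul_cancel] at h3
        exact h3.mono_left nhdsWithin_le_nhds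
      · filter_upwards [self_mem_nhdsWithin] with q hq
        exact (Lp Γ N).mul_mem ((Lp Γ N).inv_mem hp) hq
    have h2 : Tendsto (fun q => θ p + θ (p⁻¹ * q)) (𝓝[(Lp Γ N : Set C(ℝ, G))] p)
        (𝓝 (θ p + 0)) := tendsto_const_nhds.add (θ_cont1.comp h1)
    rw [add_zero] at h2
    refine h2.congr' ?_
    filter_upwards [self_mem_nhdsWithin] with q hq
    rw [← θ_mul p hp _ ((Lp Γ N).mul_mem ((Lp Γ N).inv_mem hp) hq), mul_inv_cancel_left]
  -- the lattice path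
  obtain ⟨k, hk, hck⟩ := pigeon Γ hχ.ker N1 hΓ (fun g hg => ⟨hN1 hg, hker g hg⟩) hV (c 1)
    ⟨c_mem _, by rw [χ_c]; exact (AddCircle.coe_eq_zero_iff (1 : ℝ)).2 ⟨1, by simp⟩⟩
  have hcpow : ∀ k : ℕ, c k = c 1 ^ k := by
    intro k
    induction k with
    | zero => rw [pow_zero, Nat.cast_zero, c_zero]
    | succ k ih => rw [pow_succ, Nat.cast_add, Nat.cast_one, c_add, ih]
  rw [← hcpow] at hck
  obtain ⟨q, hq, hq1⟩ := hpath _ hck
  have hqN : q ∈ Lp Γ N := ⟨hq.1, fun s => hN1 (hq.2 s)⟩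
  have hlin0 : ∀ t : ℝ, lin t 0 = 0 := fun t => by simp [lin]
  have hcl : c.comp (lin k) ∈ Lp Γ N := hcomp _ (hlin0 _)
  have hγ0 : q⁻¹ * c.comp (lin k) ∈ Lp Γ N := (Lp Γ N).mul_mem ((Lp Γ N).inv_mem hqN) hcl
  -- the group of winding numbers
  set Z : AddSubgroup ℤ :=
    { carrier := {z | ∃ p ∈ Lp Γ N, p 1 ∈ Γ ∧ θ p 1 = z}
      add_mem' := by
        rintro a b ⟨p, hp, hp1, hpa⟩ ⟨p', hp', hp1', hpb⟩
        refine ⟨p * p', (Lp Γ N).mul_mem hp hp', Γ.mul_mem hp1 hp1', ?_⟩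
        rw [θ_mul p hp p' hp', ContinuousMap.add_apply, hpa, hpb]
        push_cast; rfl
      zero_mem' := ⟨1, (Lp Γ N).one_mem, Γ.one_mem, by
        rw [θ_ker 1 (Lp Γ N1).one_mem]; simp⟩
      neg_mem' := by
        rintro a ⟨p, hp, hp1, hpa⟩
        refine ⟨p⁻¹, (Lp Γ N).inv_mem hp, Γ.inv_mem hp1, ?_⟩
        rw [θ_inv p hp, ContinuousMap.neg_apply, hpa]
        push_cast; rfl } with hZ
  have hkZ : (k : ℤ) ∈ Z := by
    refine ⟨q⁻¹ * c.comp (lin k), hγ0, ?_, ?_⟩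
    · rw [ContinuousMap.mul_apply, ContinuousMap.inv_apply, hq1, ContinuousMap.comp_apply]
      have : lin (k : ℝ) 1 = k := by simp [lin]
      rw [this, inv_mul_cancel]
      exact Γ.one_mem
    · rw [θ_mul _ ((Lp Γ N).inv_mem hqN) _ hcl, θ_inv _ hqN, θ_ker q hq, θ_c _ (hlin0 _)]
      simp [lin]
  obtain ⟨a, ha⟩ := Int.subgroup_cyclic Z
  have haZ : ∀ z : ℤ, z ∈ Z ↔ ∃ n : ℤ, n * a = z := by
    intro z
    rw [ha, AddSubgroup.mem_closure_singleton]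
    simp
  have hane : a ≠ 0 := by
    rintro rfl
    obtain ⟨n, hn⟩ := (haZ k).1 hkZ
    rw [mul_zero] at hn
    omega
  have hpiZ : ((a.natAbs : ℕ) : ℤ) ∈ Z := by
    rw [haZ]
    rcases Int.natAbs_eq a with h | h
    · exact ⟨1, by omega⟩
    · exact ⟨-1, by omega⟩
  obtain ⟨γ, hγ, hγ1, hγT⟩ := hpiZ
  refine ⟨{ c := c, θ := θ, γ := γ, π := a.natAbs, c_add := c_add, c_mem := c_mem, Γ_le := hΓ,
            N1_le := hN1, θ_mul := θ_mul, θ_cont := θ_cont, θ_zero := θ_zero, θ_c := θ_c,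
            θ_mem := θ_mem, θ_ker := θ_ker, θ_end := θ_end, γ_mem := hγ, γ_end := hγ1,
            π_pos := Int.natAbs_pos.2 hane, γ_θ := by rw [hγT]; simp, π_dvd := ?_, loc := ?_ }⟩
  · intro p hp hp1
    have h1 : ∃ z : ℤ, θ p 1 - 0 = z := by
      apply int_of_coe_eq
      rw [θ_spec p hp, hker _ (hΓ hp1)]; rfl
    obtain ⟨z, hz⟩ := h1
    rw [sub_zero] at hz
    obtain ⟨n, hn⟩ := (haZ z).1 ⟨p, hp, hp1, hz⟩
    rcases Int.natAbs_eq a with h | h
    · refine ⟨n, ?_⟩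
      rw [hz, ← hn]
      have h2 : (a : ℝ) = ((a.natAbs : ℕ) : ℝ) := by
        have : (a : ℝ) = (((a.natAbs : ℕ) : ℤ) : ℝ) := by rw [← h]
        rw [this]; simp
      push_cast
      rw [h2]; ring
    · refine ⟨-n, ?_⟩
      rw [hz, ← hn]
      have h2 : (a : ℝ) = -((a.natAbs : ℕ) : ℝ) := by
        have : (a : ℝ) = ((-((a.natAbs : ℕ) : ℤ) : ℤ) : ℝ) := by rw [← h]
        rw [this]; simp
      push_cast
      rw [h2]; ring
  · intro ε hε
    have h1 : Tendsto (fun uv : ℝ × G => (c uv.1)⁻¹ * uv.2) (𝓝 ((0 : ℝ), (1 : G)))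
        (𝓝 1) := by
      have h2 : Continuous fun uv : ℝ × G => (c uv.1)⁻¹ * uv.2 :=
        ((c.continuous.comp continuous_fst).inv).mul continuous_snd
      have h3 := h2.tendsto ((0 : ℝ), (1 : G))
      simpa [c_zero] using h3
    have h2 := h1.eventually hV
    rw [nhds_prod_eq, Filter.eventually_prod_iff] at h2
    obtain ⟨pa, hpa, pb, hpb, hab⟩ := h2
    obtain ⟨δ, hδ, hball⟩ := Metric.eventually_nhds_iff.1 hpa
    have h3 := hχ.small (min ε δ) (lt_min hε hδ)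
    refine ⟨_, hpb.and h3, ?_⟩
    rintro v ⟨hv1, hv2⟩ hvN
    obtain ⟨u, hu, hu2⟩ := small_rep (χ v)
    have hu3 := hv2 hvN
    rw [← hu] at hu3
    refine ⟨u, hu3.trans_le (min_le_left _ _), ?_⟩
    apply hab (hball (y := u) (by
      rw [Real.dist_eq, sub_zero]; exact hu3.trans_le (min_le_right _ _))) hv1
    refine ⟨N.mul_mem (N.inv_mem (c_mem _)) hvN, ?_⟩
    rw [hχ.mul _ (N.inv_mem (c_mem _)) _ hvN, hχ.inv _ (c_mem _), χ_c, hu2, neg_add_cancel]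

end

end Pool.Agent.Lib.MP_87965e_co
end

section

set_option autoImplicit false

open Finset Topology Filter

namespace Pool.Agent.Lib.MP_87965e_co

theorem exists_functional_discrete {W : Type*} [NormedAddCommGroup W] [NormedSpace ℝ W]
    [FiniteDimensional ℝ W] [Nontrivial W] (L : Submodule ℤ W) [DiscreteTopology L]
    [IsZLattice ℝ L] : ∃ f : W →ₗ[ℝ] ℝ, f ≠ 0 ∧ ∀ d ∈ L, ∃ z : ℤ, f d = z := by
  have : Module.Free ℤ L := ZLattice.module_free ℝ L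
  have : Module.Finite ℤ L := ZLattice.module_finite ℝ L
  set b := Module.Free.chooseBasis ℤ L with hb
  set B := b.ofZLatticeBasis ℝ L with hB
  have hne : Nonempty (Module.Free.ChooseBasisIndex ℤ L) := B.index_nonempty
  obtain ⟨i⟩ := hne
  refine ⟨B.coord i, ?_, fun d hd => ⟨b.repr ⟨d, hd⟩ i, ?_⟩⟩
  · intro h
    have h1 : B.coord i (B i) = 0 := by rw [h]; rfl
    rw [Module.Basis.coord_apply, Module.Basis.repr_self, Finsupp.single_eq_same] at h1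
    exact one_ne_zero h1
  · rw [Module.Basis.coord_apply, hB]
    have := b.ofZLatticeBasis_repr_apply ℝ L ⟨d, hd⟩ i
    simpa using this

/-- The floor approximation. -/
theorem floor_smul_close {W : Type*} [NormedAddCommGroup W] [NormedSpace ℝ W] (d : W) (hd : d ≠ 0)
    (t : ℝ) : ‖(⌊t / ‖d‖⌋ : ℤ) • d - t • (‖d‖⁻¹ • d)‖ ≤ ‖d‖ := by
  have hd' : 0 < ‖d‖ := norm_pos_iff.2 hd
  have h1 : (⌊t / ‖d‖⌋ : ℤ) • d - t • (‖d‖⁻¹ • d) = ((⌊t / ‖d‖⌋ : ℝ) - t / ‖d‖) • d := by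
    rw [← Int.cast_smul_eq_zsmul ℝ, smul_smul, sub_smul, div_eq_mul_inv]
  rw [h1, norm_smul, Real.norm_eq_abs]
  have h2 : |(⌊t / ‖d‖⌋ : ℝ) - t / ‖d‖| ≤ 1 := by
    rw [abs_le]
    constructor
    · linarith [Int.lt_floor_add_one (t / ‖d‖)]
    · linarith [Int.floor_le (t / ‖d‖)]
  calc |(⌊t / ‖d‖⌋ : ℝ) - t / ‖d‖| * ‖d‖ ≤ 1 * ‖d‖ := by gcongr
    _ = ‖d‖ := one_mul _

theorem isolated {W : Type*} [NormedAddCommGroup W] [NormedSpace ℝ W] [FiniteDimensional ℝ W]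
    (D : AddSubgroup W) (hD : IsClosed (D : Set W)) (hline : ∀ x, (∀ t : ℝ, t • x ∈ D) → x = 0) :
    ∃ ε : ℝ, 0 < ε ∧ ∀ d ∈ D, ‖d‖ < ε → d = 0 := by
  by_contra hcon
  push Not at hcon
  have hch : ∀ n : ℕ, ∃ d ∈ D, ‖d‖ < 1 / ((n : ℝ) + 1) ∧ d ≠ 0 := fun n =>
    hcon (1 / ((n : ℝ) + 1)) (by positivity)
  choose d hdD hdn hd0 using hch
  have : ProperSpace W := FiniteDimensional.proper_real W
  obtain ⟨e, he, φ, hφ, hlim⟩ := (isCompact_sphere (0 : W) 1).tendsto_subseq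
    (x := fun n => ‖d n‖⁻¹ • d n) (fun n => by
      rw [mem_sphere_zero_iff_norm, norm_smul, norm_inv, norm_norm,
        inv_mul_cancel₀ (norm_ne_zero_iff.2 (hd0 n))])
  have hdlim : Tendsto (fun n => ‖d (φ n)‖) atTop (𝓝 0) := by
    have h1 : Tendsto (fun n => ‖d n‖) atTop (𝓝 0) :=
      squeeze_zero (fun n => norm_nonneg _) (fun n => (hdn n).le)
        tendsto_one_div_add_atTop_nhds_zero_nat
    exact h1.comp hφ.tendsto_atTop
  have he0 : e = 0 := by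
    apply hline
    intro t
    have h2 : Tendsto (fun n => (⌊t / ‖d (φ n)‖⌋ : ℤ) • d (φ n)) atTop (𝓝 (t • e)) := by
      have h3 : Tendsto (fun n => t • (‖d (φ n)‖⁻¹ • d (φ n))) atTop (𝓝 (t • e)) :=
        hlim.const_smul t
      have h4 : Tendsto (fun n => (⌊t / ‖d (φ n)‖⌋ : ℤ) • d (φ n) -
          t • (‖d (φ n)‖⁻¹ • d (φ n))) atTop (𝓝 0) :=
        squeeze_zero_norm (fun n => floor_smul_close _ (hd0 _) t) hdlim
      have h5 := h4.add h3
      simpa using h5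
    exact hD.mem_of_tendsto h2 (Eventually.of_forall fun n => D.zsmul_mem (hdD _) _)
  rw [mem_sphere_zero_iff_norm, he0, norm_zero] at he
  exact one_ne_zero he.symm

theorem span_of_dense {W : Type*} [NormedAddCommGroup W] [NormedSpace ℝ W] [FiniteDimensional ℝ W]
    (D : Set W) (R : ℝ) (hR : ∀ v, ∃ d ∈ D, ‖v - d‖ ≤ R) : Submodule.span ℝ D = ⊤ := by
  by_contra hcon
  obtain ⟨f, hf, hker⟩ := Submodule.exists_le_ker_of_lt_top _ (lt_top_iff_ne_top.2 hcon)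
  obtain ⟨w, hw⟩ : ∃ w, f w ≠ 0 := by
    by_contra h
    push Not at h
    exact hf (LinearMap.ext h)
  set F := LinearMap.toContinuousLinearMap f with hF
  have hbound : ∀ v, |f v| ≤ ‖F‖ * R := by
    intro v
    obtain ⟨d, hd, hdR⟩ := hR v
    have h1 : f d = 0 := hker (Submodule.subset_span hd)
    have h2 : f v = F (v - d) := by
      show f v = f (v - d)
      rw [map_sub, h1, sub_zero]
    rw [h2]
    calc |F (v - d)| ≤ ‖F‖ * ‖v - d‖ := F.le_opNorm _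
      _ ≤ ‖F‖ * R := by gcongr
  obtain ⟨n, hn⟩ := exists_nat_gt (‖F‖ * R / |f w|)
  have hpos : 0 < |f w| := abs_pos.2 hw
  have h3 := hbound ((n : ℝ) • w)
  rw [map_smul, smul_eq_mul, abs_mul, Nat.abs_cast] at h3
  rw [div_lt_iff₀ hpos] at hn
  linarith

/-- A closed proper relatively dense subgroup is contained in the integrality locus of a nonzero
functional. -/
theorem exists_functional {V : Type*} [NormedAddCommGroup V] [NormedSpace ℝ V]
    [FiniteDimensional ℝ V] (D : AddSubgroup V) (hD : IsClosed (D : Set V)) (hne : D ≠ ⊤) (R : ℝ)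
    (hR : ∀ v, ∃ d ∈ D, ‖v - d‖ ≤ R) :
    ∃ f : V →ₗ[ℝ] ℝ, f ≠ 0 ∧ ∀ d ∈ D, ∃ z : ℤ, f d = z := by
  -- the maximal subspace
  set VD : Submodule ℝ V :=
    { carrier := {x | ∀ t : ℝ, t • x ∈ D}
      add_mem' := fun ha hb t => by rw [smul_add]; exact D.add_mem (ha t) (hb t)
      zero_mem' := fun t => by rw [smul_zero]; exact D.zero_mem
      smul_mem' := fun c x hx t => by rw [smul_smul]; exact hx _ } with hVD
  have hVDD : ∀ x ∈ VD, x ∈ D := fun x hx => by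
    have := hx 1
    rwa [one_smul] at this
  obtain ⟨W, hW⟩ := Submodule.exists_isCompl VD
  set P := W.projection VD hW.symm with hP
  have hPW : ∀ x, P x ∈ W := fun x => Submodule.projection_apply_mem _ _
  have hPV : ∀ x, x - P x ∈ VD := fun x => Submodule.sub_projection_mem _ _
  have hPid : ∀ x ∈ W, P x = x := fun x hx => Submodule.projection_apply_of_mem_left _ hx
  have hPD : ∀ d ∈ D, P d ∈ D := by
    intro d hd
    have h1 : P d = d - (d - P d) := by abel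
    rw [h1]
    exact D.sub_mem hd (hVDD _ (hPV d))
  -- the trace of `D` on `W`
  set L : Submodule ℤ W := AddSubgroup.toIntSubmodule (D.comap W.subtype.toAddMonoidHom) with hL
  have hmemL : ∀ x : W, x ∈ L ↔ (x : V) ∈ D := fun x => Iff.rfl
  have hLclosed : IsClosed ((D.comap W.subtype.toAddMonoidHom : AddSubgroup W) : Set W) :=
    hD.preimage continuous_subtype_val
  obtain ⟨ε, hε, hiso⟩ := isolated (D.comap W.subtype.toAddMonoidHom) hLclosed (by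
    intro x hx
    have h1 : (x : V) ∈ VD := fun t => hx t
    have h2 : (x : V) ∈ VD ⊓ W := ⟨h1, x.2⟩
    rw [hW.inf_eq_bot, Submodule.mem_bot] at h2
    exact Subtype.ext h2)
  have hdisc : DiscreteTopology L := by
    rw [discreteTopology_iff_isOpen_singleton_zero, Metric.isOpen_singleton_iff]
    refine ⟨ε, hε, fun y hy => ?_⟩
    rw [dist_zero_right] at hy
    exact Subtype.ext (hiso y.1 y.2 hy)
  have hdense : ∀ w : W, ∃ d ∈ (L : Set W), ‖w - d‖ ≤ ‖LinearMap.toContinuousLinearMap P‖ * R := by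
    intro w
    obtain ⟨d, hd, hdR⟩ := hR w
    refine ⟨⟨P d, hPW d⟩, hPD d hd, ?_⟩
    have h1 : ((w - ⟨P d, hPW d⟩ : W) : V) = LinearMap.toContinuousLinearMap P ((w : V) - d) := by
      show (w : V) - P d = P ((w : V) - d)
      rw [map_sub, hPid _ w.2]
    have h2 : ‖w - (⟨P d, hPW d⟩ : W)‖ = ‖((w - ⟨P d, hPW d⟩ : W) : V)‖ := rfl
    rw [h2, h1]
    calc ‖LinearMap.toContinuousLinearMap P ((w : V) - d)‖
        ≤ ‖LinearMap.toContinuousLinearMap P‖ * ‖(w : V) - d‖ :=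
          (LinearMap.toContinuousLinearMap P).le_opNorm _
      _ ≤ _ := by gcongr
  have hlat : IsZLattice ℝ L := ⟨span_of_dense _ _ hdense⟩
  have hnt : Nontrivial W := by
    rw [Submodule.nontrivial_iff_ne_bot]
    rintro rfl
    apply hne
    have h1 : VD = ⊤ := by
      have := hW.sup_eq_top
      rwa [sup_bot_eq] at this
    rw [eq_top_iff]
    intro x _
    exact hVDD x (by rw [h1]; trivial)
  obtain ⟨f, hf, hfL⟩ := exists_functional_discrete L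
  refine ⟨f ∘ₗ (P.codRestrict W hPW), ?_, ?_⟩
  · intro h
    apply hf
    ext w
    have h1 : (f ∘ₗ (P.codRestrict W hPW)) (w : V) = 0 := by rw [h]; rfl
    have h2 : (P.codRestrict W hPW) (w : V) = w := Subtype.ext (hPid _ w.2)
    rw [LinearMap.comp_apply, h2] at h1
    exact h1
  · intro d hd
    exact hfL _ (hPD d hd)

end Pool.Agent.Lib.MP_87965e_co
end
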