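import Mathlib
import Pool.Agent.Lib.MP_87965e_co.Powers
import Pool.Agent.Lib.MP_87965e_co.Tower

section

set_option autoImplicit false

open Finset

namespace Pool.Agent.Lib.MP_87965e_co

/-- A group of functions which is determined by finitely many integral values has a finite basis
with a real dual basis of finitely supported functionals. -/
theorem exists_lattice_basis {X : Type*} (M : Submodule ℤ (X → ℝ)) (E : Finset X)
    (hint : ∀ f ∈ M, ∀ e ∈ E, ∃ z : ℤ, f e = z) (hinj : ∀ f ∈ M, (∀ e ∈ E, f e = 0) → f = 0) :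
    ∃ (n : ℕ) (b : Fin n → X → ℝ) (B : Fin n → X → ℝ), (∀ i, b i ∈ M) ∧
      (∀ f ∈ M, ∃ z : Fin n → ℤ, f = ∑ i, (z i : ℝ) • b i) ∧
      ∀ i j, ∑ e ∈ E, B i e * b j e = if i = j then 1 else 0 := by
  classical
  -- the evaluation map
  have hch : ∀ (f : M) (e : E), ∃ z : ℤ, (f : X → ℝ) e = z := fun f e => hint f f.2 e e.2
  choose φ0 hφ0 using hch
  let φ : M →ₗ[ℤ] (E → ℤ) :=
    { toFun := φ0
      map_add' := by
        intro f g
        funext e
        have h1 := hφ0 (f + g) e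
        have h2 := hφ0 f e
        have h3 := hφ0 g e
        have h4 : ((f + g : M) : X → ℝ) e = (f : X → ℝ) e + (g : X → ℝ) e := rfl
        rw [h1, h2, h3] at h4
        exact_mod_cast h4
      map_smul' := by
        intro c f
        funext e
        have h1 := hφ0 (c • f) e
        have h2 := hφ0 f e
        have h4 : ((c • f : M) : X → ℝ) e = c • (f : X → ℝ) e := rfl
        rw [h1, h2, zsmul_eq_mul] at h4
        show φ0 (c • f) e = c * φ0 f e
        exact_mod_cast h4 }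
  have hφinj : Function.Injective φ := by
    rw [injective_iff_map_eq_zero]
    intro f hf
    apply Subtype.ext
    apply hinj f f.2
    intro e he
    have h1 := hφ0 f ⟨e, he⟩
    have h2 : φ0 f ⟨e, he⟩ = 0 := congrFun hf ⟨e, he⟩
    rw [h2, Int.cast_zero] at h1
    exact h1
  -- a basis
  have eM : M ≃ₗ[ℤ] LinearMap.range φ := LinearEquiv.ofInjective φ hφinj
  have : Module.Finite ℤ M := Module.Finite.of_injective φ hφinj
  have : Module.Free ℤ M := Module.Free.of_equiv eM.symm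
  set n := Module.finrank ℤ M with hn
  let β : Module.Basis (Fin n) ℤ M := Module.finBasis ℤ M
  -- rational independence
  let v : Fin n → (E → ℚ) := fun i e => (φ (β i) e : ℚ)
  have hvZ : LinearIndependent ℤ v := by
    have h1 : LinearIndependent ℤ (fun i => φ (β i)) :=
      β.linearIndependent.map' φ (LinearMap.ker_eq_bot.2 hφinj)
    let c : (E → ℤ) →ₗ[ℤ] (E → ℚ) :=
      { toFun := fun x e => (x e : ℚ)
        map_add' := by intro x y; funext e; simp
        map_smul' := by intro a x; funext e; simp }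
    have hc : Function.Injective c := by
      intro x y hxy
      funext e
      have : ((x e : ℤ) : ℚ) = (y e : ℚ) := congrFun hxy e
      exact_mod_cast this
    exact h1.map' c (LinearMap.ker_eq_bot.2 hc)
  have hvQ : LinearIndependent ℚ v := (LinearIndependent.iff_fractionRing ℤ ℚ).1 hvZ
  let T : (Fin n → ℚ) →ₗ[ℚ] (E → ℚ) := Fintype.linearCombination ℚ v
  have hT : LinearMap.ker T = ⊥ := by
    rw [LinearMap.ker_eq_bot]
    exact linearIndependent_iff_injective_fintypeLinearCombination.1 hvQ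
  obtain ⟨g, hg⟩ := T.exists_leftInverse_of_injective hT
  have hTsingle : ∀ j, T (Pi.single j 1) = v j := by
    intro j
    simp [T, Fintype.linearCombination_apply_single]
  refine ⟨n, fun i => β i, fun i x => if h : x ∈ E then ((g (Pi.single ⟨x, h⟩ 1) i : ℚ) : ℝ) else 0,
    fun i => (β i).2, ?_, ?_⟩
  · intro f hf
    refine ⟨fun i => β.repr ⟨f, hf⟩ i, ?_⟩
    have h1 := β.sum_repr ⟨f, hf⟩
    have h2 := congrArg (Subtype.val) h1
    simp only [AddSubmonoidClass.coe_finsetSum, SetLike.val_smul] at h2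
    conv_lhs => rw [← h2]
    refine Finset.sum_congr rfl fun i _ => ?_
    rw [Int.cast_smul_eq_zsmul]
  · intro i j
    have h1 : g (v j) i = if i = j then 1 else 0 := by
      have h2 : g (T (Pi.single j 1)) = Pi.single j 1 := by
        have := congrArg (fun f => f (Pi.single j (1 : ℚ))) hg
        exact this
      rw [hTsingle] at h2
      rw [h2, Pi.single_apply]
    have h3 : v j = ∑ e : E, v j e • (Pi.single e (1 : ℚ) : E → ℚ) := by
      funext e'
      rw [Finset.sum_apply, Finset.sum_eq_single e']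
      · simp
      · intro b _ hb
        simp [Pi.single_apply, hb.symm]
      · intro h; exact absurd (Finset.mem_univ _) h
    have h4 : g (v j) i = ∑ e : E, v j e * g (Pi.single e 1) i := by
      conv_lhs => rw [h3]
      rw [map_sum, Finset.sum_apply]
      refine Finset.sum_congr rfl fun e _ => ?_
      rw [map_smul, Pi.smul_apply, smul_eq_mul]
    rw [h1] at h4
    have h5 : ((if i = j then 1 else 0 : ℚ) : ℝ) =
        ∑ e : E, ((v j e : ℚ) : ℝ) * ((g (Pi.single e 1) i : ℚ) : ℝ) := by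
      rw [h4]; push_cast; rfl
    rw [← Finset.sum_coe_sort E]
    have h6 : ((if i = j then 1 else 0 : ℚ) : ℝ) = if i = j then (1 : ℝ) else 0 := by
      split_ifs <;> simp
    rw [← h6, h5]
    refine Finset.sum_congr rfl fun e _ => ?_
    have h7 : (β j : X → ℝ) e = ((v j e : ℚ) : ℝ) := by
      rw [hφ0 (β j) e]
      show ((φ0 (β j) e : ℤ) : ℝ) = (((φ0 (β j) e : ℤ) : ℚ) : ℝ)
      push_cast
      rfl
    show (if h : (e : X) ∈ E then ((g (Pi.single ⟨(e : X), h⟩ 1) i : ℚ) : ℝ) else 0) *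
      (β j : X → ℝ) e = _
    rw [dif_pos e.2, mul_comm, h7]

end Pool.Agent.Lib.MP_87965e_co
end

section

set_option autoImplicit false

open Finset Matrix

namespace Pool.Agent.Lib.MP_87965e_co

theorem sl_mul {n : ℕ} (a b : SpecialLinearGroup (Fin n) ℝ) (i j : Fin n) :
    (a * b).1 i j = ∑ k, a.1 i k * b.1 k j := by
  rw [← Matrix.mul_apply]; rfl

theorem sl_inv {n : ℕ} (a : SpecialLinearGroup (Fin n) ℝ)
    (ha : ∀ i j, j < i → a.1 i j = 0) (i j : Fin n) (hij : j < i) : (a⁻¹).1 i j = 0 := by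
  have htri : Matrix.BlockTriangular a.1 id := fun i j hij => ha i j hij
  have hinv : (a⁻¹).1 = (a.1)⁻¹ := by
    rw [Matrix.inv_def, a.2]
    simp only [Ring.inverse_one, one_smul]
    rfl
  have : Invertible a.1 :=
    Matrix.invertibleOfIsUnitDet _ (by rw [a.2]; exact isUnit_one)
  have htri' := Matrix.blockTriangular_inv_of_blockTriangular htri
  rw [hinv]
  exact htri' hij

/-- The group of real upper unitriangular matrices. -/
def Un (n : ℕ) : Subgroup (SpecialLinearGroup (Fin n) ℝ) where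
  carrier := {g | (∀ i, g.1 i i = 1) ∧ ∀ i j, j < i → g.1 i j = 0}
  mul_mem' := by
    intro a b ha hb
    constructor
    · intro i
      refine (sl_mul a b i i).trans ?_
      rw [Finset.sum_eq_single i]
      · rw [ha.1, hb.1, mul_one]
      · intro j _ hj
        rcases lt_or_gt_of_ne hj with h | h
        · rw [ha.2 i j h, zero_mul]
        · rw [hb.2 j i h, mul_zero]
      · intro h; exact absurd (Finset.mem_univ _) h
    · intro i j hij
      refine (sl_mul a b i j).trans ?_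
      refine Finset.sum_eq_zero fun k _ => ?_
      rcases lt_or_ge k i with h | h
      · rw [ha.2 i k h, zero_mul]
      · rw [hb.2 k j (lt_of_lt_of_le hij h), mul_zero]
  one_mem' := by
    constructor
    · intro i; exact Matrix.one_apply_eq i
    · intro i j hij; exact Matrix.one_apply_ne (ne_of_gt hij)
  inv_mem' := by
    intro a ha
    have h2 : ∀ i j, j < i → (a⁻¹).1 i j = 0 := fun i j hij => sl_inv a ha.2 i j hij
    refine ⟨fun i => ?_, h2⟩
    have h3 : (a * a⁻¹).1 i i = 1 := by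
      rw [mul_inv_cancel]; exact Matrix.one_apply_eq i
    rw [sl_mul, Finset.sum_eq_single i] at h3
    · rw [ha.1, one_mul] at h3
      exact h3
    · intro j _ hj
      rcases lt_or_gt_of_ne hj with h | h
      · rw [ha.2 i j h, zero_mul]
      · rw [h2 j i h, mul_zero]
    · intro h; exact absurd (Finset.mem_univ _) h

/-- The subgroup of integral matrices. -/
def UnZ (n : ℕ) : Subgroup (Un n) :=
  (SpecialLinearGroup.map (Int.castRingHom ℝ)).range.comap (Un n).subtype

/-- The filtration of integral strictly upper triangular matrices. -/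
def triN (n : ℕ) (j : ℕ) : Submodule ℤ (Matrix (Fin n) (Fin n) ℤ) where
  carrier := {A | ∀ a b : Fin n, (b : ℕ) < (a : ℕ) + j → A a b = 0}
  add_mem' := by
    intro A B hA hB a b h
    rw [Matrix.add_apply, hA a b h, hB a b h, add_zero]
  zero_mem' := by intro a b _; rfl
  smul_mem' := by
    intro c A hA a b h
    rw [Matrix.smul_apply, hA a b h, smul_zero]

theorem triN_mul (n i j : ℕ) (A B : Matrix (Fin n) (Fin n) ℤ) (hA : A ∈ triN n i)
    (hB : B ∈ triN n j) : A * B ∈ triN n (i + j) := by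
  intro a b h
  rw [Matrix.mul_apply]
  refine Finset.sum_eq_zero fun k _ => ?_
  rcases lt_or_ge (k : ℕ) ((a : ℕ) + i) with h' | h'
  · rw [hA a k h', zero_mul]
  · rw [hB k b (by omega), mul_zero]

theorem triN_anti (n i j : ℕ) (_ : 0 < i) (hij : i ≤ j) : triN n j ≤ triN n i :=
  fun _ hA a b h => hA a b (by omega)

theorem triN_zero (n j : ℕ) (hj : n < j) : triN n j = ⊥ := by
  rw [eq_bot_iff]
  intro A hA
  rw [Submodule.mem_bot]
  ext a b
  exact hA a b (by have := b.isLt; omega)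

/-- Strictly upper triangular real matrices are in the real span. -/
theorem mem_span_triN (n : ℕ) (M : Matrix (Fin n) (Fin n) ℝ)
    (hM : ∀ a b : Fin n, b ≤ a → M a b = 0) :
    M ∈ Submodule.span ℝ ((fun a : Matrix (Fin n) (Fin n) ℤ => a.map (Int.castRingHom ℝ)) ''
      (triN n 1 : Set _)) := by
  have h1 : M = ∑ a, ∑ b, M a b • ((Matrix.single a b (1 : ℤ)).map (Int.castRingHom ℝ)) := by
    ext i j
    rw [Matrix.sum_apply]
    simp only [Matrix.sum_apply, Matrix.smul_apply, Matrix.map_apply, Matrix.single_apply,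
      smul_eq_mul]
    rw [Finset.sum_eq_single i]
    · rw [Finset.sum_eq_single j]
      · simp
      · intro b _ hb; simp [hb]
      · intro h; exact absurd (Finset.mem_univ _) h
    · intro b _ hb
      refine Finset.sum_eq_zero fun c _ => ?_
      simp [hb]
    · intro h; exact absurd (Finset.mem_univ _) h
  rw [h1]
  refine Submodule.sum_mem _ fun a _ => Submodule.sum_mem _ fun b _ => ?_
  by_cases h : b ≤ a
  · rw [hM a b h, zero_smul]; exact zero_mem _
  · refine Submodule.smul_mem _ _ (Submodule.subset_span ⟨_, ?_, rfl⟩)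
    intro i j hij
    rw [Matrix.single_apply, if_neg]
    rintro ⟨rfl, rfl⟩
    apply h
    rw [Fin.le_def]
    omega

/-- Recurrence for powers of a unitriangular matrix. -/
theorem tri_recurrence (n : ℕ) (S : Set ℕ) (hS : TwoLarge S) (M : Matrix (Fin n) (Fin n) ℝ)
    (hM : ∀ a b : Fin n, b ≤ a → M a b = 0) (ε : ℝ) (hε : 0 < ε) :
    ∃ s ∈ S, ∃ γ ∈ triN n 1, ∀ i j,
      |((1 + M) ^ s * (1 + γ.map (Int.castRingHom ℝ)) - 1) i j| < ε := by
  have hpow : ∀ j, 0 < j → ∀ a b : Fin n, (b : ℕ) < (a : ℕ) + j → (M ^ j) a b = 0 := by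
    intro j hj
    induction j with
    | zero => omega
    | succ j ih =>
      intro a b hab
      rcases Nat.eq_zero_or_pos j with rfl | hj'
      · rw [zero_add, pow_one]
        exact hM a b (by rw [Fin.le_def]; omega)
      · rw [pow_succ, Matrix.mul_apply]
        refine Finset.sum_eq_zero fun k _ => ?_
        rcases lt_or_ge (k : ℕ) ((a : ℕ) + j) with h' | h'
        · rw [ih hj' a k h', zero_mul]
        · rw [hM k b (by rw [Fin.le_def]; omega), mul_zero]
  have hz : M ^ (n + 1 + 1) = 0 := by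
    ext a b
    exact hpow _ (by omega) a b (by have := b.isLt; omega)
  obtain ⟨s, hs, γ, hγ, h⟩ := nilp_recurrence (triN n) (n + 1) (n + 1) (by omega) (by omega)
    (fun i j a b => triN_mul n i j a b) (triN_anti n) (fun j hj => triN_zero n j (by omega)) S hS
    (pcoef (n + 1) M 1) (fun l hl _ => pcoef_mem _ _ _ l hl _ fun j hj =>
      mem_span_triN n _ fun a b hab => hpow j hj a b (by rw [Fin.le_def] at hab; omega)) ε hε
  refine ⟨s, hs, γ, hγ, fun i j => ?_⟩
  rw [curve_eq] at h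
  have h1 : (1 + M) ^ s = ∑ j ∈ range (n + 1 + 1), (binP j).eval (1 * (s : ℝ)) • M ^ j := by
    rw [pow_eq_sum (n + 1) M hz s]
    refine Finset.sum_congr rfl fun j _ => ?_
    rw [one_mul, binP_eval_nat]
  rw [h1]
  exact h i j

theorem mat_nhds (n : ℕ) (t : Set (Matrix (Fin n) (Fin n) ℝ))
    (ht : t ∈ nhds (1 : Matrix (Fin n) (Fin n) ℝ)) : ∃ ε : ℝ, 0 < ε ∧
      ∀ A : Matrix (Fin n) (Fin n) ℝ, (∀ i j, |A i j - (1 : Matrix (Fin n) (Fin n) ℝ) i j| < ε) →
        A ∈ t := by
  obtain ⟨ε, hε, hball⟩ := (Metric.mem_nhds_iff (α := Fin n → Fin n → ℝ)).1 ht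
  refine ⟨ε, hε, fun A hA => hball ?_⟩
  refine (dist_pi_lt_iff hε).2 fun i => (dist_pi_lt_iff hε).2 fun j => ?_
  rw [Real.dist_eq]
  exact hA i j

theorem sl_pow {n : ℕ} (a : SpecialLinearGroup (Fin n) ℝ) (s : ℕ) : (a ^ s).1 = a.1 ^ s := by
  induction s with
  | zero => rfl
  | succ s ih => rw [pow_succ, pow_succ, ← ih]; rfl

/-- Recurrence on the nilmanifold of unitriangular matrices. -/
theorem un_recurrence (S : Set ℕ) (hS : TwoLarge S) (n : ℕ) (τ : Un n) (x : Un n ⧸ UnZ n)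
    (U : Set (Un n ⧸ UnZ n)) (hU : IsOpen U) (hx : x ∈ U) : ∃ s ∈ S, τ ^ s • x ∈ U := by
  obtain ⟨g, rfl⟩ := QuotientGroup.mk_surjective x
  have hc : Continuous fun h : Un n => (QuotientGroup.mk (g * h) : Un n ⧸ UnZ n) :=
    QuotientGroup.continuous_mk.comp (continuous_const.mul continuous_id)
  have hV : (fun h : Un n => (QuotientGroup.mk (g * h) : Un n ⧸ UnZ n)) ⁻¹' U ∈ nhds (1 : Un n) := by
    refine hc.continuousAt.preimage_mem_nhds ?_
    rw [mul_one]
    exact hU.mem_nhds hx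
  -- neighbourhoods of the identity
  obtain ⟨ε, hε, hball⟩ : ∃ ε : ℝ, 0 < ε ∧ ∀ h : Un n, (∀ i j,
      |((h : SpecialLinearGroup (Fin n) ℝ) : Matrix (Fin n) (Fin n) ℝ) i j -
        (1 : Matrix (Fin n) (Fin n) ℝ) i j| < ε) →
      (QuotientGroup.mk (g * h) : Un n ⧸ UnZ n) ∈ U := by
    rw [nhds_subtype, Filter.mem_comap] at hV
    obtain ⟨t, ht, htU⟩ := hV
    rw [show ((1 : Un n) : SpecialLinearGroup (Fin n) ℝ) = 1 from rfl] at ht
    have hind : Topology.IsInducing (fun g : SpecialLinearGroup (Fin n) ℝ =>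
        (g : Matrix (Fin n) (Fin n) ℝ)) := Topology.IsInducing.subtypeVal
    rw [hind.nhds_eq_comap, Filter.mem_comap] at ht
    obtain ⟨t', ht', htt'⟩ := ht
    obtain ⟨ε, hε, hball⟩ := mat_nhds n t' ht'
    exact ⟨ε, hε, fun h hh => htU (htt' (hball _ hh))⟩
  -- the conjugated translation
  set τ' : Un n := g⁻¹ * τ * g with hτ'
  set M : Matrix (Fin n) (Fin n) ℝ :=
    ((τ' : SpecialLinearGroup (Fin n) ℝ) : Matrix (Fin n) (Fin n) ℝ) - 1 with hM
  obtain ⟨s, hs, γ, hγ, hclose⟩ := tri_recurrence n S hS M (by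
    intro a b hab
    rw [hM, Matrix.sub_apply]
    rcases eq_or_lt_of_le hab with rfl | hlt
    · rw [τ'.2.1, Matrix.one_apply_eq, sub_self]
    · rw [τ'.2.2 a b hlt, Matrix.one_apply_ne (ne_of_gt hlt), sub_zero]) ε hε
  refine ⟨s, hs, ?_⟩
  -- the integral element
  have hdet : (1 + γ).det = 1 := by
    rw [Matrix.det_of_isUpperTriangular]
    · refine Finset.prod_eq_one fun i _ => ?_
      rw [Matrix.add_apply, hγ i i (by omega), Matrix.one_apply_eq, add_zero]
    · intro i j hij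
      have hij' : j < i := hij
      rw [Matrix.add_apply, hγ i j (by rw [Fin.lt_def] at hij'; omega), add_zero]
      exact Matrix.one_apply_ne (ne_of_gt hij')
  let γZ : SpecialLinearGroup (Fin n) ℤ := ⟨1 + γ, hdet⟩
  let γR : SpecialLinearGroup (Fin n) ℝ := SpecialLinearGroup.map (Int.castRingHom ℝ) γZ
  have hγR : (γR : Matrix (Fin n) (Fin n) ℝ) = 1 + γ.map (Int.castRingHom ℝ) := by
    ext i j
    show (Int.castRingHom ℝ) ((1 + γ) i j) = _
    rw [Matrix.add_apply, Matrix.add_apply, map_add, Matrix.map_apply]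
    congr 1
    by_cases h : i = j
    · subst h; simp
    · rw [Matrix.one_apply_ne h, Matrix.one_apply_ne h, map_zero]
  have hγU : γR ∈ Un n := by
    constructor
    · intro i
      rw [hγR, Matrix.add_apply, Matrix.map_apply, hγ i i (by omega), Matrix.one_apply_eq,
        map_zero, add_zero]
    · intro i j hij
      rw [hγR, Matrix.add_apply, Matrix.map_apply, hγ i j (by rw [Fin.lt_def] at hij; omega),
        Matrix.one_apply_ne (ne_of_gt hij), map_zero, add_zero]
  have hmem : (⟨γR, hγU⟩ : Un n) ∈ UnZ n := ⟨γZ, rfl⟩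
  have key := hball (τ' ^ s * ⟨γR, hγU⟩) (by
    intro i j
    have h1 := hclose i j
    rw [Matrix.sub_apply] at h1
    have h2 : (((τ' ^ s * ⟨γR, hγU⟩ : Un n) : SpecialLinearGroup (Fin n) ℝ) :
        Matrix (Fin n) (Fin n) ℝ) = (1 + M) ^ s * (1 + γ.map (Int.castRingHom ℝ)) := by
      rw [← hγR, hM, add_sub_cancel, ← sl_pow]
      rfl
    rw [h2]
    exact h1)
  have h4 : (QuotientGroup.mk (g * (τ' ^ s * ⟨γR, hγU⟩)) : Un n ⧸ UnZ n) =
      τ ^ s • (QuotientGroup.mk g : Un n ⧸ UnZ n) := by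
    have h5 : g * (τ' ^ s * ⟨γR, hγU⟩) = τ ^ s * g * ⟨γR, hγU⟩ := by
      rw [hτ']
      have : (g⁻¹ * τ * g) ^ s = g⁻¹ * τ ^ s * g := by
        have h6 := conj_pow (a := g⁻¹) (b := τ) (i := s)
        rw [inv_inv] at h6
        exact h6
      rw [this]; group
    rw [h5, QuotientGroup.mk_mul_of_mem _ hmem]
    rfl
  rw [← h4]
  exact key

end Pool.Agent.Lib.MP_87965e_co
end

section

set_option autoImplicit false

open Finset Polynomial Topology

namespace Pool.Agent.Lib.MP_87965e_co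

section PZlemmas

variable {𝔾 : Type*} [Group 𝔾] {H : Subgroup 𝔾}

theorem PolyOn.pz {k : ℕ} {f : 𝔾 → ℝ} (h : PolyOn H k f) : PZ H (k + 1) f := by
  induction k generalizing f with
  | zero =>
    intro g hg x hx
    simp only [dR]
    rw [h _ (H.mul_mem hx hg) x hx, sub_self]
  | succ k ih => intro g hg; exact ih (h g hg)

theorem PZ.of_zero {f : 𝔾 → ℝ} (w : ℕ) (h : ∀ x ∈ H, f x = 0) : PZ H w f := by
  induction w generalizing f with
  | zero => exact h
  | succ w ih =>
    intro g hg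
    refine ih fun x hx => ?_
    simp only [dR]
    rw [h x hx, h _ (H.mul_mem hx hg), sub_zero]

theorem PZ.up {w : ℕ} {f : 𝔾 → ℝ} (h : PZ H w f) : PZ H (w + 1) f := by
  induction w generalizing f with
  | zero => exact PZ.of_zero _ h
  | succ w ih => intro g hg; exact ih (h g hg)

theorem PZ.mono {w w' : ℕ} {f : 𝔾 → ℝ} (h : PZ H w f) (hw : w ≤ w') : PZ H w' f := by
  induction hw with
  | refl => exact h
  | step _ ih => exact ih.up

theorem PZ.add {w : ℕ} {f f' : 𝔾 → ℝ} (h : PZ H w f) (h' : PZ H w f') :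
    PZ H w (fun x => f x + f' x) := by
  induction w generalizing f f' with
  | zero => intro x hx; simp only; rw [h x hx, h' x hx, add_zero]
  | succ w ih =>
    intro g hg
    refine (ih (h g hg) (h' g hg)).congr fun x _ => ?_
    simp only [dR]; ring

theorem PZ.smul {w : ℕ} {f : 𝔾 → ℝ} (h : PZ H w f) (a : ℝ) : PZ H w (fun x => a * f x) := by
  induction w generalizing f with
  | zero => intro x hx; simp only; rw [h x hx, mul_zero]
  | succ w ih =>
    intro g hg
    refine (ih (h g hg)).congr fun x _ => ?_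
    simp only [dR]; ring

theorem PZ.dR_left {w : ℕ} {f : 𝔾 → ℝ} (h : PZ H w f) (a : 𝔾) (ha : a ∈ H) :
    PZ H (w - 1) (fun x => f (a * x) - f x) := by
  rcases w with _ | w
  · intro x hx
    simp only
    rw [h _ (H.mul_mem ha hx), h x hx, sub_zero]
  · rcases w with _ | w
    · intro x hx
      exact h.polyOn.zero_left a ha x hx
    · exact (h.polyOn.dR_left a ha).pz

end PZlemmas

variable {G : Type*} [TopologicalSpace G] [Group G] [IsTopologicalGroup G]

/-- An integral unipotent representation of the path group which separates the lattice. -/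
structure Rep (Γ N : Subgroup G) where
  /-- the dimension -/
  n : ℕ
  /-- the length of the filtration -/
  K : ℕ
  /-- the representation -/
  ρ : C(ℝ, G) → Matrix (Fin n) (Fin n) ℝ
  /-- the filtration -/
  F : ℕ → Submodule ℤ (Matrix (Fin n) (Fin n) ℤ)
  mul : ∀ g ∈ Lp Γ N, ∀ h ∈ Lp Γ N, ρ (g * h) = ρ g * ρ h
  one : ρ 1 = 1
  int : ∀ g ∈ Lp Γ N, g 1 ∈ Γ → ∃ A : Matrix (Fin n) (Fin n) ℤ, ρ g = A.map (Int.castRingHom ℝ)
  cont : ∀ i j, ContinuousOn (fun g => ρ g i j) (Lp Γ N)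
  sep : ∀ g ∈ Lp Γ N, (∃ A : Matrix (Fin n) (Fin n) ℤ, ρ g = A.map (Int.castRingHom ℝ)) →
    g 1 ∈ Γ
  F_mul : ∀ i j a b, a ∈ F i → b ∈ F j → a * b ∈ F (i + j)
  F_anti : ∀ i j, i ≤ j → F j ≤ F i
  F_zero : ∀ j, K < j → F j = ⊥
  span : ∀ g ∈ Lp Γ N, ρ g - 1 ∈ Submodule.span ℝ
    ((fun a : Matrix (Fin n) (Fin n) ℤ => a.map (Int.castRingHom ℝ)) '' (F 1 : Set _))

open Classical in
/-- Restriction of a function to a subgroup, extended by zero. -/
noncomputable def cut {𝔾 : Type*} [Group 𝔾] (L : Subgroup 𝔾) (f : 𝔾 → ℝ) (x : 𝔾) : ℝ :=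
  if x ∈ L then f x else 0

theorem cut_eq {𝔾 : Type*} [Group 𝔾] (L : Subgroup 𝔾) (f : 𝔾 → ℝ) (x : 𝔾) (hx : x ∈ L) :
    cut L f x = f x := if_pos hx

theorem Good.congr {Γ : Subgroup G} {L : Subgroup C(ℝ, G)} {k : ℕ} {f f' : C(ℝ, G) → ℝ}
    (h : Good Γ L k f) (hΓ : ∀ γ ∈ Γ, ContinuousMap.const ℝ γ ∈ L)
    (he : ∀ x ∈ L, f x = f' x) : Good Γ L k f' :=
  ⟨h.toNice.congr he, fun p hp γ hγ => by
    rw [← he p hp, ← he _ (L.mul_mem hp (hΓ γ hγ)), h.ginv p hp γ hγ]⟩

/-- The group of integral good functions. -/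
def VZ (Γ N : Subgroup G) (k : ℕ) : Submodule ℤ (C(ℝ, G) → ℝ) where
  carrier := {f | Good Γ (Lp Γ N) k f ∧ (∀ x, x ∉ Lp Γ N → f x = 0) ∧
    ∀ x ∈ Lp Γ N, x 1 ∈ Γ → ∃ z : ℤ, f x = z}
  add_mem' := by
    rintro f g ⟨h1, h2, h3⟩ ⟨h1', h2', h3'⟩
    refine ⟨h1.add h1', fun x hx => ?_, fun x hx hx1 => ?_⟩
    · rw [Pi.add_apply, h2 x hx, h2' x hx, add_zero]
    · obtain ⟨z, hz⟩ := h3 x hx hx1
      obtain ⟨z', hz'⟩ := h3' x hx hx1
      exact ⟨z + z', by rw [Pi.add_apply, hz, hz']; push_cast; rfl⟩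
  zero_mem' := by
    refine ⟨⟨by simpa using! Nice.const k 0, fun _ _ _ _ => rfl⟩, fun _ _ => rfl,
      fun _ _ _ => ⟨0, by simp⟩⟩
  smul_mem' := by
    rintro c f ⟨h1, h2, h3⟩
    have e : c • f = fun x => (c : ℝ) * f x := by
      funext x; simp [zsmul_eq_mul]
    rw [e]
    refine ⟨h1.smul _, fun x hx => ?_, fun x hx hx1 => ?_⟩
    · simp only; rw [h2 x hx, mul_zero]
    · obtain ⟨z, hz⟩ := h3 x hx hx1
      exact ⟨c * z, by simp only; rw [hz]; push_cast; rfl⟩

theorem exists_rep {d : ℕ} (hd : lcs C(ℝ, G) d = ⊥) {Γ N : Subgroup G} (h : Chain Γ N) :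
    Nonempty (Rep Γ N) := by
  classical
  obtain ⟨hΓN, ⟨Fs, k, hFs, hsep⟩, hden, hfin, -⟩ := h.props hd
  obtain ⟨E, hE, hE'⟩ := hfin k
  set L := Lp Γ N with hL
  have hconst : ∀ γ ∈ Γ, ContinuousMap.const ℝ γ ∈ L := fun γ hγ => const_mem_Lp hΓN γ hγ
  obtain ⟨n, b, B, hb, hspan, hB⟩ := exists_lattice_basis (VZ Γ N k) E
    (fun f hf e he => hf.2.2 e (hE e he).1 (hE e he).2) (by
      intro f hf h0
      funext x
      by_cases hx : x ∈ L
      · exact hden k f hf.1.toNice (hE' f hf.1 h0) x hx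
      · exact hf.2.1 x hx)
  -- the representation
  let ρ : C(ℝ, G) → Matrix (Fin n) (Fin n) ℝ := fun g => Matrix.of fun i j =>
    ∑ e ∈ E, B i e * b j (g⁻¹ * e)
  have hρ : ∀ g i j, ρ g i j = ∑ e ∈ E, B i e * b j (g⁻¹ * e) := fun _ _ _ => rfl
  -- left translation by lattice elements
  have hVZ : ∀ j, ∀ g ∈ L, g 1 ∈ Γ → (fun x => b j (g⁻¹ * x)) ∈ VZ Γ N k := by
    intro j g hg hg1
    obtain ⟨h1, h2, h3⟩ := hb j
    have hgi := L.inv_mem hg
    refine ⟨h1.left g⁻¹ hgi, fun x hx => ?_, fun x hx hx1 => ?_⟩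
    · exact h2 _ fun hmem => hx (by
        have := L.mul_mem hg hmem
        rwa [mul_inv_cancel_left] at this)
    · apply h3 _ (L.mul_mem hgi hx)
      rw [ContinuousMap.mul_apply, ContinuousMap.inv_apply]
      exact Γ.mul_mem (Γ.inv_mem hg1) hx1
  have hcoord : ∀ (f : C(ℝ, G) → ℝ) (z : Fin n → ℤ), f = ∑ i, (z i : ℝ) • b i →
      ∀ i, ∑ e ∈ E, B i e * f e = z i := by
    intro f z hf i
    calc ∑ e ∈ E, B i e * f e = ∑ e ∈ E, ∑ j, (z j : ℝ) * (B i e * b j e) := by
          refine Finset.sum_congr rfl fun e _ => ?_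
          rw [hf, Finset.sum_apply, Finset.mul_sum]
          refine Finset.sum_congr rfl fun j _ => ?_
          rw [Pi.smul_apply, smul_eq_mul]; ring
      _ = ∑ j, (z j : ℝ) * ∑ e ∈ E, B i e * b j e := by
          rw [Finset.sum_comm]
          refine Finset.sum_congr rfl fun j _ => ?_
          rw [Finset.mul_sum]
      _ = z i := by
          rw [Finset.sum_eq_single i]
          · rw [hB, if_pos rfl, mul_one]
          · intro j _ hj
            rw [hB, if_neg hj.symm, mul_zero]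
          · intro h; exact absurd (Finset.mem_univ _) h
  have hint : ∀ g ∈ L, g 1 ∈ Γ → ∃ A : Matrix (Fin n) (Fin n) ℤ,
      ρ g = A.map (Int.castRingHom ℝ) ∧ ∀ j x, b j (g⁻¹ * x) = ∑ i, (A i j : ℝ) * b i x := by
    intro g hg hg1
    choose z hz using fun j => hspan _ (hVZ j g hg hg1)
    refine ⟨Matrix.of fun i j => z j i, ?_, ?_⟩
    · ext i j
      rw [hρ]
      have := hcoord _ _ (hz j) i
      rw [this]
      rfl
    · intro j x
      have := congrFun (hz j) x
      simp only [Finset.sum_apply, Pi.smul_apply, smul_eq_mul] at this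
      exact this
  -- niceness of the entries
  have hnice : ∀ j, ∀ a ∈ L, Nice L k (fun g => b j (g⁻¹ * a)) := fun j a ha =>
    (hb j).1.toNice.inv a ha
  have hρnice : ∀ i j, Nice L k (fun g => ρ g i j) := by
    intro i j
    have := Nice.sum (L := L) (k := k) E (fun e g => B i e * b j (g⁻¹ * e)) fun e he =>
      (hnice j e (hE e he).1).smul (B i e)
    exact this
  -- the main formula
  have hR1 : ∀ g ∈ L, ∀ j, ∀ x ∈ L, b j (g⁻¹ * x) = ∑ i, ρ g i j * b i x := by
    intro g hg j x hx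
    have h1 := hden k (fun g => b j (g⁻¹ * x) + (-1) * ∑ i, b i x * ρ g i j)
      ((hnice j x hx).add ((Nice.sum Finset.univ _ fun i _ => (hρnice i j).smul (b i x)).smul _))
      (by
        intro g hg hg1
        obtain ⟨A, hA, hA'⟩ := hint g hg hg1
        show b j (g⁻¹ * x) + (-1) * ∑ i, b i x * ρ g i j = 0
        rw [hA' j x, hA]
        simp only [Matrix.map_apply, eq_intCast]
        rw [neg_one_mul, add_neg_eq_zero]
        refine Finset.sum_congr rfl fun i _ => ?_
        ring) g hg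
    have h1' : b j (g⁻¹ * x) + (-1) * ∑ i, b i x * ρ g i j = 0 := h1
    rw [neg_one_mul, add_neg_eq_zero] at h1'
    rw [h1']
    refine Finset.sum_congr rfl fun i _ => ?_
    ring
  have hmul : ∀ g ∈ L, ∀ h ∈ L, ρ (g * h) = ρ g * ρ h := by
    intro g hg h hh
    ext i j
    rw [hρ, Matrix.mul_apply]
    calc ∑ e ∈ E, B i e * b j ((g * h)⁻¹ * e)
        = ∑ e ∈ E, ∑ l, ρ h l j * (B i e * b l (g⁻¹ * e)) := by
          refine Finset.sum_congr rfl fun e he => ?_
          rw [mul_inv_rev, mul_assoc, hR1 h hh j _ (L.mul_mem (L.inv_mem hg) (hE e he).1),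
            Finset.mul_sum]
          refine Finset.sum_congr rfl fun l _ => ?_
          ring
      _ = ∑ l, ρ g i l * ρ h l j := by
          rw [Finset.sum_comm]
          refine Finset.sum_congr rfl fun l _ => ?_
          rw [← Finset.mul_sum, ← hρ g i l, mul_comm]
  have hone : ρ 1 = 1 := by
    ext i j
    rw [hρ, inv_one]
    simp only [one_mul]
    rw [hB, Matrix.one_apply]
  -- functions attached to vectors
  let fv : (Fin n → ℝ) → C(ℝ, G) → ℝ := fun x y => ∑ j, x j * b j y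
  have hfv_zero : ∀ x, (∀ y ∈ L, fv x y = 0) → x = 0 := by
    intro x hx
    funext i
    have h1 : ∑ e ∈ E, B i e * fv x e = x i := by
      calc ∑ e ∈ E, B i e * fv x e = ∑ e ∈ E, ∑ j, x j * (B i e * b j e) := by
            refine Finset.sum_congr rfl fun e _ => ?_
            rw [Finset.mul_sum]
            refine Finset.sum_congr rfl fun j _ => ?_
            ring
        _ = ∑ j, x j * ∑ e ∈ E, B i e * b j e := by
            rw [Finset.sum_comm]
            refine Finset.sum_congr rfl fun j _ => ?_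
            rw [Finset.mul_sum]
        _ = x i := by
            rw [Finset.sum_eq_single i]
            · rw [hB, if_pos rfl, mul_one]
            · intro j _ hj
              rw [hB, if_neg hj.symm, mul_zero]
            · intro h; exact absurd (Finset.mem_univ _) h
    rw [← h1, Finset.sum_eq_zero]
    · rfl
    · intro e he
      rw [hx e (hE e he).1, mul_zero]
  have hfv_mulVec : ∀ (A : Matrix (Fin n) (Fin n) ℤ) (x : Fin n → ℝ) (y : C(ℝ, G)),
      fv ((A.map (Int.castRingHom ℝ)).mulVec x) y = ∑ j, x j * ∑ i, (A i j : ℝ) * b i y := by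
    intro A x y
    show ∑ i, ((A.map (Int.castRingHom ℝ)).mulVec x) i * b i y = _
    simp only [Matrix.mulVec, dotProduct, Matrix.map_apply, eq_intCast, Finset.sum_mul,
      Finset.mul_sum]
    rw [Finset.sum_comm]
    refine Finset.sum_congr rfl fun j _ => Finset.sum_congr rfl fun i _ => ?_
    ring
  have hfv_pz : ∀ x, PZ L (k + 1) (fv x) := by
    intro x
    have h1 := Nice.sum (L := L) (k := k) Finset.univ (fun j y => x j * b j y) fun j _ =>
      (hb j).1.toNice.smul (x j)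
    exact h1.poly.pz
  have hfv_add : ∀ x y, fv (x + y) = fun z => fv x z + fv y z := by
    intro x y
    funext z
    show ∑ j, (x + y) j * b j z = ∑ j, x j * b j z + ∑ j, y j * b j z
    rw [← Finset.sum_add_distrib]
    refine Finset.sum_congr rfl fun j _ => ?_
    rw [Pi.add_apply]; ring
  have hfv_smul : ∀ (c : ℝ) x, fv (c • x) = fun z => c * fv x z := by
    intro c x
    funext z
    show ∑ j, (c • x) j * b j z = c * ∑ j, x j * b j z
    rw [Finset.mul_sum]
    refine Finset.sum_congr rfl fun j _ => ?_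
    rw [Pi.smul_apply, smul_eq_mul]; ring
  -- the filtration
  let F : ℕ → Submodule ℤ (Matrix (Fin n) (Fin n) ℤ) := fun m =>
    { carrier := {A | ∀ w x, PZ L w (fv x) → PZ L (w - m) (fv ((A.map (Int.castRingHom ℝ)).mulVec x))}
      add_mem' := by
        intro A A' hA hA' w x hx
        have e : ((A + A').map (Int.castRingHom ℝ)).mulVec x =
            (A.map (Int.castRingHom ℝ)).mulVec x + (A'.map (Int.castRingHom ℝ)).mulVec x := by
          rw [Matrix.map_add _ (fun a b => map_add _ a b), Matrix.add_mulVec]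
        rw [e, hfv_add]
        exact (hA w x hx).add (hA' w x hx)
      zero_mem' := by
        intro w x _
        have e : (((0 : Matrix (Fin n) (Fin n) ℤ)).map (Int.castRingHom ℝ)).mulVec x = 0 := by
          rw [Matrix.map_zero _ (map_zero _), Matrix.zero_mulVec]
        rw [e]
        refine PZ.of_zero _ fun y _ => ?_
        show ∑ j, (0 : Fin n → ℝ) j * b j y = 0
        simp
      smul_mem' := by
        intro c A hA w x hx
        have e : ((c • A).map (Int.castRingHom ℝ)).mulVec x =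
            (c : ℝ) • (A.map (Int.castRingHom ℝ)).mulVec x := by
          have : (c • A).map (Int.castRingHom ℝ) = (c : ℝ) • A.map (Int.castRingHom ℝ) := by
            ext i j
            rw [Matrix.map_apply, Matrix.smul_apply, Matrix.smul_apply, Matrix.map_apply,
              smul_eq_mul, smul_eq_mul, map_mul]
            rfl
          rw [this, Matrix.smul_mulVec]
        rw [e, hfv_smul]
        exact (hA w x hx).smul _ }
  have hF : ∀ m A, A ∈ F m ↔ ∀ w x, PZ L w (fv x) →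
      PZ L (w - m) (fv ((A.map (Int.castRingHom ℝ)).mulVec x)) := fun _ _ => Iff.rfl
  have hFone : ∀ g ∈ L, ∀ A : Matrix (Fin n) (Fin n) ℤ, ρ g = A.map (Int.castRingHom ℝ) →
      (∀ j x, b j (g⁻¹ * x) = ∑ i, (A i j : ℝ) * b i x) → A - 1 ∈ F 1 := by
    intro g hg A hA hA'
    rw [hF]
    intro w x hx
    have h1 : fv (((A - 1).map (Int.castRingHom ℝ)).mulVec x) =
        fun y => fv x (g⁻¹ * y) - fv x y := by
      funext y
      rw [hfv_mulVec]
      show _ = ∑ j, x j * b j (g⁻¹ * y) - ∑ j, x j * b j y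
      rw [← Finset.sum_sub_distrib]
      refine Finset.sum_congr rfl fun j _ => ?_
      rw [hA' j y, ← mul_sub]
      congr 1
      have h2 : ∀ i, (((A - 1) i j : ℤ) : ℝ) * b i y =
          (A i j : ℝ) * b i y - (if i = j then b i y else 0) := by
        intro i
        rw [Matrix.sub_apply, Matrix.one_apply]
        split_ifs <;> push_cast <;> ring
      rw [Finset.sum_congr rfl (fun i _ => h2 i), Finset.sum_sub_distrib, Finset.sum_ite_eq']
      simp
    rw [h1]
    exact hx.dR_left g⁻¹ (L.inv_mem hg)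
  refine ⟨⟨n, k + 1, ρ, F, hmul, hone, fun g hg hg1 => ?_, fun i j => (hρnice i j).cont, ?_, ?_,
    ?_, ?_, ?_⟩⟩
  · obtain ⟨A, hA, _⟩ := hint g hg hg1
    exact ⟨A, hA⟩
  · -- separation
    rintro g hg ⟨A, hA⟩
    have h1 : (g⁻¹) 1 ∈ Γ := by
      apply hsep _ (L.inv_mem hg)
      intro F0 hF0 δ hδ hδ1
      have hmem : cut L F0 ∈ VZ Γ N k := by
        refine ⟨(hFs F0 hF0).1.congr hconst fun x hx => (cut_eq L F0 x hx).symm,
          fun x hx => if_neg hx, fun x hx hx1 => ?_⟩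
        rw [cut_eq L F0 x hx]
        exact (hFs F0 hF0).2 x hx hx1
      obtain ⟨z, hz⟩ := hspan _ hmem
      have hδg : δ * g⁻¹ ∈ L := L.mul_mem hδ (L.inv_mem hg)
      have e1 : F0 (δ * g⁻¹) = ∑ j, (z j : ℝ) * b j (δ * g⁻¹) := by
        rw [← cut_eq L F0 _ hδg, hz]
        simp [Finset.sum_apply]
      have e2 : ∀ j, ∃ y : ℤ, b j (δ * g⁻¹) = y := by
        intro j
        have h2 := hR1 (g * δ⁻¹) (L.mul_mem hg (L.inv_mem hδ)) j 1 L.one_mem
        rw [mul_inv_rev, inv_inv, mul_one] at h2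
        rw [h2, hmul g hg δ⁻¹ (L.inv_mem hδ), hA]
        obtain ⟨A', hA', _⟩ := hint δ⁻¹ (L.inv_mem hδ) (by
          rw [ContinuousMap.inv_apply]; exact Γ.inv_mem hδ1)
        rw [hA']
        have h3 : ∀ i, ∃ y : ℤ, b i 1 = y := fun i => (hb i).2.2 1 L.one_mem (by
          rw [ContinuousMap.one_apply]; exact Γ.one_mem)
        choose y hy using h3
        refine ⟨∑ i, (A * A') i j * y i, ?_⟩
        push_cast
        refine Finset.sum_congr rfl fun i _ => ?_
        rw [hy i, ← Matrix.map_mul]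
        rfl
      choose y hy using e2
      refine ⟨∑ j, z j * y j, ?_⟩
      rw [e1]
      push_cast
      refine Finset.sum_congr rfl fun j _ => ?_
      rw [hy j]
    rw [ContinuousMap.inv_apply] at h1
    exact (Γ.inv_mem_iff).1 h1
  · -- products
    intro i j A A' hA hA'
    rw [hF] at hA hA' ⊢
    intro w x hx
    have h1 := hA (w - j) _ (hA' w x hx)
    have e : ((A * A').map (Int.castRingHom ℝ)).mulVec x =
        (A.map (Int.castRingHom ℝ)).mulVec ((A'.map (Int.castRingHom ℝ)).mulVec x) := by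
      rw [Matrix.map_mul, Matrix.mulVec_mulVec]
    rw [e]
    have e2 : w - (i + j) = w - j - i := by omega
    rw [e2]
    exact h1
  · intro i j hij A hA
    rw [hF] at hA ⊢
    intro w x hx
    exact (hA w x hx).mono (by omega)
  · intro j hj
    rw [eq_bot_iff]
    intro A hA
    rw [Submodule.mem_bot]
    have h1 : ∀ x, (A.map (Int.castRingHom ℝ)).mulVec x = 0 := by
      intro x
      apply hfv_zero
      have h2 := (hF j A).1 hA (k + 1) x (hfv_pz x)
      have e : k + 1 - j = 0 := by omega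
      rw [e] at h2
      exact h2
    ext i l
    have h2 := congrFun (h1 (Pi.single l 1)) i
    rw [Matrix.mulVec_single_one] at h2
    simp only [Matrix.col_apply, Matrix.map_apply, eq_intCast, Pi.zero_apply] at h2
    exact_mod_cast h2
  · -- the real span
    intro g hg
    by_contra hcon
    obtain ⟨ℓ, hℓ1, hℓ2⟩ := Submodule.exists_le_ker_of_notMem hcon
    have hlin : ∀ M : Matrix (Fin n) (Fin n) ℝ, ℓ M = ∑ i, ∑ j, ℓ (Matrix.single i j 1) * M i j := by
      intro M
      conv_lhs => rw [Matrix.matrix_eq_sum_single M]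
      rw [map_sum]
      refine Finset.sum_congr rfl fun i _ => ?_
      rw [map_sum]
      refine Finset.sum_congr rfl fun j _ => ?_
      have : Matrix.single i j (M i j) = M i j • Matrix.single i j (1 : ℝ) := by
        rw [Matrix.smul_single, smul_eq_mul, mul_one]
      rw [this, map_smul, smul_eq_mul, mul_comm]
    have h1 := hden k (fun g => ∑ i, ∑ j, ℓ (Matrix.single i j 1) *
        (ρ g i j + (-1) * (1 : Matrix (Fin n) (Fin n) ℝ) i j))
      (Nice.sum _ _ fun i _ => Nice.sum _ _ fun j _ =>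
        ((hρnice i j).add (Nice.const k _)).smul _) (by
        intro x hx hx1
        obtain ⟨A, hA, hA'⟩ := hint x hx hx1
        have h2 : (A - 1).map (Int.castRingHom ℝ) ∈ LinearMap.ker ℓ :=
          hℓ2 (Submodule.subset_span ⟨_, hFone x hx A hA hA', rfl⟩)
        rw [LinearMap.mem_ker, hlin] at h2
        rw [← h2]
        refine Finset.sum_congr rfl fun i _ => Finset.sum_congr rfl fun j _ => ?_
        congr 1
        rw [hA]
        simp only [Matrix.map_apply, Matrix.sub_apply, map_sub, eq_intCast, Matrix.one_apply]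
        split_ifs <;> simp [sub_eq_add_neg]) g hg
    apply hℓ1
    rw [hlin, ← h1]
    refine Finset.sum_congr rfl fun i _ => Finset.sum_congr rfl fun j _ => ?_
    rw [Matrix.sub_apply]
    ring

end Pool.Agent.Lib.MP_87965e_co
end

section

set_option autoImplicit false

open Finset Polynomial Topology

namespace Pool.Agent.Lib.MP_87965e_co

theorem matrix_nhds {n : Type} [Fintype n] [DecidableEq n] (t : Set (Matrix n n ℝ))
    (ht : t ∈ 𝓝 (1 : Matrix n n ℝ)) : ∃ ε : ℝ, 0 < ε ∧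
      ∀ A : Matrix n n ℝ, (∀ i j, |A i j - (1 : Matrix n n ℝ) i j| < ε) → A ∈ t := by
  obtain ⟨ε, hε, hball⟩ := (Metric.mem_nhds_iff (α := n → n → ℝ)).1 ht
  refine ⟨ε, hε, fun A hA => hball ?_⟩
  refine (dist_pi_lt_iff hε).2 fun i => (dist_pi_lt_iff hε).2 fun j => ?_
  rw [Real.dist_eq]
  exact hA i j

theorem int_of_close (x : ℝ) (h : ∀ η : ℝ, 0 < η → ∃ z : ℤ, |(z : ℝ) - x| < η) :
    ∃ z : ℤ, x = z := by
  have h1 : x ∈ closure (Set.range ((↑) : ℤ → ℝ)) := by
    rw [Metric.mem_closure_iff]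
    intro ε hε
    obtain ⟨z, hz⟩ := h ε hε
    refine ⟨z, ⟨z, rfl⟩, ?_⟩
    rw [Real.dist_eq, abs_sub_comm]
    exact hz
  rw [Int.isClosedEmbedding_coe_real.isClosed_range.closure_eq] at h1
  obtain ⟨z, hz⟩ := h1
  exact ⟨z, hz.symm⟩

section Span

variable {n : Type} [Fintype n] [DecidableEq n] (N : ℕ → Submodule ℤ (Matrix n n ℤ))

/-- The real span of a layer. -/
def rs (j : ℕ) : Submodule ℝ (Matrix n n ℝ) :=
  Submodule.span ℝ ((fun a : Matrix n n ℤ => a.map (Int.castRingHom ℝ)) '' (N j : Set _))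

theorem rs_mul (hmul : ∀ i j a b, a ∈ N i → b ∈ N j → a * b ∈ N (i + j)) (i j : ℕ)
    (X Y : Matrix n n ℝ) (hX : X ∈ rs N i) (hY : Y ∈ rs N j) : X * Y ∈ rs N (i + j) := by
  refine Submodule.span_induction (p := fun X _ => X * Y ∈ rs N (i + j)) ?_ ?_ ?_ ?_ hX
  · rintro _ ⟨a, ha, rfl⟩
    refine Submodule.span_induction
      (p := fun Y _ => (a.map (Int.castRingHom ℝ)) * Y ∈ rs N (i + j)) ?_ ?_ ?_ ?_ hY
    · rintro _ ⟨b, hb, rfl⟩
      refine Submodule.subset_span ⟨a * b, hmul i j a b ha hb, ?_⟩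
      simp only [Matrix.map_mul]
    · rw [mul_zero]; exact zero_mem _
    · intro x y _ _ hx hy; rw [mul_add]; exact add_mem hx hy
    · intro c x _ hx; rw [mul_smul_comm]; exact Submodule.smul_mem _ _ hx
  · rw [zero_mul]; exact zero_mem _
  · intro x y _ _ hx hy; rw [add_mul]; exact add_mem hx hy
  · intro c x _ hx; rw [smul_mul_assoc]; exact Submodule.smul_mem _ _ hx

theorem rs_pow (hmul : ∀ i j a b, a ∈ N i → b ∈ N j → a * b ∈ N (i + j))
    (X : Matrix n n ℝ) (hX : X ∈ rs N 1) (j : ℕ) (hj : 0 < j) : X ^ j ∈ rs N j := by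
  induction j with
  | zero => omega
  | succ j ih =>
    rcases Nat.eq_zero_or_pos j with rfl | hj'
    · rw [zero_add, pow_one]; exact hX
    · rw [pow_succ]; exact rs_mul N hmul j 1 _ _ (ih hj') hX

theorem rs_mono {i j : ℕ} (h : N j ≤ N i) : rs N j ≤ rs N i :=
  Submodule.span_mono (Set.image_mono h)

theorem rs_bot {j : ℕ} (h : N j = ⊥) (X : Matrix n n ℝ) (hX : X ∈ rs N j) : X = 0 := by
  rw [rs, h] at hX
  have h1 : ((fun a : Matrix n n ℤ => a.map (Int.castRingHom ℝ)) ''
      ((⊥ : Submodule ℤ (Matrix n n ℤ)) : Set _)) = {0} := by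
    rw [show ((⊥ : Submodule ℤ (Matrix n n ℤ)) : Set (Matrix n n ℤ)) = {0} from rfl,
      Set.image_singleton]
    congr 1
    ext i j; simp
  rw [h1, Submodule.span_zero_singleton, Submodule.mem_bot] at hX
  exact hX

end Span

variable {G : Type*} [TopologicalSpace G] [Group G] [IsTopologicalGroup G]

/-- Near integrality of the representation forces closeness in the homogeneous space. -/
theorem Rep.near {Γ N : Subgroup G} (R : Rep Γ N) [CompactSpace (G ⧸ Γ)] (hΓN : Γ ≤ N)
    (hcl : IsClosed (N : Set G)) (hpath : ∀ g ∈ N, ∃ q ∈ Lp Γ N, q 1 = g) (hlift : LiftP Γ N)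
    (U : Set (G ⧸ Γ)) (hU : IsOpen U) (h1 : ((1 : G) : G ⧸ Γ) ∈ U) :
    ∃ ε : ℝ, 0 < ε ∧ ∀ p ∈ Lp Γ N, ∀ A : Matrix (Fin R.n) (Fin R.n) ℤ,
      (∀ i j, |(R.ρ p * A.map (Int.castRingHom ℝ)) i j -
        (1 : Matrix (Fin R.n) (Fin R.n) ℝ) i j| < ε) → ((p 1 : G) : G ⧸ Γ) ∈ U := by
  classical
  by_contra hcon
  push Not at hcon
  have hch : ∀ m : ℕ, ∃ p ∈ Lp Γ N, ∃ A : Matrix (Fin R.n) (Fin R.n) ℤ,
      (∀ i j, |(R.ρ p * A.map (Int.castRingHom ℝ)) i j -
        (1 : Matrix (Fin R.n) (Fin R.n) ℝ) i j| < 1 / ((m : ℝ) + 1)) ∧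
        ((p 1 : G) : G ⧸ Γ) ∉ U := fun m => hcon (1 / ((m : ℝ) + 1)) (by positivity)
  choose p hp A hA hpU using hch
  set 𝓤 : Ultrafilter ℕ := Filter.hyperfilter ℕ with h𝓤
  obtain ⟨y, -, hy⟩ := isCompact_univ.ultrafilter_le_nhds
    (𝓤.map fun m => ((p m 1 : G) : G ⧸ Γ)) (by simp)
  have hy' : Filter.Tendsto (fun m => ((p m 1 : G) : G ⧸ Γ)) 𝓤 (𝓝 y) := hy
  obtain ⟨g, rfl⟩ := QuotientGroup.mk_surjective y
  have hopen : IsOpenMap ((↑) : G → G ⧸ Γ) := QuotientGroup.isOpenMap_coe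
  -- `g` is in `N`
  have hgN : g ∈ N := by
    by_contra hg
    have h2 : ((↑) : G → G ⧸ Γ) '' (N : Set G)ᶜ ∈ 𝓝 (g : G ⧸ Γ) :=
      (hopen _ hcl.isOpen_compl).mem_nhds ⟨g, hg, rfl⟩
    obtain ⟨m, hm⟩ := (hy'.eventually h2).exists
    obtain ⟨x, hx, hxe⟩ := hm
    rw [QuotientGroup.eq] at hxe
    apply hx
    have h3 : x = p m 1 * (x⁻¹ * p m 1)⁻¹ := by group
    rw [h3]
    exact N.mul_mem ((hp m).2 1) (N.inv_mem (hΓN hxe))
  obtain ⟨q, hq, hq1⟩ := hpath g hgN
  have hqi := (Lp Γ N).inv_mem hq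
  set C := R.ρ q⁻¹ with hC
  -- approximation by integral matrices
  have happ : ∀ η : ℝ, 0 < η → ∃ Z : Matrix (Fin R.n) (Fin R.n) ℤ, ∀ i j,
      |((Z i j : ℤ) : ℝ) - C i j| < η := by
    intro η hη
    -- continuity of the matrix expression
    have hcont : Continuous fun ar : Matrix (Fin R.n) (Fin R.n) ℝ × Matrix (Fin R.n) (Fin R.n) ℝ =>
        ar.1 * C * ar.2 := (continuous_fst.mul continuous_const).mul continuous_snd
    have hset : {ar : Matrix (Fin R.n) (Fin R.n) ℝ × Matrix (Fin R.n) (Fin R.n) ℝ |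
        ∀ i j, |(ar.1 * C * ar.2) i j - C i j| < η} ∈
        𝓝 ((1 : Matrix (Fin R.n) (Fin R.n) ℝ), (1 : Matrix (Fin R.n) (Fin R.n) ℝ)) := by
      have : {ar : Matrix (Fin R.n) (Fin R.n) ℝ × Matrix (Fin R.n) (Fin R.n) ℝ |
          ∀ i j, |(ar.1 * C * ar.2) i j - C i j| < η} = ⋂ i, ⋂ j,
          {ar | |(ar.1 * C * ar.2) i j - C i j| < η} := by
        ext ar; simp
      rw [this, Filter.iInter_mem]
      intro i
      rw [Filter.iInter_mem]
      intro j
      have h2 : Continuous fun ar : Matrix (Fin R.n) (Fin R.n) ℝ ×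
          Matrix (Fin R.n) (Fin R.n) ℝ => |(ar.1 * C * ar.2) i j - C i j| :=
        (((continuous_apply j).comp ((continuous_apply i).comp hcont)).sub
          continuous_const).abs
      apply (isOpen_lt h2 continuous_const).mem_nhds
      show |((1 : Matrix (Fin R.n) (Fin R.n) ℝ) * C * (1 : Matrix (Fin R.n) (Fin R.n) ℝ)) i j -
        C i j| < η
      rw [one_mul, mul_one, sub_self, abs_zero]
      exact hη
    rw [nhds_prod_eq, Filter.mem_prod_iff] at hset
    obtain ⟨t1, ht1, t2, ht2, ht⟩ := hset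
    obtain ⟨δ1, hδ1, hδ1'⟩ := matrix_nhds t1 ht1
    obtain ⟨δ2, hδ2, hδ2'⟩ := matrix_nhds t2 ht2
    -- the neighbourhood of the trivial path
    have hW0 : ∀ i j, ∀ᶠ v in 𝓝[(Lp Γ N : Set C(ℝ, G))] (1 : C(ℝ, G)),
        |R.ρ v i j - (1 : Matrix (Fin R.n) (Fin R.n) ℝ) i j| < δ1 := by
      intro i j
      have h2 := (R.cont i j) 1 (Lp Γ N).one_mem
      have h3 : Filter.Tendsto (fun v => |R.ρ v i j - (1 : Matrix (Fin R.n) (Fin R.n) ℝ) i j|)
          (𝓝[(Lp Γ N : Set C(ℝ, G))] (1 : C(ℝ, G))) (𝓝 0) := by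
        have h4 := (h2.tendsto.sub_const ((1 : Matrix (Fin R.n) (Fin R.n) ℝ) i j)).abs
        have h5 : |R.ρ 1 i j - (1 : Matrix (Fin R.n) (Fin R.n) ℝ) i j| = 0 := by
          rw [R.one, sub_self, abs_zero]
        rw [h5] at h4
        exact h4
      exact h3.eventually (gt_mem_nhds hδ1)
    have hW1 : ∀ᶠ v in 𝓝[(Lp Γ N : Set C(ℝ, G))] (1 : C(ℝ, G)), ∀ i j,
        |R.ρ v i j - (1 : Matrix (Fin R.n) (Fin R.n) ℝ) i j| < δ1 := by
      rw [Filter.eventually_all]
      intro i
      rw [Filter.eventually_all]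
      exact hW0 i
    rw [eventually_nhdsWithin_iff] at hW1
    have hinv : Filter.Tendsto (fun v : C(ℝ, G) => v⁻¹) (𝓝 1) (𝓝 1) := by
      have h2 := continuous_pinv.tendsto (1 : C(ℝ, G))
      rwa [inv_one] at h2
    have hW2 := hinv.eventually hW1
    obtain ⟨V, hV, hV'⟩ := hlift _ hW2
    -- eventually close
    have hgV : ((↑) : G → G ⧸ Γ) '' ((fun v => g * v) '' V) ∈ 𝓝 (g : G ⧸ Γ) := by
      apply hopen.image_mem_nhds
      have h2 : (fun v => g * v) '' V ∈ 𝓝 (g * 1) :=
        (Homeomorph.mulLeft g).isOpenMap.image_mem_nhds hV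
      rwa [mul_one] at h2
    have hev2 : ∀ᶠ m : ℕ in 𝓤, 1 / ((m : ℝ) + 1) < δ2 := by
      have h2 : ∀ᶠ m : ℕ in Filter.atTop, 1 / ((m : ℝ) + 1) < δ2 :=
        tendsto_one_div_add_atTop_nhds_zero_nat.eventually (gt_mem_nhds hδ2)
      have h3 : (𝓤 : Filter ℕ) ≤ Filter.atTop := by
        rw [h𝓤, ← Nat.cofinite_eq_atTop]
        exact Filter.hyperfilter_le_cofinite
      exact h3 h2
    obtain ⟨m, hm, hm2⟩ := ((hy'.eventually hgV).and hev2).exists
    obtain ⟨_, ⟨v, hvV, rfl⟩, hve⟩ := hm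
    rw [QuotientGroup.eq] at hve
    set γ' := (g * v)⁻¹ * p m 1 with hγ'
    have hvN : v ∈ N := by
      have h3 : v = g⁻¹ * p m 1 * γ'⁻¹ := by rw [hγ']; group
      rw [h3]
      exact N.mul_mem (N.mul_mem (N.inv_mem hgN) ((hp m).2 1)) (N.inv_mem (hΓN hve))
    obtain ⟨w, hw, hwW, hw1⟩ := hV' v hvV hvN
    have hwi := (Lp Γ N).inv_mem hw
    set δ := w⁻¹ * q⁻¹ * p m with hδ
    have hδm : δ ∈ Lp Γ N := (Lp Γ N).mul_mem ((Lp Γ N).mul_mem hwi hqi) (hp m)
    have hδΓ : δ 1 ∈ Γ := by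
      rw [hδ, ContinuousMap.mul_apply, ContinuousMap.mul_apply, ContinuousMap.inv_apply,
        ContinuousMap.inv_apply, hw1, hq1]
      have : v⁻¹ * g⁻¹ * p m 1 = γ' := by rw [hγ']; group
      rw [this]; exact hve
    obtain ⟨D, hD⟩ := R.int δ hδm hδΓ
    refine ⟨D * A m, ?_⟩
    have h4 : (D * A m).map (Int.castRingHom ℝ) =
        R.ρ w⁻¹ * C * (R.ρ (p m) * (A m).map (Int.castRingHom ℝ)) := by
      rw [Matrix.map_mul, ← hD, hδ, R.mul _ ((Lp Γ N).mul_mem hwi hqi) _ (hp m),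
        R.mul _ hwi _ hqi, hC, mul_assoc, mul_assoc]
    intro i j
    have h5 := ht (Set.mk_mem_prod (hδ1' (R.ρ w⁻¹) (hwW hwi))
      (hδ2' (R.ρ (p m) * (A m).map (Int.castRingHom ℝ)) fun i j => (hA m i j).trans hm2)) i j
    simp only at h5
    rw [← h4] at h5
    exact h5
  -- integrality
  have hCint : ∃ Z : Matrix (Fin R.n) (Fin R.n) ℤ, C = Z.map (Int.castRingHom ℝ) := by
    have h2 : ∀ i j, ∃ z : ℤ, C i j = z := by
      intro i j
      apply int_of_close
      intro η hη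
      obtain ⟨Z, hZ⟩ := happ η hη
      exact ⟨Z i j, hZ i j⟩
    choose z hz using h2
    refine ⟨Matrix.of z, ?_⟩
    ext i j
    rw [hz i j]
    rfl
  have h3 := R.sep _ hqi hCint
  rw [ContinuousMap.inv_apply, hq1] at h3
  have hgΓ : g ∈ Γ := (Γ.inv_mem_iff).1 h3
  have h4 : (g : G ⧸ Γ) = ((1 : G) : G ⧸ Γ) := by
    rw [QuotientGroup.eq, mul_one]
    exact h3
  rw [h4] at hy'
  obtain ⟨m, hm⟩ := (hy'.eventually (hU.mem_nhds h1)).exists
  exact hpU m hm

/-- The block filtration. -/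
def blk {n : ℕ} (F : ℕ → Submodule ℤ (Matrix (Fin n) (Fin n) ℤ)) (j : ℕ) :
    Submodule ℤ (Matrix (Fin n ⊕ Fin 2) (Fin n ⊕ Fin 2) ℤ) where
  carrier := {M | ∃ A ∈ F j, ∃ B ∈ triN 2 j, M = Matrix.fromBlocks A 0 0 B}
  add_mem' := by
    rintro _ _ ⟨A, hA, B, hB, rfl⟩ ⟨A', hA', B', hB', rfl⟩
    refine ⟨A + A', add_mem hA hA', B + B', add_mem hB hB', ?_⟩
    rw [Matrix.fromBlocks_add, add_zero, add_zero]
  zero_mem' := ⟨0, zero_mem _, 0, zero_mem _, Matrix.fromBlocks_zero.symm⟩
  smul_mem' := by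
    rintro c _ ⟨A, hA, B, hB, rfl⟩
    refine ⟨c • A, Submodule.smul_mem _ _ hA, c • B, Submodule.smul_mem _ _ hB, ?_⟩
    rw [Matrix.fromBlocks_smul, smul_zero, smul_zero]

/-- Recurrence for towers. -/
theorem chain_recurrence {Γ N : Subgroup G} (hnil : Group.IsNilpotent G) (h : Chain Γ N)
    [CompactSpace (G ⧸ Γ)] (hcl : IsClosed (N : Set G))
    (hpath : ∀ g ∈ N, ∃ q ∈ Lp Γ N, q 1 = g) (S : Set ℕ) (hS : TwoLarge S) (σ : G) (hσ : σ ∈ N)
    (n : ℕ) (hn : 0 < n) (U : Set (G ⧸ Γ)) (hU : IsOpen U) (h1 : ((1 : G) : G ⧸ Γ) ∈ U) :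
    ∃ s ∈ S, ∃ m : ℕ, s = n * m ∧ ((σ ^ m : G) : G ⧸ Γ) ∈ U := by
  classical
  -- nilpotency of the path group
  obtain ⟨d, hd⟩ := (Subgroup.nilpotent_iff_lowerCentralSeries (G := G)).1 hnil
  have hd' : lcs C(ℝ, G) d = ⊥ := by
    rw [eq_bot_iff]
    intro x hx
    rw [Subgroup.mem_bot]
    ext s
    let ev : C(ℝ, G) →* G :=
      { toFun := fun f => f s
        map_one' := rfl
        map_mul' := fun _ _ => rfl }
    have h2 : ev x ∈ ((⊤ : Subgroup C(ℝ, G)).lowerCentralSeries d).map ev := ⟨x, hx, rfl⟩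
    rw [Subgroup.map_lowerCentralSeries] at h2
    have h3 := Subgroup.lowerCentralSeries_mono d (le_top (a := (⊤ : Subgroup C(ℝ, G)).map ev)) h2
    simp only at h3
    rw [hd, Subgroup.mem_bot] at h3
    exact h3
  obtain ⟨R⟩ := exists_rep hd' h
  obtain ⟨hΓN, -, -, -, hlift⟩ := h.props hd'
  obtain ⟨ε, hε, hnear⟩ := R.near hΓN hcl hpath hlift U hU h1
  obtain ⟨q, hq, hq1⟩ := hpath σ hσ
  -- the block curve
  set F := blk R.F with hF
  have hFmul : ∀ i j a b, a ∈ F i → b ∈ F j → a * b ∈ F (i + j) := by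
    rintro i j _ _ ⟨A, hA, B, hB, rfl⟩ ⟨A', hA', B', hB', rfl⟩
    refine ⟨A * A', R.F_mul i j _ _ hA hA', B * B', triN_mul 2 i j _ _ hB hB', ?_⟩
    rw [Matrix.fromBlocks_multiply]
    simp
  have hFanti : ∀ i j, 0 < i → i ≤ j → F j ≤ F i := by
    rintro i j hi hij _ ⟨A, hA, B, hB, rfl⟩
    exact ⟨A, R.F_anti i j hij hA, B, triN_anti 2 i j hi hij hB, rfl⟩
  set K := max R.K 2 with hK
  have hFzero : ∀ j, K < j → F j = ⊥ := by
    intro j hj
    rw [eq_bot_iff]
    rintro _ ⟨A, hA, B, hB, rfl⟩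
    rw [R.F_zero j (lt_of_le_of_lt (le_max_left _ _) hj), Submodule.mem_bot] at hA
    rw [triN_zero 2 j (lt_of_le_of_lt (le_max_right _ _) hj), Submodule.mem_bot] at hB
    rw [Submodule.mem_bot, hA, hB, Matrix.fromBlocks_zero]
  have hKpos : 0 < K := lt_of_lt_of_le (by norm_num) (le_max_right R.K 2)
  set E12 : Matrix (Fin 2) (Fin 2) ℝ := !![0, 1; 0, 0] with hE12
  set M : Matrix (Fin R.n ⊕ Fin 2) (Fin R.n ⊕ Fin 2) ℝ :=
    Matrix.fromBlocks (R.ρ q - 1) 0 0 E12 with hM
  have hMspan : M ∈ rs F 1 := by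
    have e : M = Matrix.fromBlocks (R.ρ q - 1) 0 0 0 + Matrix.fromBlocks 0 0 0 E12 := by
      rw [Matrix.fromBlocks_add]; simp [hM]
    rw [e]
    refine add_mem ?_ ?_
    · refine Submodule.span_induction (p := fun X _ => (Matrix.fromBlocks X 0 0 0 :
        Matrix (Fin R.n ⊕ Fin 2) (Fin R.n ⊕ Fin 2) ℝ) ∈ rs F 1) ?_ ?_ ?_ ?_ (R.span q hq)
      · rintro _ ⟨a, ha, rfl⟩
        refine Submodule.subset_span ⟨Matrix.fromBlocks a 0 0 0, ⟨a, ha, 0, zero_mem _, rfl⟩, ?_⟩
        simp only [Matrix.fromBlocks_map, map_zero, Matrix.map_zero]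
      · rw [Matrix.fromBlocks_zero]; exact zero_mem _
      · intro x y _ _ hx hy
        have := add_mem hx hy
        rw [Matrix.fromBlocks_add] at this
        simpa using this
      · intro c x _ hx
        have := Submodule.smul_mem _ c hx
        rw [Matrix.fromBlocks_smul] at this
        simpa using this
    · refine Submodule.subset_span ⟨Matrix.fromBlocks 0 0 0 !![0, 1; 0, 0],
        ⟨0, zero_mem _, !![0, 1; 0, 0], ?_, rfl⟩, ?_⟩
      · intro a b hab
        fin_cases a <;> fin_cases b <;> simp at hab ⊢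
      · simp only [Matrix.fromBlocks_map, map_zero, Matrix.map_zero]
        congr 1
        ext i j
        fin_cases i <;> fin_cases j <;> simp [hE12]
  have hMpow : ∀ j, 0 < j → M ^ j ∈ rs F 1 := fun j hj =>
    rs_mono F (hFanti 1 j one_pos hj) (rs_pow F hFmul M hMspan j hj)
  have hMzero : M ^ (K + 1) = 0 :=
    rs_bot F (hFzero (K + 1) (Nat.lt_succ_self _)) _
      (rs_pow F hFmul M hMspan (K + 1) (Nat.succ_pos _))
  set ε' := min ε (1 / n) with hε'
  have hnr : (0 : ℝ) < n := by exact_mod_cast hn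
  have hε'pos : 0 < ε' := lt_min hε (by positivity)
  obtain ⟨s, hs, g, ⟨A, hA, B, hB, rfl⟩, hclose⟩ := nilp_recurrence F K K hKpos hKpos hFmul hFanti
    hFzero S hS (pcoef K M (1 / n)) (fun l hl _ => pcoef_mem K M _ l hl _ hMpow) ε' hε'pos
  rw [curve_eq] at hclose
  refine ⟨s, hs, ?_⟩
  -- the powers of the block matrix
  have hE12pow : ∀ j, 2 ≤ j → E12 ^ j = 0 := by
    intro j hj
    have h2 : E12 ^ 2 = 0 := by
      rw [hE12, pow_two]
      ext i j
      fin_cases i <;> fin_cases j <;> simp [Matrix.mul_apply]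
    exact pow_eq_zero_of_le hj h2
  have hblock : ∀ j, M ^ j = Matrix.fromBlocks ((R.ρ q - 1) ^ j) 0 0 (E12 ^ j) := by
    intro j
    induction j with
    | zero => rw [pow_zero, pow_zero, pow_zero, Matrix.fromBlocks_one]
    | succ j ih => rw [pow_succ, ih, hM, Matrix.fromBlocks_multiply]; simp [pow_succ]
  set t : ℝ := 1 / n * s with ht
  have hsum : ∑ j ∈ range (K + 1), (binP j).eval t • M ^ j =
      Matrix.fromBlocks (∑ j ∈ range (K + 1), (binP j).eval t • (R.ρ q - 1) ^ j) 0 0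
        (∑ j ∈ range (K + 1), (binP j).eval t • E12 ^ j) := by
    have h2 : ∀ (T : Finset ℕ), ∑ j ∈ T, (binP j).eval t • M ^ j =
      Matrix.fromBlocks (∑ j ∈ T, (binP j).eval t • (R.ρ q - 1) ^ j) 0 0
        (∑ j ∈ T, (binP j).eval t • E12 ^ j) := by
      intro T
      induction T using Finset.induction_on with
      | empty => simp
      | insert a T ha ih =>
        rw [Finset.sum_insert ha, Finset.sum_insert ha, Finset.sum_insert ha, ih, hblock,
          Matrix.fromBlocks_smul, Matrix.fromBlocks_add]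
        simp
    exact h2 _
  have hprod : (∑ j ∈ range (K + 1), (binP j).eval t • M ^ j) *
      (1 + (Matrix.fromBlocks A 0 0 B).map (Int.castRingHom ℝ)) - 1 =
      Matrix.fromBlocks
        ((∑ j ∈ range (K + 1), (binP j).eval t • (R.ρ q - 1) ^ j) *
          (1 + A.map (Int.castRingHom ℝ)) - 1) 0 0
        ((∑ j ∈ range (K + 1), (binP j).eval t • E12 ^ j) *
          (1 + B.map (Int.castRingHom ℝ)) - 1) := by
    rw [hsum, Matrix.fromBlocks_map]
    simp only [map_zero, Matrix.map_zero]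
    rw [← Matrix.fromBlocks_one, Matrix.fromBlocks_add, Matrix.fromBlocks_multiply,
      sub_eq_add_neg, Matrix.fromBlocks_neg, Matrix.fromBlocks_add]
    simp [sub_eq_add_neg]
  rw [hprod] at hclose
  -- divisibility
  have hlow := hclose (Sum.inr 0) (Sum.inr 1)
  rw [Matrix.fromBlocks_apply₂₂] at hlow
  have hE12sum : ∑ j ∈ range (K + 1), (binP j).eval t • E12 ^ j = 1 + t • E12 := by
    rw [← Finset.sum_subset (Finset.range_mono (show 2 ≤ K + 1 by omega))
      (fun j _ hj => by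
        rw [Finset.mem_range, not_lt] at hj
        rw [hE12pow j hj, smul_zero])]
    rw [Finset.sum_range_succ, Finset.sum_range_one, binP_zero]
    have : (binP 1).eval t = t := by simp [binP]
    rw [this]
    simp
  have hB0 : B 0 0 = 0 := hB 0 0 (by norm_num)
  have hB1 : B 1 1 = 0 := hB 1 1 (by norm_num)
  have hlow2 : |t + B 0 1| < ε' := by
    rw [hE12sum] at hlow
    have h2 : ((1 + t • E12) * (1 + B.map (Int.castRingHom ℝ)) - 1) 0 1 = t + B 0 1 := by
      simp [Matrix.mul_apply, Matrix.add_apply, hE12, hB1, Matrix.one_apply]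
      ring
    rwa [h2] at hlow
  have hdvd : ∃ m : ℕ, s = n * m := by
    have h2 : |t + B 0 1| < 1 / n := hlow2.trans_le (min_le_right _ _)
    have h3 : |((s : ℤ) + n * B 0 1 : ℤ)| < 1 := by
      have h4 : |(((s : ℤ) + n * B 0 1 : ℤ) : ℝ)| < 1 := by
        push_cast
        have h5 : ((s : ℝ) + n * B 0 1) = n * (t + B 0 1) := by
          rw [ht]; field_simp
        rw [h5, abs_mul, abs_of_pos hnr]
        calc (n : ℝ) * |t + B 0 1| < n * (1 / n) := by gcongr
          _ = 1 := by field_simp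
      exact_mod_cast h4
    have h4 : (s : ℤ) + n * B 0 1 = 0 := Int.abs_lt_one_iff.1 h3
    have h5 : (n : ℤ) ∣ s := ⟨-B 0 1, by linarith⟩
    have h6 : n ∣ s := by exact_mod_cast h5
    exact h6
  obtain ⟨m, hm⟩ := hdvd
  refine ⟨m, hm, ?_⟩
  have htm : t = m := by
    rw [ht, hm]; push_cast; field_simp
  have hqm : ∀ m : ℕ, R.ρ (q ^ m) = R.ρ q ^ m := by
    intro m
    induction m with
    | zero => rw [pow_zero, pow_zero, R.one]
    | succ m ih => rw [pow_succ, pow_succ, R.mul _ ((Lp Γ N).pow_mem hq m) _ hq, ih]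
  have hpow : ∑ j ∈ range (K + 1), (binP j).eval t • (R.ρ q - 1) ^ j = R.ρ (q ^ m) := by
    have h2 : (R.ρ q - 1) ^ (K + 1) = 0 := by
      have h3 := hblock (K + 1)
      rw [hMzero, ← Matrix.fromBlocks_zero, Matrix.fromBlocks_inj] at h3
      exact h3.1.symm
    have h4 := pow_eq_sum K (R.ρ q - 1) h2 m
    rw [add_sub_cancel] at h4
    rw [hqm, h4]
    refine Finset.sum_congr rfl fun j _ => ?_
    rw [htm, binP_eval_nat]
  have hfin := hnear (q ^ m) ((Lp Γ N).pow_mem hq m) (1 + A) (by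
    intro i j
    have h2 := hclose (Sum.inl i) (Sum.inl j)
    rw [Matrix.fromBlocks_apply₁₁, hpow, Matrix.sub_apply] at h2
    have h3 : (1 + A).map (Int.castRingHom ℝ) = 1 + A.map (Int.castRingHom ℝ) := by
      rw [Matrix.map_add _ (fun a b => map_add _ a b), Matrix.map_one _ (map_zero _) (map_one _)]
    rw [h3]
    exact h2.trans_le (min_le_left _ _))
  rw [ContinuousMap.pow_apply, hq1] at hfin
  exact hfin

end Pool.Agent.Lib.MP_87965e_co
end
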