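import Mathlib
import Pool.Agent.Lib.MP_87965e_co.Functional
import Pool.Agent.Lib.MP_87965e_co.Recur

section

set_option autoImplicit false

universe u

open Finset Topology Filter
open scoped commutatorElement

namespace Pool.Agent.Lib.MP_87965e_co

section Alg

variable {A : Type*} [Group A]

theorem comm_left_central (z g y : A) (hz : ∀ x : A, z * x = x * z) : ⁅z * g, y⁆ = ⁅g, y⁆ := by
  have h1 : ⁅z * g, y⁆ = z * (g * y * g⁻¹) * z⁻¹ * y⁻¹ := by
    rw [commutatorElement_def]; group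
  have h2 : z * (g * y * g⁻¹) = (g * y * g⁻¹) * z := hz _
  rw [h1, h2, commutatorElement_def]; group

theorem comm_right_central (z g y : A) (hz : ∀ x : A, z * x = x * z) : ⁅y, z * g⁆ = ⁅y, g⁆ := by
  rw [← commutatorElement_inv, comm_left_central z g y hz, commutatorElement_inv]

theorem comm_mem_sup (Z Γ : Subgroup A) [Z.Normal] (x y : A) (hx : x ∈ Z ⊔ Γ) (hy : y ∈ Z ⊔ Γ) :
    ⁅x, y⁆ ∈ ⁅Z, (⊤ : Subgroup A)⁆ ⊔ Γ := by
  obtain ⟨z, hz, g, hg, rfl⟩ := Subgroup.mem_sup_of_normal_left.1 hx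
  obtain ⟨z', hz', g', hg', rfl⟩ := Subgroup.mem_sup_of_normal_left.1 hy
  set Z' := ⁅Z, (⊤ : Subgroup A)⁆ with hZ'
  set π := QuotientGroup.mk' Z' with hπ
  have hcent : ∀ z ∈ Z, ∀ x : A ⧸ Z', π z * x = x * π z := by
    intro z hz x
    obtain ⟨a, rfl⟩ := QuotientGroup.mk'_surjective Z' x
    have h1 : ⁅z, a⁆ ∈ Z' := Subgroup.commutator_mem_commutator hz (Subgroup.mem_top a)
    have h2 : π ⁅z, a⁆ = 1 := (QuotientGroup.eq_one_iff _).2 h1
    rw [map_commutatorElement, commutatorElement_eq_one_iff_mul_comm] at h2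
    exact h2
  have h1 : π ⁅z * g, z' * g'⁆ = π ⁅g, g'⁆ := by
    rw [map_commutatorElement, map_mul, map_mul, comm_left_central _ _ _ (hcent z hz),
      comm_right_central _ _ _ (hcent z' hz'), map_commutatorElement]
  have h2 : (⁅g, g'⁆)⁻¹ * ⁅z * g, z' * g'⁆ ∈ Z' := by
    rw [← QuotientGroup.eq]; exact h1.symm
  have h3 : ⁅z * g, z' * g'⁆ = ⁅g, g'⁆ * ((⁅g, g'⁆)⁻¹ * ⁅z * g, z' * g'⁆) := by group
  rw [h3]
  refine Subgroup.mul_mem _ (Subgroup.mem_sup_right ?_) (Subgroup.mem_sup_left h2)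
  rw [commutatorElement_def]
  exact Γ.mul_mem (Γ.mul_mem (Γ.mul_mem hg hg') (Γ.inv_mem hg)) (Γ.inv_mem hg')

end Alg

theorem nil_closure {A : Type*} [TopologicalSpace A] [Group A] [IsTopologicalGroup A]
    (hnil : Group.IsNilpotent A) (Γ : Subgroup A) (hΓ : IsClosed (Γ : Set A))
    (h : (⁅(⊤ : Subgroup A), (⊤ : Subgroup A)⁆ ⊔ Γ).topologicalClosure = ⊤) : Γ = ⊤ := by
  have key : ∀ j : ℕ, ((⊤ : Subgroup A).lowerCentralSeries (j + 1) ⊔ Γ).topologicalClosure = ⊤ := by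
    intro j
    induction j with
    | zero => exact h
    | succ j ih =>
      suffices hle : (⁅(⊤ : Subgroup A), (⊤ : Subgroup A)⁆ ⊔ Γ).topologicalClosure ≤
          ((⊤ : Subgroup A).lowerCentralSeries (j + 1 + 1) ⊔ Γ).topologicalClosure by
        rw [h] at hle
        exact top_le_iff.1 hle
      apply Subgroup.topologicalClosure_minimal _ _ (Subgroup.isClosed_topologicalClosure _)
      apply sup_le
      · rw [Subgroup.commutator_le]
        intro x _ y _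
        have hx : x ∈ closure (((⊤ : Subgroup A).lowerCentralSeries (j + 1) ⊔ Γ : Subgroup A) :
            Set A) := by
          rw [← Subgroup.topologicalClosure_coe, ih]; trivial
        have hy : y ∈ closure (((⊤ : Subgroup A).lowerCentralSeries (j + 1) ⊔ Γ : Subgroup A) :
            Set A) := by
          rw [← Subgroup.topologicalClosure_coe, ih]; trivial
        have hc : Continuous (Function.uncurry fun a b : A => ⁅a, b⁆) := by
          have : (Function.uncurry fun a b : A => ⁅a, b⁆) =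
              fun p : A × A => p.1 * p.2 * p.1⁻¹ * p.2⁻¹ := by
            funext p
            rfl
          rw [this]
          exact ((continuous_fst.mul continuous_snd).mul continuous_fst.inv).mul
            continuous_snd.inv
        have h4 : ⁅x, y⁆ ∈ closure (((⊤ : Subgroup A).lowerCentralSeries (j + 1 + 1) ⊔ Γ :
            Subgroup A) : Set A) := by
          refine map_mem_closure₂ (f := fun a b : A => ⁅a, b⁆) hc hx hy fun a ha b hb => ?_
          have h5 := comm_mem_sup ((⊤ : Subgroup A).lowerCentralSeries (j + 1)) Γ a b ha hb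
          rw [← Subgroup.lowerCentralSeries_succ] at h5
          exact h5
        exact h4
      · exact le_sup_right.trans (Subgroup.le_topologicalClosure _)
  obtain ⟨d, hd⟩ := (Subgroup.nilpotent_iff_lowerCentralSeries (G := A)).1 hnil
  have h1 : (⊤ : Subgroup A).lowerCentralSeries (d + 1) = ⊥ := by
    rw [eq_bot_iff, ← hd]
    exact (Subgroup.lowerCentralSeries_antitone _) (Nat.le_succ d)
  have h2 := key d
  rw [h1, bot_sup_eq] at h2
  have h3 : Γ.topologicalClosure ≤ Γ := Subgroup.topologicalClosure_minimal _ le_rfl hΓ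
  rw [h2] at h3
  exact top_le_iff.1 h3

/-- The maximal abelian Hausdorff quotient, killing the lattice. -/
theorem exists_quot {G : Type u} [TopologicalSpace G] [Group G] [IsTopologicalGroup G]
    (hnil : Group.IsNilpotent G) (Γ N : Subgroup G) (hΓN : Γ ≤ N) (hΓ : IsClosed (Γ : Set G))
    (hN : IsClosed (N : Set G)) (hne : ¬ N ≤ Γ) :
    ∃ (H : Subgroup G) (Q : Type u) (_ : CommGroup Q) (q : ↥N →* Q), IsClosed (H : Set G) ∧
      Γ ≤ H ∧ (∃ g ∈ N, g ∉ H) ∧ ∀ x : N, q x = 1 ↔ (x : G) ∈ H := by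
  set H' : Subgroup N :=
    (⁅(⊤ : Subgroup N), (⊤ : Subgroup N)⁆ ⊔ Γ.subgroupOf N).topologicalClosure with hH'
  have hcomm : ∀ a b : N, ⁅a, b⁆ ∈ H' := fun a b =>
    Subgroup.le_topologicalClosure _ (Subgroup.mem_sup_left
      (Subgroup.commutator_mem_commutator (Subgroup.mem_top a) (Subgroup.mem_top b)))
  have hnorm : H'.Normal := by
    constructor
    intro n hn g
    have h1 : g * n * g⁻¹ = ⁅g, n⁆ * n := by rw [commutatorElement_def]; group
    rw [h1]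
    exact H'.mul_mem (hcomm g n) hn
  have hmulcomm : ∀ a b : ↥N ⧸ H', a * b = b * a := by
    intro a b
    obtain ⟨a, rfl⟩ := QuotientGroup.mk'_surjective H' a
    obtain ⟨b, rfl⟩ := QuotientGroup.mk'_surjective H' b
    rw [← commutatorElement_eq_one_iff_mul_comm, ← map_commutatorElement]
    exact (QuotientGroup.eq_one_iff _).2 (hcomm a b)
  let inst : CommGroup (↥N ⧸ H') := { QuotientGroup.Quotient.group H' with mul_comm := hmulcomm }
  refine ⟨H'.map N.subtype, ↥N ⧸ H', inst, QuotientGroup.mk' H', ?_, ?_, ?_, ?_⟩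
  · have : ((H'.map N.subtype : Subgroup G) : Set G) = Subtype.val '' (H' : Set N) := rfl
    rw [this]
    have h2 : IsClosed (H' : Set N) := Subgroup.isClosed_topologicalClosure _
    exact hN.isClosedEmbedding_subtypeVal.isClosedMap _ h2
  · intro γ hγ
    exact ⟨⟨γ, hΓN hγ⟩, Subgroup.le_topologicalClosure _ (Subgroup.mem_sup_right hγ), rfl⟩
  · by_contra hcon
    push Not at hcon
    have h1 : H' = ⊤ := by
      rw [eq_top_iff]
      intro x _
      obtain ⟨y, hy, hyx⟩ := hcon x x.2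
      have : y = x := Subtype.ext hyx
      rwa [← this]
    have hnil' : Group.IsNilpotent N := Subgroup.isNilpotent N
    have h2 := nil_closure hnil' (Γ.subgroupOf N) (hΓ.preimage continuous_subtype_val) h1
    apply hne
    intro g hg
    have h3 : (⟨g, hg⟩ : N) ∈ Γ.subgroupOf N := by rw [h2]; trivial
    exact h3
  · intro x
    rw [show (QuotientGroup.mk' H') x = 1 ↔ x ∈ H' from QuotientGroup.eq_one_iff _]
    constructor
    · intro h; exact ⟨x, h, rfl⟩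
    · rintro ⟨y, hy, hyx⟩
      have : y = x := Subtype.ext hyx
      rwa [← this]

end Pool.Agent.Lib.MP_87965e_co
end

section

set_option autoImplicit false

open Finset Topology Filter Asymptotics

namespace Pool.Agent.Lib.MP_87965e_co

universe u

section

variable {G : Type u} {E : Type*} [TopologicalSpace G] [Group G] [IsTopologicalGroup G]
  [NormedAddCommGroup E] [NormedSpace ℝ E]

/-- The product of the one-parameter elements. -/
def pr (O : OPS G E) {n : ℕ} (x : Fin n → E) (u : Fin n → ℝ) : G :=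
  (List.ofFn fun j => O.c (x j) (u j)).prod

theorem continuous_pr (O : OPS G E) {n : ℕ} (x : Fin n → E) : Continuous (pr O x) := by
  have h1 : pr O x = fun u => ((List.finRange n).map fun j => O.c (x j) (u j)).prod := by
    funext u
    rw [pr, List.ofFn_eq_map]
  rw [h1]
  exact continuous_list_prod _ fun j _ => (O.c (x j)).continuous.comp (continuous_apply j)

theorem pr_zero (O : OPS G E) {n : ℕ} (x : Fin n → E) : pr O x (fun _ => 0) = 1 := by
  apply List.prod_eq_one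
  intro y hy
  rw [List.mem_ofFn] at hy
  obtain ⟨j, rfl⟩ := hy
  exact O.c_zero' _

/-- The context: an abelian quotient with closed kernel. -/
structure Cx (O : OPS G E) (N : Subgroup G) (𝔫 : Submodule ℝ E) (Q : Type*) [CommGroup Q] where
  /-- the quotient map -/
  q : ↥N →* Q
  /-- the kernel -/
  H : Subgroup G
  lev : Lev O N 𝔫
  hcl : IsClosed (H : Set G)
  hq : ∀ x : N, q x = 1 ↔ (x : G) ∈ H

namespace Cx

variable {O : OPS G E} {N : Subgroup G} {𝔫 : Submodule ℝ E} {Q : Type*} [CommGroup Q]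
  (X : Cx O N 𝔫 Q)

/-- The class of a one-parameter element. -/
def qc (v : 𝔫) (t : ℝ) : Q := X.q ⟨O.c v t, X.lev.mem v v.2 t⟩

theorem qc_add (v : 𝔫) (s t : ℝ) : X.qc v (s + t) = X.qc v s * X.qc v t := by
  rw [qc, qc, qc, ← map_mul]
  congr 1
  exact Subtype.ext (O.c_add v s t)

theorem qc_zero (v : 𝔫) : X.qc v 0 = 1 := by
  have := X.qc_add v 0 0
  rw [add_zero] at this
  exact (mul_eq_left.1 this.symm)

theorem qc_smul (r : ℝ) (v : 𝔫) (t : ℝ) : X.qc (r • v) t = X.qc v (r * t) := by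
  rw [qc, qc]
  congr 1
  exact Subtype.ext (O.c_smul r v t)

theorem qc_pow (v : 𝔫) (t : ℝ) (k : ℕ) : X.qc v t ^ k = X.qc v (k * t) := by
  induction k with
  | zero => rw [pow_zero, Nat.cast_zero, zero_mul, X.qc_zero]
  | succ k ih =>
    rw [pow_succ, ih, ← X.qc_add]
    congr 1
    push_cast; ring

include X in
theorem pr_mem {n : ℕ} (x : Fin n → 𝔫) (u : Fin n → ℝ) : pr O (fun j => (x j : E)) u ∈ N := by
  apply Subgroup.list_prod_mem
  intro y hy
  rw [List.mem_ofFn] at hy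
  obtain ⟨j, rfl⟩ := hy
  exact X.lev.mem _ (x j).2 _

theorem q_pr {n : ℕ} (x : Fin n → 𝔫) (u : Fin n → ℝ) :
    X.q ⟨pr O (fun j => (x j : E)) u, X.pr_mem x u⟩ = ∏ j, X.qc (x j) (u j) := by
  have h1 : (⟨pr O (fun j => (x j : E)) u, X.pr_mem x u⟩ : N) =
      (List.ofFn fun j => (⟨O.c (x j) (u j), X.lev.mem _ (x j).2 _⟩ : N)).prod := by
    apply Subtype.ext
    rw [Subgroup.val_list_prod, List.map_ofFn]
    rfl
  rw [h1, map_list_prod, List.map_ofFn, List.prod_ofFn]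
  rfl

theorem q_eq_of (x y : N) (h : (x : G) = y) : X.q x = X.q y := by rw [Subtype.ext h]

variable [FiniteDimensional ℝ E]

include X in
theorem local_dec : ∃ C : ℝ, 0 ≤ C ∧ ∀ᶠ g in 𝓝 (1 : G), g ∈ N →
    ∃ u : Fin (Module.finrank ℝ 𝔫) → ℝ, pr O (fun j => (Module.finBasis ℝ 𝔫 j : E)) u = g ∧
      ∀ j, |u j| ≤ C * O.ν g := by
  set b := Module.finBasis ℝ 𝔫
  obtain ⟨C, hC⟩ := X.lev.prod _ (fun j => (b j : E))
    (b.linearIndependent.map' 𝔫.subtype (Submodule.ker_subtype _)) (by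
      have h1 : Set.range (fun j => (b j : E)) = 𝔫.subtype '' (Set.range b) := by
        rw [← Set.range_comp]; rfl
      rw [h1, Submodule.span_image, b.span_eq, Submodule.map_top, Submodule.range_subtype])
  refine ⟨|C|, abs_nonneg _, hC.mono fun g hg hgN => ?_⟩
  obtain ⟨u, hu, hu2⟩ := hg hgN
  exact ⟨u, hu, fun j => (hu2 j).trans (mul_le_mul_of_nonneg_right (le_abs_self C)
    (O.ν_nonneg g))⟩

/-- Additivity in the direction. -/
theorem qc_addv (v w : 𝔫) : X.qc (v + w) 1 = X.qc v 1 * X.qc w 1 := by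
  set b := Module.finBasis ℝ 𝔫 with hb
  obtain ⟨C, hC0, hC⟩ := X.local_dec
  set r : ℝ → G := fun t => (O.c v t * O.c w t)⁻¹ * O.c ((v : E) + w) t with hr
  have hrN : ∀ t, r t ∈ N := fun t => N.mul_mem (N.inv_mem (N.mul_mem (X.lev.mem _ v.2 t)
    (X.lev.mem _ w.2 t))) (X.lev.mem _ (v + w).2 t)
  have hqr : ∀ t, X.q ⟨r t, hrN t⟩ = (X.qc v t * X.qc w t)⁻¹ * X.qc (v + w) t := by
    intro t
    rw [qc, qc, qc, ← map_mul, ← map_inv, ← map_mul]
    rfl
  have hrc : Continuous r :=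
    (((O.c v).continuous.mul (O.c w).continuous).inv).mul (O.c ((v : E) + w)).continuous
  have hr0 : r 0 = 1 := by
    rw [hr]
    show (O.c v 0 * O.c w 0)⁻¹ * O.c ((v : E) + w) 0 = 1
    rw [O.c_zero', O.c_zero', O.c_zero']; group
  -- the inverse of the obstruction lies in `H`
  have hmain : (r 1)⁻¹ ∈ (X.H : Set G) := by
    rw [← X.hcl.closure_eq, mem_closure_iff_nhds]
    intro U hU
    have h1 : Tendsto (fun u : Fin (Module.finrank ℝ 𝔫) → ℝ => (r 1)⁻¹ *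
        pr O (fun j => (b j : E)) u) (𝓝 (fun _ => 0)) (𝓝 (r 1)⁻¹) := by
      have h2 : Continuous fun u : Fin (Module.finrank ℝ 𝔫) → ℝ => (r 1)⁻¹ *
        pr O (fun j => (b j : E)) u := continuous_const.mul (continuous_pr O _)
      have h3 := h2.tendsto (fun _ => 0)
      rwa [pr_zero, mul_one] at h3
    obtain ⟨δ, hδ, hball⟩ := Metric.eventually_nhds_iff.1 (h1.eventually hU)
    -- small times
    have ht : Tendsto (fun k : ℕ => 1 / ((k : ℝ) + 1)) atTop (𝓝 0) :=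
      tendsto_one_div_add_atTop_nhds_zero_nat
    have hrt : Tendsto (fun k : ℕ => r (1 / ((k : ℝ) + 1))) atTop (𝓝 1) := by
      rw [← hr0]
      exact (hrc.tendsto 0).comp ht
    have hsm := (O.small v w).def (c := δ / (C + 1) / 2) (by positivity)
    obtain ⟨k, hk1, hk2⟩ := ((hrt.eventually hC).and (ht.eventually hsm)).exists
    set t : ℝ := 1 / ((k : ℝ) + 1) with htdef
    have htpos : 0 < t := by rw [htdef]; positivity
    obtain ⟨u, hu, hu2⟩ := hk1 (hrN t)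
    have hk2' : O.ν (r t) ≤ δ / (C + 1) / 2 * t := by
      have : ‖O.ν (r t)‖ ≤ δ / (C + 1) / 2 * ‖t‖ := hk2
      rwa [Real.norm_of_nonneg (O.ν_nonneg _), Real.norm_of_nonneg htpos.le] at this
    have hkt : ((k + 1 : ℕ) : ℝ) * t = 1 := by
      rw [htdef]; push_cast; field_simp
    set u' : Fin (Module.finrank ℝ 𝔫) → ℝ := fun j => ((k + 1 : ℕ) : ℝ) * u j with hu'
    have hu'δ : dist u' (fun _ => 0) < δ := by
      rw [dist_pi_lt_iff hδ]
      intro j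
      rw [Real.dist_eq, sub_zero, hu']
      simp only
      rw [abs_mul, Nat.abs_cast]
      calc ((k + 1 : ℕ) : ℝ) * |u j| ≤ ((k + 1 : ℕ) : ℝ) * (C * (δ / (C + 1) / 2 * t)) := by
            gcongr
            exact (hu2 j).trans (by gcongr)
        _ = (C / (C + 1)) * (δ / 2) * (((k + 1 : ℕ) : ℝ) * t) := by ring
        _ = (C / (C + 1)) * (δ / 2) := by rw [hkt, mul_one]
        _ ≤ 1 * (δ / 2) := by
            gcongr
            rw [div_le_one (by positivity)]; linarith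
        _ < δ := by linarith
    refine ⟨(r 1)⁻¹ * pr O (fun j => (b j : E)) u', hball hu'δ, ?_⟩
    have hmemN : (r 1)⁻¹ * pr O (fun j => (b j : E)) u' ∈ N :=
      N.mul_mem (N.inv_mem (hrN 1)) (X.pr_mem _ _)
    show (r 1)⁻¹ * pr O (fun j => (b j : E)) u' ∈ X.H
    rw [← X.hq ⟨_, hmemN⟩]
    have h5 : X.q ⟨(r 1)⁻¹ * pr O (fun j => (b j : E)) u', hmemN⟩ =
        (X.q ⟨r 1, hrN 1⟩)⁻¹ * X.q ⟨pr O (fun j => (b j : E)) u', X.pr_mem _ _⟩ := by
      rw [← map_inv, ← map_mul]; rfl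
    have h6 : X.q ⟨pr O (fun j => (b j : E)) u', X.pr_mem _ _⟩ = X.q ⟨r t, hrN t⟩ ^ (k + 1) := by
      have h7 : X.q ⟨r t, hrN t⟩ = X.q ⟨pr O (fun j => (b j : E)) u, X.pr_mem _ _⟩ :=
        X.q_eq_of _ _ hu.symm
      rw [h7, X.q_pr, X.q_pr, ← Finset.prod_pow]
      refine Finset.prod_congr rfl fun j _ => ?_
      rw [X.qc_pow]
    rw [h5, h6, hqr, hqr, mul_pow, inv_pow, mul_pow, X.qc_pow, X.qc_pow, X.qc_pow, hkt,
      inv_mul_cancel]
  have h8 : r 1 ∈ X.H := (X.H.inv_mem_iff).1 hmain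
  have h9 := (X.hq ⟨r 1, hrN 1⟩).2 h8
  rw [hqr, inv_mul_eq_one] at h9
  exact h9.symm

/-- The homomorphism from the directions to the quotient. -/
def th : 𝔫 →+ Additive Q :=
  AddMonoidHom.mk' (fun v => Additive.ofMul (X.qc v 1)) fun v w => by
    rw [X.qc_addv]; rfl

theorem q_pr' (u : Fin (Module.finrank ℝ 𝔫) → ℝ) :
    X.q ⟨pr O (fun j => (Module.finBasis ℝ 𝔫 j : E)) u, X.pr_mem _ _⟩ =
      X.qc (∑ j, u j • Module.finBasis ℝ 𝔫 j) 1 := by
  rw [X.q_pr]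
  have h1 : X.th (∑ j, u j • Module.finBasis ℝ 𝔫 j) =
      ∑ j, X.th (u j • Module.finBasis ℝ 𝔫 j) := map_sum _ _ _
  have h2 : X.qc (∑ j, u j • Module.finBasis ℝ 𝔫 j) 1 =
      ∏ j, X.qc (u j • Module.finBasis ℝ 𝔫 j) 1 := h1
  rw [h2]
  refine Finset.prod_congr rfl fun j _ => ?_
  rw [X.qc_smul, mul_one]

theorem small_rep (ε : ℝ) (hε : 0 < ε) : ∀ᶠ v in 𝓝 (1 : G), ∀ hv : v ∈ N,
    ∃ x : 𝔫, ‖x‖ < ε ∧ X.q ⟨v, hv⟩ = X.qc x 1 := by
  set b := Module.finBasis ℝ 𝔫 with hb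
  obtain ⟨C, hC0, hC⟩ := X.local_dec
  set B : ℝ := ∑ j, ‖b j‖ with hB
  have hB0 : 0 ≤ B := Finset.sum_nonneg fun _ _ => norm_nonneg _
  have h1 : Tendsto (fun g => C * O.ν g * B) (𝓝 1) (𝓝 0) := by
    have := (O.ν_lim.const_mul C).mul_const B
    simpa using this
  filter_upwards [hC, h1.eventually (gt_mem_nhds hε)] with v hv1 hv2 hvN
  obtain ⟨u, hu, hu2⟩ := hv1 hvN
  refine ⟨∑ j, u j • b j, ?_, ?_⟩
  · calc ‖∑ j, u j • b j‖ ≤ ∑ j, ‖u j • b j‖ := norm_sum_le _ _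
      _ ≤ ∑ j, C * O.ν v * ‖b j‖ := by
          refine Finset.sum_le_sum fun j _ => ?_
          rw [norm_smul, Real.norm_eq_abs]
          exact mul_le_mul_of_nonneg_right (hu2 j) (norm_nonneg _)
      _ = C * O.ν v * B := by rw [← Finset.mul_sum]
      _ < ε := hv2
  · rw [← X.q_pr']
    exact X.q_eq_of _ _ hu.symm

theorem surj {Γ : Subgroup G} (hN : N ≤ gen O Γ 𝔫) (hΓN : Γ ≤ N) (hΓ : Γ ≤ X.H) (g : G)
    (hg : g ∈ N) : ∃ x : 𝔫, X.q ⟨g, hg⟩ = X.qc x 1 := by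
  let K : Subgroup G :=
    { carrier := {g | ∃ h : g ∈ N, ∃ x : 𝔫, X.q ⟨g, h⟩ = X.qc x 1}
      mul_mem' := by
        rintro a b ⟨ha, x, hx⟩ ⟨hb, y, hy⟩
        refine ⟨N.mul_mem ha hb, x + y, ?_⟩
        rw [X.qc_addv, ← hx, ← hy, ← map_mul]; rfl
      one_mem' := ⟨N.one_mem, 0, by
        have h1 : X.q ⟨1, N.one_mem⟩ = 1 := map_one X.q
        have h2 : X.qc 0 1 = 1 := by
          have h3 : X.th 0 = 0 := map_zero _
          exact h3
        rw [h1, h2]⟩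
      inv_mem' := by
        rintro a ⟨ha, x, hx⟩
        refine ⟨N.inv_mem ha, -x, ?_⟩
        have h3 : X.th (-x) = -X.th x := map_neg _ _
        have h4 : X.qc (-x) 1 = (X.qc x 1)⁻¹ := h3
        rw [h4, ← hx, ← map_inv]; rfl }
  have hK : gen O Γ 𝔫 ≤ K := by
    apply gen_le
    · intro γ hγ
      refine ⟨hΓN hγ, 0, ?_⟩
      have h2 : X.qc 0 1 = 1 := by
        have h3 : X.th 0 = 0 := map_zero _
        exact h3
      rw [h2, X.hq]
      exact hΓ hγ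
    · intro v hv t
      refine ⟨X.lev.mem v hv t, t • ⟨v, hv⟩, ?_⟩
      rw [X.qc_smul, mul_one]; rfl
  obtain ⟨_, x, hx⟩ := hK (hN hg)
  exact ⟨x, hx⟩

theorem mem_ker {x : 𝔫} : x ∈ X.th.ker ↔ X.qc x 1 = 1 := Iff.rfl

theorem isClosed_ker : IsClosed (X.th.ker : Set 𝔫) := by
  set b := Module.finBasis ℝ 𝔫 with hb
  have h1 : (X.th.ker : Set 𝔫) = (fun x : 𝔫 => pr O (fun j => (b j : E)) (b.equivFun x)) ⁻¹'
      (X.H : Set G) := by
    ext x
    rw [SetLike.mem_coe, X.mem_ker, Set.mem_preimage, SetLike.mem_coe,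
      ← X.hq ⟨_, X.pr_mem b (b.equivFun x)⟩, X.q_pr']
    rw [b.sum_equivFun]
  rw [h1]
  apply X.hcl.preimage
  apply (continuous_pr O _).comp
  exact LinearMap.continuous_of_finiteDimensional b.equivFun.toLinearMap

theorem th_sub {x y : 𝔫} (h : X.qc x 1 = X.qc y 1) : x - y ∈ X.th.ker := by
  rw [AddMonoidHom.mem_ker, map_sub, sub_eq_zero]
  exact h

theorem dense_ker {Γ : Subgroup G} [CompactSpace (G ⧸ Γ)] (hN : N ≤ gen O Γ 𝔫) (hΓN : Γ ≤ N)
    (hΓ : Γ ≤ X.H) (hNcl : IsClosed (N : Set G)) :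
    ∃ R : ℝ, ∀ x : 𝔫, ∃ d ∈ X.th.ker, ‖x - d‖ ≤ R := by
  -- the exceptional sets
  set C : ℕ → Set G := fun n => {g | ∃ h : g ∈ N, ∀ x : 𝔫, ‖x‖ < n → X.q ⟨g, h⟩ ≠ X.qc x 1} with hC
  have hCcl : ∀ n, IsClosed (C n) := by
    intro n
    rw [isClosed_iff_frequently]
    intro g hg
    have hgN : g ∈ N := by
      apply (isClosed_iff_frequently.1 hNcl) g
      exact hg.mono fun y hy => hy.1
    refine ⟨hgN, fun x hx hqx => ?_⟩
    have h1 : Tendsto (fun y : G => g⁻¹ * y) (𝓝 g) (𝓝 1) := by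
      have h2 : Continuous fun y : G => g⁻¹ * y := continuous_const.mul continuous_id
      have h3 := h2.tendsto g
      rwa [inv_mul_cancel] at h3
    have h2 := h1.eventually (X.small_rep (n - ‖x‖) (by linarith))
    obtain ⟨y, hy, ⟨hyN, hyC⟩⟩ := (h2.and_frequently hg).exists
    have hgy : g⁻¹ * y ∈ N := N.mul_mem (N.inv_mem hgN) hyN
    obtain ⟨x', hx', hqx'⟩ := hy hgy
    apply hyC (x + x') (lt_of_le_of_lt (norm_add_le _ _) (by linarith))
    rw [X.qc_addv, ← hqx, ← hqx', ← map_mul]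
    apply X.q_eq_of
    show y = g * (g⁻¹ * y)
    group
  have hCsat : ∀ n, ∀ g ∈ C n, ∀ γ ∈ Γ, g * γ ∈ C n := by
    rintro n g ⟨hg, hgx⟩ γ hγ
    refine ⟨N.mul_mem hg (hΓN hγ), fun x hx h => hgx x hx ?_⟩
    have h1 : X.q ⟨γ, hΓN hγ⟩ = 1 := (X.hq _).2 (hΓ hγ)
    have h2 : X.q ⟨g * γ, N.mul_mem hg (hΓN hγ)⟩ = X.q ⟨g, hg⟩ * X.q ⟨γ, hΓN hγ⟩ := by
      rw [← map_mul]; rfl
    rw [h2, h1, mul_one] at h
    exact h
  set F : ℕ → Set (G ⧸ Γ) := fun n => ((↑) : G → G ⧸ Γ) '' (C n) with hF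
  have hpre : ∀ n, ((↑) : G → G ⧸ Γ) ⁻¹' (F n) = C n := by
    intro n
    ext g
    constructor
    · rintro ⟨y, hy, hyg⟩
      rw [QuotientGroup.eq] at hyg
      have := hCsat n y hy _ hyg
      rwa [mul_inv_cancel_left] at this
    · intro hg
      exact ⟨g, hg, rfl⟩
  have hFcl : ∀ n, IsClosed (F n) := by
    intro n
    have hqm : IsQuotientMap ((↑) : G → G ⧸ Γ) := isQuotientMap_quotient_mk'
    rw [← hqm.isClosed_preimage, hpre]
    exact hCcl n
  have hex : ∃ n, C n = ∅ := by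
    by_contra hcon
    push Not at hcon
    have h1 := IsCompact.nonempty_iInter_of_sequence_nonempty_isCompact_isClosed F
      (fun n => Set.image_mono fun g hg => ⟨hg.1, fun x hx => hg.2 x (lt_trans hx (by
        push_cast; linarith))⟩)
      (fun n => (hcon n).image _) (hFcl 0).isCompact hFcl
    obtain ⟨y, hy⟩ := h1
    rw [Set.mem_iInter] at hy
    obtain ⟨g, rfl⟩ := QuotientGroup.mk_surjective y
    have h2 : ∀ n, g ∈ C n := fun n => by
      rw [← hpre]; exact hy n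
    obtain ⟨hg, -⟩ := h2 0
    obtain ⟨x, hx⟩ := X.surj hN hΓN hΓ g hg
    obtain ⟨n, hn⟩ := exists_nat_gt ‖x‖
    exact (h2 n).2 x hn hx
  obtain ⟨n, hn⟩ := hex
  refine ⟨n, fun x => ?_⟩
  have h1 : O.c x 1 ∉ C n := by rw [hn]; simp
  have h2 : ∃ x' : 𝔫, ‖x'‖ < n ∧ X.qc x 1 = X.qc x' 1 := by
    by_contra hcon
    push Not at hcon
    exact h1 ⟨X.lev.mem _ x.2 1, fun x' hx' h => hcon x' hx' h⟩
  obtain ⟨x', hx', hxx'⟩ := h2
  refine ⟨x - x', X.th_sub hxx', ?_⟩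
  rw [sub_sub_cancel]
  exact hx'.le

end Cx

/-- Existence of characters. -/
theorem exists_char [FiniteDimensional ℝ E] (O : OPS G E) (hnil : Group.IsNilpotent G)
    (Γ : Subgroup G) [CompactSpace (G ⧸ Γ)] (hΓd : ∀ᶠ g in 𝓝 (1 : G), g ∈ Γ → g = 1)
    (hΓc : IsClosed (Γ : Set G)) (𝔫 : Submodule ℝ E) (h𝔫 : 𝔫 ≠ ⊥) (hL : Lev O (gen O Γ 𝔫) 𝔫)
    (hcl : IsClosed (gen O Γ 𝔫 : Set G)) :
    ∃ (f : E →ₗ[ℝ] ℝ) (χ : G → AddCircle (1 : ℝ)), Chr (gen O Γ 𝔫) χ ∧ (∀ γ ∈ Γ, χ γ = 0) ∧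
      (∀ v ∈ 𝔫, ∀ t : ℝ, χ (O.c v t) = ((t * f v : ℝ) : AddCircle (1 : ℝ))) ∧
      ∃ Y ∈ 𝔫, f Y = 1 := by
  classical
  set N := gen O Γ 𝔫 with hNdef
  have hΓN : Γ ≤ N := le_gen Γ 𝔫
  -- `N` is not the lattice
  have hne : ¬ N ≤ Γ := by
    intro hNΓ
    apply h𝔫
    rw [Submodule.eq_bot_iff]
    intro v hv
    apply O.inj
    have hmem : ∀ t, O.c v t ∈ Γ := fun t => hNΓ (c_mem_gen Γ 𝔫 v hv t)
    intro t
    have h1 := path_in Γ ⊥ (hΓd.mono fun g hg hgΓ => Subgroup.mem_bot.2 (hg hgΓ)) (O.c v)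
      (O.c v).continuous hmem (by rw [O.c_zero']; exact Subgroup.one_mem _) t
    exact Subgroup.mem_bot.1 h1
  obtain ⟨H, Q, _, q, hHcl, hΓH, ⟨g0, hg0N, hg0H⟩, hq⟩ := exists_quot hnil Γ N hΓN hΓc hcl hne
  let X : Cx O N 𝔫 Q := ⟨q, H, hL, hHcl, hq⟩
  have hsurj := X.surj (Γ := Γ) le_rfl hΓN hΓH
  obtain ⟨R, hR⟩ := X.dense_ker (Γ := Γ) le_rfl hΓN hΓH hcl
  have hDne : X.th.ker ≠ ⊤ := by
    intro htop
    obtain ⟨x, hx⟩ := hsurj g0 hg0N
    have h1 : x ∈ X.th.ker := by rw [htop]; trivial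
    rw [X.mem_ker] at h1
    rw [h1] at hx
    exact hg0H ((X.hq _).1 hx)
  obtain ⟨f0, hf0, hf0D⟩ := exists_functional X.th.ker X.isClosed_ker hDne R hR
  obtain ⟨f, hf⟩ := LinearMap.exists_extend f0
  have hfv : ∀ v : 𝔫, f v = f0 v := fun v => LinearMap.congr_fun hf v
  -- the character
  have hwd : ∀ x y : 𝔫, X.qc x 1 = X.qc y 1 →
      ((f0 x : ℝ) : AddCircle (1 : ℝ)) = ((f0 y : ℝ) : AddCircle (1 : ℝ)) := by
    intro x y hxy
    obtain ⟨z, hz⟩ := hf0D _ (X.th_sub hxy)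
    rw [map_sub] at hz
    have h1 : ((f0 x - f0 y : ℝ) : AddCircle (1 : ℝ)) = 0 :=
      (AddCircle.coe_eq_zero_iff (1 : ℝ)).2 ⟨z, by rw [hz]; simp⟩
    have h2 : ((f0 x - f0 y : ℝ) : AddCircle (1 : ℝ)) =
        ((f0 x : ℝ) : AddCircle (1 : ℝ)) - ((f0 y : ℝ) : AddCircle (1 : ℝ)) := rfl
    rw [h2, sub_eq_zero] at h1
    exact h1
  set χ : G → AddCircle (1 : ℝ) := fun g =>
    if h : g ∈ N then ((f0 (hsurj g h).choose : ℝ) : AddCircle (1 : ℝ)) else 0 with hχ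
  have hχ_spec : ∀ (g : G) (h : g ∈ N) (x : 𝔫), X.q ⟨g, h⟩ = X.qc x 1 →
      χ g = ((f0 x : ℝ) : AddCircle (1 : ℝ)) := by
    intro g h x hx
    have h1 : χ g = ((f0 (hsurj g h).choose : ℝ) : AddCircle (1 : ℝ)) := dif_pos h
    rw [h1]
    apply hwd
    rw [← hx]
    exact (hsurj g h).choose_spec.symm
  have hχ_mul : ∀ g ∈ N, ∀ h ∈ N, χ (g * h) = χ g + χ h := by
    intro g hg h hh
    obtain ⟨x, hx⟩ := hsurj g hg
    obtain ⟨y, hy⟩ := hsurj h hh
    rw [hχ_spec g hg x hx, hχ_spec h hh y hy, hχ_spec (g * h) (N.mul_mem hg hh) (x + y)]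
    · rw [map_add]; rfl
    · rw [X.qc_addv, ← hx, ← hy, ← map_mul]; rfl
  have hχ_one : χ 1 = 0 := by
    have := hχ_mul 1 N.one_mem 1 N.one_mem
    rw [mul_one] at this
    exact left_eq_add.1 this
  have hχ_cont1 : Tendsto χ (𝓝[(N : Set G)] 1) (𝓝 0) := by
    rw [Metric.tendsto_nhds]
    intro ε hε
    rw [eventually_nhdsWithin_iff]
    set F := LinearMap.toContinuousLinearMap f0 with hF
    have h1 := X.small_rep (ε / (‖F‖ + 1)) (by positivity)
    filter_upwards [h1] with v hv hvN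
    obtain ⟨x, hx, hqx⟩ := hv hvN
    rw [hχ_spec v hvN x hqx, dist_zero_right]
    calc ‖((f0 x : ℝ) : AddCircle (1 : ℝ))‖ ≤ ‖f0 x‖ := by
          have h2 := UnitAddCircle.norm_eq (x := f0 x)
          have h3 := round_le (f0 x) 0
          rw [Int.cast_zero, sub_zero] at h3
          exact h2.trans_le h3
      _ = ‖F x‖ := rfl
      _ ≤ ‖F‖ * ‖x‖ := F.le_opNorm x
      _ ≤ (‖F‖ + 1) * ‖x‖ := by gcongr; linarith
      _ < (‖F‖ + 1) * (ε / (‖F‖ + 1)) := by gcongr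
      _ = ε := by field_simp
  have hχ_cont : ContinuousOn χ N := by
    intro g hg
    have h1 : Tendsto (fun y : G => g⁻¹ * y) (𝓝[(N : Set G)] g) (𝓝[(N : Set G)] 1) := by
      apply tendsto_nhdsWithin_of_tendsto_nhds_of_eventually_within
      · have h2 : Continuous fun y : G => g⁻¹ * y := continuous_const.mul continuous_id
        have h3 := h2.tendsto g
        rw [inv_mul_cancel] at h3
        exact h3.mono_left nhdsWithin_le_nhds
      · filter_upwards [self_mem_nhdsWithin] with y hy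
        exact N.mul_mem (N.inv_mem hg) hy
    have h2 : Tendsto (fun y => χ g + χ (g⁻¹ * y)) (𝓝[(N : Set G)] g) (𝓝 (χ g + 0)) :=
      tendsto_const_nhds.add (hχ_cont1.comp h1)
    rw [add_zero] at h2
    refine h2.congr' ?_
    filter_upwards [self_mem_nhdsWithin] with y hy
    rw [← hχ_mul g hg _ (N.mul_mem (N.inv_mem hg) hy), mul_inv_cancel_left]
  refine ⟨f, χ, ⟨hχ_mul, hχ_cont⟩, ?_, ?_, ?_⟩
  · intro γ hγ
    rw [hχ_spec γ (hΓN hγ) 0]
    · rw [map_zero]; rfl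
    · have h3 : X.th 0 = 0 := map_zero _
      have h4 : X.qc 0 1 = 1 := h3
      rw [h4, X.hq]
      exact hΓH hγ
  · intro v hv t
    rw [hχ_spec (O.c v t) (hL.mem v hv t) (t • ⟨v, hv⟩)]
    · rw [map_smul, hfv ⟨v, hv⟩]; rfl
    · rw [X.qc_smul, mul_one]; rfl
  · obtain ⟨v, hv⟩ : ∃ v, f0 v ≠ 0 := by
      by_contra h
      push Not at h
      exact hf0 (LinearMap.ext h)
    refine ⟨(((f0 v)⁻¹ • v : 𝔫) : E), ((f0 v)⁻¹ • v : 𝔫).2, ?_⟩
    rw [hfv, map_smul, smul_eq_mul, inv_mul_cancel₀ hv]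

end

end Pool.Agent.Lib.MP_87965e_co
end

section

set_option autoImplicit false

open Finset Topology Filter Asymptotics

namespace Pool.Agent.Lib.MP_87965e_co

universe u

section

variable {G : Type u} {E : Type*} [TopologicalSpace G] [Group G] [IsTopologicalGroup G]
  [NormedAddCommGroup E] [NormedSpace ℝ E]

/-- Passing to the kernel of a character. -/
theorem Lev.ker {O : OPS G E} {N : Subgroup G} {𝔫 : Submodule ℝ E} (hL : Lev O N 𝔫)
    {f : E →ₗ[ℝ] ℝ} {χ : G → AddCircle (1 : ℝ)} (hχ : Chr N χ)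
    (hχc : ∀ v ∈ 𝔫, ∀ t : ℝ, χ (O.c v t) = ((t * f v : ℝ) : AddCircle (1 : ℝ)))
    {Y : E} (hY : Y ∈ 𝔫) (hfY : f Y = 1) : Lev O hχ.ker (𝔫 ⊓ LinearMap.ker f) := by
  have hmem : ∀ v ∈ 𝔫 ⊓ LinearMap.ker f, ∀ t, O.c v t ∈ hχ.ker := by
    rintro v ⟨hv1, hv2⟩ t
    refine ⟨hL.mem v hv1 t, ?_⟩
    rw [hχc v hv1, LinearMap.mem_ker.1 hv2, mul_zero]; rfl
  refine ⟨hmem, fun n x hx hspan => ?_⟩
  have hxmem : ∀ j, x j ∈ 𝔫 ⊓ LinearMap.ker f := fun j => by
    rw [← hspan]; exact Submodule.subset_span ⟨j, rfl⟩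
  have hYn : Y ∉ 𝔫 ⊓ LinearMap.ker f := by
    rintro ⟨-, h⟩
    rw [SetLike.mem_coe, LinearMap.mem_ker, hfY] at h
    exact one_ne_zero h
  obtain ⟨C, hC⟩ := hL.prod (n + 1) (Fin.cons Y x : Fin (n + 1) → E)
    (hx.finCons (by rw [hspan]; exact hYn)) (by
      rw [Fin.range_cons, Submodule.span_insert, hspan]
      apply le_antisymm
      · apply sup_le
        · rw [Submodule.span_le]
          rintro _ rfl
          exact hY
        · exact inf_le_left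
      · intro v hv
        have h1 : v = f v • Y + (v - f v • Y) := by abel
        rw [h1]
        refine Submodule.add_mem_sup (Submodule.smul_mem _ _ (Submodule.mem_span_singleton_self Y))
          ⟨𝔫.sub_mem hv (𝔫.smul_mem _ hY), ?_⟩
        rw [SetLike.mem_coe, LinearMap.mem_ker, map_sub, map_smul, hfY, smul_eq_mul, mul_one,
          sub_self])
  refine ⟨C, ?_⟩
  have h1 : Tendsto (fun g => C * O.ν g) (𝓝 1) (𝓝 0) := by
    have := O.ν_lim.const_mul C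
    simpa using this
  filter_upwards [hC, h1.eventually (gt_mem_nhds one_pos)] with g hg hg2 hgK
  obtain ⟨u, hu, hu2⟩ := hg hgK.1
  rw [List.ofFn_succ, List.prod_cons] at hu
  simp only [Fin.cons_zero, Fin.cons_succ] at hu
  set rest : G := (List.ofFn fun j : Fin n => O.c (x j) (u j.succ)).prod with hrest
  have hrestK : rest ∈ hχ.ker := by
    apply Subgroup.list_prod_mem
    intro y hy
    rw [List.mem_ofFn] at hy
    obtain ⟨j, rfl⟩ := hy
    exact hmem _ (hxmem j) _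
  have h2 : ((u 0 : ℝ) : AddCircle (1 : ℝ)) = 0 := by
    have h3 := hgK.2
    rw [← hu, hχ.mul _ (hL.mem Y hY _) _ hrestK.1, hrestK.2, add_zero, hχc Y hY, hfY,
      mul_one] at h3
    exact h3
  have h0 : u 0 = 0 := by
    obtain ⟨z, hz⟩ := (AddCircle.coe_eq_zero_iff (1 : ℝ)).1 h2
    have h3 : (z : ℝ) = u 0 := by rw [← hz]; simp
    have h4 : |(z : ℝ)| < 1 := by rw [h3]; exact (hu2 0).trans_lt hg2
    have h5 : |z| < 1 := by exact_mod_cast h4
    rw [Int.abs_lt_one_iff] at h5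
    rw [← h3, h5, Int.cast_zero]
  rw [h0, O.c_zero', one_mul] at hu
  exact ⟨fun j => u j.succ, hu, fun j => hu2 _⟩

theorem chain_bot (O : OPS G E) (Γ : Subgroup G) (hΓd : ∀ᶠ g in 𝓝 (1 : G), g ∈ Γ → g = 1) :
    Chain Γ (gen O Γ ⊥) := by
  have h1 : gen O Γ ⊥ = Γ := by
    apply le_antisymm _ (le_gen Γ ⊥)
    apply gen_le le_rfl
    intro v hv t
    rw [Submodule.mem_bot] at hv
    subst hv
    have h2 : O.c (0 : E) t = O.c (0 : E) (0 * t) := by
      rw [← O.c_smul, zero_smul]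
    rw [h2, zero_mul, O.c_zero']
    exact Γ.one_mem
  rw [h1]
  refine Chain.base Γ le_rfl ?_ ⟨_, hΓd, fun v hv => hv⟩
  intro p hp
  refine ⟨p 0, hp.1, ?_⟩
  ext s
  have h2 := path_in Γ ⊥ (hΓd.mono fun g hg hgΓ => Subgroup.mem_bot.2 (hg hgΓ))
    (fun s => (p 0)⁻¹ * p s) (continuous_const.mul p.continuous)
    (fun s => Γ.mul_mem (Γ.inv_mem (hp.2 0)) (hp.2 s)) (by
      rw [inv_mul_cancel]; exact Subgroup.one_mem _) s
  rw [Subgroup.mem_bot, inv_mul_eq_one] at h2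
  rw [ContinuousMap.const_apply]
  exact h2.symm

/-- Existence of the tower. -/
theorem exists_chain [FiniteDimensional ℝ E] (O : OPS G E) (hnil : Group.IsNilpotent G)
    (Γ : Subgroup G) [CompactSpace (G ⧸ Γ)] (hΓd : ∀ᶠ g in 𝓝 (1 : G), g ∈ Γ → g = 1)
    (hΓc : IsClosed (Γ : Set G)) (n : ℕ) : ∀ (𝔫 : Submodule ℝ E) (K : Subgroup G),
      Module.finrank ℝ 𝔫 ≤ n → IsClosed (K : Set G) → Γ ≤ K → Lev O K 𝔫 →
      Chain Γ (gen O Γ 𝔫) := by
  induction n with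
  | zero =>
    intro 𝔫 K hn hK hΓK hL
    have h1 : 𝔫 = ⊥ := Submodule.finrank_eq_zero.1 (Nat.le_zero.1 hn)
    rw [h1]
    exact chain_bot O Γ hΓd
  | succ n ih =>
    intro 𝔫 K hn hK hΓK hL
    by_cases h𝔫 : 𝔫 = ⊥
    · rw [h𝔫]
      exact chain_bot O Γ hΓd
    have hLN := hL.genL hΓK
    have hNcl : IsClosed (gen O Γ 𝔫 : Set G) :=
      isClosed_of_open hK (gen_le hΓK hL.mem) (hL.open Γ)
    obtain ⟨f, χ, hχ, hχΓ, hχc, Y, hY, hfY⟩ := exists_char O hnil Γ hΓd hΓc 𝔫 h𝔫 hLN hNcl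
    have hL1 := hLN.ker hχ hχc hY hfY
    have hK1 : IsClosed (hχ.ker : Set G) := hχ.isClosed_ker hNcl
    have hΓ1 : Γ ≤ hχ.ker := fun γ hγ => ⟨le_gen Γ 𝔫 hγ, hχΓ γ hγ⟩
    have hlt : 𝔫 ⊓ LinearMap.ker f < 𝔫 := by
      apply lt_of_le_of_ne inf_le_left
      intro h
      have h1 : Y ∈ 𝔫 ⊓ LinearMap.ker f := by rw [h]; exact hY
      have h2 := LinearMap.mem_ker.1 h1.2
      rw [hfY] at h2
      exact one_ne_zero h2
    have hchain := ih (𝔫 ⊓ LinearMap.ker f) hχ.ker (by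
      have := Submodule.finrank_lt_finrank_of_lt hlt
      omega) hK1 hΓ1 hL1
    have hle : gen O Γ (𝔫 ⊓ LinearMap.ker f) ≤ hχ.ker := gen_le hΓ1 hL1.mem
    obtain ⟨S⟩ := mk_step Γ (gen O Γ 𝔫) (gen O Γ (𝔫 ⊓ LinearMap.ker f)) χ hχ (O.c Y)
      (O.c_add Y) (c_mem_gen Γ 𝔫 Y hY) (fun t => by rw [hχc Y hY, hfY, mul_one])
      (le_gen Γ _) (hle.trans fun g hg => hg.1) (fun g hg => (hle hg).2) (hL1.open Γ)
      (path_gen Γ _)
    exact Chain.step _ _ S hchain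

end

end Pool.Agent.Lib.MP_87965e_co
end

section

set_option autoImplicit false

open Finset Topology Filter Asymptotics

namespace Pool.Agent.Lib.MP_87965e_co

universe u

/-- Local chart data at the identity together with one-parameter subgroups. -/
structure CD (G : Type u) (E : Type*) [TopologicalSpace G] [Group G] [NormedAddCommGroup E]
    [NormedSpace ℝ E] where
  /-- the chart -/
  φ : G → E
  /-- the inverse of the chart -/
  ψ : E → G
  left : ∀ᶠ g in 𝓝 (1 : G), ψ (φ g) = g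
  right : ∀ᶠ x in 𝓝 (φ 1), φ (ψ x) = x
  φc : ContinuousAt φ 1
  m : ContDiffAt ℝ 1 (fun p : E × E => φ (ψ p.1 * ψ p.2)) (φ 1, φ 1)
  k : DifferentiableAt ℝ (fun p : E × E × E => φ ((ψ p.1 * ψ p.2.1)⁻¹ * ψ p.2.2))
    (φ 1, φ 1, φ 1)
  /-- the one-parameter subgroups -/
  c : E → C(ℝ, G)
  c_add : ∀ v s t, c v (s + t) = c v s * c v t
  c_smul : ∀ (r : ℝ) (v : E) (t : ℝ), c (r • v) t = c v (r * t)
  c_der : ∀ v, HasDerivAt (fun t => φ (c v t)) v 0

namespace CD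

variable {G : Type u} {E : Type*} [TopologicalSpace G] [Group G] [IsTopologicalGroup G]
  [NormedAddCommGroup E] [NormedSpace ℝ E] (X : CD G E)

theorem ψ_one : X.ψ (X.φ 1) = 1 := X.left.self_of_nhds

theorem c_zero (v : E) : X.c v 0 = 1 := by
  have := X.c_add v 0 0
  rw [add_zero] at this
  exact (mul_eq_left.1 this.symm)

/-- The multiplication in the chart. -/
def mm (p : E × E) : E := X.φ (X.ψ p.1 * X.ψ p.2)

theorem hasStrict_mm : HasStrictFDerivAt X.mm (fderiv ℝ X.mm (X.φ 1, X.φ 1)) (X.φ 1, X.φ 1) :=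
  X.m.hasStrictFDerivAt one_ne_zero

theorem fderiv_mm (a b : E) : fderiv ℝ X.mm (X.φ 1, X.φ 1) (a, b) = a + b := by
  have h := X.hasStrict_mm.hasFDerivAt
  have h1 : fderiv ℝ X.mm (X.φ 1, X.φ 1) (a, 0) = a := by
    have h2 : HasFDerivAt (fun x : E => (x, X.φ 1)) (ContinuousLinearMap.inl ℝ E E) (X.φ 1) :=
      (hasFDerivAt_id _).prodMk (hasFDerivAt_const _ _)
    have h3 := HasFDerivAt.comp (f := fun x : E => (x, X.φ 1)) (X.φ 1) h h2
    have h4 : HasFDerivAt (fun x : E => x) (ContinuousLinearMap.id ℝ E) (X.φ 1) := hasFDerivAt_id _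
    have h5 : (X.mm ∘ fun x : E => (x, X.φ 1)) =ᶠ[𝓝 (X.φ 1)] fun x : E => x := by
      filter_upwards [X.right] with x hx
      show X.φ (X.ψ x * X.ψ (X.φ 1)) = x
      rw [X.ψ_one, mul_one, hx]
    have h6 := (h4.congr_of_eventuallyEq h5).unique h3
    have h7 := ContinuousLinearMap.ext_iff.1 h6 a
    exact h7.symm
  have h2 : fderiv ℝ X.mm (X.φ 1, X.φ 1) (0, b) = b := by
    have h2 : HasFDerivAt (fun x : E => (X.φ 1, x)) (ContinuousLinearMap.inr ℝ E E) (X.φ 1) :=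
      (hasFDerivAt_const _ _).prodMk (hasFDerivAt_id _)
    have h3 := HasFDerivAt.comp (X.φ 1) h h2
    have h4 : HasFDerivAt (fun x : E => x) (ContinuousLinearMap.id ℝ E) (X.φ 1) := hasFDerivAt_id _
    have h5 : (X.mm ∘ fun x : E => (X.φ 1, x)) =ᶠ[𝓝 (X.φ 1)] fun x : E => x := by
      filter_upwards [X.right] with x hx
      show X.φ (X.ψ (X.φ 1) * X.ψ x) = x
      rw [X.ψ_one, one_mul, hx]
    have h6 := (h4.congr_of_eventuallyEq h5).unique h3
    have h7 := ContinuousLinearMap.ext_iff.1 h6 b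
    exact h7.symm
  have h3 : ((a, b) : E × E) = (a, 0) + (0, b) := by simp
  rw [h3, map_add, h1, h2]

theorem tendsto_c (v : E) : Tendsto (X.c v) (𝓝 0) (𝓝 1) := by
  have := (X.c v).continuous.tendsto 0
  rwa [X.c_zero] at this

theorem left_c (v : E) : ∀ᶠ t in 𝓝 (0 : ℝ), X.ψ (X.φ (X.c v t)) = X.c v t :=
  (X.tendsto_c v).eventually X.left

/-- The one-parameter subgroups are strictly differentiable in the chart. -/
theorem strict_c (v : E) : HasStrictDerivAt (fun t => X.φ (X.c v t)) v 0 := by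
  have hφ0 : X.φ (X.c v 0) = X.φ 1 := by rw [X.c_zero]
  have hcont0 : Tendsto (fun t => ((X.φ (X.c v t), X.φ 1) : E × E)) (𝓝 0)
      (𝓝 (X.φ 1, X.φ 1)) := by
    have h1 : Tendsto (fun t => X.φ (X.c v t)) (𝓝 0) (𝓝 (X.φ 1)) :=
      X.φc.tendsto.comp (X.tendsto_c v)
    exact h1.prodMk_nhds tendsto_const_nhds
  -- differentiability of the multiplication near the identity
  have hdiff : ∀ᶠ p in 𝓝 ((X.φ 1, X.φ 1) : E × E), DifferentiableAt ℝ X.mm p := by
    filter_upwards [X.m.eventually (by simp)] with p hp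
    exact hp.differentiableAt one_ne_zero
  have hfc : ContinuousAt (fderiv ℝ X.mm) (X.φ 1, X.φ 1) := by
    have h1 : ContDiffAt ℝ 0 (fderiv ℝ X.mm) (X.φ 1, X.φ 1) := X.m.fderiv_right (by norm_num)
    exact h1.continuousAt
  have h := hasStrictDerivAt_of_hasDerivAt_of_continuousAt (f := fun t => X.φ (X.c v t))
    (f' := fun t => fderiv ℝ X.mm (X.φ (X.c v t), X.φ 1) (0, v)) (x := 0) ?_ ?_
  · have h1 : fderiv ℝ X.mm (X.φ (X.c v 0), X.φ 1) (0, v) = v := by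
      rw [hφ0, X.fderiv_mm, zero_add]
    rw [h1] at h
    exact h
  · filter_upwards [X.left_c v, hcont0.eventually hdiff] with t ht hdt
    have h1 : HasDerivAt (fun s => X.mm (X.φ (X.c v t), X.φ (X.c v s)))
        (fderiv ℝ X.mm (X.φ (X.c v t), X.φ 1) (0, v)) 0 := by
      have h2 : HasFDerivAt X.mm (fderiv ℝ X.mm (X.φ (X.c v t), X.φ 1))
          ((fun s => (X.φ (X.c v t), X.φ (X.c v s))) (0 : ℝ)) := by
        show HasFDerivAt X.mm (fderiv ℝ X.mm (X.φ (X.c v t), X.φ 1))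
          (X.φ (X.c v t), X.φ (X.c v 0))
        rw [hφ0]
        exact hdt.hasFDerivAt
      have h3 : HasDerivAt (fun s : ℝ => (X.φ (X.c v t), X.φ (X.c v s))) ((0 : E), v) 0 :=
        (hasDerivAt_const _ _).prodMk (X.c_der v)
      exact h2.comp_hasDerivAt 0 h3
    have h2 : (fun s => X.φ (X.c v (t + s))) =ᶠ[𝓝 0]
        fun s => X.mm (X.φ (X.c v t), X.φ (X.c v s)) := by
      filter_upwards [X.left_c v] with s hs
      show X.φ (X.c v (t + s)) = X.φ (X.ψ (X.φ (X.c v t)) * X.ψ (X.φ (X.c v s)))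
      rw [ht, hs, X.c_add]
    have h3 := h1.congr_of_eventuallyEq h2
    have h4 : HasDerivAt (fun s => X.φ (X.c v (t + (s - t))))
        (fderiv ℝ X.mm (X.φ (X.c v t), X.φ 1) (0, v)) t := by
      have h5 : HasDerivAt (fun s => X.φ (X.c v (t + s)))
        (fderiv ℝ X.mm (X.φ (X.c v t), X.φ 1) (0, v)) (t - t) := by
        rw [sub_self]; exact h3
      exact h5.comp_sub_const t t
    have h5 : (fun s => X.φ (X.c v (t + (s - t)))) = fun s => X.φ (X.c v s) := by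
      funext s
      rw [add_sub_cancel]
    rwa [h5] at h4
  · have h1 : ContinuousAt (fun t => fderiv ℝ X.mm (X.φ (X.c v t), X.φ 1)) 0 := by
      have h2 : Tendsto (fun t => fderiv ℝ X.mm (X.φ (X.c v t), X.φ 1)) (𝓝 0)
          (𝓝 (fderiv ℝ X.mm (X.φ 1, X.φ 1))) := hfc.tendsto.comp hcont0
      rw [ContinuousAt, hφ0]
      exact h2
    exact h1.clm_apply continuousAt_const

/-- Products in terms of the chart data. -/
def prd {n : ℕ} (x : Fin n → E) (u : Fin n → ℝ) : G := (List.ofFn fun j => X.c (x j) (u j)).prod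

theorem continuous_prd {n : ℕ} (x : Fin n → E) : Continuous (X.prd x) := by
  have h1 : X.prd x = fun u => ((List.finRange n).map fun j => X.c (x j) (u j)).prod := by
    funext u
    rw [prd, List.ofFn_eq_map]
  rw [h1]
  exact continuous_list_prod _ fun j _ => (X.c (x j)).continuous.comp (continuous_apply j)

theorem prd_zero {n : ℕ} (x : Fin n → E) : X.prd x 0 = 1 := by
  apply List.prod_eq_one
  intro y hy
  rw [List.mem_ofFn] at hy
  obtain ⟨j, rfl⟩ := hy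
  exact X.c_zero _

theorem tendsto_prd {n : ℕ} (x : Fin n → E) : Tendsto (X.prd x) (𝓝 0) (𝓝 1) := by
  have := (X.continuous_prd x).tendsto 0
  rwa [X.prd_zero] at this

/-- The derivative of the product map. -/
theorem strict_prd : ∀ (n : ℕ) (x : Fin n → E), HasStrictFDerivAt (fun u => X.φ (X.prd x u))
    (∑ j, (ContinuousLinearMap.proj (R := ℝ) (φ := fun _ : Fin n => ℝ) j).smulRight (x j)) 0 := by
  intro n
  induction n with
  | zero =>
    intro x
    have h1 : (fun u => X.φ (X.prd x u)) = fun _ => X.φ 1 := by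
      funext u
      have : X.prd x u = 1 := by simp [prd]
      rw [this]
    rw [h1, Finset.univ_eq_empty, Finset.sum_empty]
    exact hasStrictFDerivAt_const _ _
  | succ n ih =>
    intro x
    set P : (Fin (n + 1) → ℝ) →L[ℝ] (Fin n → ℝ) :=
      ContinuousLinearMap.pi fun j : Fin n =>
        ContinuousLinearMap.proj (R := ℝ) (φ := fun _ : Fin (n + 1) => ℝ) j.succ with hP
    have h1 : HasStrictFDerivAt (fun u : Fin (n + 1) → ℝ => X.φ (X.c (x 0) (u 0)))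
        ((ContinuousLinearMap.proj (R := ℝ) (φ := fun _ : Fin (n + 1) => ℝ) 0).smulRight (x 0))
        0 := by
      have h2 : HasStrictFDerivAt (fun u : Fin (n + 1) → ℝ => u 0)
          (ContinuousLinearMap.proj (R := ℝ) (φ := fun _ : Fin (n + 1) => ℝ) 0) 0 :=
        (ContinuousLinearMap.proj (R := ℝ) (φ := fun _ : Fin (n + 1) => ℝ) 0).hasStrictFDerivAt
      have h3 : HasStrictFDerivAt (fun t => X.φ (X.c (x 0) t))
          (ContinuousLinearMap.toSpanSingleton ℝ (x 0)) ((0 : Fin (n + 1) → ℝ) 0) :=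
        (X.strict_c (x 0)).hasStrictFDerivAt
      have h4 := h3.comp (0 : Fin (n + 1) → ℝ) h2
      refine h4.congr_fderiv ?_
      ext u
      simp
    have h2 : HasStrictFDerivAt (fun u : Fin (n + 1) → ℝ =>
        X.φ (X.prd (fun j => x j.succ) (P u)))
        ((∑ j, (ContinuousLinearMap.proj (R := ℝ) (φ := fun _ : Fin n => ℝ) j).smulRight
          (x j.succ)).comp P) 0 := by
      have h3 : HasStrictFDerivAt (fun u => X.φ (X.prd (fun j => x j.succ) u))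
          (∑ j, (ContinuousLinearMap.proj (R := ℝ) (φ := fun _ : Fin n => ℝ) j).smulRight
            (x j.succ)) (P 0) := by
        rw [map_zero]; exact ih _
      exact h3.comp 0 P.hasStrictFDerivAt
    have h3 := h1.prodMk h2
    have h4 : HasStrictFDerivAt X.mm (fderiv ℝ X.mm (X.φ 1, X.φ 1))
        (X.φ (X.c (x 0) ((0 : Fin (n + 1) → ℝ) 0)), X.φ (X.prd (fun j => x j.succ) (P 0))) := by
      rw [map_zero, X.prd_zero, Pi.zero_apply, X.c_zero]
      exact X.hasStrict_mm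
    have h5 := h4.comp (0 : Fin (n + 1) → ℝ) h3
    have h6 : (fun u => X.φ (X.prd x u)) =ᶠ[𝓝 0] (X.mm ∘ fun u : Fin (n + 1) → ℝ =>
        (X.φ (X.c (x 0) (u 0)), X.φ (X.prd (fun j => x j.succ) (P u)))) := by
      have h7 : Tendsto (fun u : Fin (n + 1) → ℝ => u 0) (𝓝 0) (𝓝 0) := by
        have := (continuous_apply (A := fun _ : Fin (n + 1) => ℝ) 0).tendsto 0
        exact this
      have h8 : Tendsto (fun u : Fin (n + 1) → ℝ => P u) (𝓝 0) (𝓝 0) := by
        have := P.continuous.tendsto 0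
        rwa [map_zero] at this
      filter_upwards [h7.eventually (X.left_c (x 0)),
        ((X.tendsto_prd (fun j => x j.succ)).comp h8).eventually X.left] with u hu1 hu2
      have hu2' : X.ψ (X.φ (X.prd (fun j => x j.succ) (P u))) =
        X.prd (fun j => x j.succ) (P u) := hu2
      show X.φ (X.prd x u) = X.φ (X.ψ (X.φ (X.c (x 0) (u 0))) *
        X.ψ (X.φ (X.prd (fun j => x j.succ) (P u))))
      rw [hu1, hu2', prd, List.ofFn_succ, List.prod_cons]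
      rfl
    have h9 := h5.congr_of_eventuallyEq h6.symm
    refine h9.congr_fderiv ?_
    ext u
    rw [ContinuousLinearMap.comp_apply, ContinuousLinearMap.prod_apply, X.fderiv_mm,
      Fin.sum_univ_succ]
    simp [hP]

/-- The gauge. -/
def nu (g : G) : ℝ := ‖X.φ g - X.φ 1‖

theorem nu_lim : Tendsto X.nu (𝓝 1) (𝓝 0) := by
  have h1 : Tendsto (fun g => X.φ g - X.φ 1) (𝓝 1) (𝓝 (X.φ 1 - X.φ 1)) :=
    X.φc.tendsto.sub_const _
  rw [sub_self] at h1
  have h2 := h1.norm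
  rwa [norm_zero] at h2

theorem small (v w : E) :
    (fun t : ℝ => X.nu ((X.c v t * X.c w t)⁻¹ * X.c (v + w) t)) =o[𝓝 0] (fun t : ℝ => t) := by
  set k : E × E × E → E := fun p => X.φ ((X.ψ p.1 * X.ψ p.2.1)⁻¹ * X.ψ p.2.2) with hk
  set D := fderiv ℝ k (X.φ 1, X.φ 1, X.φ 1) with hD
  have hkd : HasFDerivAt k D (X.φ 1, X.φ 1, X.φ 1) := X.k.hasFDerivAt
  have h1 : D (v, 0, v) = 0 := by
    have h2 : HasFDerivAt (fun x : E => (x, X.φ 1, x))
        ((ContinuousLinearMap.id ℝ E).prod ((0 : E →L[ℝ] E).prod (ContinuousLinearMap.id ℝ E)))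
        (X.φ 1) := (hasFDerivAt_id _).prodMk ((hasFDerivAt_const _ _).prodMk (hasFDerivAt_id _))
    have h3 := HasFDerivAt.comp (X.φ 1) hkd h2
    have h5 : (k ∘ fun x : E => (x, X.φ 1, x)) =ᶠ[𝓝 (X.φ 1)] fun _ : E => X.φ 1 := by
      refine Eventually.of_forall fun x => ?_
      show X.φ ((X.ψ x * X.ψ (X.φ 1))⁻¹ * X.ψ x) = X.φ 1
      rw [X.ψ_one, mul_one, inv_mul_cancel]
    have h4 : HasFDerivAt (fun _ : E => X.φ 1) (0 : E →L[ℝ] E) (X.φ 1) := hasFDerivAt_const _ _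
    have h6 := (h4.congr_of_eventuallyEq h5).unique h3
    exact (ContinuousLinearMap.ext_iff.1 h6 v).symm
  have h2 : D (0, w, w) = 0 := by
    have h2 : HasFDerivAt (fun x : E => (X.φ 1, x, x))
        ((0 : E →L[ℝ] E).prod ((ContinuousLinearMap.id ℝ E).prod (ContinuousLinearMap.id ℝ E)))
        (X.φ 1) := (hasFDerivAt_const _ _).prodMk ((hasFDerivAt_id _).prodMk (hasFDerivAt_id _))
    have h3 := HasFDerivAt.comp (X.φ 1) hkd h2
    have h5 : (k ∘ fun x : E => (X.φ 1, x, x)) =ᶠ[𝓝 (X.φ 1)] fun _ : E => X.φ 1 := by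
      refine Eventually.of_forall fun x => ?_
      show X.φ ((X.ψ (X.φ 1) * X.ψ x)⁻¹ * X.ψ x) = X.φ 1
      rw [X.ψ_one, one_mul, inv_mul_cancel]
    have h4 : HasFDerivAt (fun _ : E => X.φ 1) (0 : E →L[ℝ] E) (X.φ 1) := hasFDerivAt_const _ _
    have h6 := (h4.congr_of_eventuallyEq h5).unique h3
    exact (ContinuousLinearMap.ext_iff.1 h6 w).symm
  have h3 : D (v, w, v + w) = 0 := by
    have h4 : ((v, w, v + w) : E × E × E) = (v, 0, v) + (0, w, w) := by simp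
    rw [h4, map_add, h1, h2, add_zero]
  -- the curve
  have h4 : HasDerivAt (fun t : ℝ => (X.φ (X.c v t), X.φ (X.c w t), X.φ (X.c (v + w) t)))
      (v, w, v + w) 0 := (X.c_der v).prodMk ((X.c_der w).prodMk (X.c_der (v + w)))
  have h5 : HasFDerivAt k D ((fun t : ℝ => (X.φ (X.c v t), X.φ (X.c w t),
      X.φ (X.c (v + w) t))) 0) := by
    show HasFDerivAt k D (X.φ (X.c v 0), X.φ (X.c w 0), X.φ (X.c (v + w) 0))
    rw [X.c_zero, X.c_zero, X.c_zero]
    exact hkd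
  have h6 := h5.comp_hasDerivAt 0 h4
  rw [h3] at h6
  have h7 : (fun t => X.φ ((X.c v t * X.c w t)⁻¹ * X.c (v + w) t)) =ᶠ[𝓝 0]
      (k ∘ fun t : ℝ => (X.φ (X.c v t), X.φ (X.c w t), X.φ (X.c (v + w) t))) := by
    filter_upwards [X.left_c v, X.left_c w, X.left_c (v + w)] with t ht1 ht2 ht3
    show X.φ ((X.c v t * X.c w t)⁻¹ * X.c (v + w) t) =
      X.φ ((X.ψ (X.φ (X.c v t)) * X.ψ (X.φ (X.c w t)))⁻¹ * X.ψ (X.φ (X.c (v + w) t)))
    rw [ht1, ht2, ht3]
  have h8 := h6.congr_of_eventuallyEq h7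
  rw [hasDerivAt_iff_isLittleO] at h8
  have h9 : (fun t : ℝ => X.φ ((X.c v t * X.c w t)⁻¹ * X.c (v + w) t) - X.φ 1) =o[𝓝 0]
      (fun t : ℝ => t) := by
    refine (h8.congr_left fun t => ?_).congr_right fun t => ?_
    · rw [X.c_zero, X.c_zero, X.c_zero]
      simp
    · simp
  exact h9.norm_left

theorem prod_local (n : ℕ) (x : Fin n → E) (hx : LinearIndependent ℝ x)
    (hspan : Submodule.span ℝ (Set.range x) = ⊤) :
    ∃ C : ℝ, ∀ᶠ g in 𝓝 (1 : G), ∃ u : Fin n → ℝ, (List.ofFn fun j => X.c (x j) (u j)).prod = g ∧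
      ∀ j, |u j| ≤ C * X.nu g := by
  have hfin : FiniteDimensional ℝ E :=
    (Module.Basis.mk hx hspan.ge).finiteDimensional_of_finite
  set b := Module.Basis.mk hx hspan.ge with hb
  set e : (Fin n → ℝ) ≃L[ℝ] E := b.equivFun.symm.toContinuousLinearEquiv with he
  have h1 : HasStrictFDerivAt (fun u => X.φ (X.prd x u)) (e : (Fin n → ℝ) →L[ℝ] E) 0 := by
    refine (X.strict_prd n x).congr_fderiv ?_
    ext u
    simp [he, hb, Module.Basis.equivFun_symm_apply]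
  have hφ1 : X.φ (X.prd x 0) = X.φ 1 := by rw [X.prd_zero]
  set L := h1.localInverse with hL
  have h2 : ∀ᶠ y in 𝓝 (X.φ 1), X.φ (X.prd x (L y)) = y := by
    have := h1.eventually_right_inverse
    rwa [hφ1] at this
  have h3 : L (X.φ 1) = 0 := by
    have := h1.localInverse_apply_image
    rwa [hφ1] at this
  have h4 : HasStrictFDerivAt L (e.symm : E →L[ℝ] (Fin n → ℝ)) (X.φ 1) := by
    have := h1.to_localInverse
    rwa [hφ1] at this
  have h5 := h4.hasFDerivAt.isBigO_sub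
  rw [isBigO_iff] at h5
  obtain ⟨C, hC⟩ := h5
  have hLc : Tendsto L (𝓝 (X.φ 1)) (𝓝 0) := by
    have := h4.continuousAt.tendsto
    rwa [h3] at this
  refine ⟨C, ?_⟩
  have hφt : Tendsto X.φ (𝓝 1) (𝓝 (X.φ 1)) := X.φc.tendsto
  filter_upwards [X.left, hφt.eventually h2, hφt.eventually hC,
    ((X.tendsto_prd x).comp (hLc.comp hφt)).eventually X.left] with g hg1 hg2 hg3 hg4
  refine ⟨L (X.φ g), ?_, fun j => ?_⟩
  · have h6 : X.ψ (X.φ (X.prd x (L (X.φ g)))) = X.prd x (L (X.φ g)) := hg4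
    rw [hg2, hg1] at h6
    exact h6.symm
  · rw [h3, sub_zero] at hg3
    calc |L (X.φ g) j| = ‖L (X.φ g) j‖ := rfl
      _ ≤ ‖L (X.φ g)‖ := norm_le_pi_norm _ j
      _ ≤ C * X.nu g := hg3

/-- The one-parameter system of a group with chart data. -/
def toOPS : OPS G E where
  c := X.c
  ν := X.nu
  c_add := X.c_add
  c_smul := X.c_smul
  ν_nonneg := fun _ => norm_nonneg _
  ν_lim := X.nu_lim
  small := X.small
  inj := fun v hv => by
    have h1 := X.c_der v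
    have h2 : (fun t => X.φ (X.c v t)) = fun _ => X.φ 1 := by
      funext t; rw [hv]
    rw [h2] at h1
    exact h1.unique (hasDerivAt_const _ _)
  prod := X.prod_local

end CD

end Pool.Agent.Lib.MP_87965e_co
end

section

set_option autoImplicit false

open Finset Topology Filter Asymptotics

namespace Pool.Agent.Lib.MP_87965e_co

universe u

/-- Recurrence for nilpotent groups with a system of one-parameter subgroups. -/
theorem ops_recurrence {G : Type u} {E : Type*} [TopologicalSpace G] [Group G]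
    [IsTopologicalGroup G] [NormedAddCommGroup E] [NormedSpace ℝ E] [FiniteDimensional ℝ E]
    (O : OPS G E) (hnil : Group.IsNilpotent G) (Γ : Subgroup G) [CompactSpace (G ⧸ Γ)]
    (hΓd : ∀ᶠ g in 𝓝 (1 : G), g ∈ Γ → g = 1) (hΓc : IsClosed (Γ : Set G)) (S : Set ℕ)
    (hS : TwoLarge S) (τ : G) (x : G ⧸ Γ) (U : Set (G ⧸ Γ)) (hU : IsOpen U) (hx : x ∈ U) :
    ∃ s ∈ S, τ ^ s • x ∈ U := by
  obtain ⟨g, rfl⟩ := QuotientGroup.mk_surjective x
  set N := gen O Γ ⊤ with hN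
  have hTopL := Lev.top O
  have hopen : ∀ᶠ v in 𝓝 (1 : G), v ∈ (⊤ : Subgroup G) → v ∈ N := hTopL.open Γ
  have hcl : IsClosed (N : Set G) :=
    isClosed_of_open (K := ⊤) (by rw [Subgroup.coe_top]; exact isClosed_univ) le_top hopen
  have hchain : Chain Γ N := exists_chain O hnil Γ hΓd hΓc _ ⊤ ⊤ le_rfl
    (by rw [Subgroup.coe_top]; exact isClosed_univ) le_top hTopL
  obtain ⟨n, hn, hτn⟩ := pigeon Γ ⊤ N (le_gen Γ ⊤) le_top hopen (g⁻¹ * τ * g)
    (Subgroup.mem_top _)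
  set V : Set (G ⧸ Γ) := (fun y : G ⧸ Γ => g • y) ⁻¹' U with hV
  have hVo : IsOpen V := hU.preimage (continuous_const_smul g)
  have h1V : ((1 : G) : G ⧸ Γ) ∈ V := by
    show g • ((1 : G) : G ⧸ Γ) ∈ U
    have : g • ((1 : G) : G ⧸ Γ) = ((g * 1 : G) : G ⧸ Γ) := rfl
    rw [this, mul_one]
    exact hx
  obtain ⟨s, hs, m, hsm, hmem⟩ := chain_recurrence hnil hchain hcl (path_gen Γ ⊤) S hS _ hτn n hn
    V hVo h1V
  refine ⟨s, hs, ?_⟩
  have h1 : ((g⁻¹ * τ * g) ^ n) ^ m = g⁻¹ * τ ^ s * g := by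
    rw [← pow_mul, ← hsm]
    have h2 : ∀ k : ℕ, (g⁻¹ * τ * g) ^ k = g⁻¹ * τ ^ k * g := by
      intro k
      induction k with
      | zero => rw [pow_zero, pow_zero]; group
      | succ k ih => rw [pow_succ, ih, pow_succ]; group
    exact h2 s
  rw [h1] at hmem
  have h3 : g • ((g⁻¹ * τ ^ s * g : G) : G ⧸ Γ) ∈ U := hmem
  have h4 : g • ((g⁻¹ * τ ^ s * g : G) : G ⧸ Γ) = τ ^ s • (g : G ⧸ Γ) := by
    have h5 : g • ((g⁻¹ * τ ^ s * g : G) : G ⧸ Γ) = ((g * (g⁻¹ * τ ^ s * g) : G) : G ⧸ Γ) := rfl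
    have h6 : τ ^ s • (g : G ⧸ Γ) = ((τ ^ s * g : G) : G ⧸ Γ) := rfl
    rw [h5, h6]
    congr 1
    group
  rw [h4] at h3
  exact h3

end Pool.Agent.Lib.MP_87965e_co
end

section

set_option autoImplicit false

open Finset Topology Filter Set
open scoped Manifold ContDiff

namespace Pool.Agent.Lib.MP_87965e_co

universe u

section

variable {E : Type*} [NormedAddCommGroup E] [NormedSpace ℝ E] [FiniteDimensional ℝ E]
  {G : Type u} [TopologicalSpace G] [ChartedSpace E G] [Group G] [LieGroup 𝓘(ℝ, E) ∞ G]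
  [T2Space G]

/-- The left invariant field. -/
noncomputable abbrev fld (v : E) (g : G) : TangentSpace 𝓘(ℝ, E) g :=
  mulInvariantVectorField (I := 𝓘(ℝ, E)) (G := G) v g

theorem lie3 : LieGroup 𝓘(ℝ, E) (minSmoothness ℝ 3) G := by
  have : (minSmoothness ℝ 3 : WithTop ℕ∞) = 3 := by simp
  rw [this]
  exact LieGroup.of_le (n := ∞) (by norm_cast)

theorem man1 : IsManifold 𝓘(ℝ, E) 1 G := 
  IsManifold.of_le (n := ∞) (by norm_cast)

theorem fld_smooth (v : E) :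
    ContMDiff 𝓘(ℝ, E) 𝓘(ℝ, E).tangent 1
      (fun g : G => (⟨g, fld v g⟩ : TangentBundle 𝓘(ℝ, E) G)) := by
  have := lie3 (E := E) (G := G)
  have h := contMDiff_mulInvariantVectorField (I := 𝓘(ℝ, E)) (G := G) v
  refine h.of_le ?_
  have : (minSmoothness ℝ 2 : WithTop ℕ∞) = 2 := by simp
  rw [this]
  norm_num

theorem fld_one (v : E) : fld (G := G) v 1 = v := by
  show mfderiv 𝓘(ℝ, E) 𝓘(ℝ, E) (fun x : G => 1 * x) 1 v = v
  have : (fun x : G => 1 * x) = id := by funext x; simp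
  rw [this, mfderiv_id]
  rfl

theorem hasMF_mul (g h : G) : HasMFDerivAt 𝓘(ℝ, E) 𝓘(ℝ, E) (fun x : G => g * x) h
    (mfderiv 𝓘(ℝ, E) 𝓘(ℝ, E) (fun x : G => g * x) h) := by
  have h1 : ContMDiff 𝓘(ℝ, E) 𝓘(ℝ, E) ∞ (fun x : G => g * x) := contMDiff_mul_left
  exact (h1.mdifferentiable (by simp) h).hasMFDerivAt

theorem hasMF_mul' (g h k : G) (hk : k = h) : HasMFDerivAt 𝓘(ℝ, E) 𝓘(ℝ, E) (fun x : G => g * x) k
    (mfderiv 𝓘(ℝ, E) 𝓘(ℝ, E) (fun x : G => g * x) h : E →L[ℝ] E) := by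
  subst hk
  exact hasMF_mul g k

theorem fld_mul (v : E) (g h : G) :
    fld v (g * h) = mfderiv 𝓘(ℝ, E) 𝓘(ℝ, E) (fun x : G => g * x) h (fld v h) := by
  have h1 : HasMFDerivAt 𝓘(ℝ, E) 𝓘(ℝ, E) (fun x : G => h * x) 1
    (mfderiv 𝓘(ℝ, E) 𝓘(ℝ, E) (fun x : G => h * x) 1) := hasMF_mul h 1
  have h2 : HasMFDerivAt 𝓘(ℝ, E) 𝓘(ℝ, E) (fun x : G => g * x) ((fun x : G => h * x) 1)
    (mfderiv 𝓘(ℝ, E) 𝓘(ℝ, E) (fun x : G => g * x) h : E →L[ℝ] E) := hasMF_mul' g h _ (mul_one h)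
  have h3 := h2.comp 1 h1
  have h4 : ((fun x : G => g * x) ∘ fun x : G => h * x) = fun x : G => g * h * x := by
    funext x; simp [mul_assoc]
  rw [h4] at h3
  have h5 := h3.mfderiv
  show mfderiv 𝓘(ℝ, E) 𝓘(ℝ, E) (fun x : G => g * h * x) 1 v = _
  rw [h5]
  rfl

/-- Left translates of integral curves. -/
theorem trans_curve (v : E) (g : G) (γ : ℝ → G) (s : Set ℝ)
    (hγ : IsMIntegralCurveOn γ (fld (G := G) v) s) :
    IsMIntegralCurveOn (fun t => g * γ t) (fld (G := G) v) s := by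
  intro t ht
  have h1 := hγ t ht
  have h2 := (hasMF_mul (E := E) g (γ t)).comp_hasMFDerivWithinAt t h1
  refine h2.congr_mfderiv ?_
  show _ = (1 : ℝ →L[ℝ] ℝ).smulRight (fld v (g * γ t))
  rw [fld_mul]
  refine ContinuousLinearMap.ext fun a => ?_
  have key : ∀ (L : E →L[ℝ] E) (a : ℝ) (w : E), L (a • w) = a • L w := fun L a w => map_smul L a w
  exact key (mfderiv 𝓘(ℝ, E) 𝓘(ℝ, E) (fun x : G => g * x) (γ t)) a (fld v (γ t))

theorem exists_local (v : E) : ∃ (γ : ℝ → G) (ε : ℝ), 0 < ε ∧ γ 0 = 1 ∧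
    IsMIntegralCurveOn γ (fld (G := G) v) (Ioo (-ε) ε) := by
  have := man1 (E := E) (G := G)
  obtain ⟨γ, h0, hγ⟩ := exists_isMIntegralCurveAt_of_contMDiffAt_boundaryless (I := 𝓘(ℝ, E))
    (M := G) (v := fld v) (t₀ := 0) (x₀ := 1) (fld_smooth v).contMDiffAt
  rw [isMIntegralCurveAt_iff'] at hγ
  obtain ⟨ε, hε, hγ⟩ := hγ
  refine ⟨γ, ε, hε, h0, ?_⟩
  rw [Real.ball_eq_Ioo] at hγ
  simpa using hγ

theorem exists_global (v : E) : ∃ γ : ℝ → G, γ 0 = 1 ∧ IsMIntegralCurve γ (fld (G := G) v) := by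
  have := man1 (E := E) (G := G)
  obtain ⟨γ, ε, hε, h0, hγ⟩ := exists_local (G := G) v
  exact exists_isMIntegralCurve_of_isMIntegralCurveOn (fld_smooth v) hε
    (fun g => ⟨fun t => g * γ t, by simp [h0], trans_curve v g γ _ hγ⟩) 1

/-- The one-parameter subgroup. -/
noncomputable def crv (v : E) : ℝ → G := (exists_global (G := G) v).choose

theorem crv_zero (v : E) : crv (G := G) v 0 = 1 := (exists_global (G := G) v).choose_spec.1

theorem crv_int (v : E) : IsMIntegralCurve (crv (G := G) v) (fld (G := G) v) :=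
  (exists_global (G := G) v).choose_spec.2

theorem crv_unique (v : E) (γ : ℝ → G) (h0 : γ 0 = 1) (hγ : IsMIntegralCurve γ (fld (G := G) v)) :
    γ = crv v := by
  have := man1 (E := E) (G := G)
  exact isMIntegralCurve_Ioo_eq_of_contMDiff_boundaryless (t₀ := 0) (fld_smooth v) hγ (crv_int v)
    (by rw [h0, crv_zero])

theorem crv_add (v : E) (s t : ℝ) : crv (G := G) v (s + t) = crv v s * crv v t := by
  have h1 : IsMIntegralCurve (fun t => (crv v s)⁻¹ * crv (G := G) v (t + s)) (fld (G := G) v) := by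
    have h2 : IsMIntegralCurve (crv (G := G) v ∘ (· + s)) (fld (G := G) v) :=
      (crv_int v).comp_add s
    rw [isMIntegralCurve_iff_isMIntegralCurveOn] at h2 ⊢
    exact trans_curve v _ _ _ h2
  have h2 := crv_unique v _ (by rw [zero_add, inv_mul_cancel]) h1
  have h3 := congrFun h2 t
  have h4 : (crv v s)⁻¹ * crv (G := G) v (t + s) = crv v t := h3
  rw [← h4, mul_inv_cancel_left, add_comm]

theorem crv_smul (r : ℝ) (v : E) (t : ℝ) : crv (G := G) (r • v) t = crv v (r * t) := by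
  have h1 : IsMIntegralCurve (crv (G := G) v ∘ (· * r)) (r • fld (G := G) v) :=
    (crv_int v).comp_mul r
  have h2 : fld (G := G) (r • v) = r • fld (G := G) v := mulInvariantVectorField_smul r v
  rw [← h2] at h1
  have h3 := crv_unique (r • v) _ (by
    show crv v (0 * r) = 1
    rw [zero_mul, crv_zero]) h1
  have h4 : crv v (t * r) = crv (G := G) (r • v) t := congrFun h3 t
  rw [← h4, mul_comm]

theorem crv_der (v : E) :
    HasDerivAt (fun t => extChartAt 𝓘(ℝ, E) (1 : G) (crv v t)) v 0 := by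
  have := man1 (E := E) (G := G)
  have h1 := ((crv_int (G := G) v).isMIntegralCurveAt 0).eventually_hasDerivAt.self_of_nhds
  have h2 : tangentCoordChange 𝓘(ℝ, E) (crv (G := G) v 0) (crv (G := G) v 0) (crv (G := G) v 0)
      (fld v (crv (G := G) v 0)) = fld v (crv (G := G) v 0) :=
    tangentCoordChange_self (mem_extChartAt_source _)
  rw [h2] at h1
  have h3 : ∀ g : G, g = 1 → (fld v g : E) = v := by
    rintro g rfl
    exact fld_one v
  rw [h3 _ (crv_zero v), crv_zero] at h1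
  exact h1

theorem symm_at : ContMDiffAt 𝓘(ℝ, E) 𝓘(ℝ, E) ∞ (extChartAt 𝓘(ℝ, E) (1 : G)).symm
    (extChartAt 𝓘(ℝ, E) (1 : G) 1) := by
  have : IsManifold 𝓘(ℝ, E) ∞ G := inferInstance
  exact (contMDiffOn_extChartAt_symm (n := ∞) (1 : G)).contMDiffAt
    (extChartAt_target_mem_nhds (1 : G))

theorem symm_one : (extChartAt 𝓘(ℝ, E) (1 : G)).symm (extChartAt 𝓘(ℝ, E) (1 : G) 1) = 1 :=
  (extChartAt 𝓘(ℝ, E) (1 : G)).left_inv (mem_extChartAt_source _)

theorem chart_at : ContMDiffAt 𝓘(ℝ, E) 𝓘(ℝ, E) ∞ (extChartAt 𝓘(ℝ, E) (1 : G)) (1 : G) := 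
  contMDiffAt_extChartAt

theorem mul_chart : ContDiffAt ℝ ∞ (fun p : E × E => extChartAt 𝓘(ℝ, E) (1 : G)
    ((extChartAt 𝓘(ℝ, E) (1 : G)).symm p.1 * (extChartAt 𝓘(ℝ, E) (1 : G)).symm p.2))
    (extChartAt 𝓘(ℝ, E) (1 : G) 1, extChartAt 𝓘(ℝ, E) (1 : G) 1) := by
  rw [← contMDiffAt_iff_contDiffAt]
  have h1 : ContMDiffAt 𝓘(ℝ, E × E) 𝓘(ℝ, E) ∞
      (fun p : E × E => (extChartAt 𝓘(ℝ, E) (1 : G)).symm p.1)
      (extChartAt 𝓘(ℝ, E) (1 : G) 1, extChartAt 𝓘(ℝ, E) (1 : G) 1) :=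
    ContMDiffAt.comp (g := (extChartAt 𝓘(ℝ, E) (1 : G)).symm) (f := fun p : E × E => p.1)
      (extChartAt 𝓘(ℝ, E) (1 : G) 1, extChartAt 𝓘(ℝ, E) (1 : G) 1) symm_at
      contDiff_fst.contMDiff.contMDiffAt
  have h2 : ContMDiffAt 𝓘(ℝ, E × E) 𝓘(ℝ, E) ∞
      (fun p : E × E => (extChartAt 𝓘(ℝ, E) (1 : G)).symm p.2)
      (extChartAt 𝓘(ℝ, E) (1 : G) 1, extChartAt 𝓘(ℝ, E) (1 : G) 1) :=
    ContMDiffAt.comp (g := (extChartAt 𝓘(ℝ, E) (1 : G)).symm) (f := fun p : E × E => p.2)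
      (extChartAt 𝓘(ℝ, E) (1 : G) 1, extChartAt 𝓘(ℝ, E) (1 : G) 1) symm_at
      contDiff_snd.contMDiff.contMDiffAt
  have h3 := h1.mul h2
  refine ContMDiffAt.comp (g := extChartAt 𝓘(ℝ, E) (1 : G))
    (f := fun p : E × E => (extChartAt 𝓘(ℝ, E) (1 : G)).symm p.1 *
      (extChartAt 𝓘(ℝ, E) (1 : G)).symm p.2)
    (extChartAt 𝓘(ℝ, E) (1 : G) 1, extChartAt 𝓘(ℝ, E) (1 : G) 1) ?_ h3
  have h4 : (extChartAt 𝓘(ℝ, E) (1 : G)).symm (extChartAt 𝓘(ℝ, E) (1 : G) 1) *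
      (extChartAt 𝓘(ℝ, E) (1 : G)).symm (extChartAt 𝓘(ℝ, E) (1 : G) 1) = 1 := by
    rw [symm_one, mul_one]
  show ContMDiffAt 𝓘(ℝ, E) 𝓘(ℝ, E) ∞ (extChartAt 𝓘(ℝ, E) (1 : G))
    ((extChartAt 𝓘(ℝ, E) (1 : G)).symm (extChartAt 𝓘(ℝ, E) (1 : G) 1) *
      (extChartAt 𝓘(ℝ, E) (1 : G)).symm (extChartAt 𝓘(ℝ, E) (1 : G) 1))
  rw [h4]
  exact chart_at

theorem tri_chart : ContDiffAt ℝ ∞ (fun p : E × E × E => extChartAt 𝓘(ℝ, E) (1 : G)
    (((extChartAt 𝓘(ℝ, E) (1 : G)).symm p.1 * (extChartAt 𝓘(ℝ, E) (1 : G)).symm p.2.1)⁻¹ *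
      (extChartAt 𝓘(ℝ, E) (1 : G)).symm p.2.2))
    (extChartAt 𝓘(ℝ, E) (1 : G) 1, extChartAt 𝓘(ℝ, E) (1 : G) 1,
      extChartAt 𝓘(ℝ, E) (1 : G) 1) := by
  rw [← contMDiffAt_iff_contDiffAt]
  set e0 := extChartAt 𝓘(ℝ, E) (1 : G) 1 with he0
  have h1 : ContMDiffAt 𝓘(ℝ, E × E × E) 𝓘(ℝ, E) ∞
      (fun p : E × E × E => (extChartAt 𝓘(ℝ, E) (1 : G)).symm p.1) (e0, e0, e0) :=
    ContMDiffAt.comp (g := (extChartAt 𝓘(ℝ, E) (1 : G)).symm) (f := fun p : E × E × E => p.1)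
      (e0, e0, e0) symm_at contDiff_fst.contMDiff.contMDiffAt
  have h2 : ContMDiffAt 𝓘(ℝ, E × E × E) 𝓘(ℝ, E) ∞
      (fun p : E × E × E => (extChartAt 𝓘(ℝ, E) (1 : G)).symm p.2.1) (e0, e0, e0) :=
    ContMDiffAt.comp (g := (extChartAt 𝓘(ℝ, E) (1 : G)).symm) (f := fun p : E × E × E => p.2.1)
      (e0, e0, e0) symm_at (contDiff_fst.comp contDiff_snd).contMDiff.contMDiffAt
  have h3 : ContMDiffAt 𝓘(ℝ, E × E × E) 𝓘(ℝ, E) ∞
      (fun p : E × E × E => (extChartAt 𝓘(ℝ, E) (1 : G)).symm p.2.2) (e0, e0, e0) :=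
    ContMDiffAt.comp (g := (extChartAt 𝓘(ℝ, E) (1 : G)).symm) (f := fun p : E × E × E => p.2.2)
      (e0, e0, e0) symm_at (contDiff_snd.comp contDiff_snd).contMDiff.contMDiffAt
  have h4 := (h1.mul h2).inv.mul h3
  refine ContMDiffAt.comp (g := extChartAt 𝓘(ℝ, E) (1 : G))
    (f := fun p : E × E × E => ((extChartAt 𝓘(ℝ, E) (1 : G)).symm p.1 *
      (extChartAt 𝓘(ℝ, E) (1 : G)).symm p.2.1)⁻¹ * (extChartAt 𝓘(ℝ, E) (1 : G)).symm p.2.2)
    (e0, e0, e0) ?_ h4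
  have h5 : ((extChartAt 𝓘(ℝ, E) (1 : G)).symm e0 * (extChartAt 𝓘(ℝ, E) (1 : G)).symm e0)⁻¹ *
      (extChartAt 𝓘(ℝ, E) (1 : G)).symm e0 = 1 := by
    rw [he0, symm_one, mul_one, mul_one, inv_one]
  show ContMDiffAt 𝓘(ℝ, E) 𝓘(ℝ, E) ∞ (extChartAt 𝓘(ℝ, E) (1 : G))
    (((extChartAt 𝓘(ℝ, E) (1 : G)).symm e0 * (extChartAt 𝓘(ℝ, E) (1 : G)).symm e0)⁻¹ *
      (extChartAt 𝓘(ℝ, E) (1 : G)).symm e0)
  rw [h5]
  exact chart_at

/-- The chart data of a Lie group. -/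
noncomputable def lieCD : CD G E where
  φ := extChartAt 𝓘(ℝ, E) (1 : G)
  ψ := (extChartAt 𝓘(ℝ, E) (1 : G)).symm
  left := by
    filter_upwards [extChartAt_source_mem_nhds (I := 𝓘(ℝ, E)) (1 : G)] with g hg
    exact (extChartAt 𝓘(ℝ, E) (1 : G)).left_inv hg
  right := by
    filter_upwards [extChartAt_target_mem_nhds (I := 𝓘(ℝ, E)) (1 : G)] with x hx
    exact (extChartAt 𝓘(ℝ, E) (1 : G)).right_inv hx
  φc := continuousAt_extChartAt (1 : G)
  m := mul_chart.of_le (by norm_cast)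
  k := tri_chart.differentiableAt (by simp)
  c := fun v => ⟨crv v, (crv_int v).continuous⟩
  c_add := crv_add
  c_smul := crv_smul
  c_der := crv_der

end

/-- Nilpotent Lie groups: 2-large sets are sets of recurrence for all nilsystems. -/
theorem lie_recurrence (E : Type*) [NormedAddCommGroup E] [NormedSpace ℝ E]
    [FiniteDimensional ℝ E] (G : Type u) [TopologicalSpace G] [ChartedSpace E G] [Group G]
    [LieGroup 𝓘(ℝ, E) ∞ G] [T2Space G] (hnil : Group.IsNilpotent G) (Γ : Subgroup G) [DiscreteTopology Γ]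
    [CompactSpace (G ⧸ Γ)] (S : Set ℕ) (hS : TwoLarge S) (τ : G) (x : G ⧸ Γ) (U : Set (G ⧸ Γ))
    (hU : IsOpen U) (hx : x ∈ U) : ∃ s ∈ S, τ ^ s • x ∈ U := by
  have : IsTopologicalGroup G := topologicalGroup_of_lieGroup 𝓘(ℝ, E) ∞
  have hΓd : ∀ᶠ g in 𝓝 (1 : G), g ∈ Γ → g = 1 := by
    have h1 : IsOpen ({1} : Set Γ) := isOpen_discrete _
    obtain ⟨V, hV, hV1⟩ := isOpen_induced_iff.1 h1
    have h2 : (1 : G) ∈ V := by
      have : (1 : Γ) ∈ Subtype.val ⁻¹' V := by rw [hV1]; rfl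
      exact this
    filter_upwards [hV.mem_nhds h2] with g hg hgΓ
    have h3 : (⟨g, hgΓ⟩ : Γ) ∈ Subtype.val ⁻¹' V := hg
    rw [hV1] at h3
    exact congrArg Subtype.val h3
  have hΓc : IsClosed (Γ : Set G) := Subgroup.isClosed_of_discrete
  exact ops_recurrence (lieCD (E := E) (G := G)).toOPS hnil Γ hΓd hΓc S hS τ x U hU hx

end Pool.Agent.Lib.MP_87965e_co
end
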